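import Pool.Agent.Helper5K9.ZN.Walk1

/-!
# Large deviations of a simple random walk
-/

set_option autoImplicit false

namespace Pool.Agent.Helper5K9.ZN

open Finset

theorem sum_exp (T s : ℕ) (lam : ℝ) : ∀ m, s + m ≤ T →
    ∑ c : Fin T → Bool, Real.exp (lam * ((WW (ext c) (s + m) - WW (ext c) s : ℤ) : ℝ)) =
      Real.cosh lam ^ m * 2 ^ T := by
  intro m
  induction m with
  | zero =>
    intro _
    simp only [add_zero, sub_self, Int.cast_zero, mul_zero, Real.exp_zero, pow_zero, one_mul]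
    exact sum_one T
  | succ m ih =>
    intro hm
    have h1 := sum_next (⟨s + m, hm⟩ : Fin T)
      (fun c i => Real.exp (lam * ((WW (ext c) (s + m) - WW (ext c) s + i : ℤ) : ℝ)))
      (fun c i => by rw [WW_flp _ _ le_rfl, WW_flp _ _ (Nat.le_add_right s m)])
    have h2 : ∀ c : Fin T → Bool,
        Real.exp (lam * ((WW (ext c) (s + m) - WW (ext c) s + sgn (ext c (s + m)) : ℤ) : ℝ)) =
        Real.exp (lam * ((WW (ext c) (s + (m + 1)) - WW (ext c) s : ℤ) : ℝ)) := by
      intro c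
      congr 3
      rw [← Nat.add_assoc, WW_succ]
      ring
    have h3 : ∀ c : Fin T → Bool,
        Real.exp (lam * ((WW (ext c) (s + m) - WW (ext c) s + 1 : ℤ) : ℝ)) +
        Real.exp (lam * ((WW (ext c) (s + m) - WW (ext c) s + -1 : ℤ) : ℝ)) =
        2 * Real.cosh lam * Real.exp (lam * ((WW (ext c) (s + m) - WW (ext c) s : ℤ) : ℝ)) := by
      intro c
      rw [Real.cosh_eq]
      push_cast
      rw [mul_add, mul_add, Real.exp_add, Real.exp_add, mul_one, mul_neg, mul_one]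
      ring
    simp only [h2, h3] at h1
    rw [← Finset.mul_sum, ih (by omega)] at h1
    rw [pow_succ]
    linarith

open Classical in
theorem card_tail (T s m K : ℕ) (h : s + m ≤ T) (lam : ℝ) (hl : lam ^ 2 * m ≤ K) :
    ((univ.filter fun c : Fin T → Bool =>
      (K : ℝ) ≤ lam * ((WW (ext c) (s + m) - WW (ext c) s : ℤ) : ℝ)).card : ℝ) ≤
      Real.exp (-(K : ℝ) / 2) * 2 ^ T := by
  have h1 := sum_exp T s lam m h
  have h2 : ((univ.filter fun c : Fin T → Bool =>
      (K : ℝ) ≤ lam * ((WW (ext c) (s + m) - WW (ext c) s : ℤ) : ℝ)).card : ℝ) * Real.exp K ≤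
      ∑ c : Fin T → Bool, Real.exp (lam * ((WW (ext c) (s + m) - WW (ext c) s : ℤ) : ℝ)) := by
    rw [← nsmul_eq_mul]
    refine (Finset.card_nsmul_le_sum _ (fun c : Fin T → Bool =>
      Real.exp (lam * ((WW (ext c) (s + m) - WW (ext c) s : ℤ) : ℝ))) _ ?_).trans
      (Finset.sum_le_sum_of_subset_of_nonneg (Finset.filter_subset _ _)
        fun c _ _ => (Real.exp_pos _).le)
    intro c hc
    exact Real.exp_le_exp.2 (Finset.mem_filter.1 hc).2
  have h3 : Real.cosh lam ^ m ≤ Real.exp (K / 2) := by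
    calc Real.cosh lam ^ m ≤ Real.exp (lam ^ 2 / 2) ^ m :=
          pow_le_pow_left₀ (Real.cosh_pos lam).le (Real.cosh_le_exp_half_sq lam) m
      _ = Real.exp (m * (lam ^ 2 / 2)) := by rw [Real.exp_nat_mul]
      _ ≤ Real.exp (K / 2) := Real.exp_le_exp.2 (by nlinarith)
  rw [h1] at h2
  have h4 : ((univ.filter fun c : Fin T → Bool =>
      (K : ℝ) ≤ lam * ((WW (ext c) (s + m) - WW (ext c) s : ℤ) : ℝ)).card : ℝ) * Real.exp K ≤
      (Real.exp (-(K : ℝ) / 2) * 2 ^ T) * Real.exp K := by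
    refine h2.trans ?_
    have h5 : Real.exp (-(K : ℝ) / 2) * Real.exp K = Real.exp (K / 2) := by
      rw [← Real.exp_add]
      congr 1
      ring
    calc Real.cosh lam ^ m * 2 ^ T ≤ Real.exp (K / 2) * 2 ^ T :=
          mul_le_mul_of_nonneg_right h3 (by positivity)
      _ = (Real.exp (-(K : ℝ) / 2) * 2 ^ T) * Real.exp K := by rw [← h5]; ring
  exact le_of_mul_le_mul_right h4 (Real.exp_pos _)

open Classical in
theorem card_bad (T s m K : ℕ) (h : s + m ≤ T) :
    ((univ.filter fun c : Fin T → Bool =>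
      ¬ ((WW (ext c) (s + m) - WW (ext c) s) ^ 2 ≤ (K : ℤ) * m)).card : ℝ) ≤
      2 * Real.exp (-(K : ℝ) / 2) * 2 ^ T := by
  rcases Nat.eq_zero_or_pos m with rfl | hm
  · have : (univ.filter fun c : Fin T → Bool =>
        ¬ ((WW (ext c) (s + 0) - WW (ext c) s) ^ 2 ≤ (K : ℤ) * (0 : ℕ))) = ∅ := by
      rw [Finset.filter_eq_empty_iff]
      intro c _
      simp
    rw [this]
    simp only [Finset.card_empty, Nat.cast_zero]
    positivity
  have hm' : (0 : ℝ) < m := by exact_mod_cast hm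
  set lam : ℝ := Real.sqrt (K / m) with hlam
  have hl2 : lam ^ 2 = K / m := Real.sq_sqrt (by positivity)
  have hl : lam ^ 2 * m ≤ K := by
    rw [hl2, div_mul_cancel₀ _ hm'.ne']
  have hl' : (-lam) ^ 2 * m ≤ K := by
    rw [neg_sq]
    exact hl
  have hsub : (univ.filter fun c : Fin T → Bool =>
      ¬ ((WW (ext c) (s + m) - WW (ext c) s) ^ 2 ≤ (K : ℤ) * m)) ⊆
      (univ.filter fun c : Fin T → Bool =>
        (K : ℝ) ≤ lam * ((WW (ext c) (s + m) - WW (ext c) s : ℤ) : ℝ)) ∪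
      (univ.filter fun c : Fin T → Bool =>
        (K : ℝ) ≤ -lam * ((WW (ext c) (s + m) - WW (ext c) s : ℤ) : ℝ)) := by
    intro c hc
    have h1 := (Finset.mem_filter.1 hc).2
    rw [Finset.mem_union, Finset.mem_filter, Finset.mem_filter]
    generalize WW (ext c) (s + m) - WW (ext c) s = D at h1
    have h2 : (K : ℝ) * m < (D : ℝ) ^ 2 := by exact_mod_cast not_le.1 h1
    have h3 : (K : ℝ) ^ 2 ≤ (lam * D) ^ 2 := by
      rw [mul_pow, hl2]
      have h4 : (K : ℝ) ^ 2 = K / m * (K * m) := by field_simp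
      rw [h4]
      exact mul_le_mul_of_nonneg_left h2.le (by positivity)
    have h5 : (K : ℝ) ≤ |lam * D| := by
      have := sq_le_sq.1 h3
      rwa [abs_of_nonneg (Nat.cast_nonneg K)] at this
    rcases le_abs.1 h5 with h6 | h6
    · exact Or.inl ⟨Finset.mem_univ _, h6⟩
    · exact Or.inr ⟨Finset.mem_univ _, by linarith⟩
  have h1 := card_tail T s m K h lam hl
  have h2 := card_tail T s m K h (-lam) hl'
  have h3 : ((univ.filter fun c : Fin T → Bool =>
      ¬ ((WW (ext c) (s + m) - WW (ext c) s) ^ 2 ≤ (K : ℤ) * m)).card : ℝ) ≤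
      ((univ.filter fun c : Fin T → Bool =>
        (K : ℝ) ≤ lam * ((WW (ext c) (s + m) - WW (ext c) s : ℤ) : ℝ)).card : ℝ) +
      ((univ.filter fun c : Fin T → Bool =>
        (K : ℝ) ≤ -lam * ((WW (ext c) (s + m) - WW (ext c) s : ℤ) : ℝ)).card : ℝ) := by
    exact_mod_cast (Finset.card_le_card hsub).trans (Finset.card_union_le _ _)
  linarith

theorem w4 : S_W4 := by
  classical
  intro K T
  have h1 : (univ.filter fun c : Fin T → Bool => ¬ GC K T (ext c)) ⊆
      ((range (T + 1) ×ˢ range (T + 1)).filter fun x : ℕ × ℕ => x.1 + x.2 ≤ T).biUnion fun x =>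
        univ.filter fun c : Fin T → Bool =>
          ¬ ((WW (ext c) (x.1 + x.2) - WW (ext c) x.1) ^ 2 ≤ (K : ℤ) * x.2) := by
    intro c hc
    have h2 := (Finset.mem_filter.1 hc).2
    unfold GC at h2
    push Not at h2
    obtain ⟨s, w, hsw, h3⟩ := h2
    rw [Finset.mem_biUnion]
    refine ⟨(s, w), ?_, ?_⟩
    · rw [Finset.mem_filter, Finset.mem_product, Finset.mem_range, Finset.mem_range]
      exact ⟨⟨by dsimp only; omega, by dsimp only; omega⟩, hsw⟩
    · rw [Finset.mem_filter]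
      exact ⟨Finset.mem_univ _, not_le.2 h3⟩
  have h2 := (Finset.card_le_card h1).trans Finset.card_biUnion_le
  have h3 : ((univ.filter fun c : Fin T → Bool => ¬ GC K T (ext c)).card : ℝ) ≤
      ∑ x ∈ (range (T + 1) ×ˢ range (T + 1)).filter (fun x : ℕ × ℕ => x.1 + x.2 ≤ T),
        ((univ.filter fun c : Fin T → Bool =>
          ¬ ((WW (ext c) (x.1 + x.2) - WW (ext c) x.1) ^ 2 ≤ (K : ℤ) * x.2)).card : ℝ) := by
    exact_mod_cast h2
  have h4 : ∑ x ∈ (range (T + 1) ×ˢ range (T + 1)).filter (fun x : ℕ × ℕ => x.1 + x.2 ≤ T),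
        ((univ.filter fun c : Fin T → Bool =>
          ¬ ((WW (ext c) (x.1 + x.2) - WW (ext c) x.1) ^ 2 ≤ (K : ℤ) * x.2)).card : ℝ) ≤
      ∑ _x ∈ (range (T + 1) ×ˢ range (T + 1)).filter (fun x : ℕ × ℕ => x.1 + x.2 ≤ T),
        2 * Real.exp (-(K : ℝ) / 2) * 2 ^ T :=
    Finset.sum_le_sum fun x hx => card_bad T x.1 x.2 K (Finset.mem_filter.1 hx).2
  rw [Finset.sum_const, nsmul_eq_mul] at h4
  have h5 : ((((range (T + 1) ×ˢ range (T + 1)).filter
      (fun x : ℕ × ℕ => x.1 + x.2 ≤ T)).card : ℕ) : ℝ) ≤ (T + 1) ^ 2 := by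
    have : ((range (T + 1) ×ˢ range (T + 1)).filter
      (fun x : ℕ × ℕ => x.1 + x.2 ≤ T)).card ≤ (T + 1) ^ 2 := by
      refine (Finset.card_filter_le _ _).trans ?_
      rw [Finset.card_product, Finset.card_range, sq]
    exact_mod_cast this
  have h6 : (0 : ℝ) ≤ 2 * Real.exp (-(K : ℝ) / 2) * 2 ^ T := by positivity
  calc _ ≤ _ := h3.trans h4
    _ ≤ (T + 1) ^ 2 * (2 * Real.exp (-(K : ℝ) / 2) * 2 ^ T) := mul_le_mul_of_nonneg_right h5 h6
    _ = _ := by ring

end Pool.Agent.Helper5K9.ZN
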