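import Pool.Agent.Helper5K9.ZN.Run3

/-!
# The strategy keeps the survivor alive
-/

set_option autoImplicit false

namespace Pool.Agent.Helper5K9.ZN.Lo

open Finset

variable {k : ℕ}

theorem play_succ (h : ℕ) (S : Strat k) (c : ℕ → Fin k → Bool) (p : Fin k → ℤ × ℤ) (t : ℕ) :
    (play h S c p (t + 1)).1 =
      S.upd (play h S c p t).1 (fun z => zm (c t z) ((play h S c p t).2 z)) := rfl

theorem play_PP (h : ℕ) (S : Strat k) (c : ℕ → Fin k → Bool) (p : Fin k → ℤ × ℤ) (t : ℕ) :
    (fun z => zm (c t z) ((play h S c p t).2 z)) = PP h c (mv h S c p) p t := by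
  funext z
  rw [play_snd]; rfl

/-- the memory -/
noncomputable def mm (h N K k : ℕ) (c : ℕ → Fin k → Bool) (p : Fin k → ℤ × ℤ) (t : ℕ) : Mem :=
  (play h (strat h N K k) c p t).1

/-- the moves -/
noncomputable def ee (h N K k : ℕ) (c : ℕ → Fin k → Bool) (p : Fin k → ℤ × ℤ) (t : ℕ) : Bool :=
  mv h (strat h N K k) c p t

theorem mm_succ (h N K k : ℕ) (c : ℕ → Fin k → Bool) (p : Fin k → ℤ × ℤ) (t : ℕ) :
    mm h N K k c p (t + 1) = upd h N K (mm h N K k c p t) (PP h c (ee h N K k c p) p t) := by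
  unfold mm
  rw [play_succ, play_PP]; rfl

theorem ee_eq (h N K k : ℕ) (c : ℕ → Fin k → Bool) (p : Fin k → ℤ × ℤ) (t : ℕ) :
    ee h N K k c p t = (mm h N K k c p (t + 1)).e := rfl

theorem mm_t (h N K k : ℕ) (c : ℕ → Fin k → Bool) (p : Fin k → ℤ × ℤ) (t : ℕ) :
    (mm h N K k c p t).t = t ∧ (mm h N K k c p t).D = WW (ee h N K k c p) t := by
  induction t with
  | zero => exact ⟨rfl, by rw [WW_zero]; rfl⟩
  | succ t ih =>
    constructor
    · rw [mm_succ]; change (mm h N K k c p t).t + 1 = _; rw [ih.1]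
    · rw [WW_succ, ← ih.2, ee_eq, mm_succ]; rfl

open Classical in
/-- the lanes -/
noncomputable def LL (h N K k : ℕ) (c : ℕ → Fin k → Bool) (p : Fin k → ℤ × ℤ) : ℕ → ℤ
  | 0 => 0
  | j + 1 => ((sInf {i : ℕ | LaneOK N K (PP h c (ee h N K k c p) p (j * Fe N K))
    (WW (ee h N K k c p) (j * Fe N K)) i} : ℕ) : ℤ) * Sp N K

open Classical in
/-- the times of changes -/
noncomputable def TT (h N K k : ℕ) (c : ℕ → Fin k → Bool) (p : Fin k → ℤ × ℤ) (j : ℕ) : ℕ :=
  j * Fe N K + gp N K (sInf {i : ℕ | GapOK N K (PP h c (ee h N K k c p) p (j * Fe N K)) i})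

theorem mm_L (h N K k : ℕ) (hN : 1 ≤ N) (c : ℕ → Fin k → Bool) (p : Fin k → ℤ × ℤ) (t : ℕ) :
    (mm h N K k c p (t + 1)).cO = LL h N K k c p (t / Fe N K) ∧
    (mm h N K k c p (t + 1)).cN = LL h N K k c p (t / Fe N K + 1) ∧
    (mm h N K k c p (t + 1)).tc = TT h N K k c p (t / Fe N K) := by
  obtain ⟨n1, n2, n3, n4, n5⟩ := nums (K := K) hN
  have hF : 0 < Fe N K := by omega
  have key : ∀ t, Fe N K ∣ t →
      (mm h N K k c p (t + 1)).cN = LL h N K k c p (t / Fe N K + 1) ∧
      (mm h N K k c p (t + 1)).tc = TT h N K k c p (t / Fe N K) := by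
    intro t ht
    have e1 : t / Fe N K * Fe N K = t := Nat.div_mul_cancel ht
    rw [mm_succ]
    constructor
    · change (if Fe N K ∣ (mm h N K k c p t).t then _ else _) = _
      rw [(mm_t h N K k c p t).1, if_pos ht, (mm_t h N K k c p t).2]
      change _ = ((sInf {i : ℕ | LaneOK N K (PP h c (ee h N K k c p) p (t / Fe N K * Fe N K))
        (WW (ee h N K k c p) (t / Fe N K * Fe N K)) i} : ℕ) : ℤ) * Sp N K
      rw [e1]
    · change (if Fe N K ∣ (mm h N K k c p t).t then _ else _) = _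
      rw [(mm_t h N K k c p t).1, if_pos ht]
      unfold TT
      rw [e1]
  induction t with
  | zero =>
    refine ⟨?_, key 0 (dvd_zero _)⟩
    rw [mm_succ]
    change (if Fe N K ∣ 0 then (0 : ℤ) else 0) = _
    rw [Nat.zero_div]; simp [LL]
  | succ t ih =>
    by_cases ht : Fe N K ∣ t + 1
    · refine ⟨?_, key _ ht⟩
      rw [mm_succ]
      change (if Fe N K ∣ (mm h N K k c p (t + 1)).t then (mm h N K k c p (t + 1)).cN else _) = _
      rw [(mm_t h N K k c p (t + 1)).1, if_pos ht, ih.2.1, Nat.succ_div_of_dvd ht]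
    · rw [mm_succ]
      rw [Nat.succ_div_of_not_dvd ht]
      refine ⟨?_, ?_, ?_⟩
      · change (if Fe N K ∣ (mm h N K k c p (t + 1)).t then _ else (mm h N K k c p (t + 1)).cO) = _
        rw [(mm_t h N K k c p (t + 1)).1, if_neg ht, ih.1]
      · change (if Fe N K ∣ (mm h N K k c p (t + 1)).t then _ else (mm h N K k c p (t + 1)).cN) = _
        rw [(mm_t h N K k c p (t + 1)).1, if_neg ht, ih.2.1]
      · change (if Fe N K ∣ (mm h N K k c p (t + 1)).t then _ else (mm h N K k c p (t + 1)).tc) = _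
        rw [(mm_t h N K k c p (t + 1)).1, if_neg ht, ih.2.2]

theorem upd_mode_dvd (h N K : ℕ) (m : Mem) (P : Fin k → ℤ × ℤ) (hd : lm N K ∣ m.t) :
    (upd h N K m P).mode = decide (m.D ≤ if m.t < (upd h N K m P).tc then (upd h N K m P).cO
      else (upd h N K m P).cN) := by
  change (if lm N K ∣ m.t then _ else _) = _
  rw [if_pos hd]; rfl

theorem upd_mode_ndvd (h N K : ℕ) (m : Mem) (P : Fin k → ℤ × ℤ) (hd : ¬ lm N K ∣ m.t) :
    (upd h N K m P).mode = m.mode := by
  change (if lm N K ∣ m.t then _ else _) = _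
  rw [if_neg hd]

open Classical in
theorem upd_e1 (h N K : ℕ) (m : Mem) (P : Fin k → ℤ × ℤ) (hs : Safe h (upd h N K m P).mode P) :
    (upd h N K m P).e = (upd h N K m P).mode := by
  change (if Safe h (upd h N K m P).mode P then _ else _) = _
  rw [if_pos hs]; rfl

open Classical in
theorem upd_e2 (h N K : ℕ) (m : Mem) (P : Fin k → ℤ × ℤ) (hs : ¬ Safe h (upd h N K m P).mode P) :
    (upd h N K m P).e = !(upd h N K m P).mode := by
  change (if Safe h (upd h N K m P).mode P then _ else _) = _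
  rw [if_neg hs]; rfl

theorem main : S_MAIN := by
  classical
  intro N K h k T c p hN hh hbox hgc hfar hnear
  obtain ⟨n1, n2, n3, n4, n5⟩ := nums (K := K) hN
  have R : Run h N K k T c p (ee h N K k c p) (fun t => (mm h N K k c p (t + 1)).mode)
      (LL h N K k c p) (TT h N K k c p) := by
    refine ⟨hN, hh, hbox, hgc, hfar, ?_, ?_, ?_, ?_, ?_, rfl, fun j => rfl, fun j => rfl⟩
    · intro t ht hT
      have := hnear t ht hT
      refine lt_of_eq_of_lt ?_ this
      congr 1
      ext z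
      simp only [mem_filter, mem_univ, true_and]
      rw [play_snd]; rfl
    · intro t hs
      rw [ee_eq]
      rw [mm_succ] at hs ⊢
      exact upd_e1 h N K _ _ hs
    · intro t hs
      rw [ee_eq]
      rw [mm_succ] at hs ⊢
      exact upd_e2 h N K _ _ hs
    · intro b w hb hw
      induction w with
      | zero => rfl
      | succ w ih =>
        rw [← ih (by omega)]
        change (mm h N K k c p (b + (w + 1) + 1)).mode = (mm h N K k c p (b + w + 1)).mode
        rw [mm_succ, upd_mode_ndvd]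
        · rfl
        · rw [(mm_t h N K k c p _).1]
          intro hc
          have h1 : lm N K ∣ w + 1 := (Nat.dvd_add_right hb).mp hc
          exact absurd (Nat.le_of_dvd (by omega) h1) (by omega)
    · intro b hb
      have h1 := mm_L h N K k hN c p b
      change (mm h N K k c p (b + 1)).mode = true ↔ _
      rw [mm_succ] at h1 ⊢
      rw [upd_mode_dvd h N K _ _ (by rw [(mm_t h N K k c p b).1]; exact hb), h1.1, h1.2.1, h1.2.2,
        (mm_t h N K k c p b).1, (mm_t h N K k c p b).2, decide_eq_true_iff]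
  intro t ht
  obtain ⟨h1, h2⟩ := R.main t ht
  refine ⟨h1, fun z => ?_⟩
  rw [play_snd]
  exact h2 z

end Pool.Agent.Helper5K9.ZN.Lo
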