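import Pool.Agent.Helper5K9.ZN.Bd

/-!
# Assembly, part 3: the asymptotics
-/

set_option autoImplicit false

namespace Pool.Agent.Helper5K9.ZN.As

open Finset

theorem Fe_eq (N K : ℕ) : Fe N K = 120000 * N ^ 4 * (K + 5) := by
  unfold Fe lm dl; ring

theorem M_le : ∃ A : ℕ, 0 < A ∧ ∀ Λ : ℕ, 1 ≤ Λ →
    11 * Fe (30 * Λ) (200 * Λ) + 200 * Λ + 1 ≤ A * Λ ^ 5 := by
  refine ⟨11 * (120000 * 30 ^ 4 * 205) + 201, by norm_num, fun Λ h => ?_⟩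
  rw [Fe_eq]
  have h1 : 200 * Λ + 5 ≤ 205 * Λ := by omega
  have h2 : (30 * Λ) ^ 4 * (200 * Λ + 5) ≤ 30 ^ 4 * 205 * Λ ^ 5 := by
    calc (30 * Λ) ^ 4 * (200 * Λ + 5) ≤ (30 * Λ) ^ 4 * (205 * Λ) := Nat.mul_le_mul_left _ h1
      _ = 30 ^ 4 * 205 * Λ ^ 5 := by ring
  have h3 : Λ ≤ Λ ^ 5 := Nat.le_self_pow (by norm_num) Λ
  nlinarith

theorem exp_pow (n Λ : ℕ) (h : n ≤ 2 ^ Λ) : (n : ℝ) ^ 100 * Real.exp (-(200 * Λ : ℕ) / 2) ≤ 1 := by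
  have h1 : (n : ℝ) ≤ Real.exp Λ := by
    have h2 : (n : ℝ) ≤ 2 ^ Λ := by exact_mod_cast h
    have h3 : (2 : ℝ) ≤ Real.exp 1 := by
      have := Real.add_one_le_exp (1 : ℝ); linarith
    calc (n : ℝ) ≤ 2 ^ Λ := h2
      _ ≤ (Real.exp 1) ^ Λ := pow_le_pow_left₀ (by norm_num) h3 _
      _ = Real.exp Λ := by rw [← Real.exp_nat_mul, mul_one]
  have h4 : Real.exp (-(200 * Λ : ℕ) / 2) = (Real.exp (-(Λ : ℝ))) ^ 100 := by
    rw [← Real.exp_nat_mul]; congr 1; push_cast; ring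
  rw [h4, ← mul_pow]
  apply pow_le_one₀ (by positivity)
  calc (n : ℝ) * Real.exp (-(Λ : ℝ)) ≤ Real.exp Λ * Real.exp (-(Λ : ℝ)) := by gcongr
    _ = 1 := by rw [← Real.exp_add]; simp

theorem T_le {h n : ℕ} (hn : n = 2 * h + 1) (h1 : 1 ≤ h) :
    n ^ 24 + n ^ 8 + 20 * h + 1 ≤ 4 * n ^ 24 ∧ n ^ 8 + 10 * h + 1 ≤ 3 * n ^ 8 := by
  have h3 : 3 ≤ n := by omega
  have h4 : n ^ 8 = n ^ 7 * n := by ring
  have h5 : 3 ^ 7 ≤ n ^ 7 := Nat.pow_le_pow_left h3 7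
  have h6 : n ^ 8 ≤ n ^ 24 := Nat.pow_le_pow_right (by omega) (by norm_num)
  have h7 : 3 ^ 7 * n ≤ n ^ 7 * n := Nat.mul_le_mul_right n h5
  constructor <;> omega

theorem est1 {n k T E : ℝ} (hn : 3 ≤ n) (hk : k ≤ n ^ 2) (hT0 : 0 ≤ T)
    (hT : T + 1 ≤ 4 * n ^ 24) (hE0 : 0 ≤ E) (hE : n ^ 100 * E ≤ 1) :
    k * (2 * (T + 1) ^ 2 * E * n ^ 2) ≤ n ^ 2 / 32 := by
  have hT2 : (T + 1) ^ 2 ≤ (4 * n ^ 24) ^ 2 := pow_le_pow_left₀ (by linarith) hT 2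
  have h50 : (1024 : ℝ) ≤ n ^ 50 := by
    have h7 : ((3 : ℝ)) ^ 50 ≤ n ^ 50 := pow_le_pow_left₀ (by norm_num) hn 50
    have h8 : (1024 : ℝ) ≤ 3 ^ 50 := by norm_num
    linarith
  have h0 : 0 ≤ n := by linarith
  have s1 : k * (2 * (T + 1) ^ 2 * E * n ^ 2) ≤ n ^ 2 * (2 * (4 * n ^ 24) ^ 2 * E * n ^ 2) := by
    gcongr
  have s2 : 1024 * n ^ 50 * E ≤ n ^ 50 * n ^ 50 * E := by gcongr
  have s3 : n ^ 50 * n ^ 50 * E = n ^ 100 * E := by ring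
  have s4 : n ^ 2 * (2 * (4 * n ^ 24) ^ 2 * E * n ^ 2) = n ^ 2 / 32 * (1024 * n ^ 50 * E) := by ring
  have s5 : n ^ 2 / 32 * (1024 * n ^ 50 * E) ≤ n ^ 2 / 32 * 1 :=
    mul_le_mul_of_nonneg_left (by linarith) (by positivity)
  linarith

theorem est2 {n s k C h r : ℝ} (hn : 3 ≤ n) (hs0 : 0 ≤ s) (hs : s * s = n) 
    (hk : k ≤ n * s) (hC : 0 < C) (hCs : 192 * C ≤ s) (hh : 3 * h + 1 ≤ 2 * n) (hh0 : 0 ≤ h)
    (hr : n ^ 4 ≤ r) : k * (C * (3 * h + 1) / r * n ^ 2) ≤ n ^ 2 / 32 := by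
  have h0 : 0 < n := by linarith
  have h4 : 0 < n ^ 4 := by positivity
  have s0 : C * (3 * h + 1) / r ≤ C * (2 * n) / n ^ 4 := by
    apply div_le_div₀ (by positivity) (by nlinarith) h4 hr
  have s1 : k * (C * (3 * h + 1) / r * n ^ 2) ≤ (n * s) * (C * (2 * n) / n ^ 4 * n ^ 2) := by
    apply mul_le_mul hk (mul_le_mul_of_nonneg_right s0 (by positivity)) _ (by positivity)
    have : 0 < r := lt_of_lt_of_le h4 hr
    positivity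
  have s2 : (n * s) * (C * (2 * n) / n ^ 4 * n ^ 2) = 2 * C * s := by field_simp
  have s3 : 192 * C * s ≤ s * s := mul_le_mul_of_nonneg_right hCs hs0
  nlinarith

theorem est3 {n s k C h r A : ℝ} (hn : 3 ≤ n) (hs0 : 0 ≤ s) (hs : s * s = n) 
    (hk : k ≤ n * s) (hC : 0 < C) (hCs : 192 * C ≤ s) (hh : 3 * h + 1 ≤ 2 * n) (hh0 : 0 ≤ h)
    (hA0 : 0 ≤ A) (hA : A ≤ 3 * n ^ 8)
    (hr : n ^ 12 ≤ r) : k * (A * (C * (3 * h + 1) / r) * n ^ 2) ≤ n ^ 2 / 32 := by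
  have h0 : 0 < n := by linarith
  have h4 : 0 < n ^ 12 := by positivity
  have hr0 : 0 < r := lt_of_lt_of_le h4 hr
  have s0 : C * (3 * h + 1) / r ≤ C * (2 * n) / n ^ 12 := by
    apply div_le_div₀ (by positivity) (by nlinarith) h4 hr
  have s1 : k * (A * (C * (3 * h + 1) / r) * n ^ 2) ≤
      (n * s) * ((3 * n ^ 8) * (C * (2 * n) / n ^ 12) * n ^ 2) := by
    apply mul_le_mul hk _ (by positivity) (by positivity)
    apply mul_le_mul_of_nonneg_right _ (by positivity)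
    exact mul_le_mul hA s0 (by positivity) (by positivity)
  have s2 : (n * s) * ((3 * n ^ 8) * (C * (2 * n) / n ^ 12) * n ^ 2) = 6 * C * s := by
    field_simp; ring
  have s3 : 192 * C * s ≤ s * s := mul_le_mul_of_nonneg_right hCs hs0
  nlinarith

theorem est4 {n s k F : ℝ} (hn : 3 ≤ n) (hs0 : 0 ≤ s) (hs : s * s = n)
    (hk : k ≤ n * s) (hF : 12800 * F ^ 2 ≤ s) : k * (400 * F ^ 2) ≤ n ^ 2 / 32 := by
  have h1 : k * (400 * F ^ 2) ≤ (n * s) * (400 * F ^ 2) :=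
    mul_le_mul_of_nonneg_right hk (by positivity)
  have h2 : (n * s) * (400 * F ^ 2) ≤ (n * s) * (s / 32) :=
    mul_le_mul_of_nonneg_left (by linarith) (mul_nonneg (by linarith) hs0)
  have h3 : (n * s) * (s / 32) = n * (s * s) / 32 := by ring
  rw [hs] at h3
  linarith [show n * n / 32 = n ^ 2 / 32 by ring]

theorem est5 {n s k C₀ a L M r : ℝ} (hn : 3 ≤ n) (hs0 : 0 ≤ s) (hs : s * s = n) (hk0 : 0 ≤ k)
    (hC : 0 < C₀) (ha : 0 < a) (hM0 : 0 ≤ M) (hM : M ≤ a * L ^ 5) (hr0 : 0 ≤ r) (hr : r ≤ s)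
    (hk : k * L ^ 35 ≤ 1 / (2 * C₀ * a ^ 7) * (n * s)) : k * (C₀ * M ^ 7 * r) ≤ n ^ 2 / 2 := by
  have h1 : M ^ 7 ≤ (a * L ^ 5) ^ 7 := pow_le_pow_left₀ hM0 hM 7
  have h2 : k * (C₀ * M ^ 7 * r) ≤ k * (C₀ * (a * L ^ 5) ^ 7 * s) := by
    apply mul_le_mul_of_nonneg_left _ hk0
    apply mul_le_mul (mul_le_mul_of_nonneg_left h1 hC.le) hr hr0
    have : 0 ≤ M ^ 7 := by positivity
    exact mul_nonneg hC.le (this.trans h1)
  have h3 : k * (C₀ * (a * L ^ 5) ^ 7 * s) = C₀ * a ^ 7 * s * (k * L ^ 35) := by ring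
  have h4 : C₀ * a ^ 7 * s * (k * L ^ 35) ≤ C₀ * a ^ 7 * s * (1 / (2 * C₀ * a ^ 7) * (n * s)) :=
    mul_le_mul_of_nonneg_left hk (by positivity)
  have h5 : C₀ * a ^ 7 * s * (1 / (2 * C₀ * a ^ 7) * (n * s)) = n * (s * s) / 2 := by
    field_simp
  rw [hs] at h5
  linarith [show n * n / 2 = n ^ 2 / 2 by ring]

open Classical in
theorem lower (hMain : S_MAIN) (hNear : S_NEAR) (hAbs : S_ABS) (hGame : S_GAME) (hUB : S_UB)
    (hW2 : S_W2) (hW4 : S_W4) : ∃ c₁ : ℝ, 0 < c₁ ∧ ∃ n₀ : ℕ, ∀ h : ℕ, n₀ ≤ 2 * h + 1 → ∀ k : ℕ,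
    (k : ℝ) * ((Nat.log 2 (2 * h + 1) : ℝ) + 1) ^ 35 ≤
      c₁ * ((2 * h + 1) * Real.sqrt (2 * h + 1)) →
    3 / 4 ≤ Pool.Agent.Helper57K9.Zomb.survivalProb
      (Pool.Agent.Helper57K9.Zomb.torus (2 * h + 1)) k := by
  obtain ⟨C₀, hC₀, near⟩ := hNear
  obtain ⟨C, hC, bad⟩ := badCount hW2 hW4
  obtain ⟨AA, hAA, hMle⟩ := M_le
  have hA : (0 : ℝ) < AA := by exact_mod_cast hAA
  obtain ⟨n₁, g1⟩ := growth (4000 * AA) 5
  obtain ⟨n₂, g2⟩ := growth (12800 * (AA : ℝ) ^ 2) 10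
  obtain ⟨n₃, g3⟩ := growth (192 * C) 0
  refine ⟨min 1 (1 / (2 * C₀ * (AA : ℝ) ^ 7)), by positivity, max 3 (max n₁ (max n₂ n₃)), fun h hn k hk => ?_⟩
  simp only [max_le_iff] at hn
  obtain ⟨hn3, hn1, hn2, hn3'⟩ := hn
  have h1 : 1 ≤ h := by omega
  obtain ⟨n, hn⟩ : ∃ n, n = 2 * h + 1 := ⟨_, rfl⟩
  have hnR : (2 * (h : ℝ) + 1) = n := by rw [hn]; push_cast; ring
  rw [hnR] at hk
  rw [← hn] at hk ⊢
  have g1' := g1 n (by omega)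
  have g2' := g2 n (by omega)
  have g3' := g3 n (by omega)
  obtain ⟨Λ, hΛ⟩ : ∃ Λ, Λ = Nat.log 2 n + 1 := ⟨_, rfl⟩
  have hΛR : ((Nat.log 2 n : ℝ) + 1) = Λ := by rw [hΛ]; push_cast; ring
  rw [hΛR] at g1' g2' g3' hk
  have hΛ1 : 1 ≤ Λ := by omega
  have hnΛ : n ≤ 2 ^ Λ := by
    rw [hΛ]; exact (Nat.lt_pow_succ_log_self (by norm_num) n).le
  obtain ⟨s, hs⟩ : ∃ s, s = Real.sqrt n := ⟨_, rfl⟩
  have hs2 : s * s = n := by rw [hs]; exact Real.mul_self_sqrt (by positivity)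
  have hn1R : (3 : ℝ) ≤ n := by exact_mod_cast (by omega : 3 ≤ n)
  have hs0 : 0 ≤ s := by rw [hs]; exact Real.sqrt_nonneg _
  have hs1 : 1 ≤ s := by by_contra hc; push Not at hc; nlinarith
  have hsn : s ≤ n := by nlinarith
  rw [← hs] at g1' g2' g3' hk
  obtain ⟨N, hN⟩ : ∃ N, N = 30 * Λ := ⟨_, rfl⟩
  obtain ⟨K, hK⟩ : ∃ K, K = 200 * Λ := ⟨_, rfl⟩
  have hM := hMle Λ hΛ1
  rw [← hN, ← hK] at hM
  have hMR : 11 * (Fe N K : ℝ) + K + 1 ≤ AA * (Λ : ℝ) ^ 5 := by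
    have : ((11 * Fe N K + K + 1 : ℕ) : ℝ) ≤ ((AA * Λ ^ 5 : ℕ) : ℝ) := by exact_mod_cast hM
    push_cast at this; exact this
  have hΛR1 : (1 : ℝ) ≤ Λ := by exact_mod_cast hΛ1
  have hF0 : (0 : ℝ) ≤ Fe N K := by positivity
  have hK0 : (0 : ℝ) ≤ K := by positivity
  have hbig : 1000 * (Fe N K + 10 * Fe N K + K + 1) ≤ h := by
    have h2 : (4000 : ℝ) * (11 * Fe N K + K + 1) ≤ n := by nlinarith
    have h3 : 4000 * (11 * Fe N K + K + 1) ≤ n := by exact_mod_cast h2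
    omega
  have hkn : (k : ℝ) ≤ n * s := by
    have h2 : (k : ℝ) ≤ k * (Λ : ℝ) ^ 35 := by
      have := one_le_pow₀ hΛR1 (n := 35)
      nlinarith [Nat.cast_nonneg (α := ℝ) k]
    have h3 : min 1 (1 / (2 * C₀ * (AA : ℝ) ^ 7)) * (n * s) ≤ 1 * (n * s) :=
      mul_le_mul_of_nonneg_right (min_le_left _ _) (by positivity)
    linarith
  obtain ⟨T, hT⟩ : ∃ T, T = n ^ 24 + n ^ 8 + 20 * h := ⟨_, rfl⟩
  obtain ⟨t1, t2⟩ := T_le hn h1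
  rw [← hT] at t1
  have t1R : (T : ℝ) + 1 ≤ 4 * (n : ℝ) ^ 24 := by exact_mod_cast t1
  have t2R : ((n ^ 8 : ℕ) : ℝ) + 10 * h + 1 ≤ 3 * (n : ℝ) ^ 8 := by exact_mod_cast t2
  have hTN : ((T : ℝ) + 1) * 8 ≤ 2 ^ N := by
    have h2 : (T + 1) * 8 ≤ 2 ^ N := by
      calc (T + 1) * 8 ≤ 4 * n ^ 24 * 8 := Nat.mul_le_mul_right _ t1
        _ = 2 ^ 5 * n ^ 24 := by ring
        _ ≤ 2 ^ 5 * (2 ^ Λ) ^ 24 := Nat.mul_le_mul_left _ (Nat.pow_le_pow_left hnΛ 24)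
        _ = 2 ^ (24 * Λ + 5) := by rw [← pow_mul, ← pow_add]; congr 1; ring
        _ ≤ 2 ^ N := Nat.pow_le_pow_right (by norm_num) (by omega)
    exact_mod_cast h2
  rw [hn]
  refine prob hMain hAbs hGame hUB (N := N) (K := K) (T := T) (T₁ := n ^ 8) (T₂ := n ^ 24)
    (by omega) (by omega) (by omega) hTN ?_ ?_
  · have hb := bad h N K T (n ^ 8) (n ^ 24) (by omega) (by omega)
    rw [hnR] at hb ⊢
    refine (mul_le_mul_of_nonneg_left hb (by positivity : (0 : ℝ) ≤ (k : ℝ))).trans ?_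
    rw [← mul_assoc, show (n : ℝ) ^ 2 * 2 ^ T / 8 = (n : ℝ) ^ 2 / 8 * 2 ^ T by ring]
    apply mul_le_mul_of_nonneg_right _ (by positivity)
    -- the four terms
    have hn0 : (0 : ℝ) < n := by linarith
    have h3h : 3 * (h : ℝ) + 1 ≤ 2 * n := by rw [← hnR]; linarith [Nat.cast_nonneg (α := ℝ) h]
    have hk0 : (0 : ℝ) ≤ k := by positivity
    have hh0 : (0 : ℝ) ≤ h := by positivity
    have hCs : 192 * C ≤ s := by simpa using g3'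
    have hexp := exp_pow n Λ hnΛ
    rw [← hK] at hexp
    have e1 := est1 hn1R (hkn.trans (by nlinarith)) (Nat.cast_nonneg T) t1R
      (Real.exp_pos (-(K : ℝ) / 2)).le hexp
    have e2 := est2 (r := Real.sqrt ((n ^ 8 : ℕ) + 1)) hn1R hs0 hs2 hkn hC hCs h3h hh0 (by
      apply Real.le_sqrt_of_sq_le
      push_cast
      have : ((n : ℝ) ^ 4) ^ 2 = n ^ 8 := by ring
      linarith)
    have e3 := est3 (r := Real.sqrt ((n ^ 24 : ℕ) + 1)) hn1R hs0 hs2 hkn hC hCs h3h hh0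
      (A := ((n ^ 8 : ℕ) : ℝ) + 10 * h + 1) (by positivity) t2R (by
      apply Real.le_sqrt_of_sq_le
      push_cast
      have : ((n : ℝ) ^ 12) ^ 2 = n ^ 24 := by ring
      linarith)
    have e4 := est4 (F := Fe N K) hn1R hs0 hs2 hkn (by
      have h2 : (Fe N K : ℝ) ≤ AA * (Λ : ℝ) ^ 5 := by linarith
      have h3 : (Fe N K : ℝ) ^ 2 ≤ (AA * (Λ : ℝ) ^ 5) ^ 2 := pow_le_pow_left₀ hF0 h2 2
      have : (AA * (Λ : ℝ) ^ 5) ^ 2 = AA ^ 2 * Λ ^ 10 := by ring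
      rw [this] at h3
      linarith)
    calc _ = k * (2 * (T + 1) ^ 2 * Real.exp (-(K : ℝ) / 2) * (n : ℝ) ^ 2) +
        k * (C * (3 * h + 1) / Real.sqrt ((n ^ 8 : ℕ) + 1) * (n : ℝ) ^ 2) +
        k * (((n ^ 8 : ℕ) + 10 * h + 1) * (C * (3 * h + 1) / Real.sqrt ((n ^ 24 : ℕ) + 1)) *
        (n : ℝ) ^ 2) + k * (400 * (Fe N K : ℝ) ^ 2) := by ring
      _ ≤ _ := by linarith
  · intro t ht
    have hb := near h (Fe N K) (10 * Fe N K) K T t hbig ht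
    rw [hnR]
    have hev : ((((Box h) ×ˢ (univ : Finset (Fin T → Bool))).filter fun x =>
      Ev h N K T t x.1 (ext x.2)).card : ℝ) ≤
        C₀ * ((Fe N K : ℝ) + (10 * Fe N K : ℕ) + K + 1) ^ 7 * Real.sqrt h * 2 ^ T := by
      refine le_trans (Nat.cast_le.mpr (card_le_card ?_)) hb
      intro x hx
      rw [mem_filter] at hx ⊢
      exact hx
    refine (mul_le_mul_of_nonneg_left hev (by positivity : (0 : ℝ) ≤ (k : ℝ))).trans ?_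
    rw [← mul_assoc, show (n : ℝ) ^ 2 * 2 ^ T / 2 = (n : ℝ) ^ 2 / 2 * 2 ^ T by ring]
    apply mul_le_mul_of_nonneg_right _ (by positivity)
    have h2 : Real.sqrt h ≤ s := by
      rw [hs]; apply Real.sqrt_le_sqrt; rw [← hnR]; linarith [Nat.cast_nonneg (α := ℝ) h]
    have h4 : (k : ℝ) * (Λ : ℝ) ^ 35 ≤ 1 / (2 * C₀ * (AA : ℝ) ^ 7) * (n * s) :=
      hk.trans (mul_le_mul_of_nonneg_right (min_le_right _ _) (by positivity))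
    exact est5 hn1R hs0 hs2 (by positivity) hC₀ hA (by positivity) (by push_cast; linarith)
      (Real.sqrt_nonneg _) h2 h4

end Pool.Agent.Helper5K9.ZN.As
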