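import Pool.Agent.Helper5K9.ZN.Defs

/-!
# The strategy of the survivor
-/

set_option autoImplicit false

namespace Pool.Agent.Helper5K9.ZN

open Finset

/-- bound for the number of dodging moves in a window -/
def dl (N K : ℕ) : ℕ := 2 * N * (K + 5)
/-- the length of a block -/
def lm (N K : ℕ) : ℕ := 100 * dl N K
/-- the side of the box which zombies from the north-east never enter -/
def Bb (N K : ℕ) : ℕ := 10 * lm N K
/-- the length of an epoch -/
def Fe (N K : ℕ) : ℕ := 600 * N ^ 3 * lm N K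
/-- the distance of the lanes -/
def Sp (N K : ℕ) : ℕ := 31 * N * lm N K
/-- the safety distance of a lane -/
def QQ1 (N K : ℕ) : ℕ := 15 * N * lm N K
/-- the time for a change of lanes -/
def Gg (N K : ℕ) : ℕ := 70 * N ^ 2 * lm N K
/-- the candidates for the time of the change of lanes -/
def gp (N K i : ℕ) : ℕ := i * (Gg N K + Bb N K + lm N K)

variable {k : ℕ}

/-- the move `e` keeps all zombies at distance at least 2 -/
def Safe (h : ℕ) (e : Bool) (P : Fin k → ℤ × ℤ) : Prop := ∀ z, 2 ≤ L1 (sm h e (P z))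

/-- the lane `i` is free of zombies from the north-east -/
def LaneOK (N K : ℕ) (P : Fin k → ℤ × ℤ) (D : ℤ) (i : ℕ) : Prop :=
  ∀ z, 0 < (P z).1 → 0 < (P z).2 → L1 (P z) ≤ 5 * Fe N K →
    (QQ1 N K : ℤ) < |(P z).1 - (P z).2 + D - i * Sp N K|

/-- no zombie from the north-east arrives during the `i`-th candidate for the change of lanes -/
def GapOK (N K : ℕ) (P : Fin k → ℤ × ℤ) (i : ℕ) : Prop :=
  ∀ z, 0 < (P z).1 → 0 < (P z).2 → L1 (P z) ≤ 5 * Fe N K →
    L1 (P z) < 2 * gp N K i ∨ 2 * ((gp N K i : ℤ) + Gg N K + Bb N K) < L1 (P z)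

/-- the memory of the survivor -/
structure Mem where
  /-- the time -/
  t : ℕ
  /-- number of moves to the east minus number of moves to the north -/
  D : ℤ
  /-- the preferred direction -/
  mode : Bool
  /-- the last move -/
  e : Bool
  /-- the old lane -/
  cO : ℤ
  /-- the new lane -/
  cN : ℤ
  /-- the time of the change of lanes -/
  tc : ℕ

open Classical in
/-- the update of the memory -/
noncomputable def upd (h N K : ℕ) (m : Mem) (P : Fin k → ℤ × ℤ) : Mem :=
  let cO := if Fe N K ∣ m.t then m.cN else m.cO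
  let cN := if Fe N K ∣ m.t then ((sInf {i : ℕ | LaneOK N K P m.D i} : ℕ) : ℤ) * Sp N K else m.cN
  let tc := if Fe N K ∣ m.t then m.t + gp N K (sInf {i : ℕ | GapOK N K P i}) else m.tc
  let mode := if lm N K ∣ m.t then decide (m.D ≤ if m.t < tc then cO else cN) else m.mode
  let e := if Safe h mode P then mode else !mode
  ⟨m.t + 1, m.D + sgn e, mode, e, cO, cN, tc⟩

/-- the strategy -/
noncomputable def strat (h N K k : ℕ) : Strat k where
  μ := Mem
  init := ⟨0, 0, true, true, 0, 0, 0⟩
  upd := upd h N K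
  out := Mem.e

open Classical in
/-- the main theorem on the strategy -/
def S_MAIN : Prop := ∀ (N K h k T : ℕ) (c : ℕ → Fin k → Bool) (p : Fin k → ℤ × ℤ), 1 ≤ N →
  100 * Fe N K ≤ h → (∀ z, p z ∈ Box h) → (∀ z, GC K T (fun s => c s z)) →
  (∀ z, 10 * (Fe N K : ℤ) ≤ |(p z).1| ∨ 10 * (Fe N K : ℤ) ≤ |(p z).2|) →
  (∀ t ≤ T, Tube (Fe N K) (mv h (strat h N K k) c p) t →
    (univ.filter fun z => Near (10 * Fe N K) ((play h (strat h N K k) c p t).2 z)).card < N) →
  ∀ t ≤ T, Tube (Fe N K) (mv h (strat h N K k) c p) t ∧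
    ∀ z, 2 ≤ L1 ((play h (strat h N K k) c p t).2 z)

end Pool.Agent.Helper5K9.ZN
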