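import Pool.Agent.Helper5K9.ZN.Stm
import Pool.Agent.Helper57K9.Zomb.Torus

/-!
# Zombies on the odd torus: from strategies with memory to the survival probability
-/

set_option autoImplicit false

namespace Pool.Agent.Helper5K9.ZN.Ga

open Finset Pool.Agent.Helper57K9.Zomb

/-! ## Averages over products of pairs -/

theorem card_pair {V : Type} [DecidableEq V] (φ : Bool → V) (v : V)
    (hv : v ∈ ({φ true, φ false} : Finset V)) :
    (univ.filter fun b : Bool => φ b = v).card = if φ true = φ false then 2 else 1 := by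
  rw [show (univ : Finset Bool) = {true, false} from rfl, filter_insert, filter_singleton]
  simp only [mem_insert, mem_singleton] at hv
  by_cases h : φ true = φ false
  · have h1 : φ false = v := by rcases hv with rfl | rfl <;> simp [h]
    rw [if_pos (h.trans h1), if_pos h1, if_pos h]; rfl
  · rw [if_neg h]
    rcases hv with rfl | rfl
    · rw [if_pos rfl, if_neg (fun h' => h h'.symm)]; rfl
    · rw [if_neg h, if_pos rfl]; rfl

theorem avg_pi {V : Type} [DecidableEq V] {k : ℕ} (φ : Fin k → Bool → V) (F : (Fin k → V) → ℝ) :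
    (∑ z' ∈ Fintype.piFinset fun i => ({φ i true, φ i false} : Finset V), F z') /
        ((Fintype.piFinset fun i => ({φ i true, φ i false} : Finset V)).card : ℝ) =
      (∑ c : Fin k → Bool, F fun i => φ i (c i)) / 2 ^ k := by
  classical
  set A := Fintype.piFinset fun i => ({φ i true, φ i false} : Finset V) with hA
  set g : (Fin k → Bool) → Fin k → V := fun c i => φ i (c i) with hg
  set M : ℕ := ∏ i, if φ i true = φ i false then 2 else 1 with hM
  have hmaps : ∀ c ∈ (univ : Finset (Fin k → Bool)), g c ∈ A := by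
    intro c _
    rw [hA, Fintype.mem_piFinset]
    intro i
    simp only [hg]
    cases c i <;> simp
  have hfib : ∀ z' ∈ A, (univ.filter fun c => g c = z').card = M := by
    intro z' hz'
    rw [hA, Fintype.mem_piFinset] at hz'
    have h1 : (univ.filter fun c => g c = z') =
        Fintype.piFinset fun i => univ.filter fun b : Bool => φ i b = z' i := by
      ext c
      simp only [mem_filter, mem_univ, true_and, Fintype.mem_piFinset, hg, funext_iff]
    rw [h1, Fintype.card_piFinset, hM]
    exact prod_congr rfl fun i _ => card_pair (φ i) (z' i) (hz' i)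
  have hsum : ∀ F' : (Fin k → V) → ℝ, ∑ c, F' (g c) = (∑ z' ∈ A, F' z') * M := by
    intro F'
    rw [← sum_fiberwise_of_maps_to hmaps, sum_mul]
    refine sum_congr rfl fun z' hz' => ?_
    rw [sum_congr rfl (g := fun _ => F' z') (fun c hc => by rw [(mem_filter.1 hc).2]), sum_const,
      hfib z' hz', nsmul_eq_mul, mul_comm]
  have h2 : (2 : ℝ) ^ k = (A.card : ℝ) * M := by
    have := hsum fun _ => 1
    simpa using this
  have hMpos : (0 : ℝ) < M := by
    have : 0 < M := by
      rw [hM]
      exact prod_pos fun i _ => by split_ifs <;> norm_num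
    exact_mod_cast this
  have hApos : (0 : ℝ) < A.card := by
    have h3 : (0 : ℝ) < 2 ^ k := by positivity
    rw [h2] at h3
    exact (pos_iff_pos_of_mul_pos h3).2 hMpos
  rw [h2]
  change _ = (∑ c, F (g c)) / _
  rw [hsum F, mul_div_mul_right _ _ hMpos.ne']

/-! ## Relative coordinates -/

variable {m : ℕ}

/-- the vertices of the torus -/
abbrev Vt (m : ℕ) : Type := ZMod (m + 3) × ZMod (m + 3)

/-- the representative in `[-h, h]²` -/
def rc (v : Vt m) : ℤ × ℤ := (v.1.valMinAbs, v.2.valMinAbs)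

theorem pr_rc (v : Vt m) : pr m (rc v) = v := by
  simp [pr, rc]

theorem rc_box {h : ℕ} (hm : m + 3 = 2 * h + 1) (v : Vt m) : rc v ∈ Box h := by
  have h1 := v.1.valMinAbs_mem_Ioc
  have h2 := v.2.valMinAbs_mem_Ioc
  rw [Set.mem_Ioc] at h1 h2
  have hm' : ((m + 3 : ℕ) : ℤ) = 2 * h + 1 := by exact_mod_cast hm
  rw [hm'] at h1 h2
  simp only [Box, mem_product, mem_Icc, rc]
  omega

theorem rc_pr {h : ℕ} (hm : m + 3 = 2 * h + 1) {q : ℤ × ℤ} (hq : q ∈ Box h) :
    rc (pr m q) = q := by
  have hm' : ((m + 3 : ℕ) : ℤ) = 2 * h + 1 := by exact_mod_cast hm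
  simp only [Box, mem_product, mem_Icc] at hq
  refine Prod.ext ?_ ?_
  · refine (ZMod.valMinAbs_spec (n := m + 3) ((q.1 : ℤ) : ZMod (m + 3)) q.1).2 ⟨rfl, ?_⟩
    rw [hm', Set.mem_Ioc]; omega
  · refine (ZMod.valMinAbs_spec (n := m + 3) ((q.2 : ℤ) : ZMod (m + 3)) q.2).2 ⟨rfl, ?_⟩
    rw [hm', Set.mem_Ioc]; omega

theorem pr_zero : pr m 0 = 0 := by
  simp only [pr, Prod.fst_zero, Prod.snd_zero, Int.cast_zero]; rfl

theorem pr_inj_box {h : ℕ} (hm : m + 3 = 2 * h + 1) {p q : ℤ × ℤ} (hp : p ∈ Box h)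
    (hq : q ∈ Box h) (h' : pr m p = pr m q) : p = q := by
  rw [← rc_pr hm hp, h', rc_pr hm hq]

theorem zm_box {h : ℕ} (c : Bool) {q : ℤ × ℤ} (hq : q ∈ Box h) : zm c q ∈ Box h := by
  obtain ⟨a, b⟩ := q
  simp only [Box, mem_product, mem_Icc] at hq ⊢
  have h1 : a.sign = -1 ∧ a < 0 ∨ a.sign = 0 ∧ a = 0 ∨ a.sign = 1 ∧ 0 < a := by
    rcases lt_trichotomy a 0 with h | h | h
    · left; exact ⟨Int.sign_eq_neg_one_of_neg h, h⟩
    · right; left; exact ⟨by rw [h]; rfl, h⟩
    · right; right; exact ⟨Int.sign_eq_one_of_pos h, h⟩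
  have h2 : b.sign = -1 ∧ b < 0 ∨ b.sign = 0 ∧ b = 0 ∨ b.sign = 1 ∧ 0 < b := by
    rcases lt_trichotomy b 0 with h | h | h
    · left; exact ⟨Int.sign_eq_neg_one_of_neg h, h⟩
    · right; left; exact ⟨by rw [h]; rfl, h⟩
    · right; right; exact ⟨Int.sign_eq_one_of_pos h, h⟩
  unfold zm
  split_ifs <;> simp only <;> omega

theorem sm_box {h : ℕ} (e : Bool) {q : ℤ × ℤ} (hq : q ∈ Box h) : sm h e q ∈ Box h := by
  obtain ⟨a, b⟩ := q
  simp only [Box, mem_product, mem_Icc] at hq ⊢
  unfold sm wr
  split_ifs <;> simp only <;> omega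

/-- the step of the survivor -/
def stp (m : ℕ) (e : Bool) : Vt m := if e then (1, 0) else (0, 1)

theorem pr_sm {h : ℕ} (hm : m + 3 = 2 * h + 1) (e : Bool) (q : ℤ × ℤ) :
    pr m (sm h e q) = pr m q - stp m e := by
  have hz : (2 * (h : ZMod (m + 3)) + 1) = 0 := by
    have := ZMod.natCast_self (m + 3)
    rw [show ((m + 3 : ℕ) : ZMod (m + 3)) = ((2 * h + 1 : ℕ) : ZMod (m + 3)) from by rw [hm]] at this
    push_cast at this
    exact this
  obtain ⟨a, b⟩ := q
  cases e
  · simp only [sm, stp, Bool.false_eq_true, if_false, pr, wr, Prod.mk_sub_mk, sub_zero,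
      Prod.mk.injEq, true_and]
    split_ifs
    · push_cast; rw [hz]; ring
    · push_cast; ring
  · simp only [sm, stp, if_true, pr, wr, Prod.mk_sub_mk, sub_zero, Prod.mk.injEq, and_true]
    split_ifs
    · push_cast; rw [hz]; ring
    · push_cast; ring

/-! ## The moves of the zombies -/

theorem zm_true (q : ℤ × ℤ) (h1 : q.1 ≠ 0) : zm true q = m1 q := by
  simp [zm, m1, h1]

theorem zm_false (q : ℤ × ℤ) (h2 : q.2 ≠ 0) : zm false q = m2 q := by
  simp [zm, m2, h2]

theorem zm_cl (c : Bool) {q : ℤ × ℤ} (hq : q ≠ 0) : Cl q (zm c q) := by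
  by_cases h2 : q.2 = 0
  · have h1 : q.1 ≠ 0 := fun h1 => hq (Prod.ext h1 h2)
    have : zm c q = m1 q := by simp [zm, m1, h2]
    rw [this]; exact Cl_m1 h1
  · cases c
    · rw [zm_false q h2]; exact Cl_m2 h2
    · by_cases h1 : q.1 = 0
      · have : zm true q = m2 q := by simp [zm, m2, h1, h2]
        rw [this]; exact Cl_m2 h2
      · rw [zm_true q h1]; exact Cl_m1 h1

/-- the wrapped representative of a neighbour outside of the box -/
theorem closer_eq {h : ℕ} (hm : m + 3 = 2 * h + 1) (s : Vt m) {p : ℤ × ℤ} (hp : p ∈ Box h)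
    (h0 : p ≠ 0) :
    closer (To m) (s + pr m p) s = {s + pr m (zm true p), s + pr m (zm false p)} := by
  have hp' := hp
  simp only [Box, mem_product, mem_Icc] at hp'
  apply Subset.antisymm
  · intro w hw
    simp only [closer, mem_filter, mem_univ, true_and] at hw
    obtain ⟨h3, h4⟩ := hw
    obtain ⟨v, hv, rfl⟩ := (To_adj _ _).1 h3
    have h5 : s + pr m p + pr m v = s + pr m (p + v) := by rw [pr_add]; ring
    rw [h5] at h4 ⊢
    rw [To_dist s p (by omega) (by omega)] at h4
    -- a representative of `p + v`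
    obtain ⟨r, hr, hr'⟩ : ∃ r : ℤ × ℤ, pr m (p + v) = pr m r ∧ r ∈ Box h ∧
        (r = p + v ∨ nrm p ≤ nrm r) := by
      by_cases hb : p + v ∈ Box h
      · exact ⟨p + v, rfl, hb, Or.inl rfl⟩
      · refine ⟨rc (pr m (p + v)), (pr_rc _).symm, rc_box hm _, Or.inr ?_⟩
        have hz : ((2 * h + 1 : ℤ) : ZMod (m + 3)) = 0 := by
          have := ZMod.natCast_self (m + 3)
          rw [show ((m + 3 : ℕ) : ZMod (m + 3)) = ((2 * h + 1 : ℕ) : ZMod (m + 3)) from by rw [hm]]
            at this
          push_cast at this ⊢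
          exact this
        obtain ⟨a, b⟩ := p
        simp only [Box, mem_product, mem_Icc] at hb
        have key : ∃ r : ℤ × ℤ, r ∈ Box h ∧ pr m r = pr m ((a, b) + v) ∧ nrm (a, b) ≤ nrm r := by
          rcases nrm_one hv with rfl | rfl | rfl | rfl
          · refine ⟨(a + 1 - (2 * h + 1), b), ?_, ?_, ?_⟩
            · simp only [Box, mem_product, mem_Icc]; simp only [Prod.mk_add_mk] at hb; omega
            · simp only [pr, Prod.mk_add_mk, Prod.mk.injEq]
              refine ⟨?_, by simp⟩
              rw [Int.cast_sub (a + 1), hz, sub_zero]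
            · simp only [nrm]; simp only [Prod.mk_add_mk] at hb; omega
          · refine ⟨(a - 1 + (2 * h + 1), b), ?_, ?_, ?_⟩
            · simp only [Box, mem_product, mem_Icc]; simp only [Prod.mk_add_mk] at hb; omega
            · simp only [pr, Prod.mk_add_mk, Prod.mk.injEq]
              refine ⟨?_, by simp⟩
              rw [Int.cast_add (a - 1), hz, add_zero]; rfl
            · simp only [nrm]; simp only [Prod.mk_add_mk] at hb; omega
          · refine ⟨(a, b + 1 - (2 * h + 1)), ?_, ?_, ?_⟩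
            · simp only [Box, mem_product, mem_Icc]; simp only [Prod.mk_add_mk] at hb; omega
            · simp only [pr, Prod.mk_add_mk, Prod.mk.injEq]
              refine ⟨by simp, ?_⟩
              rw [Int.cast_sub (b + 1), hz, sub_zero]
            · simp only [nrm]; simp only [Prod.mk_add_mk] at hb; omega
          · refine ⟨(a, b - 1 + (2 * h + 1)), ?_, ?_, ?_⟩
            · simp only [Box, mem_product, mem_Icc]; simp only [Prod.mk_add_mk] at hb; omega
            · simp only [pr, Prod.mk_add_mk, Prod.mk.injEq]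
              refine ⟨by simp, ?_⟩
              rw [Int.cast_add (b - 1), hz, add_zero]; rfl
            · simp only [nrm]; simp only [Prod.mk_add_mk] at hb; omega
        obtain ⟨r, hr1, hr2, hr3⟩ := key
        rw [← hr2, rc_pr hm hr1]
        exact hr3
    obtain ⟨hrb, hr2⟩ := hr'
    have hrb' := hrb
    simp only [Box, mem_product, mem_Icc] at hrb'
    rw [hr, To_dist s r (by omega) (by omega)] at h4
    rcases hr2 with rfl | hr2
    · have hcl : Cl p (p + v) := ⟨v, hv, rfl, h4⟩
      rcases Cl_cases hcl with ⟨h6, h7⟩ | ⟨h6, h7⟩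
      · rw [h7, ← zm_true p h6]; simp
      · rw [h7, ← zm_false p h6]; simp
    · omega
  · intro w hw
    simp only [mem_insert, mem_singleton] at hw
    rcases hw with rfl | rfl
    · exact mem_closer s (zm_cl true h0) (by omega) (by omega)
    · exact mem_closer s (zm_cl false h0) (by omega) (by omega)

/-! ## The survival probability as an average over coins -/

/-- the configuration after the move of the zombies with the coins `c` -/
def nx {k : ℕ} (z : Fin k → Vt m) (s : Vt m) (c : Fin k → Bool) : Fin k → Vt m :=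
  fun i => s + pr m (zm (c i) (rc (z i - s)))

/-- the survivor is not eaten now nor in the next `T` rounds, with the coins `c` -/
def Sv {k : ℕ} (σ : List (Fin k → Vt m) → Vt m) :
    ℕ → (Fin k → Vt m) → List (Fin k → Vt m) → (ℕ → Fin k → Bool) → Prop
  | 0, z, h, _ => ∀ i, z i ≠ σ (z :: h)
  | T + 1, z, h, c => (∀ i, z i ≠ σ (z :: h)) ∧ (∀ i, nx z (σ (z :: h)) (c 0) i ≠ σ (z :: h)) ∧
      Sv σ T (nx z (σ (z :: h)) (c 0)) (z :: h) fun t => c (t + 1)

/-- finitely many coins as an infinite sequence -/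
def ex {k N : ℕ} (c : Fin N → Fin k → Bool) : ℕ → Fin k → Bool :=
  fun t => if ht : t < N then c ⟨t, ht⟩ else fun _ => false

theorem ex_cons_zero {k N : ℕ} (b : Fin k → Bool) (c : Fin N → Fin k → Bool) :
    ex (Fin.cons (α := fun _ => Fin k → Bool) b c) 0 = b := by
  unfold ex
  rw [dif_pos (Nat.succ_pos N)]
  rfl

theorem ex_cons_succ {k N : ℕ} (b : Fin k → Bool) (c : Fin N → Fin k → Bool) :
    (fun t => ex (Fin.cons (α := fun _ => Fin k → Bool) b c) (t + 1)) = ex c := by
  funext t
  unfold ex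
  by_cases ht : t < N
  · rw [dif_pos (Nat.succ_lt_succ ht), dif_pos ht]
    rfl
  · rw [dif_neg (fun h => ht (Nat.lt_of_succ_lt_succ h)), dif_neg ht]

/-- indicator of a proposition -/
noncomputable def ind (p : Prop) : ℝ := by classical exact if p then 1 else 0

theorem ind_true {p : Prop} (h : p) : ind p = 1 := by unfold ind; exact if_pos h
theorem ind_false {p : Prop} (h : ¬ p) : ind p = 0 := by unfold ind; exact if_neg h
theorem ind_nonneg (p : Prop) : 0 ≤ ind p := by unfold ind; split_ifs <;> norm_num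
theorem ind_le_one (p : Prop) : ind p ≤ 1 := by unfold ind; split_ifs <;> norm_num

theorem rep {h : ℕ} (hm : m + 3 = 2 * h + 1) {k : ℕ} (σ : List (Fin k → Vt m) → Vt m) :
    ∀ (T N : ℕ), T ≤ N → ∀ (z : Fin k → Vt m) (l : List (Fin k → Vt m)),
      survive (To m) σ T z l =
        (∑ c : Fin N → Fin k → Bool, ind (Sv σ T z l (ex c))) / (2 ^ k) ^ N := by
  classical
  intro T
  induction T with
  | zero =>
    intro N _ z l
    have hcard : (Fintype.card (Fin N → Fin k → Bool) : ℝ) = (2 ^ k) ^ N := by simp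
    simp only [survive]
    by_cases h1 : ∃ i, z i = σ (z :: l)
    · rw [if_pos h1]
      have h2 : ∀ c, ¬ Sv σ 0 z l c := by
        rintro c hc
        obtain ⟨i, hi⟩ := h1
        exact hc i hi
      rw [sum_eq_zero fun c _ => ind_false (h2 _), zero_div]
    · rw [if_neg h1]
      have h2 : ∀ c, Sv σ 0 z l c := fun c i hi => h1 ⟨i, hi⟩
      rw [sum_congr rfl fun c _ => ind_true (h2 _)]
      rw [sum_const, card_univ, nsmul_eq_mul, mul_one, hcard, div_self (by positivity)]
  | succ T ih =>
    intro N hN z l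
    obtain ⟨N', rfl⟩ : ∃ N', N = N' + 1 := ⟨N - 1, by omega⟩
    simp only [survive]
    by_cases h1 : ∃ i, z i = σ (z :: l)
    · rw [if_pos h1]
      have h2 : ∀ c, ¬ Sv σ (T + 1) z l c := by
        intro c hc
        obtain ⟨i, hi⟩ := h1
        exact hc.1 i hi
      rw [sum_eq_zero fun c _ => ind_false (h2 _), zero_div]
    · rw [if_neg h1]
      have h1' : ∀ i, z i ≠ σ (z :: l) := fun i hi => h1 ⟨i, hi⟩
      set s := σ (z :: l) with hs
      have hcl : (Fintype.piFinset fun i => closer (To m) (z i) s) =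
          Fintype.piFinset fun i => ({s + pr m (zm true (rc (z i - s))),
            s + pr m (zm false (rc (z i - s)))} : Finset (Vt m)) := by
        congr 1
        funext i
        have h2 : z i = s + pr m (rc (z i - s)) := by rw [pr_rc]; ring
        have h3 : rc (z i - s) ≠ 0 := by
          intro h3
          apply h1' i
          rw [h2, h3]
          simp [pr]
        have h4 := closer_eq hm s (rc_box hm (z i - s)) h3
        rw [← h2] at h4
        exact h4
      rw [hcl]
      have h5 := avg_pi (fun (i : Fin k) (b : Bool) => s + pr m (zm b (rc (z i - s))))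
        (fun z' => if ∃ i, z' i = s then (0 : ℝ) else survive (To m) σ T z' (z :: l))
      rw [h5]
      have h6 : ∀ (b : Fin k → Bool) (c' : Fin N' → Fin k → Bool),
          ind (Sv σ (T + 1) z l (ex (Fin.cons (α := fun _ => Fin k → Bool) b c'))) =
            ind ((∀ i, nx z s b i ≠ s) ∧ Sv σ T (nx z s b) (z :: l) (ex c')) := by
        intro b c'
        congr 1
        simp only [Sv]
        rw [ex_cons_zero, ex_cons_succ, eq_iff_iff]
        exact ⟨fun h => h.2, fun h => ⟨h1', h⟩⟩
      have h7 : ∑ c : Fin (N' + 1) → Fin k → Bool, ind (Sv σ (T + 1) z l (ex c)) =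
          ∑ b : Fin k → Bool, ∑ c' : Fin N' → Fin k → Bool,
            ind ((∀ i, nx z s b i ≠ s) ∧ Sv σ T (nx z s b) (z :: l) (ex c')) := by
        rw [← (Fin.consEquiv fun _ => Fin k → Bool).sum_comp, Fintype.sum_prod_type]
        exact sum_congr rfl fun b _ => sum_congr rfl fun c' _ => h6 b c'
      rw [h7, pow_succ, mul_comm, ← div_div, div_right_comm]
      congr 1
      rw [sum_div]
      refine sum_congr rfl fun b _ => ?_
      change (if ∃ i, nx z s b i = s then (0 : ℝ) else survive (To m) σ T (nx z s b) (z :: l)) = _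
      by_cases h8 : ∃ i, nx z s b i = s
      · rw [if_pos h8]
        rw [sum_eq_zero fun c _ => ind_false ?_, zero_div]
        rintro ⟨h9, -⟩
        obtain ⟨i, hi⟩ := h8
        exact h9 i hi
      · rw [if_neg h8, ih N' (by omega)]
        congr 1
        refine sum_congr rfl fun c' _ => ?_
        congr 1
        rw [eq_iff_iff]
        exact ⟨fun h => ⟨fun i hi => h8 ⟨i, hi⟩, h⟩, fun h => h.2⟩

theorem survive_nonneg' {h : ℕ} (hm : m + 3 = 2 * h + 1) {k : ℕ} (σ : List (Fin k → Vt m) → Vt m)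
    (T : ℕ) (z : Fin k → Vt m) (l : List (Fin k → Vt m)) : 0 ≤ survive (To m) σ T z l := by
  rw [rep hm σ T T le_rfl]
  exact div_nonneg (sum_nonneg fun c _ => ind_nonneg _) (by positivity)

theorem survive_le_one' {h : ℕ} (hm : m + 3 = 2 * h + 1) {k : ℕ} (σ : List (Fin k → Vt m) → Vt m)
    (T : ℕ) (z : Fin k → Vt m) (l : List (Fin k → Vt m)) : survive (To m) σ T z l ≤ 1 := by
  rw [rep hm σ T T le_rfl, div_le_one (by positivity)]
  calc _ ≤ ∑ _c : Fin T → Fin k → Bool, (1 : ℝ) := sum_le_sum fun c _ => ind_le_one _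
    _ = _ := by simp

/-! ## The strategy -/

/-- memory and vertex of the survivor after a history -/
def stt {k : ℕ} (S : Strat k) : List (Fin k → Vt m) → S.μ × Vt m
  | [] => (S.init, 0)
  | [_] => (S.init, 0)
  | z' :: z :: l =>
    let p := stt S (z :: l)
    let m' := S.upd p.1 fun i => rc (z' i - p.2)
    (m', p.2 + stp m (S.out m'))

/-- the strategy with histories -/
def sig {k : ℕ} (S : Strat k) (l : List (Fin k → Vt m)) : Vt m := (stt S l).2

theorem sig_legal {k : ℕ} (S : Strat k) : Legal (To m) (sig S) := by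
  intro z' z l
  right
  rw [To_adj]
  change ∃ v : ℤ × ℤ, nrm v = 1 ∧ (stt S (z :: l)).2 + stp m _ = (stt S (z :: l)).2 + pr m v
  cases S.out (S.upd (stt S (z :: l)).1 fun i => rc (z' i - (stt S (z :: l)).2))
  · exact ⟨(0, 1), by simp [nrm], by rw [pr_e2]; rfl⟩
  · exact ⟨(1, 0), by simp [nrm], by rw [pr_e1]; rfl⟩

/-- the history in the play with the coins `c` -/
def hs {k : ℕ} (S : Strat k) (c : ℕ → Fin k → Bool) (z : Fin k → Vt m) :
    ℕ → (Fin k → Vt m) × List (Fin k → Vt m)
  | 0 => (z, [])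
  | t + 1 => (nx (hs S c z t).1 (sig S ((hs S c z t).1 :: (hs S c z t).2)) (c t),
      (hs S c z t).1 :: (hs S c z t).2)

theorem play_box {k : ℕ} (h : ℕ) (S : Strat k) (c : ℕ → Fin k → Bool) (p : Fin k → ℤ × ℤ)
    (hp : ∀ i, p i ∈ Box h) (t : ℕ) (i : Fin k) : (play h S c p t).2 i ∈ Box h := by
  induction t with
  | zero => exact hp i
  | succ t ih => exact sm_box _ (zm_box _ ih)

theorem hs_play {h : ℕ} (hm : m + 3 = 2 * h + 1) {k : ℕ} (S : Strat k) (c : ℕ → Fin k → Bool)
    (z : Fin k → Vt m) (t : ℕ) :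
    (stt S ((hs S c z t).1 :: (hs S c z t).2)).1 = (play h S c (fun i => rc (z i)) t).1 ∧
    ∀ i, rc ((hs S c z t).1 i - sig S ((hs S c z t).1 :: (hs S c z t).2)) =
      (play h S c (fun i => rc (z i)) t).2 i := by
  induction t with
  | zero =>
    refine ⟨rfl, fun i => ?_⟩
    change rc (z i - 0) = rc (z i)
    rw [sub_zero]
  | succ t ih =>
    obtain ⟨ih1, ih2⟩ := ih
    set s := sig S ((hs S c z t).1 :: (hs S c z t).2) with hs'
    have hbox := play_box h S c (fun i => rc (z i)) (fun i => rc_box hm _) t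
    have h1 : ∀ i, rc ((hs S c z (t + 1)).1 i - s) =
        zm (c t i) ((play h S c (fun i => rc (z i)) t).2 i) := by
      intro i
      change rc (s + pr m (zm (c t i) (rc ((hs S c z t).1 i - s))) - s) = _
      rw [add_sub_cancel_left, ih2 i, rc_pr hm (zm_box _ (hbox i))]
    have h2 : (stt S ((hs S c z (t + 1)).1 :: (hs S c z (t + 1)).2)).1 =
        (play h S c (fun i => rc (z i)) (t + 1)).1 := by
      change S.upd (stt S ((hs S c z t).1 :: (hs S c z t).2)).1
        (fun i => rc ((hs S c z (t + 1)).1 i - s)) = S.upd _ _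
      rw [ih1]
      congr 1
      funext i
      exact h1 i
    refine ⟨h2, fun i => ?_⟩
    have h3 : sig S ((hs S c z (t + 1)).1 :: (hs S c z (t + 1)).2) =
        s + stp m (S.out (play h S c (fun i => rc (z i)) (t + 1)).1) := by
      rw [← h2]; rfl
    rw [h3]
    have h4 : (hs S c z (t + 1)).1 i - s =
        pr m (zm (c t i) ((play h S c (fun i => rc (z i)) t).2 i)) := by
      rw [← h1 i, pr_rc]
    rw [← sub_sub, h4, ← pr_sm hm, rc_pr hm (sm_box _ (zm_box _ (hbox i)))]
    rfl

theorem hs_sv {h : ℕ} (hm : m + 3 = 2 * h + 1) {k : ℕ} (S : Strat k) (c : ℕ → Fin k → Bool)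
    (z : Fin k → Vt m)
    (hc : ∀ (t : ℕ) (i : Fin k), (play h S c (fun i => rc (z i)) t).2 i ≠ 0 ∧
      zm (c t i) ((play h S c (fun i => rc (z i)) t).2 i) ≠ 0) (T : ℕ) :
    ∀ t, Sv (sig S) T (hs S c z t).1 (hs S c z t).2 fun j => c (t + j) := by
  have key1 : ∀ t i, (hs S c z t).1 i ≠ sig S ((hs S c z t).1 :: (hs S c z t).2) := by
    intro t i h0
    have h1 := (hs_play hm S c z t).2 i
    rw [h0, sub_self] at h1
    apply (hc t i).1
    rw [← h1]
    have := rc_pr hm (q := 0) (by simp [Box])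
    rwa [pr_zero] at this
  have key2 : ∀ t i, nx (hs S c z t).1 (sig S ((hs S c z t).1 :: (hs S c z t).2)) (c t) i ≠
      sig S ((hs S c z t).1 :: (hs S c z t).2) := by
    intro t i h0
    have h1 := (hs_play hm S c z t).2 i
    unfold nx at h0
    rw [h1] at h0
    have h2 : pr m (zm (c t i) ((play h S c (fun i => rc (z i)) t).2 i)) = pr m 0 := by
      rw [pr_zero]; exact add_eq_left.1 h0
    exact (hc t i).2 (pr_inj_box hm (zm_box _ (play_box h S c _ (fun i => rc_box hm _) t i))
      (by simp [Box]) h2)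
  induction T with
  | zero => intro t i; exact key1 t i
  | succ T ih =>
    intro t
    refine ⟨key1 t, key2 t, ?_⟩
    have h1 := ih (t + 1)
    have h2 : (fun j => c (t + 1 + j)) = fun j => (fun j => c (t + j)) (j + 1) := by
      funext j
      change c (t + 1 + j) = c (t + (j + 1))
      congr 1; omega
    rw [h2] at h1
    exact h1

/-- the main step: fixed starting positions -/
theorem inf_le {h : ℕ} (hm : m + 3 = 2 * h + 1) {k : ℕ} (S : Strat k) (T : ℕ)
    (Good : Finset (Fin k → (ℤ × ℤ) × (Fin T → Bool)))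
    (hG : ∀ x ∈ Good, ∀ c : ℕ → Fin k → Bool, (∀ (z : Fin k) (i : Fin T), c i z = (x z).2 i) →
      ∀ (t : ℕ) (z : Fin k), (play h S c (fun z => (x z).1) t).2 z ≠ 0 ∧
        zm (c t z) ((play h S c (fun z => (x z).1) t).2 z) ≠ 0) (z : Fin k → Vt m) :
    (∑ a : Fin T → Fin k → Bool, ind ((fun i => (rc (z i), fun j => a j i)) ∈ Good)) / (2 ^ k) ^ T ≤
      ⨅ T' : ℕ, survive (To m) (sig S) T' z [] := by
  refine le_ciInf fun T' => ?_
  rw [rep hm (sig S) T' (T + T') (by omega)]
  rw [← (Fin.appendEquiv T T').sum_comp, Fintype.sum_prod_type]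
  rw [pow_add, ← div_div, le_div_iff₀ (by positivity), div_mul_eq_mul_div]
  refine div_le_div_of_nonneg_right ?_ (by positivity)
  rw [sum_mul]
  refine sum_le_sum fun a _ => ?_
  have hcard : (Fintype.card (Fin T' → Fin k → Bool) : ℝ) = (2 ^ k) ^ T' := by simp
  rw [← hcard]
  by_cases h1 : (fun i => (rc (z i), fun j => a j i)) ∈ Good
  · rw [ind_true h1, one_mul]
    rw [sum_congr rfl (g := fun _ => (1 : ℝ))]
    · simp
    · intro b _
      apply ind_true
      have h2 := hG _ h1 (ex (Fin.append a b)) (by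
        intro i j
        unfold ex
        rw [dif_pos (show (j : ℕ) < T + T' by omega)]
        have : (⟨(j : ℕ), by omega⟩ : Fin (T + T')) = Fin.castAdd T' j := rfl
        rw [this, Fin.append_left])
      have h3 := hs_sv hm S (ex (Fin.append a b)) z h2 T' 0
      simp only [zero_add] at h3
      exact h3
  · rw [ind_false h1, zero_mul]
    exact sum_nonneg fun b _ => ind_nonneg _

theorem game_aux {h : ℕ} (hm : m + 3 = 2 * h + 1) {k : ℕ} (S : Strat k) (T : ℕ)
    (Good : Finset (Fin k → (ℤ × ℤ) × (Fin T → Bool)))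
    (hB : ∀ x ∈ Good, ∀ z, (x z).1 ∈ Box h)
    (hG : ∀ x ∈ Good, ∀ c : ℕ → Fin k → Bool, (∀ (z : Fin k) (i : Fin T), c i z = (x z).2 i) →
      ∀ (t : ℕ) (z : Fin k), (play h S c (fun z => (x z).1) t).2 z ≠ 0 ∧
        zm (c t z) ((play h S c (fun z => (x z).1) t).2 z) ≠ 0) :
    (Good.card : ℝ) / ((2 * h + 1) ^ 2 * 2 ^ T) ^ k ≤ survivalProb (To m) k := by
  classical
  have hcV : (Fintype.card (Vt m) : ℝ) = (2 * h + 1) ^ 2 := by
    have h1 : Fintype.card (Vt m) = (m + 3) * (m + 3) := by
      rw [Fintype.card_prod, ZMod.card]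
    rw [h1, hm]; push_cast; ring
  have hbdd : BddAbove (Set.range fun σ : {σ : List (Fin k → Vt m) → Vt m // Legal (To m) σ} =>
      (∑ z : Fin k → Vt m, ⨅ T : ℕ, survive (To m) σ.1 T z []) / (Fintype.card (Vt m) : ℝ) ^ k) := by
    refine ⟨1, ?_⟩
    rintro _ ⟨σ, rfl⟩
    have hpos : (0 : ℝ) < (Fintype.card (Vt m) : ℝ) ^ k := by rw [hcV]; positivity
    change _ / _ ≤ (1 : ℝ)
    rw [div_le_one hpos]
    calc _ ≤ ∑ _z : Fin k → Vt m, (1 : ℝ) := by
          refine sum_le_sum fun z _ => ?_
          exact (ciInf_le ⟨0, by rintro _ ⟨T, rfl⟩; exact survive_nonneg' hm _ _ _ _⟩ 0).trans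
            (survive_le_one' hm _ _ _ _)
      _ = _ := by simp
  refine le_trans ?_ (le_ciSup hbdd ⟨sig S, sig_legal S⟩)
  change _ ≤ (∑ z : Fin k → Vt m, ⨅ T : ℕ, survive (To m) (sig S) T z []) / _
  rw [hcV, mul_pow, ← div_div, ← pow_mul, ← pow_mul, mul_comm T k]
  rw [div_right_comm]
  refine div_le_div_of_nonneg_right ?_ (by positivity)
  have h1 : (Good.card : ℝ) ≤ ∑ z : Fin k → Vt m, ∑ a : Fin T → Fin k → Bool,
      ind ((fun i => (rc (z i), fun j => a j i)) ∈ Good) := by
    have h2 : ∑ z : Fin k → Vt m, ∑ a : Fin T → Fin k → Bool,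
        ind ((fun i => (rc (z i), fun j => a j i)) ∈ Good) =
        ((univ.filter fun y : (Fin k → Vt m) × (Fin T → Fin k → Bool) =>
          (fun i => (rc (y.1 i), fun j => y.2 j i)) ∈ Good).card : ℝ) := by
      rw [← Fintype.sum_prod_type', card_filter]
      push_cast
      refine sum_congr rfl fun y _ => ?_
      unfold ind
      congr
    rw [h2]
    norm_cast
    refine card_le_card_of_injOn
      (fun x => ((fun i => pr m (x i).1), fun j i => (x i).2 j)) ?_ ?_
    · intro x hx
      simp only [coe_filter, mem_univ, true_and, Set.mem_ofPred_eq]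
      have : (fun i => (rc (pr m (x i).1), fun j => (x i).2 j)) = x := by
        funext i
        rw [rc_pr hm (hB x hx i)]
      rw [this]
      exact hx
    · intro x hx y hy hxy
      simp only [Prod.mk.injEq] at hxy
      funext i
      refine Prod.ext ?_ ?_
      · exact pr_inj_box hm (hB x hx i) (hB y hy i) (congrFun hxy.1 i)
      · funext j
        exact congrFun (congrFun hxy.2 j) i
  calc (Good.card : ℝ) / 2 ^ (k * T) ≤ (∑ z : Fin k → Vt m, ∑ a : Fin T → Fin k → Bool,
        ind ((fun i => (rc (z i), fun j => a j i)) ∈ Good)) / 2 ^ (k * T) :=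
        div_le_div_of_nonneg_right h1 (by positivity)
    _ = ∑ z : Fin k → Vt m, (∑ a : Fin T → Fin k → Bool,
        ind ((fun i => (rc (z i), fun j => a j i)) ∈ Good)) / (2 ^ k) ^ T := by
        rw [sum_div, pow_mul]
    _ ≤ _ := sum_le_sum fun z _ => inf_le hm S T Good hG z

end Ga

/-- from strategies with memory to the survival probability -/
theorem game : S_GAME := by
  intro h k T S h1 Good hB hG
  obtain ⟨m, hm⟩ : ∃ m, m + 3 = 2 * h + 1 := ⟨2 * h - 2, by omega⟩
  have h2 := Ga.game_aux hm S T Good hB hG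
  have h3 : Pool.Agent.Helper57K9.Zomb.survivalProb
      (Pool.Agent.Helper57K9.Zomb.torus (m + 3)) k =
      Pool.Agent.Helper57K9.Zomb.survivalProb (Pool.Agent.Helper57K9.Zomb.To m) k := rfl
  rw [← hm, h3]
  exact h2

end Pool.Agent.Helper5K9.ZN
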