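import Pool.Agent.Helper5K9.ZN.Sym

/-!
# After crossing the line `x = 0`
-/

set_option autoImplicit false

namespace Pool.Agent.Helper5K9.ZN

open Finset

theorem tr_succ (h : ℕ) (c e : ℕ → Bool) (p : ℤ × ℤ) (t : ℕ) :
    tr h c e p (t + 1) = sm h (e t) (zm (c t) (tr h c e p t)) := rfl

theorem WW_succ (c : ℕ → Bool) (t : ℕ) : WW c (t + 1) = WW c t + sgn (c t) := by
  simp [WW, Finset.sum_range_succ]

theorem mem_Box {h : ℕ} {q : ℤ × ℤ} :
    q ∈ Box h ↔ (-(h : ℤ) ≤ q.1 ∧ q.1 ≤ h) ∧ (-(h : ℤ) ≤ q.2 ∧ q.2 ≤ h) := by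
  simp [Box, Finset.mem_product]

theorem sign_cases (x : ℤ) : (x < 0 ∧ x.sign = -1) ∨ (x = 0 ∧ x.sign = 0) ∨ (0 < x ∧ x.sign = 1) := by
  rcases lt_trichotomy x 0 with hx | hx | hx
  · exact Or.inl ⟨hx, Int.sign_eq_neg_one_of_neg hx⟩
  · exact Or.inr (Or.inl ⟨hx, by rw [hx]; rfl⟩)
  · exact Or.inr (Or.inr ⟨hx, Int.sign_eq_one_of_pos hx⟩)

theorem zm_true (x y : ℤ) :
    zm true (x, y) = if y = 0 ∨ x ≠ 0 then (x - x.sign, y) else (x, y - y.sign) := by
  simp [zm]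

theorem zm_false (x y : ℤ) :
    zm false (x, y) = if y = 0 then (x - x.sign, y) else (x, y - y.sign) := by
  simp [zm]

theorem sm_true (h : ℕ) (x y : ℤ) : sm h true (x, y) = (wr h (x - 1), y) := by
  simp [sm]

theorem sm_false (h : ℕ) (x y : ℤ) : sm h false (x, y) = (x, wr h (y - 1)) := by
  simp [sm]

theorem zm_box {h : ℕ} (c : Bool) {q : ℤ × ℤ} (hq : q ∈ Box h) : zm c q ∈ Box h := by
  obtain ⟨x, y⟩ := q
  rw [mem_Box] at hq ⊢
  simp only at hq
  unfold zm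
  have hx := sign_cases x
  have hy := sign_cases y
  split_ifs <;> simp only <;> omega

theorem sm_box {h : ℕ} (e : Bool) {q : ℤ × ℤ} (hq : q ∈ Box h) : sm h e q ∈ Box h := by
  obtain ⟨x, y⟩ := q
  rw [mem_Box] at hq ⊢
  simp only at hq
  unfold sm wr
  split_ifs <;> simp only <;> omega

theorem tr_box {h : ℕ} (c e : ℕ → Bool) {p : ℤ × ℤ} (hp : p ∈ Box h) (t : ℕ) :
    tr h c e p t ∈ Box h := by
  induction t with
  | zero => exact hp
  | succ t ih => exact sm_box _ (zm_box _ ih)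

/-- the absorbed zombie stays absorbed -/
theorem absd_step {h : ℕ} (hh : 1 ≤ h) (c e : Bool) {q : ℤ × ℤ} (hq : Absd h q) :
    Absd h (sm h e (zm c q)) := by
  obtain ⟨x, y⟩ := q
  unfold Absd L1 at hq ⊢
  simp only at hq
  obtain ⟨h1, h2, h3⟩ := hq
  rw [abs_of_nonpos h1, abs_of_nonpos h2] at h3
  have hx := sign_cases x
  have hy := sign_cases y
  have key : (sm h e (zm c (x, y))).1 ≤ 0 ∧ (sm h e (zm c (x, y))).2 ≤ 0 ∧
      -(sm h e (zm c (x, y))).1 - (sm h e (zm c (x, y))).2 ≤ h := by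
    unfold sm zm wr
    split_ifs <;> simp only <;> (try simp only at *) <;> omega
  obtain ⟨k1, k2, k3⟩ := key
  refine ⟨k1, k2, ?_⟩
  rw [abs_of_nonpos k1, abs_of_nonpos k2]
  linarith

theorem absd_mono {h : ℕ} (hh : 1 ≤ h) (c e : ℕ → Bool) (p : ℤ × ℤ) {s t : ℕ} (hst : s ≤ t)
    (hs : Absd h (tr h c e p s)) : Absd h (tr h c e p t) := by
  induction t, hst using Nat.le_induction with
  | base => exact hs
  | succ t _ ih => exact absd_step hh _ _ ih

/-- a window of coins -/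
theorem GC.window {K T : ℕ} {c : ℕ → Bool} (hc : GC K T c) {s u : ℕ} (hsu : s ≤ u) (hu : u ≤ T) :
    (WW c u - WW c s) ^ 2 ≤ (K : ℤ) * ((u : ℤ) - s) := by
  have := hc s (u - s) (by omega)
  rw [show s + (u - s) = u by omega] at this
  rw [← Nat.cast_sub hsu]; exact this

theorem Tube.bd {R t : ℕ} {e : ℕ → Bool} (he : Tube R e t) {s : ℕ} (hs : s ≤ t) :
    -(R : ℤ) ≤ WW e s ∧ WW e s ≤ R := abs_le.mp (he s hs)

theorem GC.mono {K T T' : ℕ} {c : ℕ → Bool} (hT : T' ≤ T) (hc : GC K T c) : GC K T' c :=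
  fun s w hw => hc s w (hw.trans hT)

theorem Tube.mono {R T T' : ℕ} {e : ℕ → Bool} (hT : T' ≤ T) (he : Tube R e T) : Tube R e T' :=
  fun s hs => he s (hs.trans hT)

/-- one step in the north -/
theorem north_step {h : ℕ} (hh : 1 ≤ h) (c e : Bool) {q : ℤ × ℤ} (h1 : q.1 ≤ 0) (h2 : 0 < q.2)
    (h3 : -(h : ℤ) < q.1) :
    (sm h e (zm c q)).1 ≤ 0 ∧
    (q.1 < 0 → 2 * (sm h e (zm c q)).1 = 2 * q.1 + sgn c - sgn e) ∧
    (q.1 - 1 ≤ (sm h e (zm c q)).1) ∧
    -1 ≤ (sm h e (zm c q)).2 ∧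
    2 * (sm h e (zm c q)).2 ≤ 2 * q.2 - 2 + sgn c + sgn e := by
  obtain ⟨x, y⟩ := q
  simp only at h1 h2 h3
  have hx := sign_cases x
  have hy := sign_cases y
  cases c <;> cases e <;> simp only [zm_true, zm_false] <;> split_ifs <;>
    simp only [sm_true, sm_false, wr, sgn] <;> split_ifs <;> (try simp only at *) <;> omega

/-- the north phase -/
def NorthP (h : ℕ) (c e : ℕ → Bool) (p : ℤ × ℤ) (s u : ℕ) : Prop :=
  (tr h c e p u).1 ≤ 0 ∧ 0 < (tr h c e p u).2 ∧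
  (∃ v, s ≤ v ∧ v ≤ u ∧ -2 + (WW c u - WW c v) - (WW e u - WW e v) ≤ 2 * (tr h c e p u).1) ∧
  2 * (tr h c e p u).2 ≤ 2 * (h : ℤ) - 2 * ((u : ℤ) - s) + (WW c u - WW c s) + (WW e u - WW e s)

theorem NorthP.short {h R K s t : ℕ} {c e : ℕ → Bool} {p : ℤ × ℤ}
    (hbig : 1000 * (R + K + 1) ≤ h) (hc : GC K t c) (he : Tube R e t) {u : ℕ} (hsu : s ≤ u)
    (hut : u ≤ t) (hn : NorthP h c e p s u) : (u : ℤ) - s ≤ 2 * h := by
  obtain ⟨-, h2, -, h4⟩ := hn
  have hw := hc.window hsu hut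
  have e1 := he.bd hut
  have e2 := he.bd (hsu.trans hut)
  have hbig' : 1000 * ((R : ℤ) + K + 1) ≤ h := by exact_mod_cast hbig
  have hR : (0 : ℤ) ≤ R := Int.natCast_nonneg R
  have hK : (0 : ℤ) ≤ K := Int.natCast_nonneg K
  by_contra hcon
  push Not at hcon
  set w : ℤ := (u : ℤ) - s with hwdef
  set a : ℤ := WW c u - WW c s with hadef
  have ha : w - 2 * R < a := by linarith [e1.1, e1.2, e2.1, e2.2]
  have hpos : 0 < w - 2 * R := by linarith
  have : (w - 2 * R) ^ 2 < a ^ 2 := by nlinarith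
  nlinarith

theorem NorthP.bound {h R K s t : ℕ} {c e : ℕ → Bool} {p : ℤ × ℤ}
    (hbig : 1000 * (R + K + 1) ≤ h) (hc : GC K t c) (he : Tube R e t) {u : ℕ} (hsu : s ≤ u)
    (hut : u ≤ t) (hn : NorthP h c e p s u) : -(h : ℤ) < 2 * (tr h c e p u).1 := by
  have hshort := hn.short hbig hc he hsu hut
  obtain ⟨-, -, ⟨v, hv1, hv2, hv⟩, -⟩ := hn
  have hw := hc.window hv2 hut
  have e1 := he.bd hut
  have e2 := he.bd (hv2.trans hut)
  have hbig' : 1000 * ((R : ℤ) + K + 1) ≤ h := by exact_mod_cast hbig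
  have hR : (0 : ℤ) ≤ R := Int.natCast_nonneg R
  have hK : (0 : ℤ) ≤ K := Int.natCast_nonneg K
  have hv1' : (s : ℤ) ≤ v := by exact_mod_cast hv1
  by_contra hcon
  push Not at hcon
  set a : ℤ := WW c u - WW c v with hadef
  have ha : (h : ℤ) - 2 - 2 * R ≤ -a := by linarith [e1.1, e1.2, e2.1, e2.2]
  have hpos : 0 < (h : ℤ) - 2 - 2 * R := by linarith
  have h1 : ((h : ℤ) - 2 - 2 * R) ^ 2 ≤ a ^ 2 := by nlinarith
  have h2 : a ^ 2 ≤ K * (2 * h) := hw.trans (by
    apply mul_le_mul_of_nonneg_left _ hK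
    linarith)
  nlinarith

theorem NorthP.step {h R K s t : ℕ} {c e : ℕ → Bool} {p : ℤ × ℤ}
    (hbig : 1000 * (R + K + 1) ≤ h) (hc : GC K t c) (he : Tube R e t) {u : ℕ} (hsu : s ≤ u)
    (hut : u + 1 ≤ t) (hn : NorthP h c e p s u) :
    NorthP h c e p s (u + 1) ∨ Absd h (tr h c e p (u + 1)) := by
  have hb := hn.bound hbig hc he hsu (by omega)
  obtain ⟨h1, h2, ⟨v, hv1, hv2, hv⟩, h4⟩ := hn
  have hbig' : 1000 * ((R : ℤ) + K + 1) ≤ h := by exact_mod_cast hbig
  have hR : (0 : ℤ) ≤ R := Int.natCast_nonneg R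
  have hK : (0 : ℤ) ≤ K := Int.natCast_nonneg K
  obtain ⟨s1, s2, s3, s4, s5⟩ := north_step (h := h) (by omega) (c u) (e u) h1 h2 (by linarith)
  rw [← tr_succ] at s1 s2 s3 s4 s5
  by_cases hy : 0 < (tr h c e p (u + 1)).2
  · left
    refine ⟨s1, hy, ?_, ?_⟩
    · rcases lt_or_eq_of_le h1 with hx | hx
      · refine ⟨v, hv1, by omega, ?_⟩
        rw [s2 hx, WW_succ, WW_succ]
        linarith
      · refine ⟨u + 1, by omega, le_refl _, ?_⟩
        simp only [sub_self, add_zero, sub_zero]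
        linarith
    · rw [WW_succ, WW_succ]
      push_cast
      linarith
  · right
    push Not at hy
    refine ⟨s1, hy, ?_⟩
    unfold L1
    rw [abs_of_nonpos s1, abs_of_nonpos hy]
    linarith

theorem north_phase {h R K s t : ℕ} {c e : ℕ → Bool} {p : ℤ × ℤ}
    (hbig : 1000 * (R + K + 1) ≤ h) (hp : p ∈ Box h) (hc : GC K t c) (he : Tube R e t)
    (h1 : (tr h c e p s).1 ≤ 0) (h1' : -1 ≤ (tr h c e p s).1) (h2 : 0 < (tr h c e p s).2) :
    ∀ u, s ≤ u → u ≤ t → NorthP h c e p s u ∨ Absd h (tr h c e p u) := by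
  intro u hsu
  induction u, hsu using Nat.le_induction with
  | base =>
    intro _
    left
    refine ⟨h1, h2, ⟨s, le_refl _, le_refl _, ?_⟩, ?_⟩
    · simp only [sub_self, add_zero, sub_zero]
      linarith
    · have := (mem_Box.mp (tr_box c e hp s)).2.2
      simp only [sub_self, mul_zero, sub_zero, add_zero]
      linarith
  | succ u hsu ih =>
    intro hut
    rcases ih (by omega) with hn | ha
    · exact hn.step hbig hc he hsu hut
    · exact Or.inr (absd_step (by omega) _ _ ha)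

theorem north_end {h R K s t : ℕ} {c e : ℕ → Bool} {p : ℤ × ℤ}
    (hbig : 1000 * (R + K + 1) ≤ h) (hp : p ∈ Box h) (hc : GC K t c) (he : Tube R e t)
    (h1 : (tr h c e p s).1 ≤ 0) (h1' : -1 ≤ (tr h c e p s).1) (h2 : 0 < (tr h c e p s).2)
    (hst : s ≤ t) :
    ((tr h c e p t).1 ≤ 0 ∧ -(h : ℤ) < 2 * (tr h c e p t).1 ∧ 0 < (tr h c e p t).2) ∨
      Absd h (tr h c e p t) := by
  rcases north_phase hbig hp hc he h1 h1' h2 t hst (le_refl _) with hn | ha
  · exact Or.inl ⟨hn.1, hn.bound hbig hc he hst (le_refl _), hn.2.1⟩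
  · exact Or.inr ha

/-- a positive coordinate decreases by at most two -/
theorem pos_step {h : ℕ} (hh : 1 ≤ h) (c e : Bool) {q : ℤ × ℤ} (h1 : 0 < q.1)
    (hneg : (sm h e (zm c q)).1 < 0) :
    q.1 = 1 ∧ (sm h e (zm c q)).1 = -1 ∧ (sm h e (zm c q)).2 = q.2 := by
  obtain ⟨x, y⟩ := q
  simp only at h1
  have hx := sign_cases x
  have hy := sign_cases y
  revert hneg
  cases c <;> cases e <;> simp only [zm_true, zm_false] <;> split_ifs <;>
    simp only [sm_true, sm_false, wr] <;> split_ifs <;> intro hneg <;>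
    refine ⟨?_, ?_, ?_⟩ <;> first | omega | trivial

theorem touch : S_TOUCH := by
  intro h R K s t c e p hbig hp hc he hst hx
  have hbox := mem_Box.mp (tr_box c e hp s)
  rcases hx with hx | ⟨hneg, s', hs', hpos⟩
  · by_cases hy : 0 < (tr h c e p s).2
    · rcases north_end hbig hp hc he (by omega) (by omega) hy hst with hn | ha
      · exact Or.inl hn
      · exact Or.inr (Or.inl ha)
    · right; left
      apply absd_mono (by omega) c e p hst
      refine ⟨by omega, by omega, ?_⟩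
      unfold L1
      rw [hx, abs_zero, abs_of_nonpos (by omega)]
      linarith [hbox.2.1]
  · subst hs'
    rw [tr_succ] at hneg
    obtain ⟨k1, k2, k3⟩ := pos_step (by omega) _ _ hpos hneg
    rw [← tr_succ] at k2 k3 hneg
    by_cases hy : 0 < (tr h c e p (s' + 1)).2
    · rcases north_end hbig hp hc he (by omega) (by omega) hy hst with hn | ha
      · exact Or.inl hn
      · exact Or.inr (Or.inl ha)
    · by_cases hyh : (tr h c e p (s' + 1)).2 = -(h : ℤ)
      · right; right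
        refine ⟨s', by omega, Or.inl ⟨?_, ?_⟩⟩
        · exact Prod.ext k1 (by rw [← k3, hyh])
        · exact Prod.ext k2 hyh
      · right; left
        apply absd_mono (by omega) c e p hst
        refine ⟨by omega, by omega, ?_⟩
        unfold L1
        rw [k2, abs_of_nonpos (by omega : (-1 : ℤ) ≤ 0), abs_of_nonpos (by omega)]
        omega


end Pool.Agent.Helper5K9.ZN
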