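import Pool.Agent.Helper5K9.ZN.Kit81
import Pool.Agent.Helper5K9.ZN.Touch

/-!
# Zombies on the odd torus: absorption
-/

set_option autoImplicit false

namespace Pool.Agent.Helper5K9.ZN

namespace AbsL

/-- the first crossing -/
def Cr (h : ℕ) (c e : ℕ → Bool) (p : ℤ × ℤ) (s : ℕ) : Prop :=
  CrossX h c e p s ∨ CrossX h (fun s => !(c s)) (fun s => !(e s)) p.swap s

theorem crossY_iff {h : ℕ} {c e : ℕ → Bool} {p : ℤ × ℤ} {s : ℕ} :
    CrossX h (fun s => !(c s)) (fun s => !(e s)) p.swap s ↔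
      ((tr h c e p s).2 = 0 ∨ ((tr h c e p s).2 < 0 ∧ ∃ s', s' + 1 = s ∧ 0 < (tr h c e p s').2)) := by
  unfold CrossX
  simp only [sym h c e p, Prod.fst_swap]

/-- a window of length `2 h` -/
theorem win {h R K T : ℕ} {c : ℕ → Bool} (hbig : 1000 * (R + K + 1) ≤ h) (hc : GC K T c)
    (s : ℕ) (hs : s + 2 * h ≤ T) : |WW c (s + 2 * h) - WW c s| ≤ h := by
  have hw := hc s (2 * h) hs
  have hbig' : 1000 * ((R : ℤ) + K + 1) ≤ h := by exact_mod_cast hbig
  have hR : (0 : ℤ) ≤ R := Int.natCast_nonneg R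
  have hK : (0 : ℤ) ≤ K := Int.natCast_nonneg K
  apply abs_le_of_sq_le_sq
  · push_cast at hw
    nlinarith
  · exact Int.natCast_nonneg h

theorem posX_run {h : ℕ} {c e : ℕ → Bool} {p : ℤ × ℤ} (h1 : 1 ≤ h) {s T : ℕ}
    (hno : ∀ u ≤ T, ¬ Cr h c e p u) (hx : 0 < (tr h c e p s).1) :
    ∀ u : ℕ, s ≤ u → u ≤ T → 0 < (tr h c e p u).1 ∧
      2 * (tr h c e p u).1 = 2 * (tr h c e p s).1 - 2 * ((u : ℤ) - s) -
        (WW c u - WW c s) - (WW e u - WW e s) := by
  intro u hu
  induction u, hu using Nat.le_induction with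
  | base => intro _; exact ⟨hx, by ring⟩
  | succ u hu ih =>
    intro hT
    have ih' := ih (by omega)
    have n1 := hno (u + 1) hT
    have n0 := hno u (by omega)
    unfold Cr at n1 n0
    rw [crossY_iff] at n1 n0
    unfold CrossX at n1 n0
    push Not at n1 n0
    have n2 : ¬ ((tr h c e p (u + 1)).1 < 0) := by
      intro hcon
      have := n1.1.2 hcon u rfl
      omega
    have n3 := n1.1.1
    have n4 := n0.2.1
    obtain ⟨x1, y1, hz, hs⟩ := Kit81.tr_step h c e p u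
    rw [Kit81.WW_succ, Kit81.WW_succ]
    unfold Kit81.ZS at hz
    unfold Kit81.SS at hs
    have hc := Kit81.sgn_cases (c u)
    have he := Kit81.sgn_cases (e u)
    push_cast
    omega

theorem negX_run {h : ℕ} {c e : ℕ → Bool} {p : ℤ × ℤ} (hp : p ∈ Box h) {T : ℕ}
    (hno : ∀ u ≤ T, ¬ Cr h c e p u) (hx : ∀ u ≤ T, (tr h c e p u).1 < 0) :
    ∀ u : ℕ, u ≤ T → 2 * (tr h c e p u).1 = 2 * p.1 + WW c u - WW e u := by
  intro u
  induction u with
  | zero => intro _; rw [Kit81.WW_zero, Kit81.WW_zero]; change 2 * p.1 = _; ring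
  | succ u ih =>
    intro hT
    have ih' := ih (by omega)
    have n0 := hno u (by omega)
    unfold Cr at n0
    rw [crossY_iff] at n0
    push Not at n0
    have n4 := n0.2.1
    have hx0 := hx u (by omega)
    have hx1 := hx (u + 1) hT
    have hb := Kit81.mem_Box.1 (Kit81.tr_box c e hp u)
    obtain ⟨x1, y1, hz, hs⟩ := Kit81.tr_step h c e p u
    rw [Kit81.WW_succ, Kit81.WW_succ]
    unfold Kit81.ZS at hz
    unfold Kit81.SS at hs
    have hc := Kit81.sgn_cases (c u)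
    have he := Kit81.sgn_cases (e u)
    omega

theorem cross_exists {h R K T₁ T : ℕ} {c e : ℕ → Bool} {p : ℤ × ℤ}
    (hbig : 1000 * (R + K + 1) ≤ h) (hp : p ∈ Box h) (hc : GC K T c) (he : Tube R e T)
    (hT : T₁ + 2 * h ≤ T) (h3 : 3 * (h : ℤ) < |WW c T₁|) : ∃ s ≤ T₁ + 2 * h, Cr h c e p s := by
  by_contra hcon
  push Not at hcon
  have h1 : 1 ≤ h := by omega
  have hneg : ∀ u ≤ T₁, (tr h c e p u).1 < 0 := by
    intro u hu
    by_contra hge
    have n0 := hcon u (by omega)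
    unfold Cr CrossX at n0
    push Not at n0
    have n1 := n0.1.1
    have hpos : 0 < (tr h c e p u).1 := by omega
    have hr := posX_run h1 hcon hpos (u + 2 * h) (by omega) (by omega)
    have hw := abs_le.1 (win hbig hc u (by omega))
    have e1 := he.bd (s := u) (by omega)
    have e2 := he.bd (s := u + 2 * h) (by omega)
    have hb := mem_Box.1 (tr_box c e hp u)
    have hr1 := hr.1
    have hr2 := hr.2
    push_cast at hr2
    omega
  have hr := negX_run hp (fun u hu => hcon u (by omega)) hneg T₁ le_rfl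
  have e1 := he.bd (s := T₁) (by omega)
  have hb := mem_Box.1 (tr_box c e hp T₁)
  have hb0 := mem_Box.1 hp
  have hn1 := hneg T₁ le_rfl
  have hn0 : p.1 < 0 := hneg 0 (Nat.zero_le _)
  rcases lt_abs.1 h3 with h3 | h3 <;> omega

theorem exStep_cross {h : ℕ} {c e : ℕ → Bool} {p : ℤ × ℤ} {s : ℕ}
    (hx : ExStep h c e p s) : Cr h c e p (s + 1) := by
  unfold Cr
  rw [crossY_iff]
  rcases hx with ⟨hx1, hx2⟩ | ⟨hx1, hx2⟩
  · left
    right
    rw [hx2]
    refine ⟨by simp, s, rfl, ?_⟩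
    rw [hx1]; simp
  · right
    right
    rw [hx2]
    refine ⟨by simp, s, rfl, ?_⟩
    rw [hx1]; simp

/-- the north sector is left in `2 h` rounds -/
theorem north_run {h : ℕ} {c e : ℕ → Bool} {p : ℤ × ℤ} {s T : ℕ}
    (hn : ∀ u : ℕ, s ≤ u → u ≤ T → (tr h c e p u).1 ≤ 0 ∧ -(h : ℤ) < (tr h c e p u).1 ∧
      0 < (tr h c e p u).2) :
    ∀ u : ℕ, s ≤ u → u ≤ T →
      2 * (tr h c e p u).2 ≤ 2 * (tr h c e p s).2 - 2 * ((u : ℤ) - s) +
        (WW c u - WW c s) + (WW e u - WW e s) := by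
  intro u hu
  induction u, hu using Nat.le_induction with
  | base => intro _; ring_nf; exact le_refl _
  | succ u hu ih =>
    intro hT
    have ih' := ih (by omega)
    have n0 := hn u hu (by omega)
    have n1 := hn (u + 1) (by omega) hT
    obtain ⟨x1, y1, hz, hs⟩ := Kit81.tr_step h c e p u
    rw [Kit81.WW_succ, Kit81.WW_succ]
    unfold Kit81.ZS at hz
    unfold Kit81.SS at hs
    have hc := Kit81.sgn_cases (c u)
    have he := Kit81.sgn_cases (e u)
    push_cast
    omega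

/-- the sector north, within distance `h` -/
theorem u1_run {h : ℕ} {c e : ℕ → Bool} {p : ℤ × ℤ} {s : ℕ}
    (hn : (tr h c e p s).1 ≤ 0 ∧ 0 < (tr h c e p s).2 ∧
      -(tr h c e p s).1 + (tr h c e p s).2 ≤ h) :
    ∀ u : ℕ, s ≤ u → ((tr h c e p u).1 ≤ 0 ∧ 0 < (tr h c e p u).2 ∧
      -(tr h c e p u).1 + (tr h c e p u).2 ≤ h ∧
      2 * (tr h c e p u).2 ≤ 2 * (tr h c e p s).2 - 2 * ((u : ℤ) - s) +
        (WW c u - WW c s) + (WW e u - WW e s)) ∨
      ((tr h c e p u).1 ≤ 0 ∧ (tr h c e p u).2 ≤ 0 ∧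
        -(tr h c e p u).1 - (tr h c e p u).2 ≤ h) := by
  intro u hu
  induction u, hu using Nat.le_induction with
  | base => left; exact ⟨hn.1, hn.2.1, hn.2.2, by ring_nf; exact le_refl _⟩
  | succ u hu ih =>
    obtain ⟨x1, y1, hz, hs⟩ := Kit81.tr_step h c e p u
    rw [Kit81.WW_succ, Kit81.WW_succ]
    unfold Kit81.ZS at hz
    unfold Kit81.SS at hs
    have hc := Kit81.sgn_cases (c u)
    have he := Kit81.sgn_cases (e u)
    push_cast
    omega

/-- the sector east, within distance `h` -/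
theorem u2_run {h : ℕ} {c e : ℕ → Bool} {p : ℤ × ℤ} {s : ℕ}
    (hn : 0 < (tr h c e p s).1 ∧ (tr h c e p s).2 ≤ 0 ∧
      (tr h c e p s).1 - (tr h c e p s).2 ≤ h) :
    ∀ u : ℕ, s ≤ u → (0 < (tr h c e p u).1 ∧ (tr h c e p u).2 ≤ 0 ∧
      (tr h c e p u).1 - (tr h c e p u).2 ≤ h ∧
      2 * (tr h c e p u).1 ≤ 2 * (tr h c e p s).1 - 2 * ((u : ℤ) - s) -
        (WW c u - WW c s) - (WW e u - WW e s)) ∨
      ((tr h c e p u).1 ≤ 0 ∧ (tr h c e p u).2 ≤ 0 ∧
        -(tr h c e p u).1 - (tr h c e p u).2 ≤ h) := by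
  intro u hu
  induction u, hu using Nat.le_induction with
  | base => left; exact ⟨hn.1, hn.2.1, hn.2.2, by ring_nf; exact le_refl _⟩
  | succ u hu ih =>
    obtain ⟨x1, y1, hz, hs⟩ := Kit81.tr_step h c e p u
    rw [Kit81.WW_succ, Kit81.WW_succ]
    unfold Kit81.ZS at hz
    unfold Kit81.SS at hs
    have hc := Kit81.sgn_cases (c u)
    have he := Kit81.sgn_cases (e u)
    push_cast
    omega

/-- the shell `L1 = h + 1` of the south-west quadrant -/
theorem shell_run {h : ℕ} {c e : ℕ → Bool} {p : ℤ × ℤ} (h1 : 1 ≤ h) {s : ℕ}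
    (hn : (tr h c e p s).1 ≤ -1 ∧ (tr h c e p s).2 ≤ -1 ∧
      (tr h c e p s).1 + (tr h c e p s).2 = -(h + 1)) :
    ∀ u : ℕ, s ≤ u → ((tr h c e p u).1 ≤ -1 ∧ (tr h c e p u).2 ≤ -1 ∧
      (tr h c e p u).1 + (tr h c e p u).2 = -(h + 1) ∧
      2 * (tr h c e p u).1 = 2 * (tr h c e p s).1 +
        (WW c u - WW c s) - (WW e u - WW e s)) ∨
      ((tr h c e p u).1 ≤ 0 ∧ 0 < (tr h c e p u).2 ∧
        -(tr h c e p u).1 + (tr h c e p u).2 ≤ h) ∨
      (0 < (tr h c e p u).1 ∧ (tr h c e p u).2 ≤ 0 ∧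
        (tr h c e p u).1 - (tr h c e p u).2 ≤ h) ∨
      ((tr h c e p u).1 ≤ 0 ∧ (tr h c e p u).2 ≤ 0 ∧
        -(tr h c e p u).1 - (tr h c e p u).2 ≤ h) := by
  intro u hu
  induction u, hu using Nat.le_induction with
  | base => left; exact ⟨hn.1, hn.2.1, hn.2.2, by ring⟩
  | succ u hu ih =>
    obtain ⟨x1, y1, hz, hs⟩ := Kit81.tr_step h c e p u
    rw [Kit81.WW_succ, Kit81.WW_succ]
    unfold Kit81.ZS at hz
    unfold Kit81.SS at hs
    have hc := Kit81.sgn_cases (c u)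
    have he := Kit81.sgn_cases (e u)
    omega

theorem absd_of {h : ℕ} {q : ℤ × ℤ} (h1 : q.1 ≤ 0) (h2 : q.2 ≤ 0) (h3 : -q.1 - q.2 ≤ h) :
    Absd h q := by
  refine ⟨h1, h2, ?_⟩
  unfold L1
  rw [abs_of_nonpos h1, abs_of_nonpos h2]
  linarith

theorem absd_of_cross {h R K T₂ T τ : ℕ} {c e : ℕ → Bool} {p : ℤ × ℤ}
    (hbig : 1000 * (R + K + 1) ≤ h) (hp : p ∈ Box h) (hc : GC K T c) (he : Tube R e T)
    (hT : τ + T₂ + 10 * h ≤ T) (h3 : 3 * (h : ℤ) < |WW c (τ + T₂) - WW c τ|)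
    (hX : CrossX h c e p τ) (hmin : ∀ s < τ, ¬ Cr h c e p s) : Absd h (tr h c e p T) := by
  have h1 : 1 ≤ h := by omega
  by_contra hna
  have hna' : ∀ u ≤ T, ¬ Absd h (tr h c e p u) := fun u hu hab =>
    hna (absd_mono h1 c e p hu hab)
  have htouch : ∀ u, τ ≤ u → u ≤ T →
      ((tr h c e p u).1 ≤ 0 ∧ -(h : ℤ) < 2 * (tr h c e p u).1 ∧ 0 < (tr h c e p u).2) ∨
        ∃ s' < u, ExStep h c e p s' := by
    intro u hu1 hu2
    rcases touch h R K τ u c e p hbig hp (hc.mono hu2) (he.mono hu2) hu1 hX with hh | hh | hh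
    · exact Or.inl hh
    · exact absurd hh (hna' u hu2)
    · exact Or.inr hh
  rcases htouch τ le_rfl (by omega) with hn | ⟨s', hs', hex⟩
  · -- north at `τ`
    have hP : ∀ u, τ ≤ u → u ≤ T → ∀ s' < u, ¬ ExStep h c e p s' := by
      intro u hu
      induction u, hu using Nat.le_induction with
      | base =>
        intro _ s' hs' hex
        have hcr := exStep_cross hex
        have hs1 : s' + 1 = τ := by
          by_contra hne
          exact hmin (s' + 1) (by omega) hcr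
        rw [← hs1] at hn
        rcases hex with ⟨_, hx2⟩ | ⟨_, hx2⟩ <;> rw [hx2] at hn <;> simp only at hn <;> omega
      | succ u hu ih =>
        intro hT' s' hs'
        rcases Nat.lt_succ_iff_lt_or_eq.1 hs' with hlt | heq
        · exact ih (by omega) s' hlt
        · rw [heq]
          intro hex
          rcases htouch u hu (by omega) with hn' | ⟨s'', hs'', hex''⟩
          · rcases hex with ⟨hx1, _⟩ | ⟨hx1, _⟩ <;> rw [hx1] at hn' <;> simp only at hn' <;> omega
          · exact ih (by omega) s'' hs'' hex''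
    have hN : ∀ u, τ ≤ u → u ≤ T →
        ((tr h c e p u).1 ≤ 0 ∧ -(h : ℤ) < 2 * (tr h c e p u).1 ∧ 0 < (tr h c e p u).2) := by
      intro u hu1 hu2
      rcases htouch u hu1 hu2 with hn' | ⟨s'', hs'', hex''⟩
      · exact hn'
      · exact absurd hex'' (hP u hu1 hu2 s'' hs'')
    have hr := north_run (h := h) (c := c) (e := e) (p := p) (s := τ) (T := T)
      (fun u hu1 hu2 => ⟨(hN u hu1 hu2).1, by have := hN u hu1 hu2; omega, (hN u hu1 hu2).2.2⟩)
      (τ + 2 * h) (by omega) (by omega)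
    have hw := abs_le.1 (win hbig hc τ (by omega))
    have e1 := he.bd (s := τ) (by omega)
    have e2 := he.bd (s := τ + 2 * h) (by omega)
    have hb := mem_Box.1 (tr_box c e hp τ)
    have hy := (hN (τ + 2 * h) (by omega) (by omega)).2.2
    push_cast at hr
    omega
  · -- exceptional step at `τ - 1`
    have hcr := exStep_cross hex
    have hs1 : s' + 1 = τ := by
      by_contra hne
      exact hmin (s' + 1) (by omega) hcr
    have hsh : (tr h c e p τ).1 ≤ -1 ∧ (tr h c e p τ).2 ≤ -1 ∧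
        (tr h c e p τ).1 + (tr h c e p τ).2 = -(h + 1) := by
      rw [← hs1]
      rcases hex with ⟨_, hx2⟩ | ⟨_, hx2⟩ <;> rw [hx2] <;> simp only <;> omega
    have e1 := he.bd (s := τ) (by omega)
    have e2 := he.bd (s := τ + T₂) (by omega)
    have e3 := he.bd (s := τ + T₂ + 2 * h) (by omega)
    have hb := mem_Box.1 (tr_box c e hp (τ + T₂))
    have hw := abs_le.1 (win hbig hc (τ + T₂) (by omega))
    have hab : ∀ u ≤ T, ¬ ((tr h c e p u).1 ≤ 0 ∧ (tr h c e p u).2 ≤ 0 ∧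
        -(tr h c e p u).1 - (tr h c e p u).2 ≤ h) := fun u hu hq =>
      hna' u hu (absd_of hq.1 hq.2.1 hq.2.2)
    have hab1 := hab (τ + T₂) (by omega)
    have hab2 := hab (τ + T₂ + 2 * h) (by omega)
    rcases shell_run h1 hsh (τ + T₂) (by omega) with hq | hq | hq | hq
    · rcases lt_abs.1 h3 with h3 | h3 <;> omega
    · rcases u1_run hq (τ + T₂ + 2 * h) (by omega) with hq' | hq'
      · have hq1 := hq'.2.1
        have hq2 := hq'.2.2.2
        push_cast at hq2
        omega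
      · exact hab2 hq'
    · rcases u2_run hq (τ + T₂ + 2 * h) (by omega) with hq' | hq'
      · have hq1 := hq'.1
        have hq2 := hq'.2.2.2
        push_cast at hq2
        omega
      · exact hab2 hq'
    · exact hab1 hq

end AbsL

open AbsL in
theorem abs' : S_ABS := by
  classical
  intro h R K T₁ T₂ T c e p hbig hp hc he hT h3 h3'
  have hex : ∃ s, Cr h c e p s := by
    obtain ⟨s, _, hs⟩ := cross_exists hbig hp hc he (by omega) h3
    exact ⟨s, hs⟩
  have hle : Nat.find hex ≤ T₁ + 2 * h := by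
    obtain ⟨s, hs1, hs⟩ := cross_exists hbig hp hc he (by omega) h3
    exact (Nat.find_le hs).trans hs1
  have hmin : ∀ s < Nat.find hex, ¬ Cr h c e p s := fun s hs => Nat.find_min hex hs
  have hsp := Nat.find_spec hex
  set τ := Nat.find hex with hτ
  have h3'' := h3' τ (by omega)
  rcases hsp with hX | hY
  · exact absd_of_cross hbig hp hc he (by omega) h3'' hX hmin
  · apply Absd_swap
    rw [← sym h c e p T]
    refine absd_of_cross (T₂ := T₂) hbig (Box_swap hp) (GC_not hc) (Tube_not he) (by omega)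
      ?_ hY ?_
    · rw [WW_not, WW_not, ← abs_neg]
      have : -(-WW c (τ + T₂) - -WW c τ) = WW c (τ + T₂) - WW c τ := by ring
      rw [this]
      exact h3''
    · intro s hs hcr
      apply hmin s hs
      rcases hcr with hcr | hcr
      · exact Or.inr hcr
      · left
        simpa using hcr

end Pool.Agent.Helper5K9.ZN
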