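import Pool.Agent.Helper5K9.ZN.Stm

/-!
# Independence of disjoint sets of coins
-/

set_option autoImplicit false

namespace Pool.Agent.Helper5K9.ZN

open Finset

/-- the coins of `c` before `s` and those of `c'` from `s` on -/
def mix {T : ℕ} (s : ℕ) (c c' : Fin T → Bool) : Fin T → Bool := fun i =>
  if i.1 < s then c i else c' i

theorem mix_mix {T : ℕ} (s : ℕ) (c c' : Fin T → Bool) : mix s (mix s c c') (mix s c' c) = c := by
  funext i
  by_cases h : i.1 < s
  · simp [mix, h]
  · simp [mix, h]

theorem ind : S_IND := by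
  intro T s f g hf hg
  have h1 : (∑ c, f c) * ∑ c, g c = ∑ x : (Fin T → Bool) × (Fin T → Bool),
      f (mix s x.1 x.2) * g (mix s x.1 x.2) := by
    rw [Finset.sum_mul_sum, ← Finset.univ_product_univ, Finset.sum_product]
    refine Finset.sum_congr rfl fun c _ => Finset.sum_congr rfl fun c' _ => ?_
    rw [hf c (mix s c c') (fun i hi => by simp [mix, hi]),
      hg c' (mix s c c') (fun i hi => by simp [mix, Nat.not_lt.2 hi])]
  have h2 : ∑ x : (Fin T → Bool) × (Fin T → Bool), f (mix s x.1 x.2) * g (mix s x.1 x.2) =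
      ∑ x : (Fin T → Bool) × (Fin T → Bool), f x.1 * g x.1 := by
    refine Finset.sum_nbij' (fun x => (mix s x.1 x.2, mix s x.2 x.1))
      (fun x => (mix s x.1 x.2, mix s x.2 x.1)) (fun _ _ => Finset.mem_univ _)
      (fun _ _ => Finset.mem_univ _) ?_ ?_ (fun _ _ => rfl)
    · intro x _
      exact Prod.ext (mix_mix s x.1 x.2) (mix_mix s x.2 x.1)
    · intro x _
      exact Prod.ext (mix_mix s x.1 x.2) (mix_mix s x.2 x.1)
  rw [h1, h2, ← Finset.univ_product_univ, Finset.sum_product]
  simp only [Finset.sum_const, Finset.card_univ, nsmul_eq_mul, Fintype.card_pi, Fintype.card_bool,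
    Finset.prod_const, Fintype.card_fin]
  rw [Finset.sum_mul]
  refine Finset.sum_congr rfl fun c _ => ?_
  push_cast
  ring

end Pool.Agent.Helper5K9.ZN
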