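import Pool.Agent.Helper5K9.ZN.Near3

/-! # Near zombies: the main estimate -/

set_option autoImplicit false
set_option linter.unusedSectionVars false

namespace Pool.Agent.Helper5K9.ZN

open Finset

namespace NearL

/-- the number of starting points of zombies which are in the east sector near the survivor -/
noncomputable def EP (h R ρ K T t : ℕ) (c : ℕ → Bool) : ℕ := by
  classical
  exact ((Box h).filter fun p => GC K T c ∧ ∃ e : ℕ → Bool, Tube R e t ∧
    NearE ρ (tr h c e p t)).card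

lemma EP_eq {h R ρ K T t : ℕ} {c : ℕ → Bool} (hg : ¬ GC K T c) : EP h R ρ K T t c = 0 := by
  classical
  unfold EP
  rw [card_eq_zero, eq_empty_iff_forall_notMem]
  intro p hp
  rw [mem_filter] at hp
  exact hg hp.2.1

/-- the polynomial bookkeeping -/
lemma pow_bound {a b d M : ℝ} (ha : 0 ≤ a) (hb : 0 ≤ b) (hd : 0 ≤ d) (h1 : a ≤ M)
    (h2 : b ≤ 2 * M) (h3 : d ≤ 4 * M) : a ^ 4 * b ^ 2 * d ≤ 16 * M ^ 7 := by
  have hM : 0 ≤ M := ha.trans h1
  calc a ^ 4 * b ^ 2 * d ≤ M ^ 4 * (2 * M) ^ 2 * (4 * M) := by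
        gcongr
    _ = 16 * M ^ 7 := by ring

theorem nearE (hW1 : S_W1) (hW3 : S_W3) (hI : S_IND) (hS : S_SYM) (hF : S_FREE) (hT : S_TOUCH)
    (hN : S_NONE) (hO : S_O1) (hQ : S_QB) (hA : S_EA) :
    ∃ C : ℝ, 0 < C ∧ ∀ h R ρ K T t : ℕ, 1000 * (R + ρ + K + 1) ≤ h → t ≤ T →
      ∑ c : Fin T → Bool, (EP h R ρ K T t (ext c) : ℝ) ≤
        C * (R + ρ + K + 1) ^ 7 * Real.sqrt h * 2 ^ T := by
  classical
  obtain ⟨C1, hC1, hW⟩ := hW1
  obtain ⟨CO, hO⟩ := hO
  obtain ⟨CQ, hQ⟩ := hQ
  refine ⟨3200 * CQ * C1 + 16 + 125000 * CO * C1, by positivity, ?_⟩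
  intro h R ρ K T t H ht
  set M : ℝ := (R : ℝ) + ρ + K + 1 with hM
  have hR0 : (0 : ℝ) ≤ R := Nat.cast_nonneg _
  have hρ0 : (0 : ℝ) ≤ ρ := Nat.cast_nonneg _
  have hK0 : (0 : ℝ) ≤ K := Nat.cast_nonneg _
  have hM1 : 1 ≤ M := by rw [hM]; linarith
  have hM0 : 0 ≤ M := by linarith
  have hh : (1000 : ℝ) ≤ h := by
    have : 1000 ≤ h := by omega
    exact_mod_cast this
  have h2T : (0 : ℝ) < 2 ^ T := by positivity
  have hsh : 1 ≤ Real.sqrt h := by
    rw [Real.one_le_sqrt]; linarith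
  have hM7 : 1 ≤ M ^ 7 := one_le_pow₀ hM1
  -- the split
  have key : ∀ s w : ℕ, s + w = t → 4 * w ≤ h → ∀ c : Fin T → Bool,
      (EP h R ρ K T t (ext c) : ℝ) ≤
        (100 * CQ) * ((R + 1) ^ 4 * (2 * R + ρ + 1) ^ 2) * (VV (ext c) s w (2 * ρ + 4 * R) : ℝ) +
          (if GC K T (ext c) then ((BB h R ρ s w (ext c)).card : ℝ) else 0) := by
    intro s w hsw hw c
    by_cases hg : GC K T (ext c)
    · rw [if_pos hg]
      have h1 := card_split (h := h) (R := R) (ρ := ρ) (s := s) (w := w) (c := ext c) hw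
        (by omega)
      have h2 := card_A hQ hF hS hT hN (h := h) (R := R) (ρ := ρ) (K := K) (s := s) (w := w)
        (c := ext c) H hw (GC_mono hg (by omega))
      have h3 : EP h R ρ K T t (ext c) = ((Box h).filter fun p => ∃ e : ℕ → Bool,
          Tube R e (s + w) ∧ NearE ρ (tr h (ext c) e p (s + w))).card := by
        unfold EP
        rw [hsw]
        congr 1
        refine filter_congr fun p _ => ?_
        simp only [hg, true_and]
      have h4 : EP h R ρ K T t (ext c) ≤ CQ * (2 * R + ρ + 1) ^ 2 *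
          VV (ext c) s w (2 * ρ + 4 * R) * (100 * (R + 1) ^ 4) + (BB h R ρ s w (ext c)).card := by
        rw [h3]
        refine h1.trans (Nat.add_le_add_right ?_ _)
        exact h2
      have h5 : (EP h R ρ K T t (ext c) : ℝ) ≤ CQ * (2 * R + ρ + 1) ^ 2 *
          VV (ext c) s w (2 * ρ + 4 * R) * (100 * (R + 1) ^ 4) +
            ((BB h R ρ s w (ext c)).card : ℝ) := by
        exact_mod_cast h4
      refine h5.trans (le_of_eq ?_)
      ring
    · rw [if_neg hg, EP_eq hg]
      push_cast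
      positivity
  -- the first part
  have partA : ∀ s w : ℕ, s + w = t → 4 * w ≤ h →
      ∑ c : Fin T → Bool, (100 * CQ) * ((R + 1) ^ 4 * (2 * R + ρ + 1) ^ 2) *
        (VV (ext c) s w (2 * ρ + 4 * R) : ℝ) ≤
      3200 * CQ * C1 * M ^ 7 * Real.sqrt h * 2 ^ T := by
    intro s w hsw hw
    rw [← mul_sum]
    have h1 := sum_VV (C := C1) (fun T s t A a b => by convert hW T s t A a b) hC1 (T := T)
      (s := s) (w := w) (A := 2 * ρ + 4 * R) (by omega)
    have h2 : Real.sqrt ((w : ℝ) + 1) ≤ Real.sqrt h := by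
      apply Real.sqrt_le_sqrt
      have : w + 1 ≤ h := by omega
      exact_mod_cast this
    have h3 := pow_bound (a := (R : ℝ) + 1) (b := 2 * R + ρ + 1)
      (d := ((2 * ρ + 4 * R : ℕ) : ℝ) + 1) (M := M) (by positivity) (by positivity)
      (by positivity) (by rw [hM]; linarith) (by rw [hM]; linarith)
      (by rw [hM]; push_cast; linarith)
    calc (100 * (CQ : ℝ)) * (((R : ℝ) + 1) ^ 4 * (2 * R + ρ + 1) ^ 2) *
          ∑ c : Fin T → Bool, (VV (ext c) s w (2 * ρ + 4 * R) : ℝ)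
        ≤ (100 * (CQ : ℝ)) * (((R : ℝ) + 1) ^ 4 * (2 * R + ρ + 1) ^ 2) *
          (C1 * (((2 * ρ + 4 * R : ℕ) : ℝ) + 1) * 2 ^ T * (2 * Real.sqrt ((w : ℝ) + 1))) :=
          mul_le_mul_of_nonneg_left h1 (by positivity)
      _ = (200 * CQ * C1) * (((R : ℝ) + 1) ^ 4 * (2 * R + ρ + 1) ^ 2 *
          (((2 * ρ + 4 * R : ℕ) : ℝ) + 1)) * 2 ^ T * Real.sqrt ((w : ℝ) + 1) := by ring
      _ ≤ (200 * CQ * C1) * (16 * M ^ 7) * 2 ^ T * Real.sqrt h := by
          gcongr
      _ = _ := by ring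
  rcases le_or_gt t (h / 4) with hcase | hcase
  · -- early times
    have h1 : ∑ c : Fin T → Bool, (if GC K T (ext c) then ((BB h R ρ 0 t (ext c)).card : ℝ)
        else 0) ≤ 16 * M ^ 7 * Real.sqrt h * 2 ^ T := by
      have h2 : ∀ c : Fin T → Bool, (if GC K T (ext c) then ((BB h R ρ 0 t (ext c)).card : ℝ)
          else 0) ≤ (2 * R + 2 * ρ + 1) * (ρ + R + 1) +
            (2 * R + 2 * ρ + 1) * |(WW (ext c) t : ℝ)| := by
        intro c
        split_ifs
        · exact (card_B0 hA).trans (le_of_eq (by ring))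
        · positivity
      refine (sum_le_sum fun c _ => h2 c).trans ?_
      rw [sum_add_distrib, sum_const, card_univ, Fintype.card_fun, Fintype.card_bool,
        Fintype.card_fin, nsmul_eq_mul, ← mul_sum]
      have h3 := hW3 T t ht
      have h4 : Real.sqrt (t : ℝ) ≤ Real.sqrt h := by
        apply Real.sqrt_le_sqrt
        have : t ≤ h := by omega
        exact_mod_cast this
      have h5 : (2 * (R : ℝ) + 2 * ρ + 1) ≤ 2 * M := by rw [hM]; linarith
      have h6 : ((ρ : ℝ) + R + 1) ≤ M := by rw [hM]; linarith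
      push_cast
      calc (2 : ℝ) ^ T * ((2 * R + 2 * ρ + 1) * (ρ + R + 1)) +
            (2 * R + 2 * ρ + 1) * ∑ c : Fin T → Bool, |(WW (ext c) t : ℝ)|
          ≤ 2 ^ T * ((2 * M) * M) + (2 * M) * (Real.sqrt h * 2 ^ T) := by
            gcongr
            exact h3.trans (by gcongr)
        _ ≤ 16 * M ^ 7 * Real.sqrt h * 2 ^ T := by
            have h7 : M * M ≤ M ^ 7 := by
              calc M * M = M ^ 2 := by ring
                _ ≤ M ^ 7 := pow_le_pow_right₀ hM1 (by norm_num)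
            have h8 : M ≤ M ^ 7 := by
              calc M = M ^ 1 := by ring
                _ ≤ M ^ 7 := pow_le_pow_right₀ hM1 (by norm_num)
            have h9 : M * M ≤ M ^ 7 * Real.sqrt h :=
              h7.trans (le_mul_of_one_le_right (by positivity) hsh)
            have h10 : M * Real.sqrt h ≤ M ^ 7 * Real.sqrt h :=
              mul_le_mul_of_nonneg_right h8 (by positivity)
            have h11 : 2 * (M * M) + 2 * (M * Real.sqrt h) ≤ 16 * (M ^ 7 * Real.sqrt h) := by
              linarith [mul_nonneg (pow_nonneg hM0 7) (Real.sqrt_nonneg (h : ℝ))]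
            calc 2 ^ T * ((2 * M) * M) + (2 * M) * (Real.sqrt h * 2 ^ T) =
                  (2 * (M * M) + 2 * (M * Real.sqrt h)) * 2 ^ T := by ring
              _ ≤ (16 * (M ^ 7 * Real.sqrt h)) * 2 ^ T :=
                  mul_le_mul_of_nonneg_right h11 h2T.le
              _ = _ := by ring
    have h4 : 4 * t ≤ h := by omega
    calc ∑ c : Fin T → Bool, (EP h R ρ K T t (ext c) : ℝ)
        ≤ _ := sum_le_sum fun c _ => key 0 t (by omega) h4 c
      _ ≤ 3200 * CQ * C1 * M ^ 7 * Real.sqrt h * 2 ^ T + 16 * M ^ 7 * Real.sqrt h * 2 ^ T := by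
          rw [sum_add_distrib]
          exact add_le_add (partA 0 t (by omega) h4) h1
      _ ≤ (3200 * CQ * C1 + 16 + 125000 * CO * C1) * M ^ 7 * Real.sqrt h * 2 ^ T := by
          have : 0 ≤ 125000 * CO * C1 * M ^ 7 * Real.sqrt h * 2 ^ T := by positivity
          linarith [this]
  · -- late times
    set w := h / 4 with hw
    set s := t - w with hs
    have hsw : s + w = t := by omega
    have hw4 : 4 * w ≤ h := by omega
    have h1 : ∑ c : Fin T → Bool, (if GC K T (ext c) then ((BB h R ρ s w (ext c)).card : ℝ)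
        else 0) ≤ 125000 * CO * C1 * M ^ 7 * Real.sqrt h * 2 ^ T := by
      have h2 : ∀ c : Fin T → Bool, (if GC K T (ext c) then ((BB h R ρ s w (ext c)).card : ℝ)
          else 0) ≤ ((ff h R K s (4 * R + 2 * ρ) ((w : ℤ) - 2 * R) (ext c) *
            gg s (s + w) (2 * ρ + 4 * R) (ext c) : ℕ) : ℝ) := by
        intro c
        split_ifs with hg
        · exact_mod_cast card_B1 hA (GC_mono hg (by omega))
        · positivity
      have h3 := sum_ff_gg hI (C := C1) (fun T s t A a b => by convert hW T s t A a b)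
        (CO := CO) (fun h R K s l u c a b => by convert hO h R K s l u c a b)
        (h := h) (R := R) (K := K) (s := s) (l := 4 * R + 2 * ρ) (w := w) (A := 2 * ρ + 4 * R)
        (T := T) (u := (w : ℤ) - 2 * R) (by omega) (by omega)
      have h4 : Real.sqrt h ≤ 2 * Real.sqrt ((w : ℝ) + 1) := by
        rw [show (2 : ℝ) = Real.sqrt 4 by
          rw [show (4 : ℝ) = 2 ^ 2 by norm_num, Real.sqrt_sq (by norm_num)],
          ← Real.sqrt_mul (by norm_num)]
        apply Real.sqrt_le_sqrt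
        have : h ≤ 4 * (w + 1) := by omega
        have h5 : (h : ℝ) ≤ 4 * ((w : ℝ) + 1) := by exact_mod_cast this
        exact h5
      have h5 : ∑ c : Fin T → Bool, (if GC K T (ext c) then ((BB h R ρ s w (ext c)).card : ℝ)
          else 0) ≤ ∑ c : Fin T → Bool, ((ff h R K s (4 * R + 2 * ρ) ((w : ℤ) - 2 * R) (ext c) *
            gg s (s + w) (2 * ρ + 4 * R) (ext c) : ℕ) : ℝ) := sum_le_sum fun c _ => h2 c
      refine h5.trans ?_
      set S0 := ∑ c : Fin T → Bool, ((ff h R K s (4 * R + 2 * ρ) ((w : ℤ) - 2 * R) (ext c) *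
            gg s (s + w) (2 * ρ + 4 * R) (ext c) : ℕ) : ℝ) with hS01
      have hS00 : 0 ≤ S0 := sum_nonneg fun c _ => by positivity
      have h6 : ((R : ℝ) + ((4 * R + 2 * ρ : ℕ) : ℝ) + K + 1) ≤ 5 * M := by
        rw [hM]; push_cast; linarith
      have h7 : (((2 * ρ + 4 * R : ℕ) : ℝ) + 1) ≤ 4 * M := by
        rw [hM]; push_cast; linarith
      have h8 : S0 * Real.sqrt ((w : ℝ) + 1) ≤ (CO * h * (5 * M) ^ 6) * (C1 * (4 * M) * 2 ^ T) :=
        h3.trans (by gcongr)
      have h9 : S0 * Real.sqrt h ≤ 125000 * CO * C1 * M ^ 7 * h * 2 ^ T := by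
        calc S0 * Real.sqrt h ≤ S0 * (2 * Real.sqrt ((w : ℝ) + 1)) :=
              mul_le_mul_of_nonneg_left h4 hS00
          _ = 2 * (S0 * Real.sqrt ((w : ℝ) + 1)) := by ring
          _ ≤ 2 * ((CO * h * (5 * M) ^ 6) * (C1 * (4 * M) * 2 ^ T)) := by linarith
          _ = _ := by ring
      have h10 : (h : ℝ) = Real.sqrt h * Real.sqrt h := (Real.mul_self_sqrt (by linarith)).symm
      have h11 : S0 * Real.sqrt h ≤ (125000 * CO * C1 * M ^ 7 * Real.sqrt h * 2 ^ T) *
          Real.sqrt h := by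
        refine h9.trans (le_of_eq ?_)
        calc 125000 * CO * C1 * M ^ 7 * h * 2 ^ T =
            125000 * CO * C1 * M ^ 7 * (Real.sqrt h * Real.sqrt h) * 2 ^ T := by rw [← h10]
          _ = _ := by ring
      exact le_of_mul_le_mul_right h11 (by linarith)
    calc ∑ c : Fin T → Bool, (EP h R ρ K T t (ext c) : ℝ)
        ≤ _ := sum_le_sum fun c _ => key s w hsw hw4 c
      _ ≤ 3200 * CQ * C1 * M ^ 7 * Real.sqrt h * 2 ^ T +
          125000 * CO * C1 * M ^ 7 * Real.sqrt h * 2 ^ T := by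
          rw [sum_add_distrib]
          exact add_le_add (partA s w hsw hw4) h1
      _ ≤ (3200 * CQ * C1 + 16 + 125000 * CO * C1) * M ^ 7 * Real.sqrt h * 2 ^ T := by
          have : 0 ≤ 16 * M ^ 7 * Real.sqrt h * 2 ^ T := by positivity
          linarith [this]

/-- the flip of the coins -/
def flipEquiv (T : ℕ) : (Fin T → Bool) ≃ (Fin T → Bool) where
  toFun c i := !(c i)
  invFun c i := !(c i)
  left_inv c := by funext i; simp
  right_inv c := by funext i; simp

lemma ext_flip {T : ℕ} (c : Fin T → Bool) {i : ℕ} (hi : i < T) :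
    ext (flipEquiv T c) i = !(ext c i) := by
  unfold ext
  rw [dif_pos hi, dif_pos hi]
  rfl

open Classical in
/-- the north sector by symmetry -/
lemma north (hS : S_SYM) {h R ρ K T t : ℕ} (ht : t ≤ T) (c : Fin T → Bool) :
    ((Box h).filter fun p => GC K T (ext c) ∧ ∃ e : ℕ → Bool, Tube R e t ∧
      NearE ρ (tr h (ext c) e p t).swap).card ≤ EP h R ρ K T t (ext (flipEquiv T c)) := by
  unfold EP
  refine card_le_card_of_injOn Prod.swap ?_ (Prod.swap_injective.injOn)
  intro p hp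
  rw [mem_coe, mem_filter] at hp
  obtain ⟨hp, hg, e, h1, h2⟩ := hp
  rw [mem_coe, mem_filter]
  refine ⟨swap_mem hp, ?_, fun s => !(e s), Tube_not h1, ?_⟩
  · exact GC_congr (c := fun s => !(ext c s)) (fun i hi => (ext_flip c hi).symm) (GC_not hg)
  · have h3 : tr h (ext (flipEquiv T c)) (fun s => !(e s)) p.swap t =
        tr h (fun s => !(ext c s)) (fun s => !(e s)) p.swap t :=
      tr_congr (fun i hi => ext_flip c (by omega)) fun _ _ => rfl
    rw [h3, hS]
    exact h2

end NearL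

open NearL in
theorem near : S_W1 → S_W3 → S_IND → S_SYM → S_FREE → S_TOUCH → S_NONE → S_EX → S_O1 → S_QB →
    S_EA → S_NEAR := by
  classical
  intro hW1 hW3 hI hS hF hT hN _ hO hQ hA
  obtain ⟨C, hC, hE⟩ := nearE hW1 hW3 hI hS hF hT hN hO hQ hA
  refine ⟨100 + 2 * C, by positivity, ?_⟩
  intro h R ρ K T t H ht
  set M : ℝ := (R : ℝ) + ρ + K + 1 with hM
  have hR0 : (0 : ℝ) ≤ R := Nat.cast_nonneg _
  have hρ0 : (0 : ℝ) ≤ ρ := Nat.cast_nonneg _
  have hK0 : (0 : ℝ) ≤ K := Nat.cast_nonneg _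
  have hM1 : 1 ≤ M := by rw [hM]; linarith
  have hM0 : 0 ≤ M := by linarith
  have hh : (1000 : ℝ) ≤ h := by
    have : 1000 ≤ h := by omega
    exact_mod_cast this
  have h2T : (0 : ℝ) < 2 ^ T := by positivity
  have hsh : 1 ≤ Real.sqrt h := by
    rw [Real.one_le_sqrt]; linarith
  have h1 : ((((Box h) ×ˢ (univ : Finset (Fin T → Bool))).filter fun x =>
      GC K T (ext x.2) ∧ ∃ e : ℕ → Bool, Tube R e t ∧
        Near ρ (tr h (ext x.2) e x.1 t)).card : ℝ) =
      ∑ c : Fin T → Bool, (((Box h).filter fun p => GC K T (ext c) ∧ ∃ e : ℕ → Bool,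
        Tube R e t ∧ Near ρ (tr h (ext c) e p t)).card : ℝ) := by
    rw [card_filter, sum_product_right]
    push_cast
    refine sum_congr rfl fun c _ => ?_
    rw [card_filter]
    push_cast
    rfl
  have h2 : ∀ c : Fin T → Bool, (((Box h).filter fun p => GC K T (ext c) ∧ ∃ e : ℕ → Bool,
        Tube R e t ∧ Near ρ (tr h (ext c) e p t)).card : ℝ) ≤
      100 * M ^ 7 + EP h R ρ K T t (ext c) + EP h R ρ K T t (ext (flipEquiv T c)) := by
    intro c
    by_cases hg : GC K T (ext c)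
    · have h3 : ((Box h).filter fun p => GC K T (ext c) ∧ ∃ e : ℕ → Bool,
          Tube R e t ∧ Near ρ (tr h (ext c) e p t)) ⊆
          (((Box h).filter fun p => ∃ e : ℕ → Bool, Tube R e t ∧ 0 < (tr h (ext c) e p t).1 ∧
            0 < (tr h (ext c) e p t).2 ∧ tr h (ext c) e p t ∈
              (Icc (1 : ℤ) ρ ×ˢ Icc (1 : ℤ) ρ : Finset (ℤ × ℤ))) ∪
          ((Box h).filter fun p => GC K T (ext c) ∧ ∃ e : ℕ → Bool, Tube R e t ∧
            NearE ρ (tr h (ext c) e p t))) ∪
          ((Box h).filter fun p => GC K T (ext c) ∧ ∃ e : ℕ → Bool, Tube R e t ∧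
            NearE ρ (tr h (ext c) e p t).swap) := by
        intro p hp
        rw [mem_filter] at hp
        obtain ⟨hp, -, e, h4, h5, h6, h7⟩ := hp
        rw [abs_le] at h6 h7
        rw [mem_union, mem_union]
        rcases lt_or_ge 0 (tr h (ext c) e p t).1 with h8 | h8 <;>
          rcases lt_or_ge 0 (tr h (ext c) e p t).2 with h9 | h9
        · refine Or.inl (Or.inl (mem_filter.2 ⟨hp, e, h4, h8, h9, ?_⟩))
          rw [mem_product, mem_Icc, mem_Icc]
          exact ⟨⟨h8, h6.2⟩, h9, h7.2⟩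
        · exact Or.inl (Or.inr (mem_filter.2 ⟨hp, hg, e, h4, h8, h6.2, h9, h7.1⟩))
        · exact Or.inr (mem_filter.2 ⟨hp, hg, e, h4, h9, h7.2, h8, h6.1⟩)
        · rcases h5 with h5 | h5
          · exact absurd h5 (not_lt.2 h8)
          · exact absurd h5 (not_lt.2 h9)
      have h4 := card_free hF hS hT hN (h := h) (R := R) (K := K) (t := t) (c := ext c) (by omega)
        (GC_mono hg ht) (Icc (1 : ℤ) ρ ×ˢ Icc (1 : ℤ) ρ : Finset (ℤ × ℤ))
      have h5 : (Icc (1 : ℤ) ρ ×ˢ Icc (1 : ℤ) ρ : Finset (ℤ × ℤ)).card = ρ * ρ := by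
        rw [card_product, Int.card_Icc]
        congr 1 <;> omega
      rw [h5] at h4
      have h6 := north hS (h := h) (R := R) (ρ := ρ) (K := K) ht c
      have h7 : ((Box h).filter fun p => GC K T (ext c) ∧ ∃ e : ℕ → Bool, Tube R e t ∧
            NearE ρ (tr h (ext c) e p t)).card = EP h R ρ K T t (ext c) := by
        unfold EP
        congr!
      have h8 := (card_le_card h3).trans ((card_union_le _ _).trans
        (Nat.add_le_add_right (card_union_le _ _) _))
      rw [h7] at h8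
      have h9 : ((Box h).filter fun p => GC K T (ext c) ∧ ∃ e : ℕ → Bool,
          Tube R e t ∧ Near ρ (tr h (ext c) e p t)).card ≤ ρ * ρ * (100 * (R + 1) ^ 4) +
            EP h R ρ K T t (ext c) + EP h R ρ K T t (ext (flipEquiv T c)) :=
        h8.trans (Nat.add_le_add (Nat.add_le_add_right h4 _) h6)
      have h10 : (((Box h).filter fun p => GC K T (ext c) ∧ ∃ e : ℕ → Bool,
          Tube R e t ∧ Near ρ (tr h (ext c) e p t)).card : ℝ) ≤ ρ * ρ * (100 * (R + 1) ^ 4) +
            EP h R ρ K T t (ext c) + EP h R ρ K T t (ext (flipEquiv T c)) := by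
        exact_mod_cast h9
      refine h10.trans ?_
      have h11 : (ρ : ℝ) * ρ * (100 * (R + 1) ^ 4) ≤ 100 * M ^ 7 := by
        calc (ρ : ℝ) * ρ * (100 * (R + 1) ^ 4) ≤ M * M * (100 * M ^ 4) := by
              have : (ρ : ℝ) ≤ M := by rw [hM]; linarith
              have h12 : (R : ℝ) + 1 ≤ M := by rw [hM]; linarith
              gcongr
          _ = 100 * M ^ 6 := by ring
          _ ≤ 100 * M ^ 7 := by
              have := pow_le_pow_right₀ hM1 (show 6 ≤ 7 by norm_num)
              linarith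
      linarith
    · have h3 : ((Box h).filter fun p => GC K T (ext c) ∧ ∃ e : ℕ → Bool,
          Tube R e t ∧ Near ρ (tr h (ext c) e p t)).card = 0 := by
        rw [card_eq_zero, eq_empty_iff_forall_notMem]
        intro p hp
        rw [mem_filter] at hp
        exact hg hp.2.1
      rw [h3]
      push_cast
      positivity
  rw [h1]
  have h3 : ∑ c : Fin T → Bool, (EP h R ρ K T t (ext (flipEquiv T c)) : ℝ) =
      ∑ c : Fin T → Bool, (EP h R ρ K T t (ext c) : ℝ) :=
    Equiv.sum_comp (flipEquiv T) fun c => (EP h R ρ K T t (ext c) : ℝ)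
  have h4 := hE h R ρ K T t H ht
  rw [← hM] at h4
  calc _ ≤ ∑ c : Fin T → Bool, (100 * M ^ 7 + EP h R ρ K T t (ext c) +
        EP h R ρ K T t (ext (flipEquiv T c)) : ℝ) := sum_le_sum fun c _ => h2 c
    _ = 2 ^ T * (100 * M ^ 7) + ∑ c : Fin T → Bool, (EP h R ρ K T t (ext c) : ℝ) +
        ∑ c : Fin T → Bool, (EP h R ρ K T t (ext c) : ℝ) := by
        rw [sum_add_distrib, sum_add_distrib, h3, sum_const, card_univ, Fintype.card_fun,
          Fintype.card_bool, Fintype.card_fin, nsmul_eq_mul]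
        push_cast
        ring
    _ ≤ 2 ^ T * (100 * M ^ 7 * Real.sqrt h) + C * M ^ 7 * Real.sqrt h * 2 ^ T +
        C * M ^ 7 * Real.sqrt h * 2 ^ T := by
        have h5 : 100 * M ^ 7 ≤ 100 * M ^ 7 * Real.sqrt h :=
          le_mul_of_one_le_right (by positivity) hsh
        have h6 := mul_le_mul_of_nonneg_left h5 h2T.le
        linarith
    _ = _ := by ring

end Pool.Agent.Helper5K9.ZN
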