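import Pool.Agent.Helper5K9.ZN.Touch

/-!
# After the exceptional step
-/

set_option autoImplicit false

namespace Pool.Agent.Helper5K9.ZN

open Finset

/-- the shell `L1 = h + 1` of the (open) south-west quadrant -/
def Shell (h : ℕ) (q : ℤ × ℤ) : Prop := q.1 < 0 ∧ q.2 < 0 ∧ -q.1 - q.2 = (h : ℤ) + 1

theorem shell_step {h : ℕ} (hh : 1 ≤ h) (c e : Bool) {q : ℤ × ℤ} (hq : Shell h q) :
    Shell h (sm h e (zm c q)) ∨ sm h e (zm c q) = (0, (h : ℤ)) ∨
      sm h e (zm c q) = ((h : ℤ), 0) := by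
  obtain ⟨x, y⟩ := q
  obtain ⟨h1, h2, h3⟩ := hq
  simp only at h1 h2 h3
  have hx := sign_cases x
  have hy := sign_cases y
  unfold Shell
  simp only [Prod.ext_iff]
  cases c <;> cases e <;> simp only [zm_true, zm_false] <;> split_ifs <;>
    simp only [sm_true, sm_false, wr] <;> split_ifs <;> omega

/-- the states after an exceptional step -/
def AfterEx (h : ℕ) (c e : ℕ → Bool) (p : ℤ × ℤ) (s u : ℕ) : Prop :=
  Shell h (tr h c e p u) ∨ ∃ v, s < v ∧ v ≤ u ∧
    (tr h c e p v = (0, (h : ℤ)) ∨ tr h c e p v = ((h : ℤ), 0))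

theorem exStep_after {h s : ℕ} {c e : ℕ → Bool} {p : ℤ × ℤ} (hh : 1 ≤ h)
    (hx : ExStep h c e p s) : ∀ u, s + 1 ≤ u → AfterEx h c e p s u := by
  intro u hu
  induction u, hu using Nat.le_induction with
  | base =>
    left
    rcases hx with ⟨-, hx⟩ | ⟨-, hx⟩ <;> rw [hx] <;> unfold Shell <;> simp only <;> omega
  | succ u hu ih =>
    rcases ih with hs | ⟨v, hv1, hv2, hv⟩
    · rcases shell_step hh (c u) (e u) hs with hs | hs | hs
      · exact Or.inl (by rw [tr_succ]; exact hs)
      · exact Or.inr ⟨u + 1, by omega, le_refl _, Or.inl (by rw [tr_succ]; exact hs)⟩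
      · exact Or.inr ⟨u + 1, by omega, le_refl _, Or.inr (by rw [tr_succ]; exact hs)⟩
    · exact Or.inr ⟨v, hv1, by omega, hv⟩

theorem none : S_NONE := by
  intro h R K s t c e p hbig hp hc he hst hx
  rcases exStep_after (by omega) hx t hst with hs | ⟨v, hv1, hv2, hv | hv⟩
  · rintro ⟨h1, -⟩
    exact absurd hs.1 (by omega)
  · rcases north_end (s := v) hbig hp hc he (by rw [hv]) (by rw [hv]; norm_num)
      (by rw [hv]; simp only; omega) hv2 with hn | ha
    · rintro ⟨h1, -⟩
      exact absurd hn.1 (by omega)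
    · rintro ⟨h1, -⟩
      exact absurd ha.1 (by omega)
  · have hv' : tr h (fun s => !(c s)) (fun s => !(e s)) p.swap v = (0, (h : ℤ)) := by
      rw [sym, hv]; rfl
    have key := sym h c e p t
    rcases north_end (s := v) hbig (Box_swap hp) (GC_not hc) (Tube_not he) (by rw [hv'])
      (by rw [hv']; norm_num) (by rw [hv']; simp only; omega) hv2 with hn | ha
    · rw [key] at hn
      rintro ⟨-, h1⟩
      exact absurd hn.1 (by simp only [Prod.fst_swap]; omega)
    · rw [key] at ha
      rintro ⟨-, h1⟩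
      exact absurd ha.1 (by simp only [Prod.fst_swap]; omega)


end Pool.Agent.Helper5K9.ZN
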