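import Pool.Agent.Helper5K9.ZN.Ex

/-!
# The zombies in the east sector at a given time, in a window of distances
-/

set_option autoImplicit false

namespace Pool.Agent.Helper5K9.ZN.Fr

open Finset

theorem sgnc (x : ℤ) : (x < 0 ∧ x.sign = -1) ∨ (x = 0 ∧ x.sign = 0) ∨ (0 < x ∧ x.sign = 1) := by
  rcases lt_trichotomy x 0 with h | h | h
  · exact Or.inl ⟨h, Int.sign_eq_neg_one_of_neg h⟩
  · exact Or.inr (Or.inl ⟨h, by rw [h]; rfl⟩)
  · exact Or.inr (Or.inr ⟨h, Int.sign_eq_one_of_pos h⟩)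

theorem box_iff' {h : ℕ} {q : ℤ × ℤ} : q ∈ Box h ↔
    (-(h : ℤ) ≤ q.1 ∧ q.1 ≤ h) ∧ (-(h : ℤ) ≤ q.2 ∧ q.2 ≤ h) := by
  rw [Box, mem_product, mem_Icc, mem_Icc]

theorem step_box {h : ℕ} (hh : 1 ≤ h) (c e : Bool) {q : ℤ × ℤ} (hq : q ∈ Box h) :
    sm h e (zm c q) ∈ Box h := by
  obtain ⟨x, y⟩ := q
  rw [box_iff'] at *
  simp only at hq
  have hx := sgnc x
  have hy := sgnc y
  unfold sm zm wr
  generalize x.sign = a at *
  generalize y.sign = b at *
  cases c <;> cases e <;> simp only [false_and, or_false, true_and, Bool.false_eq_true,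
    if_false, if_true] <;> split_ifs <;> simp only <;> omega

theorem tr_box' {h : ℕ} (hh : 1 ≤ h) (c e : ℕ → Bool) {p : ℤ × ℤ} (hp : p ∈ Box h) (t : ℕ) :
    tr h c e p t ∈ Box h := by
  induction t with
  | zero => exact hp
  | succ t ih => exact step_box hh _ _ ih

theorem east_step {h : ℕ} (hh : 1 ≤ h) {c e : Bool} {q : ℤ × ℤ} (hq : q ∈ Box h) (hx : 0 < q.1)
    (hy : q.2 ≤ 0) (hy' : (sm h e (zm c q)).2 ≤ 0) :
    (sm h e (zm c q)).1 - (sm h e (zm c q)).2 = q.1 - q.2 - 1 - sgn e := by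
  obtain ⟨x, y⟩ := q
  rw [box_iff'] at hq
  simp only at hq hx hy
  have hx1 := sgnc x
  have hy1 := sgnc y
  revert hy'
  unfold sm zm wr sgn
  generalize x.sign = a at *
  generalize y.sign = b at *
  cases c <;> cases e <;> simp only [false_and, or_false, true_and, Bool.false_eq_true,
    if_false, if_true] <;> split_ifs <;> simp only <;> omega

theorem absd_step' {h : ℕ} (hh : 1 ≤ h) {c e : Bool} {q : ℤ × ℤ} (hq : Absd h q) :
    Absd h (sm h e (zm c q)) := by
  obtain ⟨x, y⟩ := q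
  unfold Absd L1 at *
  obtain ⟨h1, h2, h3⟩ := hq
  simp only at h1 h2 h3
  rw [abs_of_nonpos h1, abs_of_nonpos h2] at h3
  have key : (sm h e (zm c (x, y))).1 ≤ 0 ∧ (sm h e (zm c (x, y))).2 ≤ 0 ∧
      -(sm h e (zm c (x, y))).1 + -(sm h e (zm c (x, y))).2 ≤ h := by
    have hx1 := sgnc x
    have hy1 := sgnc y
    unfold sm zm wr
    generalize x.sign = a at *
    generalize y.sign = b at *
    cases c <;> cases e <;> simp only [false_and, or_false, true_and, Bool.false_eq_true,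
      if_false, if_true] <;> split_ifs <;> simp only <;> omega
  obtain ⟨h4, h5, h6⟩ := key
  refine ⟨h4, h5, ?_⟩
  rw [abs_of_nonpos h4, abs_of_nonpos h5]
  exact h6

theorem absd_mono' {h : ℕ} (hh : 1 ≤ h) {c e : ℕ → Bool} {p : ℤ × ℤ} {s t : ℕ} (hst : s ≤ t)
    (hs : Absd h (tr h c e p s)) : Absd h (tr h c e p t) := by
  induction t, hst using Nat.le_induction with
  | base => exact hs
  | succ t _ ih => exact absd_step' hh ih

theorem east_run' {h : ℕ} (hh : 1 ≤ h) {c e : ℕ → Bool} {p : ℤ × ℤ} (hp : p ∈ Box h) {v s : ℕ}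
    (hvs : v ≤ s)
    (H : ∀ s', v ≤ s' → s' ≤ s → 0 < (tr h c e p s').1 ∧ (tr h c e p s').2 ≤ 0) :
    (tr h c e p s).1 - (tr h c e p s).2 =
      (tr h c e p v).1 - (tr h c e p v).2 - ((s : ℤ) - v) - (WW e s - WW e v) := by
  induction s, hvs using Nat.le_induction with
  | base => ring
  | succ s hs ih =>
    have h1 := ih (fun s' h1 h2 => H s' h1 (by omega))
    have h2 := H s hs (by omega)
    have h3 := H (s + 1) (by omega) le_rfl
    have h4 := east_step hh (tr_box' hh c e hp s) h2.1 h2.2 h3.2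
    change (tr h c e p (s + 1)).1 - (tr h c e p (s + 1)).2 = _ at h4
    rw [h4, h1, cn_WW_succ]
    push_cast
    ring

theorem cross_step {h : ℕ} (hh : 5 ≤ h) {c e : Bool} {q : ℤ × ℤ} (hq : q ∈ Box h)
    (hx : q.1 ≠ 0) (hy : q.2 ≠ 0) (hx' : 0 < (sm h e (zm c q)).1)
    (hy' : (sm h e (zm c q)).2 = 0 ∨ ((sm h e (zm c q)).2 < 0 ∧ 0 < q.2)) :
    (q.2 = -1 ∨ q.2 = 1 ∨ q.2 = 2) ∧ -1 ≤ (sm h e (zm c q)).2 ∧
    (q.1 = -(h : ℤ) ∨ ((sm h e (zm c q)).1 ≤ q.1 ∧ q.1 ≤ (sm h e (zm c q)).1 + 2)) := by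
  obtain ⟨x, y⟩ := q
  rw [box_iff'] at hq
  simp only at hq hx hy
  have hx1 := sgnc x
  have hy1 := sgnc y
  revert hy' hx'
  unfold sm zm wr
  generalize x.sign = a at *
  generalize y.sign = b at *
  cases c <;> cases e <;> simp only [false_and, or_false, true_and, Bool.false_eq_true,
    if_false, if_true] <;> split_ifs <;> simp only <;> omega

theorem o1 : S_FREE → S_TOUCH → S_SYM → S_EX → S_O1 := by
  classical
  intro hF hT hS hE
  obtain ⟨C, hC⟩ := hE
  refine ⟨C + 20000, fun h R K s l u c hh hc => ?_⟩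
  have hh1 : 1 ≤ h := by omega
  set Q0 : Finset (ℤ × ℤ) := ((Icc (1 : ℤ) h) ×ˢ (range (l + 1))).image
    fun w : ℤ × ℕ => (w.1, w.1 - u - w.2) with hQ0
  set Qv : ℕ → Finset (ℤ × ℤ) := fun v =>
    (insert (-(h : ℤ)) (Icc (u + ((s : ℤ) - v - 1) - 2 * R - 5)
      (u + l + ((s : ℤ) - v - 1) + 2 * R + 5))) ×ˢ ({-1, 1, 2} : Finset ℤ) with hQv
  have hsub : ((Box h).filter fun p => ∃ e : ℕ → Bool, Tube R e s ∧ 0 < (tr h c e p s).1 ∧
      (tr h c e p s).2 ≤ 0 ∧ u ≤ L1 (tr h c e p s) ∧ L1 (tr h c e p s) ≤ u + l) ⊆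
      ((Box h).filter fun p => ∃ e : ℕ → Bool, Tube R e s ∧ ∃ s' < s, ExStep h c e p s') ∪
      (Q0.biUnion fun q => (Box h).filter fun p => ∃ e : ℕ → Bool, Tube R e s ∧
        FreeTo h c e p s ∧ tr h c e p s = q) ∪
      (Icc (-(h : ℤ)) h ×ˢ {0}) ∪
      ((Ico (s - 2 * h) s).biUnion fun v => (Qv v).biUnion fun q => (Box h).filter fun p =>
        ∃ e : ℕ → Bool, Tube R e v ∧ FreeTo h c e p v ∧ tr h c e p v = q) := by
    intro p hp
    obtain ⟨hp, e, he, hx, hy, hu, hl⟩ := mem_filter.1 hp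
    have hbox := box_iff'.1 hp
    by_cases hex : ∃ s' < s, ExStep h c e p s'
    · exact mem_union_left _ (mem_union_left _ (mem_union_left _ (mem_filter.2
        ⟨hp, e, he, hex⟩)))
    have hne : ∀ s' < s, ¬ ExStep h c e p s' := fun s' h1 h2 => hex ⟨s', h1, h2⟩
    -- no crossing of `x = 0`
    have hnx : ∀ s1 ≤ s, ¬ CrossX h c e p s1 := by
      intro s1 hs1 hcr
      rcases touchx hT hh hp hc he hne ⟨s1, hs1, hcr⟩ with h1 | h1
      · omega
      · have := h1.1
        omega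
    have hL : L1 (tr h c e p s) = (tr h c e p s).1 - (tr h c e p s).2 := by
      unfold L1
      rw [abs_of_pos hx, abs_of_nonpos hy]
      ring
    rw [hL] at hu hl
    by_cases hfr : FreeTo h c e p s
    · refine mem_union_left _ (mem_union_left _ (mem_union_right _ (mem_biUnion.2
        ⟨tr h c e p s, ?_, mem_filter.2 ⟨hp, e, he, hfr, rfl⟩⟩)))
      have hb := box_iff'.1 (tr_box' hh1 c e hp s)
      refine mem_image.2 ⟨((tr h c e p s).1,
        ((tr h c e p s).1 - (tr h c e p s).2 - u).toNat), mem_product.2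
          ⟨mem_Icc.2 ⟨hx, hb.1.2⟩, mem_range.2 ?_⟩, Prod.ext rfl ?_⟩
      · simp only
        omega
      · simp only
        omega
    have hcy : ∃ s1, s1 ≤ s ∧ CrossX h (fun s => !(c s)) (fun s => !(e s)) p.swap s1 := by
      rcases cross_of_not_free hS hfr with ⟨s1, h1, h2⟩ | ⟨s1, h1, h2⟩
      · exact absurd h2 (hnx s1 h1)
      · exact ⟨s1, h1, h2⟩
    obtain ⟨w, ⟨hws, hw⟩, hmin⟩ : ∃ w, (w ≤ s ∧
        CrossX h (fun s => !(c s)) (fun s => !(e s)) p.swap w) ∧
        ∀ w' < w, ¬ CrossX h (fun s => !(c s)) (fun s => !(e s)) p.swap w' := by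
      refine ⟨Nat.find hcy, Nat.find_spec hcy, fun s' hs' hcon => ?_⟩
      exact Nat.find_min hcy hs' ⟨hs'.le.trans (Nat.find_spec hcy).1, hcon⟩
    -- east sector from `w` on
    have heast : ∀ s', w ≤ s' → s' ≤ s → 0 < (tr h c e p s').1 ∧ (tr h c e p s').2 ≤ 0 := by
      intro s' h1 h2
      rcases touchy hT hS hh hp (gc_mono hc h2) (tube_mono he h2)
        (fun s'' h3 => hne s'' (by omega)) ⟨w, h1, hw⟩ with h3 | h3
      · exact ⟨h3.2.2, h3.1⟩
      · have h4 := absd_mono' hh1 h2 h3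
        have := h4.1
        omega
    have hrun := east_run' hh1 hp hws heast
    rcases Nat.eq_zero_or_pos w with hw0 | hw0
    · -- starting on the axis
      refine mem_union_left _ (mem_union_right _ (mem_product.2 ⟨mem_Icc.2 hbox.1,
        mem_singleton.2 ?_⟩))
      rw [hw0] at hw
      rcases hw with h1 | ⟨_, s', h2, _⟩
      · exact h1
      · omega
    · obtain ⟨v, rfl⟩ : ∃ v, w = v + 1 := ⟨w - 1, by omega⟩
      have hfv : FreeTo h c e p v := by
        by_contra hcon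
        rcases cross_of_not_free hS hcon with ⟨s1, h1, h2⟩ | ⟨s1, h1, h2⟩
        · exact hnx s1 (by omega) h2
        · exact hmin s1 (by omega) h2
      have hbv := tr_box' hh1 c e hp v
      have hbv1 := box_iff'.1 (tr_box' hh1 c e hp (v + 1))
      have hw' : (tr h c e p (v + 1)).2 = 0 ∨ ((tr h c e p (v + 1)).2 < 0 ∧
          0 < (tr h c e p v).2) := by
        rcases hw with h1 | ⟨h1, s', h2, h3⟩
        · left
          rw [hS] at h1
          exact h1
        · right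
          rw [hS] at h1 h3
          rw [show s' = v by omega] at h3
          exact ⟨h1, h3⟩
      have hcs := cross_step (by omega) hbv (hfv.1 v le_rfl).1 (hfv.1 v le_rfl).2
        (heast (v + 1) le_rfl hws).1 hw'
      change _ ∧ -1 ≤ (tr h c e p (v + 1)).2 ∧ (_ ∨ ((tr h c e p (v + 1)).1 ≤ _ ∧
        _ ≤ (tr h c e p (v + 1)).1 + 2)) at hcs
      obtain ⟨hc1, hc2, hc3⟩ := hcs
      have hv1 := (heast (v + 1) le_rfl hws)
      have e1 := abs_le.1 (he s le_rfl)
      have e2 := abs_le.1 (he (v + 1) hws)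
      push_cast at hrun
      refine mem_union_right _ (mem_biUnion.2 ⟨v, mem_Ico.2 ⟨?_, by omega⟩, mem_biUnion.2
        ⟨tr h c e p v, ?_, mem_filter.2 ⟨hp, e, tube_mono he (by omega), hfv, rfl⟩⟩⟩)
      · omega
      · rw [hQv]
        simp only [mem_product, mem_insert, mem_singleton, mem_Icc]
        refine ⟨?_, hc1⟩
        rcases hc3 with h1 | h1
        · exact Or.inl h1
        · right
          constructor <;> omega
  have hcard := card_le_card hsub
  refine hcard.trans ?_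
  refine (card_union_le _ _).trans ?_
  refine (add_le_add (card_union_le _ _) le_rfl).trans ?_
  refine (add_le_add (add_le_add (card_union_le _ _) le_rfl) le_rfl).trans ?_
  have c1 : ((Box h).filter fun p => ∃ e : ℕ → Bool, Tube R e s ∧
      ∃ s' < s, ExStep h c e p s').card ≤ C * h * (R + K + 1) ^ 4 := by
    have := hC h R K s c hh hc
    convert this
  have c0 : ∀ (v : ℕ) (q : ℤ × ℤ), ((Box h).filter fun p => ∃ e : ℕ → Bool, Tube R e v ∧
      FreeTo h c e p v ∧ tr h c e p v = q).card ≤ 100 * (R + 1) ^ 4 := by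
    intro v q
    have := hF h R v c q hh1
    convert this
  have c2 : (Q0.biUnion fun q => (Box h).filter fun p => ∃ e : ℕ → Bool, Tube R e s ∧
        FreeTo h c e p s ∧ tr h c e p s = q).card ≤ (h * (l + 1)) * (100 * (R + 1) ^ 4) := by
    refine card_biUnion_le.trans ?_
    refine (sum_le_card_nsmul _ _ (100 * (R + 1) ^ 4) fun q _ => c0 s q).trans ?_
    rw [smul_eq_mul]
    refine Nat.mul_le_mul_right _ (card_image_le.trans ?_)
    rw [card_product, card_range, Int.card_Icc]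
    refine Nat.mul_le_mul_right _ ?_
    omega
  have c3 : (Icc (-(h : ℤ)) h ×ˢ ({0} : Finset ℤ)).card ≤ 2 * h + 1 := by
    rw [card_product, card_singleton, Int.card_Icc, mul_one]
    omega
  have c4 : ((Ico (s - 2 * h) s).biUnion fun v => (Qv v).biUnion fun q => (Box h).filter fun p =>
        ∃ e : ℕ → Bool, Tube R e v ∧ FreeTo h c e p v ∧ tr h c e p v = q).card ≤
        (2 * h) * (((l + 4 * R + 12) * 3) * (100 * (R + 1) ^ 4)) := by
    refine card_biUnion_le.trans ?_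
    refine (sum_le_card_nsmul _ _ (((l + 4 * R + 12) * 3) * (100 * (R + 1) ^ 4))
      fun v _ => ?_).trans ?_
    · refine card_biUnion_le.trans ?_
      refine (sum_le_card_nsmul _ _ (100 * (R + 1) ^ 4) fun q _ => c0 v q).trans ?_
      rw [smul_eq_mul]
      refine Nat.mul_le_mul_right _ ?_
      rw [hQv]
      simp only
      rw [card_product]
      refine Nat.mul_le_mul ((card_insert_le _ _).trans ?_) card_le_three
      rw [Int.card_Icc]
      omega
    · rw [smul_eq_mul, Nat.card_Ico]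
      refine Nat.mul_le_mul_right _ ?_
      omega
  refine (add_le_add (add_le_add (add_le_add c1 c2) c3) c4).trans ?_
  set P := R + l + K + 1 with hP
  have hP1 : 1 ≤ P := by omega
  have d1 : (R + K + 1) ^ 4 ≤ P ^ 6 :=
    (Nat.pow_le_pow_left (by omega) 4).trans (Nat.pow_le_pow_right hP1 (by norm_num))
  have d2 : (R + 1) ^ 4 ≤ P ^ 4 := Nat.pow_le_pow_left (by omega) 4
  have d3 : (l + 1) * (R + 1) ^ 4 ≤ P ^ 6 := by
    calc (l + 1) * (R + 1) ^ 4 ≤ P * P ^ 4 := Nat.mul_le_mul (by omega) d2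
      _ = P ^ 5 := by ring
      _ ≤ P ^ 6 := Nat.pow_le_pow_right hP1 (by norm_num)
  have d4 : (l + 4 * R + 12) * (R + 1) ^ 4 ≤ 12 * P ^ 6 := by
    calc (l + 4 * R + 12) * (R + 1) ^ 4 ≤ (12 * P) * P ^ 4 := Nat.mul_le_mul (by omega) d2
      _ = 12 * P ^ 5 := by ring
      _ ≤ 12 * P ^ 6 := Nat.mul_le_mul_left _ (Nat.pow_le_pow_right hP1 (by norm_num))
  have d5 : 1 ≤ P ^ 6 := Nat.one_le_pow _ _ hP1
  have f1 : C * h * (R + K + 1) ^ 4 ≤ C * h * P ^ 6 := Nat.mul_le_mul_left _ d1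
  have f2 : (h * (l + 1)) * (100 * (R + 1) ^ 4) ≤ 100 * h * P ^ 6 := by
    calc (h * (l + 1)) * (100 * (R + 1) ^ 4) = 100 * h * ((l + 1) * (R + 1) ^ 4) := by ring
      _ ≤ _ := Nat.mul_le_mul_left _ d3
  have f3 : 2 * h + 1 ≤ 3 * h * P ^ 6 := by
    calc 2 * h + 1 ≤ 3 * h := by omega
      _ = 3 * h * 1 := by ring
      _ ≤ _ := Nat.mul_le_mul_left _ d5
  have f4 : (2 * h) * (((l + 4 * R + 12) * 3) * (100 * (R + 1) ^ 4)) ≤ 7200 * h * P ^ 6 := by
    calc (2 * h) * (((l + 4 * R + 12) * 3) * (100 * (R + 1) ^ 4))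
        = 600 * h * ((l + 4 * R + 12) * (R + 1) ^ 4) := by ring
      _ ≤ 600 * h * (12 * P ^ 6) := Nat.mul_le_mul_left _ d4
      _ = _ := by ring
  calc _ ≤ C * h * P ^ 6 + 100 * h * P ^ 6 + 3 * h * P ^ 6 + 7200 * h * P ^ 6 :=
        add_le_add (add_le_add (add_le_add f1 f2) f3) f4
    _ = (C + 7303) * h * P ^ 6 := by ring
    _ ≤ (C + 20000) * h * P ^ 6 := by
        refine Nat.mul_le_mul_right _ (Nat.mul_le_mul_right _ (by omega))

end Pool.Agent.Helper5K9.ZN.Fr

namespace Pool.Agent.Helper5K9.ZN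

theorem o1 : S_FREE → S_TOUCH → S_SYM → S_EX → S_O1 := Fr.o1

end Pool.Agent.Helper5K9.ZN
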