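import Pool.Agent.Helper5K9.ZN.Ea

/-!
# From the north-east quadrant to the east sector
-/

set_option autoImplicit false

namespace Pool.Agent.Helper5K9.ZN

open Finset

namespace Sec

/-- one round starting in the north-east quadrant -/
theorem stepNE {h : ℕ} {c e : Bool} {q : ℤ × ℤ} (hh : 1 ≤ h) (h1 : 0 < q.1) (h2 : 0 < q.2) :
    (stp h c e q).1 + (stp h c e q).2 = q.1 + q.2 - 2 ∧
    2 * (stp h c e q).2 = 2 * q.2 + sgn c + sgn e - 2 := by
  obtain ⟨x, y⟩ := q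
  rcases sign_cases x with ⟨hx, sx⟩ | ⟨hx, sx⟩ | ⟨hx, sx⟩ <;>
  rcases sign_cases y with ⟨hy, sy⟩ | ⟨hy, sy⟩ | ⟨hy, sy⟩ <;>
  cases c <;> cases e <;>
  simp only [stp, sm, zm, wr, sgn, sx, sy] at * <;>
  split_ifs at * <;> simp_all <;> omega

/-- a positive coordinate does not wrap -/
theorem stepX_pos {h : ℕ} (c e : Bool) {q : ℤ × ℤ} (hh : 1 ≤ h) (h1 : 0 < q.1) :
    -1 ≤ (stp h c e q).1 := by
  obtain ⟨x, y⟩ := q
  rcases sign_cases x with ⟨hx, sx⟩ | ⟨hx, sx⟩ | ⟨hx, sx⟩ <;>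
  rcases sign_cases y with ⟨hy, sy⟩ | ⟨hy, sy⟩ | ⟨hy, sy⟩ <;>
  cases c <;> cases e <;>
  simp only [stp, sm, zm, wr, sx, sy] at * <;>
  split_ifs at * <;> simp_all <;> omega

theorem stepY_pos {h : ℕ} (c e : Bool) {q : ℤ × ℤ} (hh : 1 ≤ h) (h1 : 0 < q.2) :
    -1 ≤ (stp h c e q).2 := by
  obtain ⟨x, y⟩ := q
  rcases sign_cases x with ⟨hx, sx⟩ | ⟨hx, sx⟩ | ⟨hx, sx⟩ <;>
  rcases sign_cases y with ⟨hy, sy⟩ | ⟨hy, sy⟩ | ⟨hy, sy⟩ <;>
  cases c <;> cases e <;>
  simp only [stp, sm, zm, wr, sx, sy] at * <;>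
  split_ifs at * <;> simp_all <;> omega

theorem stepX_neg {h : ℕ} (c e : Bool) {q : ℤ × ℤ} (h1 : q.1 ≤ 0) (h2 : -(h : ℤ) < q.1) :
    q.1 - 1 ≤ (stp h c e q).1 ∧ (stp h c e q).1 ≤ 0 := by
  obtain ⟨x, y⟩ := q
  rcases sign_cases x with ⟨hx, sx⟩ | ⟨hx, sx⟩ | ⟨hx, sx⟩ <;>
  rcases sign_cases y with ⟨hy, sy⟩ | ⟨hy, sy⟩ | ⟨hy, sy⟩ <;>
  cases c <;> cases e <;>
  simp only [stp, sm, zm, wr, sx, sy] at * <;>
  split_ifs at * <;> simp_all <;> omega

theorem stepY_neg {h : ℕ} (c e : Bool) {q : ℤ × ℤ} (h1 : q.2 ≤ 0) (h2 : -(h : ℤ) < q.2) :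
    q.2 - 1 ≤ (stp h c e q).2 ∧ (stp h c e q).2 ≤ 0 := by
  obtain ⟨x, y⟩ := q
  rcases sign_cases x with ⟨hx, sx⟩ | ⟨hx, sx⟩ | ⟨hx, sx⟩ <;>
  rcases sign_cases y with ⟨hy, sy⟩ | ⟨hy, sy⟩ | ⟨hy, sy⟩ <;>
  cases c <;> cases e <;>
  simp only [stp, sm, zm, wr, sx, sy] at * <;>
  split_ifs at * <;> simp_all <;> omega

/-- staying in the north-east quadrant before `m` -/
theorem phaseNE {h : ℕ} {c e : ℕ → Bool} {p : ℤ × ℤ} (hh : 1 ≤ h) (m : ℕ)
    (hE : ∀ s < m, 0 < (tr h c e p s).1 ∧ 0 < (tr h c e p s).2) :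
    (tr h c e p m).1 + (tr h c e p m).2 = p.1 + p.2 - 2 * m ∧
    2 * (tr h c e p m).2 = 2 * p.2 + WW c m + WW e m - 2 * m := by
  induction m with
  | zero => simp [WW_zero, tr]
  | succ m ih =>
    have ih := ih fun s h1 => hE s (by omega)
    have ha := hE m (by omega)
    have h3 := stepNE (c := c m) (e := e m) hh ha.1 ha.2
    rw [tr_succ, WW_succ, WW_succ]
    obtain ⟨h3, h4⟩ := h3
    obtain ⟨h5, h6⟩ := ih
    push_cast
    constructor <;> linarith

/-- the starting points -/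
noncomputable def F (R ρ w : ℕ) (c : ℕ → Bool) (v : ℕ) : Finset (ℤ × ℤ) :=
  ((Icc ((2 * (v : ℤ) - WW c v) / 2 - R - 1) ((2 * (v : ℤ) - WW c v) / 2 + R + 1)) ×ˢ
    (Icc ((v : ℤ) + w - 1 - 2 * R) ((v : ℤ) + w + 2 * ρ + 2 * R))).image
      fun z => (z.2 - z.1, z.1)

theorem F_card (R ρ w : ℕ) (c : ℕ → Bool) (v : ℕ) : (F R ρ w c v).card ≤ 20 * (R + ρ + 1) ^ 2 := by
  refine card_image_le.trans ?_
  rw [card_product, Int.card_Icc, Int.card_Icc]
  have e1 : ((2 * (v : ℤ) - WW c v) / 2 + R + 1 + 1 - ((2 * (v : ℤ) - WW c v) / 2 - R - 1)).toNat =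
      2 * R + 3 := by omega
  have e2 : ((v : ℤ) + w + 2 * ρ + 2 * R + 1 - ((v : ℤ) + w - 1 - 2 * R)).toNat =
      4 * R + 2 * ρ + 2 := by omega
  rw [e1, e2]
  nlinarith [Nat.zero_le (R * ρ), Nat.zero_le (R * R), Nat.zero_le (ρ * ρ)]

end Sec

open Sec in
theorem qb : S_QB := by
  classical
  refine ⟨20, ?_⟩
  intro h R ρ w c hw hR
  have hh : 1 ≤ h := by omega
  have hsub : ((Box h).filter fun q => 0 < q.1 ∧ 0 < q.2 ∧ ∃ e : ℕ → Bool, Tube R e w ∧
      NearE ρ (tr h c e q w)) ⊆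
      ((range (w + 1)).filter fun v => ∀ s' : ℕ, v ≤ s' → s' ≤ w →
        WW c w - WW c s' ≤ 2 * (ρ : ℤ) + 2 * R).biUnion (F R ρ w c) := by
    intro q hq
    rw [mem_filter] at hq
    obtain ⟨hqb, hx0, hy0, e, hT, n1, n2, n3, n4⟩ := hq
    -- the coordinate x stays positive
    have hxx : ∀ s ≤ w, 0 < (tr h c e q s).1 ∨
        (-(s : ℤ) - 1 ≤ (tr h c e q s).1 ∧ (tr h c e q s).1 ≤ 0) := by
      intro s
      induction s with
      | zero => intro _; exact Or.inl hx0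
      | succ s ih =>
        intro hs
        rw [tr_succ]
        rcases ih (by omega) with h1 | h1
        · have := stepX_pos (h := h) (c s) (e s) hh h1
          by_cases h2 : 0 < (stp h (c s) (e s) (tr h c e q s)).1
          · exact Or.inl h2
          · right; push_cast; omega
        · have := stepX_neg (h := h) (c s) (e s) h1.2 (by omega)
          right; push_cast; omega
    have hxx2 : ∀ m s, s + m = w → 0 < (tr h c e q s).1 := by
      intro m
      induction m with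
      | zero => intro s hs; have : s = w := by omega
                subst this; exact n1
      | succ m ih =>
        intro s hs
        have h1 := ih (s + 1) (by omega)
        rcases hxx s (by omega) with h2 | h2
        · exact h2
        · rw [tr_succ] at h1
          have := stepX_neg (h := h) (c s) (e s) h2.2 (by omega)
          omega
    have hx : ∀ s ≤ w, 0 < (tr h c e q s).1 := fun s hs => hxx2 (w - s) s (by omega)
    -- the first time with y ≤ 0
    have hex : ∃ v, (tr h c e q v).2 ≤ 0 := ⟨w, n3⟩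
    obtain ⟨v, hv, hvm⟩ : ∃ v, (tr h c e q v).2 ≤ 0 ∧ ∀ s < v, 0 < (tr h c e q s).2 :=
      ⟨Nat.find hex, Nat.find_spec hex, fun s hs => by
        have := Nat.find_min hex hs; omega⟩
    have hvw : v ≤ w := by
      by_contra hcon
      have := hvm w (by omega)
      omega
    have hv1 : -1 ≤ (tr h c e q v).2 := by
      rcases Nat.eq_zero_or_pos v with h0 | h0
      · subst h0
        exact (by omega : (-1 : ℤ) ≤ q.2)
      · obtain ⟨u, rfl⟩ := Nat.exists_eq_add_of_le' h0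
        rw [tr_succ]
        exact stepY_pos _ _ hh (hvm u (by omega))
    have hy : ∀ m, v + m ≤ w → -(m : ℤ) - 1 ≤ (tr h c e q (v + m)).2 ∧
        (tr h c e q (v + m)).2 ≤ 0 := by
      intro m
      induction m with
      | zero => intro _; simpa using ⟨hv1, hv⟩
      | succ m ih =>
        intro hm
        have h1 := ih (by omega)
        have := stepY_neg (h := h) (c (v + m)) (e (v + m)) h1.2 (by omega)
        rw [← Nat.add_assoc, tr_succ]
        push_cast; omega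
    have hE : ∀ s, v ≤ s → s ≤ w → 0 < (tr h c e q s).1 ∧ (tr h c e q s).2 ≤ 0 := by
      intro s h1 h2
      refine ⟨hx s h2, ?_⟩
      obtain ⟨m, rfl⟩ := Nat.exists_eq_add_of_le h1
      exact (hy m h2).2
    have key : ∀ s, v ≤ s → s ≤ w →
        (tr h c e q w).1 - (tr h c e q w).2 =
        (tr h c e q s).1 - (tr h c e q s).2 - ((w : ℤ) - s) - (WW e w - WW e s) ∧
      2 * (tr h c e q w).2 ≤ 2 * (tr h c e q s).2 + (WW e w - WW e s) - (WW c w - WW c s) := by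
      intro s hvs hs
      obtain ⟨m, rfl⟩ := Nat.exists_eq_add_of_le hs
      have := phaseE (c := c) (e := e) hh hqb s m fun r h1 h2 => hE r (by omega) h2
      push_cast
      constructor
      · linarith [this.1]
      · exact this.2
    have hNE := phaseNE (c := c) (e := e) (p := q) hh v fun s hs => ⟨hx s (by omega), hvm s hs⟩
    have tw := abs_le.1 (hT w le_rfl)
    have tv := abs_le.1 (hT v hvw)
    rw [mem_biUnion]
    refine ⟨v, ?_, ?_⟩
    · rw [mem_filter, mem_range]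
      refine ⟨by omega, ?_⟩
      intro s' h1 h2
      have k := (key s' h1 h2).2
      have h3 := (hE s' h1 h2).2
      have hs := abs_le.1 (hT s' h2)
      linarith
    · have k := (key v le_rfl hvw).1
      rw [F, mem_image]
      refine ⟨(q.2, q.1 + q.2), ?_, by simp⟩
      rw [mem_product, mem_Icc, mem_Icc]
      dsimp only
      obtain ⟨k1, k2⟩ := hNE
      refine ⟨⟨?_, ?_⟩, ⟨?_, ?_⟩⟩ <;> omega
  calc _ ≤ _ := card_le_card hsub
    _ ≤ ∑ v ∈ ((range (w + 1)).filter fun v => ∀ s' : ℕ, v ≤ s' → s' ≤ w →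
        WW c w - WW c s' ≤ 2 * (ρ : ℤ) + 2 * R), (F R ρ w c v).card := card_biUnion_le
    _ ≤ ∑ v ∈ ((range (w + 1)).filter fun v => ∀ s' : ℕ, v ≤ s' → s' ≤ w →
        WW c w - WW c s' ≤ 2 * (ρ : ℤ) + 2 * R), 20 * (R + ρ + 1) ^ 2 :=
      sum_le_sum fun v _ => F_card R ρ w c v
    _ = _ := by rw [sum_const, smul_eq_mul, mul_comm]

end Pool.Agent.Helper5K9.ZN
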