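import Pool.Agent.Helper5K9.ZN.Stm

/-!
# The union bound for independent copies
-/

set_option autoImplicit false

namespace Pool.Agent.Helper5K9.ZN

open Finset

open Classical in
/-- functions with values in `E` on the set `Z` -/
theorem card_on {X : Type} [Fintype X] {k : ℕ} (Z : Finset (Fin k)) (E : X → Prop) :
    (univ.filter fun x : Fin k → X => ∀ z ∈ Z, E (x z)).card =
      (univ.filter fun x => E x).card ^ Z.card * Fintype.card X ^ (k - Z.card) := by
  have h1 : (univ.filter fun x : Fin k → X => ∀ z ∈ Z, E (x z)) =
      Fintype.piFinset fun z => if z ∈ Z then (univ.filter fun x => E x) else univ := by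
    ext x
    rw [Finset.mem_filter, Fintype.mem_piFinset]
    constructor
    · rintro ⟨_, h⟩ z
      by_cases hz : z ∈ Z
      · rw [if_pos hz]
        exact Finset.mem_filter.2 ⟨Finset.mem_univ _, h z hz⟩
      · rw [if_neg hz]
        exact Finset.mem_univ _
    · intro h
      refine ⟨Finset.mem_univ _, fun z hz => ?_⟩
      have := h z
      rw [if_pos hz] at this
      exact (Finset.mem_filter.1 this).2
  rw [h1, Fintype.card_piFinset]
  have h2 : ∀ z : Fin k, (if z ∈ Z then (univ.filter fun x => E x) else univ : Finset X).card =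
      if z ∈ Z then (univ.filter fun x => E x).card else Fintype.card X := by
    intro z
    by_cases hz : z ∈ Z
    · rw [if_pos hz, if_pos hz]
    · rw [if_neg hz, if_neg hz, Finset.card_univ]
  simp only [h2]
  rw [Finset.prod_ite, Finset.prod_const, Finset.prod_const]
  congr 2
  · congr 1
    ext z
    simp
  · rw [Finset.filter_not, Finset.card_sdiff_of_subset (Finset.filter_subset _ _),
      Finset.card_univ, Fintype.card_fin]
    congr 2
    ext z
    simp

open Classical in
theorem card_many {X : Type} [Fintype X] (k N : ℕ) (E : X → Prop) :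
    (univ.filter fun x : Fin k → X => ¬ (univ.filter fun z => E (x z)).card < N).card ≤
      k.choose N * ((univ.filter fun x => E x).card ^ N * Fintype.card X ^ (k - N)) := by
  have h1 : (univ.filter fun x : Fin k → X => ¬ (univ.filter fun z => E (x z)).card < N) ⊆
      (Finset.powersetCard N (univ : Finset (Fin k))).biUnion fun Z =>
        univ.filter fun x : Fin k → X => ∀ z ∈ Z, E (x z) := by
    intro x hx
    have h2 := not_lt.1 (Finset.mem_filter.1 hx).2
    obtain ⟨Z, hZ, hZN⟩ := Finset.exists_subset_card_eq h2
    rw [Finset.mem_biUnion]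
    refine ⟨Z, Finset.mem_powersetCard.2 ⟨Finset.subset_univ _, hZN⟩, ?_⟩
    rw [Finset.mem_filter]
    exact ⟨Finset.mem_univ _, fun z hz => (Finset.mem_filter.1 (hZ hz)).2⟩
  refine (Finset.card_le_card h1).trans (Finset.card_biUnion_le.trans ?_)
  have h3 : ∀ Z ∈ Finset.powersetCard N (univ : Finset (Fin k)),
      (univ.filter fun x : Fin k → X => ∀ z ∈ Z, E (x z)).card =
      (univ.filter fun x => E x).card ^ N * Fintype.card X ^ (k - N) := by
    intro Z hZ
    rw [card_on, (Finset.mem_powersetCard.1 hZ).2]
  rw [Finset.sum_congr rfl h3, Finset.sum_const, Finset.card_powersetCard, Finset.card_univ,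
    Fintype.card_fin, smul_eq_mul]

open Classical in
theorem card_many_real {X : Type} [Fintype X] (k N : ℕ) (E : X → Prop)
    (hX : 1 ≤ Fintype.card X)
    (hE : (k : ℝ) * ((univ.filter fun x => E x).card : ℝ) ≤ Fintype.card X / 2) :
    ((univ.filter fun x : Fin k → X => ¬ (univ.filter fun z => E (x z)).card < N).card : ℝ) *
      2 ^ N ≤ (Fintype.card X : ℝ) ^ k := by
  have h1 := card_many k N E
  rcases Nat.lt_or_ge k N with hkN | hkN
  · rw [Nat.choose_eq_zero_of_lt hkN, zero_mul] at h1
    have h2 : (univ.filter fun x : Fin k → X =>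
        ¬ (univ.filter fun z => E (x z)).card < N).card = 0 := by omega
    rw [h2]
    simp only [Nat.cast_zero, zero_mul]
    positivity
  · have h2 : ((univ.filter fun x : Fin k → X =>
        ¬ (univ.filter fun z => E (x z)).card < N).card : ℝ) ≤
        (k : ℝ) ^ N * ((univ.filter fun x => E x).card ^ N *
          (Fintype.card X : ℝ) ^ (k - N)) := by
      have h3 : ((univ.filter fun x : Fin k → X =>
          ¬ (univ.filter fun z => E (x z)).card < N).card : ℝ) ≤
          (k.choose N : ℝ) * (((univ.filter fun x => E x).card : ℝ) ^ N *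
            (Fintype.card X : ℝ) ^ (k - N)) := by exact_mod_cast h1
      refine h3.trans ?_
      apply mul_le_mul_of_nonneg_right _ (by positivity)
      exact_mod_cast Nat.choose_le_pow k N
    calc _ ≤ (k : ℝ) ^ N * ((univ.filter fun x => E x).card ^ N *
          (Fintype.card X : ℝ) ^ (k - N)) * 2 ^ N :=
          mul_le_mul_of_nonneg_right h2 (by positivity)
      _ = (2 * ((k : ℝ) * (univ.filter fun x => E x).card)) ^ N *
          (Fintype.card X : ℝ) ^ (k - N) := by
          rw [mul_pow, mul_pow]
          ring
      _ ≤ (Fintype.card X : ℝ) ^ N * (Fintype.card X : ℝ) ^ (k - N) := by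
          apply mul_le_mul_of_nonneg_right _ (by positivity)
          apply pow_le_pow_left₀ (by positivity)
          linarith
      _ = (Fintype.card X : ℝ) ^ k := by
          rw [← pow_add]
          congr 1
          omega

theorem ub : S_UB := by
  classical
  intro X _ k N T B E hX hN hB hE hT
  set G := univ.filter fun x : Fin k → X => (∀ z, ¬ B (x z)) ∧
      ∀ t ≤ T, (univ.filter fun z => E t (x z)).card < N with hG
  have hcov : (univ : Finset (Fin k → X)) ⊆ G ∪
      ((univ.filter fun x : Fin k → X => ¬ (univ.filter fun z => B (x z)).card < 1) ∪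
      (range (T + 1)).biUnion fun t =>
        univ.filter fun x : Fin k → X => ¬ (univ.filter fun z => E t (x z)).card < N) := by
    intro x _
    by_cases h1 : ∀ z, ¬ B (x z)
    · by_cases h2 : ∀ t ≤ T, (univ.filter fun z => E t (x z)).card < N
      · exact Finset.mem_union_left _ (Finset.mem_filter.2 ⟨Finset.mem_univ _, h1, h2⟩)
      · push Not at h2
        obtain ⟨t, ht, h3⟩ := h2
        refine Finset.mem_union_right _ (Finset.mem_union_right _ ?_)
        rw [Finset.mem_biUnion]
        exact ⟨t, Finset.mem_range.2 (by omega),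
          Finset.mem_filter.2 ⟨Finset.mem_univ _, not_lt.2 h3⟩⟩
    · push Not at h1
      obtain ⟨z, hz⟩ := h1
      refine Finset.mem_union_right _ (Finset.mem_union_left _ ?_)
      rw [Finset.mem_filter]
      refine ⟨Finset.mem_univ _, not_lt.2 (Finset.card_pos.2 ⟨z, ?_⟩)⟩
      exact Finset.mem_filter.2 ⟨Finset.mem_univ _, hz⟩
  have h1 := (Finset.card_le_card hcov).trans ((Finset.card_union_le _ _).trans
    (Nat.add_le_add_left (Finset.card_union_le _ _) _))
  have h2 := Finset.card_biUnion_le (s := range (T + 1)) (t := fun t =>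
        univ.filter fun x : Fin k → X => ¬ (univ.filter fun z => E t (x z)).card < N)
  have h3 : (Fintype.card X : ℝ) ^ k ≤ (G.card : ℝ) +
      (((univ.filter fun x : Fin k → X => ¬ (univ.filter fun z => B (x z)).card < 1).card : ℝ) +
      ∑ t ∈ range (T + 1), ((univ.filter fun x : Fin k → X =>
        ¬ (univ.filter fun z => E t (x z)).card < N).card : ℝ)) := by
    have h4 : (univ : Finset (Fin k → X)).card = Fintype.card X ^ k := by
      rw [Finset.card_univ, Fintype.card_pi]
      simp
    rw [h4] at h1
    exact_mod_cast h1.trans (Nat.add_le_add_left (Nat.add_le_add_left h2 _) _)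
  have hXk : (0 : ℝ) ≤ (Fintype.card X : ℝ) ^ k := by positivity
  -- the bad event
  have h5 : ((univ.filter fun x : Fin k → X =>
      ¬ (univ.filter fun z => B (x z)).card < 1).card : ℝ) ≤ (Fintype.card X : ℝ) ^ k / 8 := by
    rcases Nat.eq_zero_or_pos k with rfl | hk
    · have : (univ.filter fun x : Fin 0 → X =>
          ¬ (univ.filter fun z => B (x z)).card < 1) = ∅ := by
        rw [Finset.filter_eq_empty_iff]
        intro x _
        simp
      rw [this]
      simp
    · have h6 := card_many k 1 B
      rw [Nat.choose_one_right, pow_one] at h6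
      have h7 : ((univ.filter fun x : Fin k → X =>
          ¬ (univ.filter fun z => B (x z)).card < 1).card : ℝ) ≤
          (k : ℝ) * (((univ.filter fun x => B x).card : ℝ) *
            (Fintype.card X : ℝ) ^ (k - 1)) := by exact_mod_cast h6
      refine h7.trans ?_
      rw [← mul_assoc]
      refine (mul_le_mul_of_nonneg_right hB (by positivity)).trans (le_of_eq ?_)
      have h8 : (Fintype.card X : ℝ) ^ k = Fintype.card X * (Fintype.card X : ℝ) ^ (k - 1) := by
        rw [← pow_succ']
        congr 1
        omega
      rw [h8]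
      ring
  -- the events `E t`
  have h6 : ∀ t ∈ range (T + 1), ((univ.filter fun x : Fin k → X =>
      ¬ (univ.filter fun z => E t (x z)).card < N).card : ℝ) ≤
      (Fintype.card X : ℝ) ^ k / 2 ^ N := by
    intro t ht
    rw [le_div_iff₀ (by positivity)]
    exact card_many_real k N (E t) hX (hE t (by have := Finset.mem_range.1 ht; omega))
  have h7 := Finset.sum_le_sum h6
  rw [Finset.sum_const, Finset.card_range, nsmul_eq_mul] at h7
  have h8 : ((T + 1 : ℕ) : ℝ) * ((Fintype.card X : ℝ) ^ k / 2 ^ N) ≤
      (Fintype.card X : ℝ) ^ k / 8 := by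
    rw [mul_div_assoc', div_le_div_iff₀ (by positivity) (by norm_num)]
    push_cast
    nlinarith
  linarith

end Pool.Agent.Helper5K9.ZN
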