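import Pool.Agent.Helper5K9.ZN.Coin

/-!
# The mean of the absolute value of a simple random walk
-/

set_option autoImplicit false

namespace Pool.Agent.Helper5K9.ZN

open Finset

theorem sum_WW_sq (T : ℕ) : ∀ t ≤ T, ∑ c : Fin T → Bool, (WW (ext c) t : ℝ) ^ 2 = t * 2 ^ T := by
  intro t
  induction t with
  | zero => intro _; simp [WW]
  | succ t ih =>
    intro ht
    have h1 := sum_next (⟨t, ht⟩ : Fin T) (fun c j => ((WW (ext c) t : ℝ) + j) ^ 2)
      (fun c j => by
        rw [WW_flp _ _ le_rfl])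
    have h2 : ∑ c : Fin T → Bool, (WW (ext c) (t + 1) : ℝ) ^ 2 =
        ∑ c : Fin T → Bool, ((WW (ext c) t : ℝ) + (sgn (ext c t) : ℤ)) ^ 2 := by
      refine Finset.sum_congr rfl fun c _ => ?_
      rw [WW_succ]
      push_cast
      ring
    have h3 : ∑ c : Fin T → Bool, (((WW (ext c) t : ℝ) + ((1 : ℤ) : ℝ)) ^ 2 +
        ((WW (ext c) t : ℝ) + ((-1 : ℤ) : ℝ)) ^ 2) =
        2 * (∑ c : Fin T → Bool, (WW (ext c) t : ℝ) ^ 2) + 2 * ∑ _c : Fin T → Bool, (1 : ℝ) := by
      rw [Finset.mul_sum, Finset.mul_sum, ← Finset.sum_add_distrib]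
      refine Finset.sum_congr rfl fun c _ => ?_
      push_cast
      ring
    dsimp only at h1
    rw [h3, ih (by omega), sum_one] at h1
    rw [h2]
    push_cast
    linarith

theorem w3 : S_W3 := by
  intro T t ht
  have h1 := sum_WW_sq T t ht
  have h2 := sq_sum_le_card_mul_sum_sq (s := (Finset.univ : Finset (Fin T → Bool)))
    (f := fun c => |(WW (ext c) t : ℝ)|)
  simp only [sq_abs] at h2
  rw [h1, Finset.card_univ, card_cube] at h2
  have h3 : (Real.sqrt t * 2 ^ T) ^ 2 = 2 ^ T * (t * 2 ^ T) := by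
    rw [mul_pow, Real.sq_sqrt (Nat.cast_nonneg t)]
    ring
  rw [← h3] at h2
  exact le_of_sq_le_sq h2 (by positivity)

end Pool.Agent.Helper5K9.ZN
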