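import Pool.Agent.Helper5K9.ZN.Fin2
import Pool.Agent.Helper5K9.ZN.Near
import Pool.Agent.Helper5K9.ZN.Abs
import Pool.Agent.Helper5K9.ZN.None
import Pool.Agent.Helper5K9.ZN.O1
import Pool.Agent.Helper5K9.ZN.Qb
import Pool.Agent.Helper5K9.ZN.Ub
import Pool.Agent.Helper5K9.ZN.Walk3
import Pool.Agent.Helper5K9.ZN.Walk4
import Pool.Agent.Helper5K9.ZN.Ind

set_option autoImplicit false

namespace Pool.Agent.Helper5K9.ZN

open Pool.Agent.Helper57K9.Zomb

theorem near' : S_NEAR := near w1 w3 ind sym free touch none (ex free touch sym)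
  (o1 free touch sym (ex free touch sym)) qb ea

theorem final_odd' (hGame : S_GAME) : ∃ c : ℝ, 0 < c ∧ ∀ n : ℕ, 3 ≤ n → Odd n →
    c * (n : ℝ) ^ (3 / 2 : ℝ) / Real.log n ^ 35 ≤ zombieNumber (torus n) :=
  As.final_odd Lo.main near' abs' hGame ub w2 w4

end Pool.Agent.Helper5K9.ZN
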