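import Pool.Agent.Helper5K9.ZN.Defs
import Pool.Agent.Helper57K9.Zomb.Game

/-!
# Zombies on the odd torus: the statements of the leaves
-/

set_option autoImplicit false

namespace Pool.Agent.Helper5K9.ZN

open Finset

/-! ## Simple random walk (`c : Fin T → Bool` uniform) -/

open Classical in
/-- reflection: all suffix sums of the window `(s, t]` are at most `A` -/
def S_W1 : Prop := ∃ C : ℝ, 0 < C ∧ ∀ T s t A : ℕ, s ≤ t → t ≤ T →
  ((univ.filter fun c : Fin T → Bool => ∀ s' : ℕ, s ≤ s' → s' ≤ t →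
      WW (ext c) t - WW (ext c) s' ≤ (A : ℤ)).card : ℝ) * Real.sqrt ((t : ℝ) - s + 1) ≤
    C * (A + 1) * 2 ^ T

open Classical in
/-- the sum over a window is rarely small -/
def S_W2 : Prop := ∃ C : ℝ, 0 < C ∧ ∀ T s t A : ℕ, s ≤ t → t ≤ T →
  ((univ.filter fun c : Fin T → Bool => |WW (ext c) t - WW (ext c) s| ≤ (A : ℤ)).card : ℝ) *
      Real.sqrt ((t : ℝ) - s + 1) ≤ C * (A + 1) * 2 ^ T

def S_W3 : Prop := ∀ T t : ℕ, t ≤ T →
  ∑ c : Fin T → Bool, |(WW (ext c) t : ℝ)| ≤ Real.sqrt t * 2 ^ T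

open Classical in
def S_W4 : Prop := ∀ K T : ℕ,
  ((univ.filter fun c : Fin T → Bool => ¬ GC K T (ext c)).card : ℝ) ≤
    2 * (T + 1) ^ 2 * Real.exp (-(K : ℝ) / 2) * 2 ^ T

/-- independence of the coins before `s` and from `s` on -/
def S_IND : Prop := ∀ (T s : ℕ) (f g : (Fin T → Bool) → ℝ),
  (∀ c c' : Fin T → Bool, (∀ i : Fin T, i.1 < s → c i = c' i) → f c = f c') →
  (∀ c c' : Fin T → Bool, (∀ i : Fin T, s ≤ i.1 → c i = c' i) → g c = g c') →
  (∑ c, f c * g c) * 2 ^ T = (∑ c, f c) * ∑ c, g c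

/-! ## One zombie, deterministic statements -/

/-- symmetry -/
def S_SYM : Prop := ∀ (h : ℕ) (c e : ℕ → Bool) (p : ℤ × ℤ) (t : ℕ),
  tr h (fun s => !(c s)) (fun s => !(e s)) p.swap t = (tr h c e p t).swap

/-- up to time `t` the zombie is on no axis at its turns, and a coordinate which is positive stays
positive (so it changes sign only by wrapping around) -/
def FreeTo (h : ℕ) (c e : ℕ → Bool) (p : ℤ × ℤ) (t : ℕ) : Prop :=
  (∀ s ≤ t, (tr h c e p s).1 ≠ 0 ∧ (tr h c e p s).2 ≠ 0) ∧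
  ∀ s < t, (0 < (tr h c e p s).1 → 0 < (tr h c e p (s + 1)).1) ∧
    (0 < (tr h c e p s).2 → 0 < (tr h c e p (s + 1)).2)

/-- the zombie is on, or has just crossed, the line `x = 0` -/
def CrossX (h : ℕ) (c e : ℕ → Bool) (p : ℤ × ℤ) (s : ℕ) : Prop :=
  (tr h c e p s).1 = 0 ∨ ((tr h c e p s).1 < 0 ∧ ∃ s', s' + 1 = s ∧ 0 < (tr h c e p s').1)

/-- the exceptional step: the zombie enters the shell `L1 = h + 1` of the south-west quadrant -/
def ExStep (h : ℕ) (c e : ℕ → Bool) (p : ℤ × ℤ) (s : ℕ) : Prop :=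
  (tr h c e p s = (1, -(h : ℤ)) ∧ tr h c e p (s + 1) = (-1, -(h : ℤ))) ∨
  (tr h c e p s = (-(h : ℤ), 1) ∧ tr h c e p (s + 1) = (-(h : ℤ), -1))

open Classical in
/-- free zombies: for given coins few starting points lead to `q` at time `t` (each coordinate
separately: at most `4 (R + 1) ^ 2` starting values) -/
def S_FREE : Prop := ∀ (h R t : ℕ) (c : ℕ → Bool) (q : ℤ × ℤ), 1 ≤ h →
  ((Box h).filter fun p => ∃ e : ℕ → Bool, Tube R e t ∧ FreeTo h c e p t ∧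
      tr h c e p t = q).card ≤ 100 * (R + 1) ^ 4

/-- after crossing the line `x = 0` a zombie is in the north (and not far in the west) or absorbed, or
there was an exceptional step -/
def S_TOUCH : Prop := ∀ (h R K s t : ℕ) (c e : ℕ → Bool) (p : ℤ × ℤ),
  1000 * (R + K + 1) ≤ h → p ∈ Box h → GC K t c → Tube R e t → s ≤ t → CrossX h c e p s →
  ((tr h c e p t).1 ≤ 0 ∧ -(h : ℤ) < 2 * (tr h c e p t).1 ∧ 0 < (tr h c e p t).2) ∨
    Absd h (tr h c e p t) ∨ ∃ s' < t, ExStep h c e p s'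

/-- after an exceptional step the zombie is never in the north-east quadrant -/
def S_NONE : Prop := ∀ (h R K s t : ℕ) (c e : ℕ → Bool) (p : ℤ × ℤ),
  1000 * (R + K + 1) ≤ h → p ∈ Box h → GC K t c → Tube R e t → s < t → ExStep h c e p s →
  ¬ (0 < (tr h c e p t).1 ∧ 0 < (tr h c e p t).2)

open Classical in
/-- few starting points lead to an exceptional step -/
def S_EX : Prop := ∃ C : ℕ, ∀ (h R K t : ℕ) (c : ℕ → Bool), 1000 * (R + K + 1) ≤ h → GC K t c →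
  ((Box h).filter fun p => ∃ e : ℕ → Bool, Tube R e t ∧ ∃ s < t, ExStep h c e p s).card ≤
    C * h * (R + K + 1) ^ 4

/-- near the survivor in the east sector -/
def NearE (r : ℕ) (q : ℤ × ℤ) : Prop := 0 < q.1 ∧ q.1 ≤ (r : ℤ) ∧ q.2 ≤ 0 ∧ -(r : ℤ) ≤ q.2

open Classical in
/-- the zombies in the east sector at time `s` in a window of distances -/
def S_O1 : Prop := ∃ C : ℕ, ∀ (h R K s l : ℕ) (u : ℤ) (c : ℕ → Bool),
  1000 * (R + K + 1) ≤ h → GC K s c →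
  ((Box h).filter fun p => ∃ e : ℕ → Bool, Tube R e s ∧ 0 < (tr h c e p s).1 ∧
      (tr h c e p s).2 ≤ 0 ∧ u ≤ L1 (tr h c e p s) ∧ L1 (tr h c e p s) ≤ u + l).card ≤
    C * h * (R + l + K + 1) ^ 6

open Classical in
/-- from the north-east quadrant to the east sector near the survivor in `w ≤ h / 4` rounds -/
def S_QB : Prop := ∃ C : ℕ, ∀ (h R ρ w : ℕ) (c : ℕ → Bool), 4 * w ≤ h → 16 * (R + ρ + 1) ≤ h →
  ((Box h).filter fun q => 0 < q.1 ∧ 0 < q.2 ∧ ∃ e : ℕ → Bool, Tube R e w ∧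
      NearE ρ (tr h c e q w)).card ≤
    C * (R + ρ + 1) ^ 2 * ((range (w + 1)).filter fun v => ∀ s' : ℕ, v ≤ s' → s' ≤ w →
      WW c w - WW c s' ≤ 2 * (ρ : ℤ) + 2 * R).card

/-- from the east sector (at all times) to the east sector near the survivor -/
def S_EA : Prop := ∀ (h R ρ w : ℕ) (c e : ℕ → Bool) (q : ℤ × ℤ), q ∈ Box h → Tube R e w →
  (∀ s ≤ w, 0 < (tr h c e q s).1 ∧ (tr h c e q s).2 ≤ 0) → NearE ρ (tr h c e q w) →
  (w : ℤ) - R ≤ L1 q ∧ L1 q ≤ (w : ℤ) + R + 2 * ρ ∧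
  (∀ s' ≤ w, WW c w - WW c s' ≤ 2 * (ρ : ℤ) + 2 * R) ∧ -q.2 ≤ (ρ : ℤ) + R + |WW c w|

open Classical in
/-- the main estimate: at a given time, few pairs (starting point, coins) lead to a zombie near and
in front of the survivor, along any path of the survivor in the tube -/
def S_NEAR : Prop := ∃ C : ℝ, 0 < C ∧ ∀ h R ρ K T t : ℕ, 1000 * (R + ρ + K + 1) ≤ h → t ≤ T →
  ((((Box h) ×ˢ (univ : Finset (Fin T → Bool))).filter fun x =>
      GC K T (ext x.2) ∧ ∃ e : ℕ → Bool, Tube R e t ∧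
        Near ρ (tr h (ext x.2) e x.1 t)).card : ℝ) ≤
    C * (R + ρ + K + 1) ^ 7 * Real.sqrt h * 2 ^ T

/-- absorption -/
def S_ABS : Prop := ∀ (h R K T₁ T₂ T : ℕ) (c e : ℕ → Bool) (p : ℤ × ℤ),
  1000 * (R + K + 1) ≤ h → p ∈ Box h → GC K T c → Tube R e T → T₁ + T₂ + 20 * h ≤ T →
  3 * (h : ℤ) < |WW c T₁| →
  (∀ s ≤ T₁ + 10 * h, 3 * (h : ℤ) < |WW c (s + T₂) - WW c s|) → Absd h (tr h c e p T)

/-! ## The game -/

/-- a strategy with memory which keeps the survivor alive for all coins extending the pairs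
(starting points, coins up to `T`) in `Good` gives a lower bound for the survival probability -/
def S_GAME : Prop := ∀ (h k T : ℕ) (S : Strat k), 1 ≤ h →
  ∀ Good : Finset (Fin k → (ℤ × ℤ) × (Fin T → Bool)),
  (∀ x ∈ Good, ∀ z, (x z).1 ∈ Box h) →
  (∀ x ∈ Good, ∀ c : ℕ → Fin k → Bool, (∀ (z : Fin k) (i : Fin T), c i z = (x z).2 i) →
    ∀ (t : ℕ) (z : Fin k), (play h S c (fun z => (x z).1) t).2 z ≠ 0 ∧
      zm (c t z) ((play h S c (fun z => (x z).1) t).2 z) ≠ 0) →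
  (Good.card : ℝ) / ((2 * h + 1) ^ 2 * 2 ^ T) ^ k ≤
    Pool.Agent.Helper57K9.Zomb.survivalProb (Pool.Agent.Helper57K9.Zomb.torus (2 * h + 1)) k

open Classical in
/-- union bound -/
def S_UB : Prop := ∀ (X : Type) [Fintype X] (k N T : ℕ) (B : X → Prop)
  (E : ℕ → X → Prop), 1 ≤ Fintype.card X → 1 ≤ N →
  (k : ℝ) * ((univ.filter fun x => B x).card : ℝ) ≤ Fintype.card X / 8 →
  (∀ t ≤ T, (k : ℝ) * ((univ.filter fun x => E t x).card : ℝ) ≤ Fintype.card X / 2) →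
  (T + 1 : ℝ) * 8 ≤ 2 ^ N →
  (Fintype.card X : ℝ) ^ k * (3 / 4) ≤
    ((univ.filter fun x : Fin k → X => (∀ z, ¬ B (x z)) ∧
      ∀ t ≤ T, (univ.filter fun z => E t (x z)).card < N).card : ℝ)

end Pool.Agent.Helper5K9.ZN
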