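import Pool.Agent.Helper5K9.ZN.Main
import Pool.Agent.Helper5K9.ZN.Stm

/-!
# Assembly, part 1: the survivor wins with probability at least 3/4
-/

set_option autoImplicit false

namespace Pool.Agent.Helper5K9.ZN.As

open Finset

theorem ext_of_lt {T : ℕ} (c : Fin T → Bool) {s : ℕ} (hs : s < T) : ext c s = c ⟨s, hs⟩ := by
  unfold ext; rw [dif_pos hs]

theorem WW_congr {c c' : ℕ → Bool} {t : ℕ} (h : ∀ s < t, c s = c' s) : WW c t = WW c' t := by
  unfold WW
  apply sum_congr rfl
  intro s hs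
  rw [h s (mem_range.mp hs)]

theorem GC_congr {K T : ℕ} {c c' : ℕ → Bool} (h : ∀ s < T, c s = c' s) (g : GC K T c) :
    GC K T c' := by
  intro s w hw
  rw [← WW_congr (c := c) (t := s + w) (fun u hu => h u (by omega)),
    ← WW_congr (c := c) (t := s) (fun u hu => h u (by omega))]
  exact g s w hw

theorem tr_congr {h : ℕ} {c c' e : ℕ → Bool} {p : ℤ × ℤ} {t : ℕ} (hc : ∀ s < t, c s = c' s) :
    tr h c e p t = tr h c' e p t := by
  induction t with
  | zero => rfl
  | succ t ih =>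
    change sm h (e t) (zm (c t) (tr h c e p t)) = sm h (e t) (zm (c' t) (tr h c' e p t))
    rw [ih (fun s hs => hc s (by omega)), hc t (by omega)]

/-- absorbed zombies stay behind at the same distance -/
theorem absd_step {h : ℕ} {q : ℤ × ℤ} (hq : Absd h q) (h0 : 1 ≤ L1 q) (c e : Bool) :
    Absd h (sm h e (zm c q)) ∧ L1 (sm h e (zm c q)) = L1 q := by
  obtain ⟨x, y⟩ := q
  obtain ⟨h1, h2, h3⟩ := hq
  unfold L1 at h0 h3
  simp only at h1 h2 h3 h0
  rw [abs_of_nonpos h1, abs_of_nonpos h2] at h0 h3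
  have key : (sm h e (zm c (x, y))).1 ≤ 0 ∧ (sm h e (zm c (x, y))).2 ≤ 0 ∧
      (sm h e (zm c (x, y))).1 + (sm h e (zm c (x, y))).2 = x + y := by
    rcases Lo.zm_cases c (x, y) with ⟨h', h''⟩ | ⟨h', h''⟩ <;> rw [h'] <;>
    rcases Lo.sign_cases x with ⟨h3, h4⟩ | ⟨h3, h4⟩ | ⟨h3, h4⟩ <;>
    rcases Lo.sign_cases y with ⟨h5, h6⟩ | ⟨h5, h6⟩ | ⟨h5, h6⟩ <;>
    simp only [h4, h6, sm, wr] <;> simp only at h'' <;> cases e <;>
    simp only [Bool.false_eq_true, if_false, if_true] <;>
    split_ifs <;> refine ⟨?_, ?_, ?_⟩ <;> omega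
  have e1 : L1 (sm h e (zm c (x, y))) = L1 (x, y) := by
    unfold L1
    rw [abs_of_nonpos key.1, abs_of_nonpos key.2.1, abs_of_nonpos h1, abs_of_nonpos h2]
    linarith [key.2.2]
  refine ⟨⟨key.1, key.2.1, ?_⟩, e1⟩
  rw [e1]; unfold L1
  rw [abs_of_nonpos h1, abs_of_nonpos h2]
  exact h3

/-- a zombie at distance at least 2 does not catch the survivor in its next move -/
theorem ne_of_L1 {q : ℤ × ℤ} (h : 2 ≤ L1 q) (c : Bool) : q ≠ 0 ∧ zm c q ≠ 0 := by
  constructor
  · rintro rfl; simp [L1] at h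
  · intro h0
    have h1 := Lo.zm_abs c q
    rw [h0] at h1
    simp only [Prod.fst_zero, Prod.snd_zero, abs_zero] at h1
    unfold L1 at h
    rcases Lo.zm_cases c q with ⟨h', h''⟩ | ⟨h', h''⟩
    · rw [h0] at h'
      have h2 : q.2 = 0 := (congrArg Prod.snd h').symm
      rw [h2, abs_zero] at h
      linarith [h1.2.2.1]
    · rw [h0] at h'
      have h2 : q.1 = 0 := (congrArg Prod.fst h').symm
      rw [h2, abs_zero] at h
      linarith [h1.2.2.2]

/-- bad starting points and coins -/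
def Bad (h N K T T₁ T₂ : ℕ) (p : ℤ × ℤ) (c : ℕ → Bool) : Prop :=
  ¬ GC K T c ∨ |WW c T₁| ≤ 3 * (h : ℤ) ∨
  (∃ s ≤ T₁ + 10 * h, |WW c (s + T₂) - WW c s| ≤ 3 * (h : ℤ)) ∨
  (|p.1| < 10 * (Fe N K : ℤ) ∧ |p.2| < 10 * (Fe N K : ℤ))

/-- the zombie may be near the survivor at time `t` -/
def Ev (h N K T t : ℕ) (p : ℤ × ℤ) (c : ℕ → Bool) : Prop :=
  GC K T c ∧ ∃ e : ℕ → Bool, Tube (Fe N K) e t ∧ Near (10 * Fe N K) (tr h c e p t)

open Classical in
/-- survival -/
theorem surv (hMain : S_MAIN) (hAbs : S_ABS) {h N K k T T₁ T₂ : ℕ} (hN : 1 ≤ N)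
    (hh : 1000 * (Fe N K + K + 1) ≤ h) (hT : T₁ + T₂ + 20 * h ≤ T)
    (x : Fin k → (ℤ × ℤ) × (Fin T → Bool)) (hx : ∀ z, (x z).1 ∈ Box h)
    (hB : ∀ z, ¬ Bad h N K T T₁ T₂ (x z).1 (ext (x z).2))
    (hE : ∀ t ≤ T, (univ.filter fun z => Ev h N K T t (x z).1 (ext (x z).2)).card < N)
    (c : ℕ → Fin k → Bool) (hc : ∀ (z : Fin k) (i : Fin T), c i z = (x z).2 i) (t : ℕ)
    (z : Fin k) : 2 ≤ L1 ((play h (strat h N K k) c (fun z => (x z).1) t).2 z) := by
  have hce : ∀ z, ∀ s < T, ext (x z).2 s = c s z := by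
    intro z s hs
    rw [ext_of_lt _ hs, ← hc z ⟨s, hs⟩]
  have hg : ∀ z, GC K T (fun s => c s z) := by
    intro z
    have h1 := hB z
    unfold Bad at h1
    push Not at h1
    exact GC_congr (fun s hs => hce z s hs) h1.1
  have main := hMain N K h k T c (fun z => (x z).1) hN (by omega) hx hg (by
    intro z
    have h1 := hB z
    unfold Bad at h1
    push Not at h1
    by_contra hcon
    push Not at hcon
    exact absurd (h1.2.2.2 hcon.1) (not_le.mpr hcon.2)) (by
    intro t ht hTu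
    refine lt_of_le_of_lt (card_le_card ?_) (hE t ht)
    intro z hz
    rw [mem_filter] at hz ⊢
    refine ⟨mem_univ _, ?_, mv h (strat h N K k) c (fun z => (x z).1), hTu, ?_⟩
    · exact GC_congr (fun s hs => (hce z s hs).symm) (hg z)
    · have h2 := hz.2
      rw [play_snd] at h2
      rwa [tr_congr (c' := fun s => c s z) (fun s hs => hce z s (by omega))])
  rcases le_or_gt t T with ht | ht
  · exact (main t ht).2 z
  · have key : ∀ d, Absd h ((play h (strat h N K k) c (fun z => (x z).1) (T + d)).2 z) ∧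
        2 ≤ L1 ((play h (strat h N K k) c (fun z => (x z).1) (T + d)).2 z) := by
      intro d
      induction d with
      | zero =>
        refine ⟨?_, (main T (le_refl _)).2 z⟩
        have h1 := hB z
        unfold Bad at h1
        push Not at h1
        obtain ⟨-, h2, h3, -⟩ := h1
        have hWW : ∀ s ≤ T, WW (ext (x z).2) s = WW (fun s => c s z) s := fun s hs =>
          WW_congr (fun u hu => hce z u (by omega))
        rw [hWW T₁ (by omega)] at h2
        rw [play_snd]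
        refine hAbs h (Fe N K) K T₁ T₂ T _ _ _ hh (hx z) (hg z) (main T (le_refl _)).1 hT h2 ?_
        intro s hs
        have := h3 s hs
        rw [hWW _ (by omega), hWW _ (by omega)] at this
        exact this
      | succ d ih =>
        have := absd_step ih.1 (by linarith [ih.2]) (c (T + d) z)
          ((strat h N K k).out (play h (strat h N K k) c (fun z => (x z).1) (T + d + 1)).1)
        refine ⟨this.1, ?_⟩
        have h5 := this.2
        have h6 : L1 ((play h (strat h N K k) c (fun z => (x z).1) (T + (d + 1))).2 z) = _ := h5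
        rw [h6]; exact ih.2
    have := (key (t - T)).2
    rwa [show T + (t - T) = t by omega] at this

open Classical in
/-- the survivor wins with probability at least 3/4 -/
theorem prob (hMain : S_MAIN) (hAbs : S_ABS) (hGame : S_GAME) (hUB : S_UB)
    {h N K k T T₁ T₂ : ℕ} (hN : 1 ≤ N)
    (hh : 1000 * (Fe N K + K + 1) ≤ h) (hT : T₁ + T₂ + 20 * h ≤ T) (hTN : (T + 1 : ℝ) * 8 ≤ 2 ^ N)
    (hB : (k : ℝ) * ((((Box h) ×ˢ (univ : Finset (Fin T → Bool))).filter fun x =>
      Bad h N K T T₁ T₂ x.1 (ext x.2)).card : ℝ) ≤ (2 * h + 1) ^ 2 * 2 ^ T / 8)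
    (hE : ∀ t ≤ T, (k : ℝ) * ((((Box h) ×ˢ (univ : Finset (Fin T → Bool))).filter fun x =>
      Ev h N K T t x.1 (ext x.2)).card : ℝ) ≤ (2 * h + 1) ^ 2 * 2 ^ T / 2) :
    3 / 4 ≤ Pool.Agent.Helper57K9.Zomb.survivalProb
      (Pool.Agent.Helper57K9.Zomb.torus (2 * h + 1)) k := by
  set X := {x : (ℤ × ℤ) × (Fin T → Bool) // x ∈ (Box h) ×ˢ (univ : Finset (Fin T → Bool))} with hX
  have hcard : Fintype.card X = (2 * h + 1) ^ 2 * 2 ^ T := by
    have h1 : Fintype.card X = ((Box h) ×ˢ (univ : Finset (Fin T → Bool))).card :=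
      Fintype.card_coe _
    rw [h1, card_product, Box, card_product, card_univ, Fintype.card_fun,
      Fintype.card_bool, Fintype.card_fin, Int.card_Icc]
    congr 1
    have : ((h : ℤ) + 1 - -(h : ℤ)).toNat = 2 * h + 1 := by omega
    rw [this]; ring
  have hcardR : (Fintype.card X : ℝ) = (2 * h + 1) ^ 2 * 2 ^ T := by
    rw [hcard]; push_cast; ring
  have hfil : ∀ Q : (ℤ × ℤ) × (Fin T → Bool) → Prop,
      (univ.filter fun x : X => Q x.1).card =
        (((Box h) ×ˢ (univ : Finset (Fin T → Bool))).filter Q).card := by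
    intro Q
    apply card_bij (fun x _ => x.1)
    · intro x hx
      rw [mem_filter] at hx ⊢
      exact ⟨x.2, hx.2⟩
    · intro a _ b _ hab; exact Subtype.ext hab
    · intro b hb
      rw [mem_filter] at hb
      exact ⟨⟨b, hb.1⟩, by rw [mem_filter]; exact ⟨mem_univ _, hb.2⟩, rfl⟩
  have ub := hUB X k N T (fun x => Bad h N K T T₁ T₂ x.1.1 (ext x.1.2))
    (fun t x => Ev h N K T t x.1.1 (ext x.1.2)) (by rw [hcard]; exact Nat.succ_le_of_lt (by positivity)) hN
    (by rw [hcardR, hfil (fun x => Bad h N K T T₁ T₂ x.1 (ext x.2))]; exact hB)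
    (by intro t ht; rw [hcardR, hfil (fun x => Ev h N K T t x.1 (ext x.2))]; exact hE t ht) hTN
  set G := univ.filter fun x : Fin k → X => (∀ z, ¬ Bad h N K T T₁ T₂ (x z).1.1 (ext (x z).1.2)) ∧
      ∀ t ≤ T, (univ.filter fun z => Ev h N K T t (x z).1.1 (ext (x z).1.2)).card < N with hG
  have game := hGame h k T (strat h N K k) (by omega) (G.image fun x z => (x z).1) (by
    intro y hy z
    obtain ⟨x, hx, rfl⟩ := mem_image.mp hy
    exact (mem_product.mp (x z).2).1) (by
    intro y hy c hc t z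
    obtain ⟨x, hx, rfl⟩ := mem_image.mp hy
    rw [hG, mem_filter] at hx
    exact ne_of_L1 (surv hMain hAbs hN hh hT (fun z => (x z).1)
      (fun z => (mem_product.mp (x z).2).1) hx.2.1 hx.2.2 c hc t z) _)
  rw [card_image_of_injective _ (fun a b hab => by
    funext z; exact Subtype.ext (congrFun hab z))] at game
  refine le_trans ?_ game
  rw [hcardR] at ub
  rw [le_div_iff₀ (by positivity)]
  linarith

end Pool.Agent.Helper5K9.ZN.As
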