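import Pool.Agent.Helper5K9.ZN.Asm

/-!
# Assembly, part 2: the bad zombies are rare
-/

set_option autoImplicit false

namespace Pool.Agent.Helper5K9.ZN.As

open Finset

theorem card_Box (h : ℕ) : (Box h).card = (2 * h + 1) ^ 2 := by
  rw [Box, card_product, Int.card_Icc]
  have : ((h : ℤ) + 1 - -(h : ℤ)).toNat = 2 * h + 1 := by omega
  rw [this]; ring

theorem ext_WW0 (c : ℕ → Bool) : WW c 0 = 0 := by simp [WW]

open Classical in
theorem badCount (hW2 : S_W2) (hW4 : S_W4) : ∃ C : ℝ, 0 < C ∧ ∀ h N K T T₁ T₂ : ℕ, 1 ≤ N →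
    T₁ + T₂ + 20 * h ≤ T →
    ((((Box h) ×ˢ (univ : Finset (Fin T → Bool))).filter fun x =>
      Bad h N K T T₁ T₂ x.1 (ext x.2)).card : ℝ) ≤
    (2 * (T + 1) ^ 2 * Real.exp (-(K : ℝ) / 2) * (2 * h + 1) ^ 2 +
      C * (3 * h + 1) / Real.sqrt (T₁ + 1) * (2 * h + 1) ^ 2 +
      (T₁ + 10 * h + 1) * (C * (3 * h + 1) / Real.sqrt (T₂ + 1)) * (2 * h + 1) ^ 2 +
      400 * (Fe N K : ℝ) ^ 2) * 2 ^ T := by
  obtain ⟨C, hC, hw⟩ := hW2
  refine ⟨C, hC, fun h N K T T₁ T₂ hN hT => ?_⟩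
  set A1 := univ.filter fun c : Fin T → Bool => ¬ GC K T (ext c) with hA1
  set A2 := univ.filter fun c : Fin T → Bool =>
    |WW (ext c) T₁ - WW (ext c) 0| ≤ ((3 * h : ℕ) : ℤ) with hA2
  set A3 := fun s : ℕ => univ.filter fun c : Fin T → Bool =>
    |WW (ext c) (s + T₂) - WW (ext c) s| ≤ ((3 * h : ℕ) : ℤ) with hA3
  set P4 := (Box h).filter fun p : ℤ × ℤ =>
    |p.1| < 10 * (Fe N K : ℤ) ∧ |p.2| < 10 * (Fe N K : ℤ) with hP4
  have sub : (((Box h) ×ˢ (univ : Finset (Fin T → Bool))).filter fun x =>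
      Bad h N K T T₁ T₂ x.1 (ext x.2)) ⊆
      ((Box h) ×ˢ A1) ∪ ((Box h) ×ˢ A2) ∪
        ((range (T₁ + 10 * h + 1)).biUnion fun s => (Box h) ×ˢ A3 s) ∪ (P4 ×ˢ univ) := by
    intro x hx
    rw [mem_filter, mem_product] at hx
    obtain ⟨⟨hx1, -⟩, hx2⟩ := hx
    simp only [mem_union, mem_product, mem_biUnion, mem_range]
    rcases hx2 with h1 | h1 | ⟨s, hs, h1⟩ | h1
    · left; left; left; exact ⟨hx1, by rw [hA1, mem_filter]; exact ⟨mem_univ _, h1⟩⟩
    · left; left; right; refine ⟨hx1, ?_⟩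
      rw [hA2, mem_filter]; refine ⟨mem_univ _, ?_⟩
      rw [ext_WW0, sub_zero]; push_cast; exact h1
    · left; right; refine ⟨s, by omega, hx1, ?_⟩
      simp only [hA3, mem_filter, mem_univ, true_and]; push_cast; exact h1
    · right; refine ⟨?_, mem_univ _⟩
      rw [hP4, mem_filter]; exact ⟨hx1, h1⟩
  have c1 : (A1.card : ℝ) ≤ 2 * (T + 1) ^ 2 * Real.exp (-(K : ℝ) / 2) * 2 ^ T := hW4 K T
  have c2 : (A2.card : ℝ) ≤ C * (3 * h + 1) / Real.sqrt (T₁ + 1) * 2 ^ T := by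
    have := hw T 0 T₁ (3 * h) (Nat.zero_le _) (by omega)
    have hs : 0 < Real.sqrt ((T₁ : ℝ) + 1) := Real.sqrt_pos.mpr (by positivity)
    rw [div_mul_eq_mul_div, le_div_iff₀ hs]
    simp only [Nat.cast_zero, sub_zero] at this
    push_cast at this ⊢
    exact this
  have c3 : ∀ s ∈ range (T₁ + 10 * h + 1),
      ((A3 s).card : ℝ) ≤ C * (3 * h + 1) / Real.sqrt (T₂ + 1) * 2 ^ T := by
    intro s hs'
    rw [mem_range] at hs'
    have := hw T s (s + T₂) (3 * h) (by omega) (by omega)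
    have hs : 0 < Real.sqrt ((T₂ : ℝ) + 1) := Real.sqrt_pos.mpr (by positivity)
    rw [div_mul_eq_mul_div, le_div_iff₀ hs]
    have e1 : ((s + T₂ : ℕ) : ℝ) - s + 1 = (T₂ : ℝ) + 1 := by push_cast; ring
    rw [e1] at this
    push_cast at this ⊢
    exact this
  have c4 : (P4.card : ℝ) ≤ 400 * (Fe N K : ℝ) ^ 2 := by
    have s4 : P4 ⊆ Icc (-(10 * (Fe N K : ℤ)) + 1) (10 * (Fe N K : ℤ)) ×ˢ
        Icc (-(10 * (Fe N K : ℤ)) + 1) (10 * (Fe N K : ℤ)) := by
      intro x hx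
      rw [hP4, mem_filter, abs_lt, abs_lt] at hx
      rw [mem_product, mem_Icc, mem_Icc]
      omega
    have := card_le_card s4
    rw [card_product, Int.card_Icc] at this
    have e1 : (10 * (Fe N K : ℤ) + 1 - (-(10 * (Fe N K : ℤ)) + 1)).toNat = 20 * Fe N K := by omega
    rw [e1] at this
    have h2 : (P4.card : ℝ) ≤ ((20 * Fe N K * (20 * Fe N K) : ℕ) : ℝ) := by exact_mod_cast this
    refine h2.trans (le_of_eq ?_)
    push_cast; ring
  have hb : ((Box h).card : ℝ) = (2 * h + 1) ^ 2 := by rw [card_Box]; push_cast; ring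
  have h2T : ((univ : Finset (Fin T → Bool)).card : ℝ) = 2 ^ T := by
    rw [card_univ, Fintype.card_fun, Fintype.card_bool, Fintype.card_fin]; push_cast; ring
  have tot : ((((Box h) ×ˢ (univ : Finset (Fin T → Bool))).filter fun x =>
      Bad h N K T T₁ T₂ x.1 (ext x.2)).card : ℝ) ≤
      (Box h).card * A1.card + (Box h).card * A2.card +
      (∑ s ∈ range (T₁ + 10 * h + 1), (Box h).card * (A3 s).card : ℕ) +
      P4.card * (univ : Finset (Fin T → Bool)).card := by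
    have h1 := card_le_card sub
    have h2 : (((Box h) ×ˢ A1) ∪ ((Box h) ×ˢ A2) ∪
        ((range (T₁ + 10 * h + 1)).biUnion fun s => (Box h) ×ˢ A3 s) ∪ (P4 ×ˢ univ)).card ≤
        (Box h).card * A1.card + (Box h).card * A2.card +
        (∑ s ∈ range (T₁ + 10 * h + 1), (Box h).card * (A3 s).card) +
        P4.card * (univ : Finset (Fin T → Bool)).card := by
      refine (card_union_le _ _).trans ?_
      rw [card_product]
      refine Nat.add_le_add_right ?_ _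
      refine (card_union_le _ _).trans ?_
      refine Nat.add_le_add ?_ ?_
      · refine (card_union_le _ _).trans ?_
        rw [card_product, card_product]
      · refine card_biUnion_le.trans ?_
        apply le_of_eq
        apply sum_congr rfl
        intro s _
        rw [card_product]
    have := h1.trans h2
    exact_mod_cast this
  refine tot.trans ?_
  rw [hb, h2T]
  have c3' : ((∑ s ∈ range (T₁ + 10 * h + 1), (Box h).card * (A3 s).card : ℕ) : ℝ) ≤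
      (T₁ + 10 * h + 1) * ((2 * h + 1) ^ 2 * (C * (3 * h + 1) / Real.sqrt (T₂ + 1) * 2 ^ T)) := by
    push_cast
    rw [hb]
    calc ∑ s ∈ range (T₁ + 10 * h + 1), (2 * (h : ℝ) + 1) ^ 2 * ((A3 s).card : ℝ) ≤
        ∑ s ∈ range (T₁ + 10 * h + 1), (2 * (h : ℝ) + 1) ^ 2 *
          (C * (3 * h + 1) / Real.sqrt (T₂ + 1) * 2 ^ T) :=
          sum_le_sum fun s hs => mul_le_mul_of_nonneg_left (c3 s hs) (by positivity)
      _ = _ := by rw [sum_const, card_range, nsmul_eq_mul]; push_cast; ring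
  have d1 := mul_le_mul_of_nonneg_left c1 (by positivity : (0 : ℝ) ≤ (2 * (h : ℝ) + 1) ^ 2)
  have d2 := mul_le_mul_of_nonneg_left c2 (by positivity : (0 : ℝ) ≤ (2 * (h : ℝ) + 1) ^ 2)
  have d4 := mul_le_mul_of_nonneg_right c4 (by positivity : (0 : ℝ) ≤ (2 : ℝ) ^ T)
  calc _ ≤ (2 * (h : ℝ) + 1) ^ 2 * (2 * (T + 1) ^ 2 * Real.exp (-(K : ℝ) / 2) * 2 ^ T) +
      (2 * (h : ℝ) + 1) ^ 2 * (C * (3 * h + 1) / Real.sqrt (T₁ + 1) * 2 ^ T) +
      (T₁ + 10 * h + 1) * ((2 * h + 1) ^ 2 * (C * (3 * h + 1) / Real.sqrt (T₂ + 1) * 2 ^ T)) +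
      400 * (Fe N K : ℝ) ^ 2 * 2 ^ T := add_le_add (add_le_add (add_le_add d1 d2) c3') d4
    _ = _ := by ring

/-- powers of logarithms grow slowly -/
theorem growth (A : ℝ) (m : ℕ) : ∃ n₀ : ℕ, ∀ n ≥ n₀, A * ((Nat.log 2 n : ℝ) + 1) ^ m ≤
    Real.sqrt n := by
  have h1 := Real.isLittleO_pow_log_id_atTop (n := m)
  have h2 : Filter.Tendsto (fun n : ℕ => Real.sqrt n) Filter.atTop Filter.atTop :=
    Real.tendsto_sqrt_atTop.comp tendsto_natCast_atTop_atTop
  have h3 := h1.comp_tendsto h2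
  have h4 := h3.def (c := 1 / ((|A| + 1) * 6 ^ m)) (by positivity)
  rw [Filter.eventually_atTop] at h4
  obtain ⟨n₁, h5⟩ := h4
  refine ⟨max n₁ 3, fun n hn => ?_⟩
  have h6 := h5 n (le_trans (le_max_left _ _) hn)
  have hn3 : 3 ≤ n := le_trans (le_max_right _ _) hn
  have hn3' : (3 : ℝ) ≤ n := by exact_mod_cast hn3
  simp only [Function.comp, id, Real.norm_eq_abs] at h6
  rw [abs_of_nonneg (Real.sqrt_nonneg _)] at h6
  have hlog : 1 ≤ Real.log n := by
    rw [Real.le_log_iff_exp_le (by linarith)]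
    exact Real.exp_one_lt_d9.le.trans (by linarith)
  have hls : Real.log (Real.sqrt n) = Real.log n / 2 := Real.log_sqrt (by linarith)
  have h7 : (Nat.log 2 n : ℝ) + 1 ≤ 6 * Real.log (Real.sqrt n) := by
    rw [hls]
    have h8 := Real.natLog_le_logb n 2
    have h9 : Real.logb 2 n ≤ 2 * Real.log n := by
      rw [Real.logb, div_le_iff₀ (Real.log_pos (by norm_num))]
      have := Real.log_two_gt_d9
      nlinarith
    have h8' : (Nat.log 2 n : ℝ) ≤ Real.logb 2 n := by exact_mod_cast h8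
    linarith
  have h0 : 0 ≤ Real.log (Real.sqrt n) := by rw [hls]; linarith
  rw [abs_of_nonneg (pow_nonneg h0 _)] at h6
  have h10 : ((Nat.log 2 n : ℝ) + 1) ^ m ≤ 6 ^ m * Real.log (Real.sqrt n) ^ m := by
    rw [← mul_pow]
    exact pow_le_pow_left₀ (by positivity) h7 m
  calc A * ((Nat.log 2 n : ℝ) + 1) ^ m ≤ (|A| + 1) * (6 ^ m * Real.log (Real.sqrt n) ^ m) := by
        apply mul_le_mul (by linarith [le_abs_self A]) h10 (by positivity) (by positivity)
    _ ≤ (|A| + 1) * (6 ^ m * (1 / ((|A| + 1) * 6 ^ m) * Real.sqrt n)) := by gcongr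
    _ = Real.sqrt n := by
      have : (|A| + 1) ≠ 0 := by positivity
      field_simp

end Pool.Agent.Helper5K9.ZN.As
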