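import Pool.Agent.Helper5K9.ZN.Stm

/-!
# Flipping one coin
-/

set_option autoImplicit false

namespace Pool.Agent.Helper5K9.ZN

open Finset

/-- flip the coin `t` -/
def flp {T : ℕ} (t : Fin T) (c : Fin T → Bool) : Fin T → Bool := Function.update c t (!(c t))

theorem flp_flp {T : ℕ} (t : Fin T) (c : Fin T → Bool) : flp t (flp t c) = c := by
  funext i
  by_cases h : i = t
  · subst h; simp [flp]
  · simp [flp, h]

theorem flp_same {T : ℕ} (t : Fin T) (c : Fin T → Bool) : flp t c t = !(c t) := by simp [flp]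

theorem flp_ne {T : ℕ} (t : Fin T) (c : Fin T → Bool) {i : Fin T} (h : i ≠ t) :
    flp t c i = c i := by simp [flp, h]

/-- averaging over the flip -/
theorem sum_flp {T : ℕ} (t : Fin T) (F : (Fin T → Bool) → ℝ) :
    ∑ c, F (flp t c) = ∑ c, F c := by
  refine Finset.sum_nbij' (flp t) (flp t) (fun _ _ => Finset.mem_univ _)
    (fun _ _ => Finset.mem_univ _) (fun c _ => flp_flp t c) (fun c _ => flp_flp t c)
    (fun _ _ => rfl)

theorem ext_lt {T : ℕ} (c : Fin T → Bool) {i : ℕ} (hi : i < T) : ext c i = c ⟨i, hi⟩ := by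
  simp [ext, hi]

theorem ext_flp_ne {T : ℕ} (t : Fin T) (c : Fin T → Bool) {i : ℕ} (hi : i ≠ t.1) :
    ext (flp t c) i = ext c i := by
  unfold ext
  by_cases h : i < T
  · rw [dif_pos h, dif_pos h, flp_ne]
    intro hh
    exact hi (congrArg Fin.val hh)
  · rw [dif_neg h, dif_neg h]

theorem ext_flp_same {T : ℕ} (t : Fin T) (c : Fin T → Bool) :
    ext (flp t c) t.1 = !(ext c t.1) := by
  rw [ext_lt _ t.2, ext_lt _ t.2, flp_same]

theorem WW_flp {T : ℕ} (t : Fin T) (c : Fin T → Bool) {s : ℕ} (hs : s ≤ t.1) :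
    WW (ext (flp t c)) s = WW (ext c) s := by
  refine Finset.sum_congr rfl fun i hi => ?_
  rw [ext_flp_ne]
  have := Finset.mem_range.1 hi
  omega

theorem WW_succ (c : ℕ → Bool) (t : ℕ) : WW c (t + 1) = WW c t + sgn (c t) := by
  rw [WW, Finset.sum_range_succ, ← WW]

theorem sgn_not (b : Bool) : sgn (!b) = - sgn b := by cases b <;> rfl

/-- the average of a function of the next coin: `G c` depends only on the coins before `t` -/
theorem sum_next {T : ℕ} (t : Fin T) (F : (Fin T → Bool) → ℤ → ℝ)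
    (hF : ∀ c j, F (flp t c) j = F c j) :
    2 * ∑ c, F c (sgn (ext c t.1)) = ∑ c, (F c 1 + F c (-1)) := by
  have h1 := sum_flp t (fun c => F c (sgn (ext c t.1)))
  simp only [ext_flp_same, sgn_not, hF] at h1
  have h2 : ∀ c, F c (sgn (ext c t.1)) + F c (-sgn (ext c t.1)) = F c 1 + F c (-1) := by
    intro c
    cases ext c t.1
    · change F c (-1) + F c (-(-1)) = _
      rw [neg_neg, add_comm]
    · change F c 1 + F c (-1) = _
      rfl
  rw [two_mul]
  nth_rw 2 [← h1]
  rw [← Finset.sum_add_distrib]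
  exact Finset.sum_congr rfl fun c _ => h2 c

theorem card_cube (T : ℕ) : (Fintype.card (Fin T → Bool) : ℝ) = 2 ^ T := by
  rw [Fintype.card_pi]
  simp

theorem sum_one (T : ℕ) : ∑ _c : Fin T → Bool, (1 : ℝ) = 2 ^ T := by
  rw [Finset.sum_const, Finset.card_univ, nsmul_eq_mul, mul_one, card_cube]

end Pool.Agent.Helper5K9.ZN
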