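import Mathlib

/-!
# Zombies on the odd torus: relative coordinates

`n = 2 h + 1`. The position of a zombie relative to the survivor is a pair `q` of integers in
`[-h, h]`. A coin `true` stands for a horizontal move of the zombie (if possible), a bit `e = true`
for a move of the survivor to the east, `e = false` for a move to the north.
-/

set_option autoImplicit false

namespace Pool.Agent.Helper5K9.ZN

open Finset

/-- wrap around (used for `a ∈ [-h - 1, h]`) -/
def wr (h : ℕ) (a : ℤ) : ℤ := if a < -(h : ℤ) then a + (2 * h + 1) else a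

/-- the move of a zombie at relative position `q`; coin `c = true`: horizontally, if possible -/
def zm (c : Bool) (q : ℤ × ℤ) : ℤ × ℤ :=
  if q.2 = 0 ∨ (c = true ∧ q.1 ≠ 0) then (q.1 - q.1.sign, q.2) else (q.1, q.2 - q.2.sign)

/-- the move of the survivor, to the east (`true`) or to the north (`false`) -/
def sm (h : ℕ) (e : Bool) (q : ℤ × ℤ) : ℤ × ℤ :=
  if e then (wr h (q.1 - 1), q.2) else (q.1, wr h (q.2 - 1))

/-- relative positions of one zombie at its turns; `c` its coins, `e` the moves of the survivor -/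
def tr (h : ℕ) (c e : ℕ → Bool) (p : ℤ × ℤ) : ℕ → ℤ × ℤ
  | 0 => p
  | t + 1 => sm h (e t) (zm (c t) (tr h c e p t))

/-- `+ 1` for `true`, `- 1` for `false` -/
def sgn (b : Bool) : ℤ := if b then 1 else -1

/-- the sum of the signs of the first `t` bits -/
def WW (c : ℕ → Bool) (t : ℕ) : ℤ := ∑ s ∈ range t, sgn (c s)

/-- good coins: small deviations in all windows inside `[0, T]` -/
def GC (K T : ℕ) (c : ℕ → Bool) : Prop :=
  ∀ s w : ℕ, s + w ≤ T → (WW c (s + w) - WW c s) ^ 2 ≤ (K : ℤ) * w

/-- the survivor stays within `R` of the staircase up to time `t` -/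
def Tube (R : ℕ) (e : ℕ → Bool) (t : ℕ) : Prop := ∀ s ≤ t, |WW e s| ≤ (R : ℤ)

/-- the distance to the survivor -/
noncomputable def L1 (q : ℤ × ℤ) : ℤ := |q.1| + |q.2|

/-- the zombie is (and stays) behind the survivor -/
def Absd (h : ℕ) (q : ℤ × ℤ) : Prop := q.1 ≤ 0 ∧ q.2 ≤ 0 ∧ L1 q ≤ (h : ℤ)

/-- the zombie is in front and within distance `r` -/
def Near (r : ℕ) (q : ℤ × ℤ) : Prop := (0 < q.1 ∨ 0 < q.2) ∧ |q.1| ≤ (r : ℤ) ∧ |q.2| ≤ (r : ℤ)

/-- the possible relative positions -/
noncomputable def Box (h : ℕ) : Finset (ℤ × ℤ) := Icc (-(h : ℤ)) h ×ˢ Icc (-(h : ℤ)) h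

/-- coins `Fin T → Bool` as an infinite sequence -/
def ext {T : ℕ} (c : Fin T → Bool) : ℕ → Bool := fun s => if hs : s < T then c ⟨s, hs⟩ else false

/-! ## Strategies -/

/-- a strategy of the survivor with memory: after the zombies have moved to the relative positions
`P`, the memory `m` is updated to `upd m P` and the survivor moves to the east if `out (upd m P)`,
else to the north -/
structure Strat (k : ℕ) where
  /-- the memory -/
  μ : Type
  /-- the initial memory -/
  init : μ
  /-- the update -/
  upd : μ → (Fin k → ℤ × ℤ) → μ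
  /-- the move -/
  out : μ → Bool

/-- the play: memory and positions at the turns of the zombies; `c t z` is the coin of the zombie `z`
in the round `t` -/
def play {k : ℕ} (h : ℕ) (S : Strat k) (c : ℕ → Fin k → Bool) (p : Fin k → ℤ × ℤ) :
    ℕ → S.μ × (Fin k → ℤ × ℤ)
  | 0 => (S.init, p)
  | t + 1 =>
    let P := fun z => zm (c t z) ((play h S c p t).2 z)
    let m := S.upd (play h S c p t).1 P
    (m, fun z => sm h (S.out m) (P z))

/-- the moves of the survivor in the play -/
def mv {k : ℕ} (h : ℕ) (S : Strat k) (c : ℕ → Fin k → Bool) (p : Fin k → ℤ × ℤ) (t : ℕ) : Bool :=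
  S.out (play h S c p (t + 1)).1

theorem play_snd {k : ℕ} (h : ℕ) (S : Strat k) (c : ℕ → Fin k → Bool) (p : Fin k → ℤ × ℤ)
    (t : ℕ) (z : Fin k) :
    (play h S c p t).2 z = tr h (fun s => c s z) (mv h S c p) (p z) t := by
  induction t with
  | zero => rfl
  | succ t ih =>
    change sm h (mv h S c p t) (zm (c t z) ((play h S c p t).2 z)) = _
    rw [ih]; rfl

end Pool.Agent.Helper5K9.ZN
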