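import Pool.Agent.Helper5K9.ZN.Stm

/-!
# The east sector
-/

set_option autoImplicit false

namespace Pool.Agent.Helper5K9.ZN

open Finset

namespace Sec

theorem sign_cases (x : ℤ) :
    (0 < x ∧ x.sign = 1) ∨ (x = 0 ∧ x.sign = 0) ∨ (x < 0 ∧ x.sign = -1) := by
  rcases lt_trichotomy x 0 with hx | hx | hx
  · right; right; exact ⟨hx, Int.sign_eq_neg_one_of_neg hx⟩
  · right; left; subst hx; simp
  · left; exact ⟨hx, Int.sign_eq_one_of_pos hx⟩

theorem WW_zero (c : ℕ → Bool) : WW c 0 = 0 := by simp [WW]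

theorem WW_succ (c : ℕ → Bool) (t : ℕ) : WW c (t + 1) = WW c t + sgn (c t) := by
  simp [WW, Finset.sum_range_succ]

/-- one round -/
def stp (h : ℕ) (c e : Bool) (q : ℤ × ℤ) : ℤ × ℤ := sm h e (zm c q)

theorem tr_succ (h : ℕ) (c e : ℕ → Bool) (p : ℤ × ℤ) (t : ℕ) :
    tr h c e p (t + 1) = stp h (c t) (e t) (tr h c e p t) := rfl

theorem mem_Box {h : ℕ} {q : ℤ × ℤ} :
    q ∈ Box h ↔ (-(h : ℤ) ≤ q.1 ∧ q.1 ≤ h) ∧ (-(h : ℤ) ≤ q.2 ∧ q.2 ≤ h) := by
  simp [Box, Finset.mem_product, Finset.mem_Icc]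

/-- the box is invariant -/
theorem step_box {h : ℕ} (c e : Bool) {q : ℤ × ℤ} (hq : q ∈ Box h) : stp h c e q ∈ Box h := by
  rw [mem_Box] at *
  obtain ⟨x, y⟩ := q
  rcases sign_cases x with ⟨hx, sx⟩ | ⟨hx, sx⟩ | ⟨hx, sx⟩ <;>
  rcases sign_cases y with ⟨hy, sy⟩ | ⟨hy, sy⟩ | ⟨hy, sy⟩ <;>
  cases c <;> cases e <;>
  simp only [stp, sm, zm, wr, sgn, sx, sy] at * <;>
  split_ifs at * <;> simp_all <;> omega

theorem tr_box {h : ℕ} (c e : ℕ → Bool) {p : ℤ × ℤ} (hp : p ∈ Box h) (t : ℕ) :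
    tr h c e p t ∈ Box h := by
  induction t with
  | zero => exact hp
  | succ t ih => rw [tr_succ]; exact step_box _ _ ih

/-- one round starting and ending in the east sector -/
theorem stepE {h : ℕ} {c e : Bool} {q : ℤ × ℤ} (hh : 1 ≤ h) (h1 : 0 < q.1) (h2 : q.2 ≤ 0)
    (h4 : (stp h c e q).2 ≤ 0) (h5 : -(h : ℤ) ≤ q.2) :
    (stp h c e q).1 - (stp h c e q).2 = q.1 - q.2 - 1 - sgn e ∧
    2 * (stp h c e q).2 ≤ 2 * q.2 + sgn e - sgn c ∧
    (q.2 < 0 → 2 * (stp h c e q).2 = 2 * q.2 + sgn e - sgn c) ∧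
    (q.2 = 0 → 2 * (stp h c e q).2 = sgn e - 1) := by
  obtain ⟨x, y⟩ := q
  rcases sign_cases x with ⟨hx, sx⟩ | ⟨hx, sx⟩ | ⟨hx, sx⟩ <;>
  rcases sign_cases y with ⟨hy, sy⟩ | ⟨hy, sy⟩ | ⟨hy, sy⟩ <;>
  cases c <;> cases e <;>
  simp only [stp, sm, zm, wr, sgn, sx, sy] at * <;>
  split_ifs at * <;> simp_all <;> omega

/-- staying in the east sector during `[a, b]` -/
theorem phaseE {h : ℕ} {c e : ℕ → Bool} {p : ℤ × ℤ} (hh : 1 ≤ h) (hp : p ∈ Box h) (a m : ℕ)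
    (hE : ∀ s, a ≤ s → s ≤ a + m → 0 < (tr h c e p s).1 ∧ (tr h c e p s).2 ≤ 0) :
    (tr h c e p (a + m)).1 - (tr h c e p (a + m)).2 =
      (tr h c e p a).1 - (tr h c e p a).2 - m - (WW e (a + m) - WW e a) ∧
    2 * (tr h c e p (a + m)).2 ≤ 2 * (tr h c e p a).2 + (WW e (a + m) - WW e a)
      - (WW c (a + m) - WW c a) := by
  induction m with
  | zero => simp
  | succ m ih =>
    have ih := ih fun s h1 h2 => hE s h1 (by omega)
    have ha := hE (a + m) (by omega) (by omega)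
    have hb := hE (a + m + 1) (by omega) (by omega)
    have hbox := mem_Box.1 (tr_box c e hp (a + m))
    rw [tr_succ] at hb
    have h3 := stepE (c := c (a + m)) (e := e (a + m)) hh ha.1 ha.2 hb.2 hbox.2.1
    have e1 : a + (m + 1) = (a + m) + 1 := by ring
    rw [e1, tr_succ, WW_succ, WW_succ]
    obtain ⟨h3, h4, -⟩ := h3
    obtain ⟨h5, h6⟩ := ih
    push_cast
    constructor <;> linarith

end Sec

open Sec in
theorem ea : S_EA := by
  intro h R ρ w c e q hq hT hE hN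
  have h0 := hE 0 (by omega)
  have hbq := mem_Box.1 hq
  have hh : 1 ≤ h := by
    have h1 : 0 < q.1 := h0.1
    have := hbq.1.2
    omega
  obtain ⟨n1, n2, n3, n4⟩ := hN
  have hbox := mem_Box.1 (tr_box c e hq w)
  have key : ∀ s ≤ w,
      (tr h c e q w).1 - (tr h c e q w).2 =
      (tr h c e q s).1 - (tr h c e q s).2 - ((w : ℤ) - s) - (WW e w - WW e s) ∧
    2 * (tr h c e q w).2 ≤ 2 * (tr h c e q s).2 + (WW e w - WW e s) - (WW c w - WW c s) := by
    intro s hs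
    obtain ⟨m, rfl⟩ := Nat.exists_eq_add_of_le hs
    have := phaseE (c := c) (e := e) hh hq s m fun r h1 h2 => hE r h2
    push_cast
    constructor
    · linarith [this.1]
    · exact this.2
  have hw := abs_le.1 (hT w le_rfl)
  have k0 := key 0 (by omega)
  have t0 : tr h c e q 0 = q := rfl
  rw [t0, WW_zero, WW_zero] at k0
  have hL : L1 q = q.1 - q.2 := by
    have h1 : 0 < q.1 := h0.1
    have h2 : q.2 ≤ 0 := h0.2
    rw [L1, abs_of_pos h1, abs_of_nonpos h2]; ring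
  refine ⟨?_, ?_, ?_, ?_⟩
  · rw [hL]
    push_cast at k0
    linarith [k0.1, hw.1]
  · rw [hL]
    push_cast at k0
    linarith [k0.1, hw.2]
  · intro s' hs'
    have k := (key s' hs').2
    have h2 := (hE s' hs').2
    have hs := abs_le.1 (hT s' hs')
    linarith
  · have h3 := neg_abs_le (WW c w)
    have h5 : (0 : ℤ) ≤ |WW c w| := abs_nonneg _
    have h6 : (0 : ℤ) ≤ ρ := by positivity
    have h7 : (0 : ℤ) ≤ R := by positivity
    have h4 := k0.2
    have h8 : 2 * (-q.2) ≤ 2 * (ρ : ℤ) + R + |WW c w| := by linarith [hw.2]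
    linarith

end Pool.Agent.Helper5K9.ZN
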