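import Pool.Agent.Helper5K9.ZN.Free

/-!
# Few starting points lead to an exceptional step
-/

set_option autoImplicit false

namespace Pool.Agent.Helper5K9.ZN.Fr

open Finset

theorem swap_box {h : ℕ} {p : ℤ × ℤ} (hp : p ∈ Box h) : p.swap ∈ Box h := by
  rw [Box, mem_product] at *
  exact ⟨hp.2, hp.1⟩

theorem absd_swap {h : ℕ} {q : ℤ × ℤ} (hq : Absd h q.swap) : Absd h q := by
  obtain ⟨h1, h2, h3⟩ := hq
  refine ⟨h2, h1, ?_⟩
  rw [L1] at *
  simp only [Prod.fst_swap, Prod.snd_swap] at h3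
  linarith

theorem exStep_swap (hS : S_SYM) {h : ℕ} {c e : ℕ → Bool} {p : ℤ × ℤ} {s : ℕ}
    (H : ExStep h (fun s => !(c s)) (fun s => !(e s)) p.swap s) : ExStep h c e p s := by
  unfold ExStep at *
  rw [hS, hS] at H
  rcases H with ⟨h1, h2⟩ | ⟨h1, h2⟩
  · refine Or.inr ⟨?_, ?_⟩
    · simpa using congrArg Prod.swap h1
    · simpa using congrArg Prod.swap h2
  · refine Or.inl ⟨?_, ?_⟩
    · simpa using congrArg Prod.swap h1
    · simpa using congrArg Prod.swap h2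

theorem cross_of_not_free (hS : S_SYM) {h : ℕ} {c e : ℕ → Bool} {p : ℤ × ℤ} {s : ℕ}
    (H : ¬ FreeTo h c e p s) :
    (∃ s1 ≤ s, CrossX h c e p s1) ∨
      ∃ s1 ≤ s, CrossX h (fun s => !(c s)) (fun s => !(e s)) p.swap s1 := by
  by_contra hcon
  rw [not_or] at hcon
  obtain ⟨h1, h2⟩ := hcon
  have h1' : ∀ s1 ≤ s, ¬ CrossX h c e p s1 := fun s1 hs hx => h1 ⟨s1, hs, hx⟩
  have h2' : ∀ s1 ≤ s, ¬ CrossX h (fun s => !(c s)) (fun s => !(e s)) p.swap s1 :=
    fun s1 hs hx => h2 ⟨s1, hs, hx⟩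
  apply H
  have a1 : ∀ s1 ≤ s, (tr h c e p s1).1 ≠ 0 := fun s1 hs hx => h1' s1 hs (Or.inl hx)
  have a2 : ∀ s1 ≤ s, (tr h c e p s1).2 ≠ 0 := by
    intro s1 hs hx
    refine h2' s1 hs (Or.inl ?_)
    rw [hS]
    exact hx
  refine ⟨fun s1 hs => ⟨a1 s1 hs, a2 s1 hs⟩, fun s1 hs => ⟨fun hpos => ?_, fun hpos => ?_⟩⟩
  · by_contra hneg
    have h3 := lt_of_le_of_ne (not_lt.1 hneg) (a1 (s1 + 1) (by omega))
    exact h1' (s1 + 1) (by omega) (Or.inr ⟨h3, s1, rfl, hpos⟩)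
  · by_contra hneg
    have h3 := lt_of_le_of_ne (not_lt.1 hneg) (a2 (s1 + 1) (by omega))
    refine h2' (s1 + 1) (by omega) (Or.inr ⟨?_, s1, rfl, ?_⟩)
    · rw [hS]
      exact h3
    · rw [hS]
      exact hpos

theorem touchx (hT : S_TOUCH) {h R K t : ℕ} {c e : ℕ → Bool} {p : ℤ × ℤ}
    (hh : 1000 * (R + K + 1) ≤ h) (hp : p ∈ Box h) (hc : GC K t c) (he : Tube R e t)
    (hne : ∀ s' < t, ¬ ExStep h c e p s') (hx : ∃ s1 ≤ t, CrossX h c e p s1) :
    ((tr h c e p t).1 ≤ 0 ∧ -(h : ℤ) < 2 * (tr h c e p t).1 ∧ 0 < (tr h c e p t).2) ∨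
    Absd h (tr h c e p t) := by
  obtain ⟨s1, hs1, hx⟩ := hx
  rcases hT h R K s1 t c e p hh hp hc he hs1 hx with h1 | h1 | ⟨s', h1, h2⟩
  · exact Or.inl h1
  · exact Or.inr h1
  · exact absurd h2 (hne s' h1)

theorem touchy (hT : S_TOUCH) (hS : S_SYM) {h R K t : ℕ} {c e : ℕ → Bool} {p : ℤ × ℤ}
    (hh : 1000 * (R + K + 1) ≤ h) (hp : p ∈ Box h) (hc : GC K t c) (he : Tube R e t)
    (hne : ∀ s' < t, ¬ ExStep h c e p s')
    (hx : ∃ s1 ≤ t, CrossX h (fun s => !(c s)) (fun s => !(e s)) p.swap s1) :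
    ((tr h c e p t).2 ≤ 0 ∧ -(h : ℤ) < 2 * (tr h c e p t).2 ∧ 0 < (tr h c e p t).1) ∨
    Absd h (tr h c e p t) := by
  rcases touchx hT hh (swap_box hp) (GC_not hc) (Tube_not he)
    (fun s' hs' hex => hne s' hs' (exStep_swap hS hex)) hx with h1 | h1
  · left
    rw [hS] at h1
    exact h1
  · right
    rw [hS] at h1
    exact absd_swap h1

theorem ex_free (hT : S_TOUCH) (hS : S_SYM) {h R K t : ℕ} {c e : ℕ → Bool} {p : ℤ × ℤ}
    (hh : 1000 * (R + K + 1) ≤ h) (hp : p ∈ Box h) (hc : GC K t c) (he : Tube R e t)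
    (hne : ∀ s' < t, ¬ ExStep h c e p s') (hx : ExStep h c e p t) : FreeTo h c e p t := by
  by_contra hcon
  rcases cross_of_not_free hS hcon with h1 | h1
  · rcases touchx hT hh hp hc he hne h1 with ⟨h2, h3, h4⟩ | ⟨h2, h3, h4⟩
    · rcases hx with ⟨h5, _⟩ | ⟨h5, _⟩ <;> rw [h5] at h2 h3 h4 <;> simp only at h2 h3 h4 <;> omega
    · rcases hx with ⟨h5, _⟩ | ⟨h5, _⟩ <;> rw [h5] at h2 h3 <;> simp only at h2 h3 <;> omega
  · rcases touchy hT hS hh hp hc he hne h1 with ⟨h2, h3, h4⟩ | ⟨h2, h3, h4⟩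
    · rcases hx with ⟨h5, _⟩ | ⟨h5, _⟩ <;> rw [h5] at h2 h3 h4 <;> simp only at h2 h3 h4 <;> omega
    · rcases hx with ⟨h5, _⟩ | ⟨h5, _⟩ <;> rw [h5] at h2 h3 <;> simp only at h2 h3 <;> omega

theorem cn_nonneg_diff (c : ℕ → Bool) {s t : ℕ} (hst : s ≤ t) : cn c s ≤ cn c t := by
  induction t, hst using Nat.le_induction with
  | base => exact le_rfl
  | succ t _ ih =>
    rw [cn_succ]
    split_ifs <;> omega

theorem cn_not (c : ℕ → Bool) (t : ℕ) : cn (fun s => !c s) t = t - cn c t := by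
  have h1 := two_cn (fun s => !c s) t
  have h2 := two_cn c t
  rw [WW_not'] at h1
  linarith

/-- a free zombie which arrives at `(1, -h)`: early, or from the corner -/
theorem ex_one {h R K s : ℕ} (hh : 1000 * (R + K + 1) ≤ h) {c e : ℕ → Bool} {p : ℤ × ℤ}
    (hp : p ∈ Box h) (hc : GC K s c) (he : Tube R e s) (hf : FreeTo h c e p s)
    (hs : tr h c e p s = (1, -(h : ℤ))) :
    s < 3 * h ∨ (p.1 ≤ -(h : ℤ) + R + Nat.sqrt (3 * K * h) ∧
      p.2 ≤ -(h : ℤ) + R + Nat.sqrt (3 * K * h)) := by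
  have hb1 := mem_Icc.1 (mem_product.1 hp).1
  have hb2 := mem_Icc.1 (mem_product.1 hp).2
  have t1 := (aut1 hp hf).tri (by omega) s le_rfl
  have t2 := (aut2 hp hf).tri (by omega) s le_rfl
  simp only [hs] at t1 t2
  have e0 := two_cn e s
  have e1 := abs_le.1 (he s le_rfl)
  rcases t1 with ⟨_, h2, _⟩ | ⟨h1, _⟩ | ⟨_, v, hv, _, _, _, h5, _, h7⟩
  · left
    have h3 : 0 ≤ cn c s := by
      have := cn_nonneg_diff c (Nat.zero_le s)
      rwa [cn_zero] at this
    change (1 : ℤ) = p.1 - cn e s - cn c s at h2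
    omega
  · omega
  · right
    rcases t2 with ⟨h8, _⟩ | ⟨_, _, h8, _⟩ | ⟨h8, _⟩
    · omega
    · change -(h : ℤ) = p.2 - cn _ s + cn _ s at h8
      change -(h : ℤ) = p.1 - cn e v + cn c v at h5
      rw [cn_not, cn_not] at h8
      have f1 := two_cn e (v + 1)
      have f2 := abs_le.1 (he (v + 1) (by omega))
      have f3 := cn_nonneg_diff c (show v + 1 ≤ s by omega)
      have f4 := two_cn c s
      have f5 := two_cn c v
      have f6 := two_cn e v
      have f7 := abs_le.1 (he v hv.le)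
      push_cast at f1
      have hsv : s - v ≤ 3 * h := by omega
      have hw := hc v (s - v) (by omega)
      rw [show v + (s - v) = s by omega] at hw
      have hw2 : |WW c s - WW c v| ≤ Nat.sqrt (3 * K * h) := by
        have h9 : ((WW c s - WW c v).natAbs) ≤ Nat.sqrt (3 * K * h) := by
          rw [Nat.le_sqrt']
          have h10 : (((WW c s - WW c v).natAbs : ℕ) : ℤ) ^ 2 = (WW c s - WW c v) ^ 2 :=
            Int.natAbs_sq _
          have h11 : ((((WW c s - WW c v).natAbs) ^ 2 : ℕ) : ℤ) ≤ ((3 * K * h : ℕ) : ℤ) := by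
            push_cast
            rw [← Int.natCast_natAbs, h10]
            refine hw.trans ?_
            calc (K : ℤ) * ((s - v : ℕ) : ℤ) ≤ (K : ℤ) * ((3 * h : ℕ) : ℤ) :=
                  mul_le_mul_of_nonneg_left (by exact_mod_cast hsv) (by positivity)
              _ = 3 * K * h := by push_cast; ring
          exact_mod_cast h11
        rw [Int.abs_eq_natAbs]
        exact_mod_cast h9
      have hw3 := abs_le.1 hw2
      constructor <;> omega
    · omega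

theorem ex : S_FREE → S_TOUCH → S_SYM → S_EX := by
  classical
  intro hF hT hS
  refine ⟨1000, fun h R K t c hh hc => ?_⟩
  set B : ℕ := R + Nat.sqrt (3 * K * h) with hB
  have hsub : ((Box h).filter fun p => ∃ e : ℕ → Bool, Tube R e t ∧ ∃ s < t, ExStep h c e p s) ⊆
      ((range (3 * h)).biUnion fun s => (Box h).filter fun p => ∃ e : ℕ → Bool, Tube R e s ∧
        FreeTo h c e p s ∧ tr h c e p s = (1, -(h : ℤ))) ∪
      ((range (3 * h)).biUnion fun s => (Box h).filter fun p => ∃ e : ℕ → Bool, Tube R e s ∧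
        FreeTo h c e p s ∧ tr h c e p s = (-(h : ℤ), 1)) ∪
      (Icc (-(h : ℤ)) (-(h : ℤ) + B) ×ˢ Icc (-(h : ℤ)) (-(h : ℤ) + B)) := by
    intro p hp
    obtain ⟨hp, e, he, hex⟩ := mem_filter.1 hp
    have hb1 := mem_Icc.1 (mem_product.1 hp).1
    have hb2 := mem_Icc.1 (mem_product.1 hp).2
    -- the first exceptional step
    obtain ⟨s, ⟨hst, hs⟩, hmin⟩ : ∃ s, (s < t ∧ ExStep h c e p s) ∧
        ∀ s' < s, ¬ ExStep h c e p s' := by
      refine ⟨Nat.find hex, Nat.find_spec hex, fun s' hs' hcon => ?_⟩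
      exact Nat.find_min hex hs' ⟨hs'.trans (Nat.find_spec hex).1, hcon⟩
    have hes := tube_mono he hst.le
    have hcs := gc_mono hc hst.le
    have hf := ex_free hT hS hh hp hcs hes hmin hs
    rcases hs with ⟨h1, _⟩ | ⟨h1, _⟩
    · rcases ex_one hh hp hcs hes hf h1 with h2 | ⟨h2, h3⟩
      · refine mem_union_left _ (mem_union_left _ (mem_biUnion.2 ⟨s, mem_range.2 h2, ?_⟩))
        exact mem_filter.2 ⟨hp, e, hes, hf, h1⟩
      · refine mem_union_right _ (mem_product.2 ⟨mem_Icc.2 ⟨hb1.1, ?_⟩, mem_Icc.2 ⟨hb2.1, ?_⟩⟩)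
        · rw [hB]; push_cast; linarith
        · rw [hB]; push_cast; linarith
    · have hf' : FreeTo h (fun s => !(c s)) (fun s => !(e s)) p.swap s := by
        refine ⟨fun s' hs' => ?_, fun s' hs' => ?_⟩
        · rw [hS]
          exact ⟨(hf.1 s' hs').2, (hf.1 s' hs').1⟩
        · rw [hS, hS]
          exact ⟨(hf.2 s' hs').2, (hf.2 s' hs').1⟩
      have h1' : tr h (fun s => !(c s)) (fun s => !(e s)) p.swap s = (1, -(h : ℤ)) := by
        rw [hS, h1]; rfl
      rcases ex_one hh (swap_box hp) (GC_not hcs) (Tube_not hes) hf' h1' with h2 | ⟨h2, h3⟩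
      · refine mem_union_left _ (mem_union_right _ (mem_biUnion.2 ⟨s, mem_range.2 h2, ?_⟩))
        exact mem_filter.2 ⟨hp, e, hes, hf, h1⟩
      · refine mem_union_right _ (mem_product.2 ⟨mem_Icc.2 ⟨hb1.1, ?_⟩, mem_Icc.2 ⟨hb2.1, ?_⟩⟩)
        · rw [hB]; push_cast
          simp only [Prod.snd_swap] at h3
          linarith
        · rw [hB]; push_cast
          simp only [Prod.fst_swap] at h2
          linarith
  have hcard := card_le_card hsub
  refine hcard.trans ?_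
  refine (card_union_le _ _).trans ?_
  refine (add_le_add (card_union_le _ _) le_rfl).trans ?_
  have hb : ∀ q : ℤ × ℤ, ((range (3 * h)).biUnion fun s => (Box h).filter fun p =>
      ∃ e : ℕ → Bool, Tube R e s ∧ FreeTo h c e p s ∧ tr h c e p s = q).card ≤
      (3 * h) * (100 * (R + 1) ^ 4) := by
    intro q
    refine card_biUnion_le.trans ?_
    refine (sum_le_card_nsmul _ _ (100 * (R + 1) ^ 4) fun s _ => ?_).trans ?_
    · have := hF h R s c q (by omega)
      convert this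
    · rw [card_range, smul_eq_mul]
  have hI : (Icc (-(h : ℤ)) (-(h : ℤ) + B)).card = B + 1 := by
    rw [Int.card_Icc]
    omega
  rw [card_product, hI]
  refine (add_le_add (add_le_add (hb _) (hb _)) le_rfl).trans ?_
  have hsq : Nat.sqrt (3 * K * h) * Nat.sqrt (3 * K * h) ≤ 3 * K * h := Nat.sqrt_le _
  have h1 : (B + 1) * (B + 1) ≤ 2 * (R + 1) ^ 2 + 2 * (3 * K * h) := by
    rw [hB]
    nlinarith [sq_nonneg ((R : ℤ) + 1 - Nat.sqrt (3 * K * h))]
  have h2 : (R + 1) ^ 4 ≤ (R + K + 1) ^ 4 := Nat.pow_le_pow_left (by omega) 4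
  have h3 : (R + 1) ^ 2 ≤ (R + K + 1) ^ 4 := by
    calc (R + 1) ^ 2 ≤ (R + K + 1) ^ 2 := Nat.pow_le_pow_left (by omega) 2
      _ ≤ (R + K + 1) ^ 4 := Nat.pow_le_pow_right (by omega) (by norm_num)
  have h4 : K ≤ (R + K + 1) ^ 4 := by
    calc K ≤ (R + K + 1) := by omega
      _ ≤ (R + K + 1) ^ 4 := Nat.le_self_pow (by norm_num) _
  have h5 : 1 ≤ h := by omega
  set Q := (R + K + 1) ^ 4
  calc 3 * h * (100 * (R + 1) ^ 4) + 3 * h * (100 * (R + 1) ^ 4) + (B + 1) * (B + 1)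
      ≤ 3 * h * (100 * Q) + 3 * h * (100 * Q) + (2 * (h * Q) + 2 * (3 * Q * h)) := by
        refine add_le_add (add_le_add (Nat.mul_le_mul_left _ (Nat.mul_le_mul_left _ h2))
          (Nat.mul_le_mul_left _ (Nat.mul_le_mul_left _ h2))) (h1.trans (add_le_add ?_ ?_))
        · refine Nat.mul_le_mul_left _ (h3.trans ?_)
          exact Nat.le_mul_of_pos_left _ h5
        · exact Nat.mul_le_mul_left _ (Nat.mul_le_mul_right _ (Nat.mul_le_mul_left _ h4))
    _ ≤ 1000 * h * Q := by nlinarith [Nat.zero_le (h * Q)]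

end Pool.Agent.Helper5K9.ZN.Fr

namespace Pool.Agent.Helper5K9.ZN

theorem ex : S_FREE → S_TOUCH → S_SYM → S_EX := Fr.ex

end Pool.Agent.Helper5K9.ZN
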