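import Pool.Agent.Helper5K9.ZN.Fin1
import Pool.Agent.Helper57K9.Zomb.Upper

/-!
# Assembly, part 4: the zombie number
-/

set_option autoImplicit false

namespace Pool.Agent.Helper5K9.ZN.As

open Finset Pool.Agent.Helper57K9.Zomb

theorem log_ge {n : ℕ} (hn : 3 ≤ n) : 1 ≤ Real.log n ∧ ((Nat.log 2 n : ℝ) + 1) ≤ 3 * Real.log n := by
  have hn3' : (3 : ℝ) ≤ n := by exact_mod_cast hn
  have hlog : 1 ≤ Real.log n := by
    rw [Real.le_log_iff_exp_le (by linarith)]
    exact Real.exp_one_lt_d9.le.trans (by linarith)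
  refine ⟨hlog, ?_⟩
  have h8 := Real.natLog_le_logb n 2
  have h9 : Real.logb 2 n ≤ 2 * Real.log n := by
    rw [Real.logb, div_le_iff₀ (Real.log_pos (by norm_num))]
    have := Real.log_two_gt_d9
    nlinarith
  have h8' : (Nat.log 2 n : ℝ) ≤ Real.logb 2 n := by exact_mod_cast h8
  linarith

theorem sp_zero (hGame : S_GAME) (h : ℕ) (h1 : 1 ≤ h) : 1 ≤ survivalProb (torus (2 * h + 1)) 0 := by
  have := hGame h 0 0 (strat h 1 1 0) h1 {fun z => z.elim0} (fun x _ z => z.elim0)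
    (fun x _ c _ t z => z.elim0)
  simpa using this

theorem zn_spec {n : ℕ} (hn : 3 ≤ n) : survivalProb (torus n) (zombieNumber (torus n)) ≤ 1 / 2 := by
  apply Nat.sInf_mem (s := {k : ℕ | survivalProb (torus n) k ≤ 1 / 2})
  refine ⟨⌈2560 * ((n : ℝ) * Real.sqrt n)⌉₊, (upper n hn _ (Nat.le_ceil _)).trans ?_⟩
  have h1 : Real.exp (-(n : ℝ)) ≤ Real.exp (-1) := by
    apply Real.exp_le_exp.2
    have : (3 : ℝ) ≤ n := by exact_mod_cast hn
    linarith
  have h2 : Real.exp (-1) ≤ 1 / 2 := by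
    rw [Real.exp_neg, one_div]
    apply inv_anti₀ (by norm_num)
    have := Real.exp_one_gt_d9; linarith
  linarith

theorem final_odd (hMain : S_MAIN) (hNear : S_NEAR) (hAbs : S_ABS) (hGame : S_GAME) (hUB : S_UB)
    (hW2 : S_W2) (hW4 : S_W4) : ∃ c : ℝ, 0 < c ∧ ∀ n : ℕ, 3 ≤ n → Odd n →
    c * (n : ℝ) ^ (3 / 2 : ℝ) / Real.log n ^ 35 ≤ zombieNumber (torus n) := by
  obtain ⟨c₁, hc₁, n₀, low⟩ := lower hMain hNear hAbs hGame hUB hW2 hW4
  refine ⟨min (c₁ / 3 ^ 35) (1 / ((n₀ : ℝ) + 1) ^ 2), by positivity, fun n hn hodd => ?_⟩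
  obtain ⟨h, hh⟩ := hodd
  have hpow : (n : ℝ) ^ (3 / 2 : ℝ) = (n : ℝ) * Real.sqrt n := by
    rw [Real.sqrt_eq_rpow, show (3 / 2 : ℝ) = 1 + 1 / 2 by norm_num,
      Real.rpow_add (by have : 0 < n := by omega
                        exact_mod_cast this), Real.rpow_one]
  rw [hpow]
  set c := min (c₁ / 3 ^ 35) (1 / ((n₀ : ℝ) + 1) ^ 2) with hc
  have hcpos : 0 < c := by rw [hc]; positivity
  obtain ⟨l1, l2⟩ := log_ge hn
  have hspec := zn_spec hn
  set z := zombieNumber (torus n) with hz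
  have hlp : (1 : ℝ) ≤ Real.log n ^ 35 := one_le_pow₀ l1
  have hlp0 : (0 : ℝ) < Real.log n ^ 35 := by linarith
  have hn0 : (0 : ℝ) ≤ n := by positivity
  rcases Nat.lt_or_ge n n₀ with h5 | h5
  · -- small n
    have hz1 : 1 ≤ z := by
      by_contra hcon
      have hz0 : z = 0 := by omega
      rw [hz0, hh] at hspec
      have := sp_zero hGame h (by omega)
      linarith
    have h6 : (n : ℝ) ≤ n₀ + 1 := by
      have : (n : ℝ) < n₀ := by exact_mod_cast h5
      linarith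
    have h7 : Real.sqrt n ≤ n := by
      rw [Real.sqrt_le_left (by positivity)]
      have : (3 : ℝ) ≤ n := by exact_mod_cast hn
      nlinarith
    have h8 : (n : ℝ) * Real.sqrt n ≤ ((n₀ : ℝ) + 1) ^ 2 := by
      calc (n : ℝ) * Real.sqrt n ≤ n * n := mul_le_mul_of_nonneg_left h7 hn0
        _ ≤ (n₀ + 1) * (n₀ + 1) := mul_le_mul h6 h6 hn0 (by positivity)
        _ = _ := by ring
    have h9 : c * (n * Real.sqrt n) ≤ 1 := by
      calc c * (n * Real.sqrt n) ≤ 1 / ((n₀ : ℝ) + 1) ^ 2 * ((n₀ : ℝ) + 1) ^ 2 :=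
            mul_le_mul (min_le_right _ _) h8 (by positivity) (by positivity)
        _ = 1 := by field_simp
    have hz1' : (1 : ℝ) ≤ z := by exact_mod_cast hz1
    rw [div_le_iff₀ hlp0]
    nlinarith
  · by_contra hcon
    push Not at hcon
    rw [lt_div_iff₀ hlp0] at hcon
    have hnR : (2 * (h : ℝ) + 1) = n := by rw [hh]; push_cast; ring
    have key := low h (by omega) z (by
      rw [hnR, ← hh]
      have h6 : ((Nat.log 2 n : ℝ) + 1) ^ 35 ≤ (3 * Real.log n) ^ 35 :=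
        pow_le_pow_left₀ (by positivity) l2 35
      have h7 : c ≤ c₁ / 3 ^ 35 := min_le_left _ _
      have h8 : 0 ≤ (n : ℝ) * Real.sqrt n := by positivity
      calc (z : ℝ) * ((Nat.log 2 n : ℝ) + 1) ^ 35 ≤ z * (3 * Real.log n) ^ 35 :=
            mul_le_mul_of_nonneg_left h6 (by positivity)
        _ = 3 ^ 35 * (z * Real.log n ^ 35) := by rw [mul_pow]; ring
        _ ≤ 3 ^ 35 * (c * (n * Real.sqrt n)) := mul_le_mul_of_nonneg_left hcon.le (by positivity)
        _ ≤ 3 ^ 35 * (c₁ / 3 ^ 35 * (n * Real.sqrt n)) := by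
            apply mul_le_mul_of_nonneg_left _ (by positivity)
            exact mul_le_mul_of_nonneg_right h7 h8
        _ = c₁ * (n * Real.sqrt n) := by field_simp)
    rw [← hh] at key
    linarith

end Pool.Agent.Helper5K9.ZN.As
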