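import Pool.Agent.Helper5K9.ZN.Stm

/-!
# Free zombies: the coordinates are autonomous
-/

set_option autoImplicit false

namespace Pool.Agent.Helper5K9.ZN.Fr

open Finset

/-- the number of `true` among the first `t` bits -/
def cn (c : ℕ → Bool) (t : ℕ) : ℤ := ∑ s ∈ range t, if c s then 1 else 0

theorem cn_zero (c : ℕ → Bool) : cn c 0 = 0 := by simp [cn]

theorem cn_succ (c : ℕ → Bool) (t : ℕ) : cn c (t + 1) = cn c t + if c t then 1 else 0 := by
  rw [cn, cn, sum_range_succ]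

theorem cn_WW_zero (c : ℕ → Bool) : WW c 0 = 0 := by simp [WW]

theorem cn_WW_succ (c : ℕ → Bool) (t : ℕ) : WW c (t + 1) = WW c t + sgn (c t) := by
  simp [WW, sum_range_succ]

theorem two_cn (c : ℕ → Bool) (t : ℕ) : 2 * cn c t = t + WW c t := by
  induction t with
  | zero => simp [cn, WW]
  | succ t ih =>
    rw [cn_succ, cn_WW_succ, mul_add, ih]
    cases c t <;> simp [sgn] <;> ring

theorem WW_not' (c : ℕ → Bool) (t : ℕ) : WW (fun s => !c s) t = - WW c t := by
  induction t with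
  | zero => simp [WW]
  | succ t ih =>
    rw [cn_WW_succ, cn_WW_succ, ih]
    cases c t <;> simp [sgn] <;> ring

theorem Tube_not {R : ℕ} {e : ℕ → Bool} {t : ℕ} (he : Tube R e t) : Tube R (fun s => !e s) t := by
  intro s hs
  rw [WW_not', abs_neg]
  exact he s hs

theorem tube_mono {R : ℕ} {e : ℕ → Bool} {s t : ℕ} (he : Tube R e t) (hs : s ≤ t) : Tube R e s :=
  fun s' hs' => he s' (hs'.trans hs)

theorem gc_mono {K : ℕ} {c : ℕ → Bool} {s t : ℕ} (hc : GC K t c) (hs : s ≤ t) : GC K s c :=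
  fun a w haw => hc a w (haw.trans hs)

theorem GC_not {K : ℕ} {c : ℕ → Bool} {t : ℕ} (hc : GC K t c) : GC K t (fun s => !c s) := by
  intro a w haw
  rw [WW_not', WW_not']
  have := hc a w haw
  calc (-WW c (a + w) - -WW c a) ^ 2 = (WW c (a + w) - WW c a) ^ 2 := by ring
    _ ≤ _ := this

/-- one step of an autonomous coordinate -/
def st (h : ℕ) (c e : Bool) (x : ℤ) : ℤ :=
  if e then wr h ((if c then x - x.sign else x) - 1) else (if c then x - x.sign else x)

theorem st_pos {h : ℕ} (hh : 1 ≤ h) (c e : Bool) {x : ℤ} (hx : 0 < x) :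
    st h c e x = x - (if c then 1 else 0) - (if e then 1 else 0) := by
  have h1 : x.sign = 1 := Int.sign_eq_one_of_pos hx
  cases c <;> cases e <;> simp [st, h1, wr] <;> omega

theorem st_neg {h : ℕ} (c e : Bool) {x : ℤ} (hx : x < 0) (hxh : -(h : ℤ) ≤ x) :
    (st h c e x = x + (if c then 1 else 0) - (if e then 1 else 0) ∧ -(h : ℤ) ≤ st h c e x) ∨
    (x = -h ∧ c = false ∧ e = true ∧ st h c e x = h) := by
  have h1 : x.sign = -1 := Int.sign_eq_neg_one_of_neg hx
  cases c <;> cases e <;> simp [st, h1, wr] <;> try omega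

/-- an autonomous coordinate up to time `t` -/
structure Aut (h : ℕ) (c e : ℕ → Bool) (x : ℕ → ℤ) (t : ℕ) : Prop where
  ne : ∀ s ≤ t, x s ≠ 0
  pos : ∀ s < t, 0 < x s → 0 < x (s + 1)
  step : ∀ s < t, x (s + 1) = st h (c s) (e s) (x s)
  low : -(h : ℤ) ≤ x 0

theorem Aut.tri {h : ℕ} (hh : 1 ≤ h) {c e : ℕ → Bool} {x : ℕ → ℤ} {t : ℕ} (H : Aut h c e x t) :
    ∀ s ≤ t,
      (0 < x s ∧ x s = x 0 - cn e s - cn c s ∧ ∀ s' ≤ s, 0 < x s') ∨
      (x s < 0 ∧ -(h : ℤ) ≤ x s ∧ x s = x 0 - cn e s + cn c s ∧ ∀ s' ≤ s, x s' < 0) ∨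
      (0 < x s ∧ ∃ v < s, x v = -h ∧ c v = false ∧ e v = true ∧
        -(h : ℤ) = x 0 - cn e v + cn c v ∧ (∀ s' ≤ v, x s' < 0) ∧
        x s = h - (cn e s - cn e (v + 1)) - (cn c s - cn c (v + 1))) := by
  intro s
  induction s with
  | zero =>
    intro _
    rcases lt_or_gt_of_ne (H.ne 0 (Nat.zero_le _)) with h0 | h0
    · refine Or.inr (Or.inl ⟨h0, H.low, by simp [cn_zero], ?_⟩)
      intro s' hs'
      rw [Nat.le_zero.1 hs']
      exact h0
    · refine Or.inl ⟨h0, by simp [cn_zero], ?_⟩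
      intro s' hs'
      rw [Nat.le_zero.1 hs']
      exact h0
  | succ s ih =>
    intro hs
    have hst := H.step s (by omega)
    rcases ih (by omega) with ⟨h1, h2, h3⟩ | ⟨h1, h2, h3, h4⟩ | ⟨h1, v, hv, h2, h3, h4, h5, h6, h7⟩
    · have hp := H.pos s (by omega) h1
      rw [st_pos hh _ _ h1] at hst
      refine Or.inl ⟨hp, by rw [hst, cn_succ, cn_succ, h2]; ring, ?_⟩
      intro s' hs'
      rcases Nat.lt_or_ge s' (s + 1) with h | h
      · exact h3 s' (by omega)
      · rw [show s' = s + 1 by omega]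
        exact hp
    · rcases st_neg (c s) (e s) h1 h2 with ⟨h5, h6⟩ | ⟨h5, h6, h7, h8⟩
      · rw [h5] at hst
        have hne := H.ne (s + 1) hs
        have hneg : x (s + 1) < 0 := by
          rcases lt_or_gt_of_ne hne with h7 | h7
          · exact h7
          · exfalso
            have : x (s + 1) ≤ x s + 1 := by
              rw [hst]
              split_ifs <;> omega
            have : x s + 1 ≤ 0 := by omega
            omega
        refine Or.inr (Or.inl ⟨hneg, ?_, ?_, ?_⟩)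
        · rw [hst, ← h5]
          exact h6
        · rw [hst, cn_succ, cn_succ, h3]
          ring
        · intro s' hs'
          rcases Nat.lt_or_ge s' (s + 1) with h | h
          · exact h4 s' (by omega)
          · rw [show s' = s + 1 by omega]
            exact hneg
      · rw [h8] at hst
        refine Or.inr (Or.inr ⟨by rw [hst]; omega, s, by omega, h5, h6, h7, ?_, h4, ?_⟩)
        · rw [← h5]
          exact h3
        · rw [hst]
          ring
    · have hp := H.pos s (by omega) h1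
      rw [st_pos hh _ _ h1] at hst
      refine Or.inr (Or.inr ⟨hp, v, by omega, h2, h3, h4, h5, h6, ?_⟩)
      rw [hst, cn_succ e s, cn_succ c s, h7]
      ring

/-- the possible starting values of an autonomous coordinate -/
noncomputable def SV (h R t : ℕ) (c : ℕ → Bool) (a : ℤ) : Finset ℤ :=
  ((Icc (-(R : ℤ)) R).image fun D => a + (t + D) / 2 + cn c t) ∪
  ((Icc (-(R : ℤ)) R).image fun D => a + (t + D) / 2 - cn c t) ∪
  ((((range t).filter fun v : ℕ => |((v : ℤ) + 1 + 2 * cn c (v + 1)) -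
      ((t : ℤ) + 2 * cn c t - 2 * h + 2 * a)| ≤ 2 * R) ×ˢ (Icc (-(R : ℤ)) R)).image
    fun w : ℕ × ℤ => -(h : ℤ) + ((w.1 : ℤ) + w.2) / 2 - cn c w.1)

theorem SV_card (h R t : ℕ) (c : ℕ → Bool) (a : ℤ) : (SV h R t c a).card ≤ 10 * (R + 1) ^ 2 := by
  have hI : (Icc (-(R : ℤ)) R).card = 2 * R + 1 := by
    rw [Int.card_Icc]
    omega
  have hV : ((range t).filter fun v : ℕ => |((v : ℤ) + 1 + 2 * cn c (v + 1)) -
      ((t : ℤ) + 2 * cn c t - 2 * h + 2 * a)| ≤ 2 * R).card ≤ 4 * R + 1 := by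
    have hJ : (Icc (((t : ℤ) + 2 * cn c t - 2 * h + 2 * a) - 2 * R)
        (((t : ℤ) + 2 * cn c t - 2 * h + 2 * a) + 2 * R)).card = 4 * R + 1 := by
      rw [Int.card_Icc]
      omega
    rw [← hJ]
    have hmono : StrictMono (fun v : ℕ => (v : ℤ) + 1 + 2 * cn c (v + 1)) := by
      refine strictMono_nat_of_lt_succ fun v => ?_
      rw [cn_succ c (v + 1)]
      push_cast
      split_ifs <;> omega
    refine card_le_card_of_injOn (fun v : ℕ => (v : ℤ) + 1 + 2 * cn c (v + 1)) ?_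
      (hmono.injective.injOn)
    intro v hv
    have hv' := (mem_filter.1 hv).2
    rw [abs_le] at hv'
    exact mem_coe.2 (mem_Icc.2 ⟨by linarith [hv'.1], by linarith [hv'.2]⟩)
  refine (card_union_le _ _).trans ?_
  refine (add_le_add (card_union_le _ _) le_rfl).trans ?_
  refine (add_le_add (add_le_add card_image_le card_image_le) card_image_le).trans ?_
  rw [card_product, hI]
  have := Nat.mul_le_mul_right (2 * R + 1) hV
  nlinarith

theorem Aut.mem_SV {h R : ℕ} (hh : 1 ≤ h) {c e : ℕ → Bool} {x : ℕ → ℤ} {t : ℕ}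
    (H : Aut h c e x t) (he : Tube R e t) : x 0 ∈ SV h R t c (x t) := by
  have key : ∀ s ≤ t, ∃ D ∈ Icc (-(R : ℤ)) R, cn e s = (s + D) / 2 := by
    intro s hs
    refine ⟨WW e s, mem_Icc.2 (abs_le.1 (he s hs)), ?_⟩
    have := two_cn e s
    omega
  unfold SV
  rcases H.tri hh t le_rfl with ⟨h1, h2, h3⟩ | ⟨h1, h2, h3, h4⟩ | ⟨h1, v, hv, h2, h3, h4, h5, h6, h7⟩
  · obtain ⟨D, hD, hD'⟩ := key t le_rfl
    refine mem_union_left _ (mem_union_left _ (mem_image.2 ⟨D, hD, ?_⟩))
    rw [h2, ← hD']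
    ring
  · obtain ⟨D, hD, hD'⟩ := key t le_rfl
    refine mem_union_left _ (mem_union_right _ (mem_image.2 ⟨D, hD, ?_⟩))
    rw [h3, ← hD']
    ring
  · obtain ⟨D, hD, hD'⟩ := key v hv.le
    refine mem_union_right _ (mem_image.2 ⟨(v, D), mem_product.2 ⟨mem_filter.2
      ⟨mem_range.2 hv, ?_⟩, hD⟩, ?_⟩)
    · have a1 := two_cn e t
      have a2 := two_cn e (v + 1)
      have a3 := abs_le.1 (he t le_rfl)
      have a4 := abs_le.1 (he (v + 1) (by omega))
      push_cast at a2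
      rw [abs_le]
      constructor
      · linarith [a3.1, a3.2, a4.1, a4.2]
      · linarith [a3.1, a3.2, a4.1, a4.2]
    · simp only
      rw [← hD']
      linarith

theorem tr_succ_free {h : ℕ} {c e : ℕ → Bool} {p : ℤ × ℤ} {s : ℕ} (h1 : (tr h c e p s).1 ≠ 0)
    (h2 : (tr h c e p s).2 ≠ 0) :
    (tr h c e p (s + 1)).1 = st h (c s) (e s) (tr h c e p s).1 ∧
    (tr h c e p (s + 1)).2 = st h (!c s) (!e s) (tr h c e p s).2 := by
  have h0 : tr h c e p (s + 1) = sm h (e s) (zm (c s) (tr h c e p s)) := rfl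
  rw [h0]
  cases c s <;> cases e s <;> simp [sm, zm, st, h1, h2]

theorem aut1 {h : ℕ} {c e : ℕ → Bool} {p : ℤ × ℤ} {t : ℕ} (hp : p ∈ Box h)
    (H : FreeTo h c e p t) : Aut h c e (fun s => (tr h c e p s).1) t where
  ne := fun s hs => (H.1 s hs).1
  pos := fun s hs => (H.2 s hs).1
  step := fun s hs => (tr_succ_free (H.1 s hs.le).1 (H.1 s hs.le).2).1
  low := (mem_Icc.1 (mem_product.1 hp).1).1

theorem aut2 {h : ℕ} {c e : ℕ → Bool} {p : ℤ × ℤ} {t : ℕ} (hp : p ∈ Box h)
    (H : FreeTo h c e p t) :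
    Aut h (fun s => !c s) (fun s => !e s) (fun s => (tr h c e p s).2) t where
  ne := fun s hs => (H.1 s hs).2
  pos := fun s hs => (H.2 s hs).2
  step := fun s hs => (tr_succ_free (H.1 s hs.le).1 (H.1 s hs.le).2).2
  low := (mem_Icc.1 (mem_product.1 hp).2).1

theorem free : S_FREE := by
  classical
  intro h R t c q hh
  have hsub : ((Box h).filter fun p => ∃ e : ℕ → Bool, Tube R e t ∧ FreeTo h c e p t ∧
      tr h c e p t = q) ⊆ SV h R t c q.1 ×ˢ SV h R t (fun s => !c s) q.2 := by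
    intro p hp
    obtain ⟨hp, e, he, hf, htr⟩ := mem_filter.1 hp
    have h1 := (aut1 hp hf).mem_SV hh he
    have h2 := (aut2 hp hf).mem_SV hh (Tube_not he)
    simp only [htr] at h1 h2
    exact mem_product.2 ⟨h1, h2⟩
  refine (card_le_card hsub).trans ?_
  rw [card_product]
  calc _ ≤ (10 * (R + 1) ^ 2) * (10 * (R + 1) ^ 2) := Nat.mul_le_mul (SV_card _ _ _ _ _)
        (SV_card _ _ _ _ _)
    _ = _ := by ring

end Pool.Agent.Helper5K9.ZN.Fr

namespace Pool.Agent.Helper5K9.ZN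

theorem free : S_FREE := Fr.free

end Pool.Agent.Helper5K9.ZN
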