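import Pool.Agent.Helper5K9.ZN.Stm

/-!
# Zombies on the odd torus: the one-step relation in linear form (omega-friendly)
-/

set_option autoImplicit false

namespace Pool.Agent.Helper5K9.ZN.Kit81

open Finset

theorem sgn_cases (b : Bool) : sgn b = 1 ∨ sgn b = -1 := by
  cases b <;> simp [sgn]

theorem WW_succ (c : ℕ → Bool) (t : ℕ) : WW c (t + 1) = WW c t + sgn (c t) := by
  simp [WW, Finset.sum_range_succ]

theorem WW_zero (c : ℕ → Bool) : WW c 0 = 0 := by simp [WW]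

/-- the move of the zombie, linear form -/
def ZS (sc x y x1 y1 : ℤ) : Prop :=
  (((y = 0 ∨ (sc = 1 ∧ x ≠ 0)) ∧ y1 = y ∧
      ((0 < x ∧ x1 = x - 1) ∨ (x < 0 ∧ x1 = x + 1) ∨ (x = 0 ∧ x1 = 0))) ∨
    (y ≠ 0 ∧ (sc = -1 ∨ x = 0) ∧ x1 = x ∧ ((0 < y ∧ y1 = y - 1) ∨ (y < 0 ∧ y1 = y + 1))))

/-- the move of the survivor, linear form -/
def SS (h : ℕ) (se x1 y1 x' y' : ℤ) : Prop :=
  ((se = 1 ∧ y' = y1 ∧ ((x1 - 1 < -(h : ℤ) ∧ x' = x1 + 2 * h) ∨
      (-(h : ℤ) ≤ x1 - 1 ∧ x' = x1 - 1))) ∨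
    (se = -1 ∧ x' = x1 ∧ ((y1 - 1 < -(h : ℤ) ∧ y' = y1 + 2 * h) ∨
      (-(h : ℤ) ≤ y1 - 1 ∧ y' = y1 - 1))))

theorem sign_cases (x : ℤ) :
    (0 < x ∧ x - x.sign = x - 1) ∨ (x < 0 ∧ x - x.sign = x + 1) ∨ (x = 0 ∧ x - x.sign = 0) := by
  rcases lt_trichotomy x 0 with hx | hx | hx
  · right; left; exact ⟨hx, by rw [Int.sign_eq_neg_one_of_neg hx]; ring⟩
  · right; right; exact ⟨hx, by subst hx; simp⟩
  · left; exact ⟨hx, by rw [Int.sign_eq_one_of_pos hx]⟩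

theorem zm_ZS (c : Bool) (q : ℤ × ℤ) : ZS (sgn c) q.1 q.2 (zm c q).1 (zm c q).2 := by
  unfold ZS zm
  by_cases hc : q.2 = 0 ∨ (c = true ∧ q.1 ≠ 0)
  · rw [if_pos hc]
    left
    refine ⟨?_, rfl, sign_cases q.1⟩
    rcases hc with hc | ⟨hc, hx⟩
    · exact Or.inl hc
    · exact Or.inr ⟨by simp [sgn, hc], hx⟩
  · rw [if_neg hc]
    push Not at hc
    obtain ⟨h1, h2⟩ := hc
    right
    refine ⟨h1, ?_, rfl, ?_⟩
    · cases hb : c with
      | true => exact Or.inr (h2 hb)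
      | false => exact Or.inl (by simp [sgn])
    · rcases sign_cases q.2 with hh | hh | hh
      · exact Or.inl hh
      · exact Or.inr hh
      · exact absurd hh.1 h1

theorem wr_cases (h : ℕ) (a : ℤ) :
    (a - 1 < -(h : ℤ) ∧ wr h (a - 1) = a + 2 * h) ∨ (-(h : ℤ) ≤ a - 1 ∧ wr h (a - 1) = a - 1) := by
  unfold wr
  by_cases ha : a - 1 < -(h : ℤ)
  · left; rw [if_pos ha]; exact ⟨ha, by ring⟩
  · right; rw [if_neg ha]; exact ⟨by omega, rfl⟩

theorem sm_SS (h : ℕ) (e : Bool) (q : ℤ × ℤ) : SS h (sgn e) q.1 q.2 (sm h e q).1 (sm h e q).2 := by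
  unfold SS sm
  cases e with
  | true => left; simp only [sgn, if_true]; exact ⟨trivial, trivial, wr_cases h q.1⟩
  | false => right; simp only [sgn]; exact ⟨by simp, by simp, by simpa using wr_cases h q.2⟩

/-- one round, in linear form -/
theorem tr_step (h : ℕ) (c e : ℕ → Bool) (p : ℤ × ℤ) (t : ℕ) : ∃ x1 y1 : ℤ,
    ZS (sgn (c t)) (tr h c e p t).1 (tr h c e p t).2 x1 y1 ∧
    SS h (sgn (e t)) x1 y1 (tr h c e p (t + 1)).1 (tr h c e p (t + 1)).2 :=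
  ⟨_, _, zm_ZS (c t) (tr h c e p t), sm_SS h (e t) (zm (c t) (tr h c e p t))⟩

theorem mem_Box {h : ℕ} {q : ℤ × ℤ} :
    q ∈ Box h ↔ (-(h : ℤ) ≤ q.1 ∧ q.1 ≤ h) ∧ (-(h : ℤ) ≤ q.2 ∧ q.2 ≤ h) := by
  simp [Box, Finset.mem_product, Finset.mem_Icc]

/-- the positions stay in the box -/
theorem tr_box {h : ℕ} (c e : ℕ → Bool) {p : ℤ × ℤ} (hp : p ∈ Box h) (t : ℕ) :
    tr h c e p t ∈ Box h := by
  induction t with
  | zero => exact hp
  | succ t ih =>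
    rw [mem_Box] at ih ⊢
    obtain ⟨x1, y1, hz, hs⟩ := tr_step h c e p t
    unfold ZS at hz
    unfold SS at hs
    omega

/-- evolution in the east sector -/
theorem east_run {h : ℕ} {c e : ℕ → Bool} {q : ℤ × ℤ} (h1 : 1 ≤ h) (hq : q ∈ Box h)
    (s : ℕ) :
    ∀ w : ℕ, s ≤ w →
    (∀ u : ℕ, s ≤ u → u ≤ w → 0 < (tr h c e q u).1 ∧ (tr h c e q u).2 ≤ 0) →
    (tr h c e q w).1 - (tr h c e q w).2 =
      (tr h c e q s).1 - (tr h c e q s).2 - (w - s) - (WW e w - WW e s) ∧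
    -2 * (tr h c e q s).2 + (WW c w - WW c s) - (WW e w - WW e s) ≤ -2 * (tr h c e q w).2 := by
  intro w hw
  induction w, hw using Nat.le_induction with
  | base => intro _; constructor <;> ring_nf <;> exact le_refl _
  | succ w hw ih =>
    intro hu
    have ih' := ih (fun u hs hw' => hu u hs (by omega))
    have h0 := hu w hw (by omega)
    have h2 := hu (w + 1) (by omega) le_rfl
    obtain ⟨x1, y1, hz, hs⟩ := tr_step h c e q w
    have hb := mem_Box.1 (tr_box c e hq w)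
    rw [WW_succ, WW_succ]
    unfold ZS at hz
    unfold SS at hs
    have hc := sgn_cases (c w)
    have he := sgn_cases (e w)
    push_cast
    omega

end Pool.Agent.Helper5K9.ZN.Kit81
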