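import Pool.Agent.Helper5K9.ZN.Strat

/-!
# One zombie near the survivor: local lemmas
-/

set_option autoImplicit false

namespace Pool.Agent.Helper5K9.ZN.Lo

open Finset

/-- the position after the move of the zombie -/
def Pp (h : ℕ) (c e : ℕ → Bool) (p : ℤ × ℤ) (t : ℕ) : ℤ × ℤ := zm (c t) (tr h c e p t)

/-- the move of the survivor without wrapping around -/
def pl (e : Bool) (q : ℤ × ℤ) : ℤ × ℤ := if e then (q.1 - 1, q.2) else (q.1, q.2 - 1)

theorem sgn_true : sgn true = 1 := rfl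
theorem sgn_false : sgn false = -1 := rfl

theorem WW_succ (c : ℕ → Bool) (t : ℕ) : WW c (t + 1) = WW c t + sgn (c t) := by
  unfold WW; rw [sum_range_succ]

theorem WW_zero (c : ℕ → Bool) : WW c 0 = 0 := by simp [WW]

/-- the cases of a move of a zombie -/
theorem zm_cases (c : Bool) (q : ℤ × ℤ) :
    (zm c q = (q.1 - q.1.sign, q.2) ∧ (q.2 = 0 ∨ (c = true ∧ q.1 ≠ 0))) ∨
    (zm c q = (q.1, q.2 - q.2.sign) ∧ q.2 ≠ 0 ∧ (c = false ∨ q.1 = 0)) := by
  unfold zm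
  by_cases h : q.2 = 0 ∨ (c = true ∧ q.1 ≠ 0)
  · left; rw [if_pos h]; exact ⟨rfl, h⟩
  · right; rw [if_neg h]
    push Not at h
    refine ⟨rfl, h.1, ?_⟩
    cases c
    · left; rfl
    · right; exact h.2 rfl

theorem sign_cases (x : ℤ) : (x < 0 ∧ x.sign = -1) ∨ (x = 0 ∧ x.sign = 0) ∨ (0 < x ∧ x.sign = 1) := by
  rcases lt_trichotomy x 0 with h | h | h
  · left; exact ⟨h, Int.sign_eq_neg_one_of_neg h⟩
  · right; left; exact ⟨h, by rw [h]; rfl⟩
  · right; right; exact ⟨h, Int.sign_eq_one_of_pos h⟩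

theorem zm_abs (c : Bool) (q : ℤ × ℤ) : |(zm c q).1| ≤ |q.1| ∧ |(zm c q).2| ≤ |q.2| ∧
    |q.1| ≤ |(zm c q).1| + 1 ∧ |q.2| ≤ |(zm c q).2| + 1 := by
  rcases zm_cases c q with ⟨h, -⟩ | ⟨h, -⟩ <;> rw [h] <;>
  rcases sign_cases q.1 with ⟨h1, h2⟩ | ⟨h1, h2⟩ | ⟨h1, h2⟩ <;>
  rcases sign_cases q.2 with ⟨h3, h4⟩ | ⟨h3, h4⟩ | ⟨h3, h4⟩ <;>
  simp only [h2, h4] <;> refine ⟨?_, ?_, ?_, ?_⟩ <;> simp only [abs_le, le_abs, abs] <;> omega

theorem box_iff (h : ℕ) (q : ℤ × ℤ) :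
    q ∈ Box h ↔ -(h : ℤ) ≤ q.1 ∧ q.1 ≤ h ∧ -(h : ℤ) ≤ q.2 ∧ q.2 ≤ h := by
  unfold Box; simp only [mem_product, mem_Icc]; tauto

theorem zm_box {h : ℕ} {q : ℤ × ℤ} (c : Bool) (hq : q ∈ Box h) : zm c q ∈ Box h := by
  rw [box_iff] at *
  have := zm_abs c q
  simp only [abs, le_sup_iff, sup_le_iff] at this
  rcases zm_cases c q with ⟨h', -⟩ | ⟨h', -⟩ <;> rw [h'] <;>
  rcases sign_cases q.1 with ⟨h1, h2⟩ | ⟨h1, h2⟩ | ⟨h1, h2⟩ <;>
  rcases sign_cases q.2 with ⟨h3, h4⟩ | ⟨h3, h4⟩ | ⟨h3, h4⟩ <;>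
  simp only [h2, h4] <;> omega

theorem sm_box {h : ℕ} {q : ℤ × ℤ} (e : Bool) (hq : q ∈ Box h) : sm h e q ∈ Box h := by
  rw [box_iff] at *
  unfold sm wr
  cases e <;> simp only [Bool.false_eq_true, if_false, if_true] <;> split_ifs <;> omega

theorem tr_box {h : ℕ} {c e : ℕ → Bool} {p : ℤ × ℤ} (hp : p ∈ Box h) (t : ℕ) :
    tr h c e p t ∈ Box h := by
  induction t with
  | zero => exact hp
  | succ t ih => exact sm_box _ (zm_box _ ih)

theorem Pp_box {h : ℕ} {c e : ℕ → Bool} {p : ℤ × ℤ} (hp : p ∈ Box h) (t : ℕ) :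
    Pp h c e p t ∈ Box h := zm_box _ (tr_box hp t)

theorem Pp_succ (h : ℕ) (c e : ℕ → Bool) (p : ℤ × ℤ) (t : ℕ) :
    Pp h c e p (t + 1) = zm (c (t + 1)) (sm h (e t) (Pp h c e p t)) := rfl

/-- a step without wrapping around, if the new position is not far out -/
theorem Pp_plain {h : ℕ} {c e : ℕ → Bool} {p : ℤ × ℤ} (hp : p ∈ Box h) {t : ℕ}
    (h1 : |(Pp h c e p (t + 1)).1| < (h : ℤ) - 1) (h2 : |(Pp h c e p (t + 1)).2| < (h : ℤ) - 1) :
    Pp h c e p (t + 1) = zm (c (t + 1)) (pl (e t) (Pp h c e p t)) := by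
  have hb := Pp_box (c := c) (e := e) hp t
  rw [box_iff] at hb
  rw [Pp_succ] at *
  have h3 := zm_abs (c (t + 1)) (sm h (e t) (Pp h c e p t))
  have : sm h (e t) (Pp h c e p t) = pl (e t) (Pp h c e p t) := by
    unfold sm pl wr at *
    cases he : e t
    · simp only [he, Bool.false_eq_true, if_false, if_true] at *
      split_ifs at h3 h1 h2 ⊢ with h4
      · exfalso
        have := h3.2.2.2
        rw [abs_of_nonneg (a := (Pp h c e p t).2 - 1 + (2 * h + 1)) (by omega)] at this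
        omega
      · rfl
    · simp only [he, Bool.false_eq_true, if_false, if_true] at *
      split_ifs at h3 h1 h2 ⊢ with h4
      · exfalso
        have := h3.2.2.1
        rw [abs_of_nonneg (a := (Pp h c e p t).1 - 1 + (2 * h + 1)) (by omega)] at this
        omega
      · rfl
  rw [this]

theorem pl_abs (e : Bool) (q : ℤ × ℤ) : |q.1| ≤ |(pl e q).1| + 1 ∧ |q.2| ≤ |(pl e q).2| + 1 := by
  unfold pl
  cases e <;> simp only [Bool.false_eq_true, if_false, if_true, abs, le_sup_iff] <;> omega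

/-- near positions at time `t` were near shortly before, and the steps in between are plain -/
theorem window {h : ℕ} {c e : ℕ → Bool} {p : ℤ × ℤ} (hp : p ∈ Box h) (r : ℤ) (t w : ℕ)
    (h1 : |(Pp h c e p t).1| ≤ r) (h2 : |(Pp h c e p t).2| ≤ r) (hr : r + 2 * w + 2 < h) :
    ∀ d ≤ w, d ≤ t → |(Pp h c e p (t - d)).1| ≤ r + 2 * d ∧ |(Pp h c e p (t - d)).2| ≤ r + 2 * d ∧
      (0 < d → Pp h c e p (t - d + 1) = zm (c (t - d + 1)) (pl (e (t - d)) (Pp h c e p (t - d)))) := by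
  intro d
  induction d with
  | zero => intro _ _; simp only [Nat.sub_zero, lt_irrefl, false_imp_iff, and_true]; push_cast; constructor <;> linarith
  | succ d ih =>
    intro hd hdt
    obtain ⟨a1, a2, -⟩ := ih (by omega) (by omega)
    have e1 : t - (d + 1) + 1 = t - d := by omega
    have hd' : (d : ℤ) + 1 ≤ w := by exact_mod_cast hd
    have key := Pp_plain (c := c) (e := e) hp (t := t - (d + 1)) (by rw [e1]; linarith) (by rw [e1]; linarith)
    rw [e1] at key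
    have z1 := zm_abs (c (t - d)) (pl (e (t - (d + 1))) (Pp h c e p (t - (d + 1))))
    rw [← key] at z1
    have z2 := pl_abs (e (t - (d + 1))) (Pp h c e p (t - (d + 1)))
    refine ⟨?_, ?_, fun _ => ?_⟩
    · push_cast; linarith [z1.2.2.1, z2.1]
    · push_cast; linarith [z1.2.2.2, z2.2]
    · rw [e1]; exact key

end Pool.Agent.Helper5K9.ZN.Lo
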