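import Pool.Agent.Helper5K9.ZN.Loc

/-!
# Plain sequences of positions
-/

set_option autoImplicit false

namespace Pool.Agent.Helper5K9.ZN.Lo

open Finset

/-- the sequence of positions `P` has no wrap around between `s₀` and `t` -/
def Pl (c e : ℕ → Bool) (P : ℕ → ℤ × ℤ) (s₀ t : ℕ) : Prop :=
  ∀ s, s₀ ≤ s → s < t → P (s + 1) = zm (c (s + 1)) (pl (e s) (P s))

/-- contact positions in the east -/
def CE (q : ℤ × ℤ) : Prop := q = (1, 0) ∨ q = (2, 0) ∨ q = (1, -1)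
/-- contact positions in the north -/
def CN (q : ℤ × ℤ) : Prop := q = (0, 1) ∨ q = (0, 2) ∨ q = (-1, 1)

theorem st1 (c e : Bool) (q : ℤ × ℤ) (h : 0 < (zm c (pl e q)).1) :
    0 < q.1 ∧ (zm c (pl e q)).1 ≤ q.1 ∧ q.1 ≤ (zm c (pl e q)).1 + 2 := by
  rcases zm_cases c (pl e q) with ⟨h', -⟩ | ⟨h', -⟩ <;> rw [h'] at h ⊢ <;>
  rcases sign_cases (pl e q).1 with ⟨h1, h2⟩ | ⟨h1, h2⟩ | ⟨h1, h2⟩ <;>
  simp only [h2] at h ⊢ <;> cases e <;> simp only [pl, Bool.false_eq_true, if_false, if_true] at * <;>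
  omega

theorem st2 (c e : Bool) (q : ℤ × ℤ) (h : 0 < (zm c (pl e q)).2) :
    0 < q.2 ∧ (zm c (pl e q)).2 ≤ q.2 ∧ q.2 ≤ (zm c (pl e q)).2 + 2 := by
  rcases zm_cases c (pl e q) with ⟨h', -⟩ | ⟨h', -⟩ <;> rw [h'] at h ⊢ <;>
  rcases sign_cases (pl e q).2 with ⟨h1, h2⟩ | ⟨h1, h2⟩ | ⟨h1, h2⟩ <;>
  simp only [h2] at h ⊢ <;> cases e <;> simp only [pl, Bool.false_eq_true, if_false, if_true] at * <;>
  omega

theorem L1_pos {q : ℤ × ℤ} (h1 : 0 < q.1) (h2 : 0 < q.2) : L1 q = q.1 + q.2 := by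
  unfold L1; rw [abs_of_pos h1, abs_of_pos h2]

theorem st3 (c e : Bool) (q : ℤ × ℤ) (h1 : 0 < (zm c (pl e q)).1) (h2 : 0 < (zm c (pl e q)).2) :
    L1 q = L1 (zm c (pl e q)) + 2 ∧
    q.1 - q.2 = (zm c (pl e q)).1 - (zm c (pl e q)).2 + sgn e + sgn c := by
  have a1 := (st1 c e q h1).1
  have a2 := (st2 c e q h2).1
  rw [L1_pos a1 a2, L1_pos h1 h2]
  rcases zm_cases c (pl e q) with ⟨h', h''⟩ | ⟨h', h''⟩ <;> rw [h'] at h1 h2 ⊢ <;>
  rcases sign_cases (pl e q).1 with ⟨h3, h4⟩ | ⟨h3, h4⟩ | ⟨h3, h4⟩ <;>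
  rcases sign_cases (pl e q).2 with ⟨h5, h6⟩ | ⟨h5, h6⟩ | ⟨h5, h6⟩ <;>
  simp only [h4, h6] at h1 h2 ⊢ <;> cases e <;> cases c <;>
  simp only [pl, Bool.false_eq_true, if_false, if_true, sgn, false_and, true_and, or_false,
    true_or, and_true, reduceCtorEq, false_or] at * <;> omega

theorem st4 (c e : Bool) (q : ℤ × ℤ) (h1 : 0 < (zm c (pl e q)).1) (h3 : q.2 ≤ 0) :
    2 * (-q.2) + (sgn c - sgn e) ≤ 2 * (-(zm c (pl e q)).2) := by
  rcases zm_cases c (pl e q) with ⟨h', h''⟩ | ⟨h', h''⟩ <;> rw [h'] at h1 ⊢ <;>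
  rcases sign_cases (pl e q).1 with ⟨h3, h4⟩ | ⟨h3, h4⟩ | ⟨h3, h4⟩ <;>
  rcases sign_cases (pl e q).2 with ⟨h5, h6⟩ | ⟨h5, h6⟩ | ⟨h5, h6⟩ <;>
  simp only [h4, h6] at h1 ⊢ <;> cases e <;> cases c <;>
  simp only [pl, Bool.false_eq_true, if_false, if_true, sgn, false_and, true_and, or_false,
    true_or, and_true, reduceCtorEq, false_or] at * <;> omega

theorem st5 (c e : Bool) (q : ℤ × ℤ) (h2 : 0 < (zm c (pl e q)).2) (h3 : q.1 ≤ 0) :
    2 * (-q.1) + (sgn e - sgn c) ≤ 2 * (-(zm c (pl e q)).1) := by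
  rcases zm_cases c (pl e q) with ⟨h', h''⟩ | ⟨h', h''⟩ <;> rw [h'] at h2 ⊢ <;>
  rcases sign_cases (pl e q).1 with ⟨h3, h4⟩ | ⟨h3, h4⟩ | ⟨h3, h4⟩ <;>
  rcases sign_cases (pl e q).2 with ⟨h5, h6⟩ | ⟨h5, h6⟩ | ⟨h5, h6⟩ <;>
  simp only [h4, h6] at h2 ⊢ <;> cases e <;> cases c <;>
  simp only [pl, Bool.false_eq_true, if_false, if_true, sgn, false_and, true_and, or_false,
    true_or, and_true, reduceCtorEq, false_or] at * <;> omega

variable {c e : ℕ → Bool} {P : ℕ → ℤ × ℤ} {s₀ t : ℕ}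

theorem Pl.back1 (h : Pl c e P s₀ t) (ht : 0 < (P t).1) : ∀ d s : ℕ, s + d = t → s₀ ≤ s →
    0 < (P s).1 ∧ (P t).1 ≤ (P s).1 ∧ (P s).1 ≤ (P t).1 + 2 * d := by
  intro d
  induction d with
  | zero => intro s hs _; have : s = t := by omega
            subst this; refine ⟨ht, le_refl _, by push_cast; omega⟩
  | succ d ih =>
    intro s hs h0
    obtain ⟨a, b, c'⟩ := ih (s + 1) (by omega) (by omega)
    have := h s h0 (by omega)
    rw [this] at a b c'
    obtain ⟨a', b', c''⟩ := st1 _ _ _ a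
    push_cast
    refine ⟨a', by omega, by omega⟩

theorem Pl.back2 (h : Pl c e P s₀ t) (ht : 0 < (P t).2) : ∀ d s : ℕ, s + d = t → s₀ ≤ s →
    0 < (P s).2 ∧ (P t).2 ≤ (P s).2 ∧ (P s).2 ≤ (P t).2 + 2 * d := by
  intro d
  induction d with
  | zero => intro s hs _; have : s = t := by omega
            subst this; refine ⟨ht, le_refl _, by push_cast; omega⟩
  | succ d ih =>
    intro s hs h0
    obtain ⟨a, b, c'⟩ := ih (s + 1) (by omega) (by omega)
    have := h s h0 (by omega)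
    rw [this] at a b c'
    obtain ⟨a', b', c''⟩ := st2 _ _ _ a
    push_cast
    refine ⟨a', by omega, by omega⟩

theorem Pl.mono (h : Pl c e P s₀ t) {s₁ t₁ : ℕ} (h1 : s₀ ≤ s₁) (h2 : t₁ ≤ t) : Pl c e P s₁ t₁ :=
  fun s a b => h s (by omega) (by omega)

/-- zombies in the north-east -/
theorem Pl.ne (h : Pl c e P s₀ t) (h1 : 0 < (P t).1) (h2 : 0 < (P t).2) : ∀ d s : ℕ, s + d = t →
    s₀ ≤ s → L1 (P s) = L1 (P t) + 2 * d ∧
    (P s).1 - (P s).2 + WW e s = (P t).1 - (P t).2 + WW e t + (WW c (t + 1) - WW c (s + 1)) := by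
  intro d
  induction d with
  | zero => intro s hs _; have : s = t := by omega
            subst this; constructor <;> (push_cast; ring)
  | succ d ih =>
    intro s hs h0
    obtain ⟨a, b⟩ := ih (s + 1) (by omega) (by omega)
    have a1 := (h.back1 h1 d (s + 1) (by omega) (by omega)).1
    have a2 := (h.back2 h2 d (s + 1) (by omega) (by omega)).1
    have hs' := h s h0 (by omega)
    rw [hs'] at a b a1 a2
    obtain ⟨b1, b2⟩ := st3 _ _ _ a1 a2
    rw [WW_succ e s, WW_succ c (s + 1)] at b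
    constructor
    · push_cast; omega
    · omega

/-- the drift of a zombie in the east sector -/
theorem Pl.driftE (h : Pl c e P s₀ t) (hE : ∀ s, s₀ ≤ s → s ≤ t → 0 < (P s).1 ∧ (P s).2 ≤ 0) :
    ∀ d : ℕ, s₀ + d ≤ t → 2 * (-(P s₀).2) + (WW c (s₀ + d + 1) - WW c (s₀ + 1)) -
      (WW e (s₀ + d) - WW e s₀) ≤ 2 * (-(P (s₀ + d)).2) := by
  intro d
  induction d with
  | zero => intro _; simp only [Nat.add_zero]; omega
  | succ d ih =>
    intro hd
    have i1 := ih (by omega)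
    have hs' := h (s₀ + d) (by omega) (by omega)
    have h1 := (hE (s₀ + d + 1) (by omega) (by omega)).1
    have h3 := (hE (s₀ + d) (by omega) (by omega)).2
    rw [hs'] at h1
    have := st4 _ _ _ h1 h3
    rw [← hs'] at this
    rw [← Nat.add_assoc]
    rw [WW_succ e (s₀ + d), WW_succ c (s₀ + d + 1)]
    omega

/-- the drift of a zombie in the north sector -/
theorem Pl.driftN (h : Pl c e P s₀ t) (hE : ∀ s, s₀ ≤ s → s ≤ t → 0 < (P s).2 ∧ (P s).1 ≤ 0) :
    ∀ d : ℕ, s₀ + d ≤ t → 2 * (-(P s₀).1) - (WW c (s₀ + d + 1) - WW c (s₀ + 1)) +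
      (WW e (s₀ + d) - WW e s₀) ≤ 2 * (-(P (s₀ + d)).1) := by
  intro d
  induction d with
  | zero => intro _; simp only [Nat.add_zero]; omega
  | succ d ih =>
    intro hd
    have i1 := ih (by omega)
    have hs' := h (s₀ + d) (by omega) (by omega)
    have h1 := (hE (s₀ + d + 1) (by omega) (by omega)).1
    have h3 := (hE (s₀ + d) (by omega) (by omega)).2
    rw [hs'] at h1
    have := st5 _ _ _ h1 h3
    rw [← hs'] at this
    rw [← Nat.add_assoc]
    rw [WW_succ e (s₀ + d), WW_succ c (s₀ + d + 1)]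
    omega

theorem sign2 : Int.sign 2 = 1 := rfl

theorem contE (h : Pl c e P s₀ t) (he : ∀ s, s₀ ≤ s → s < t → CE (P s) → e s = false)
    (h0 : CE (P s₀)) : ∀ d : ℕ, s₀ + d ≤ t → (P (s₀ + d)).1 ≤ 0 ∨ (CE (P (s₀ + d)) ∧
      2 * ((P s₀).1 - (P (s₀ + d)).1) = d + (WW c (s₀ + d + 1) - WW c (s₀ + 1))) := by
  intro d
  induction d with
  | zero => intro _; right; simp only [Nat.add_zero]; exact ⟨h0, by push_cast; ring⟩
  | succ d ih =>
    intro hd
    have hs' := h (s₀ + d) (by omega) (by omega)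
    rw [← Nat.add_assoc]
    rcases ih (by omega) with i1 | ⟨i1, i2⟩
    · left
      by_contra hc
      push Not at hc
      rw [hs'] at hc
      have := (st1 _ _ _ hc).1
      omega
    · have he' := he (s₀ + d) (by omega) (by omega) i1
      rw [he'] at hs'
      rw [WW_succ c (s₀ + d + 1)]
      cases hc : c (s₀ + d + 1)
      · right
        rw [hc] at hs'
        rcases i1 with i1 | i1 | i1 <;> rw [i1] at hs' i2 <;>
          simp [pl, zm, sign2] at hs' <;> rw [hs'] <;> simp only [CE, sgn] <;> push_cast <;>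
          simp at i2 ⊢ <;> omega
      · rw [hc] at hs'
        rcases i1 with i1 | i1 | i1
        · left; rw [i1] at hs'; simp [pl, zm, sign2] at hs'; rw [hs']
        · right; rw [i1] at hs' i2; simp [pl, zm, sign2] at hs'; rw [hs']
          simp only [CE, sgn]; push_cast; simp at i2 ⊢; omega
        · left; rw [i1] at hs'; simp [pl, zm, sign2] at hs'; rw [hs']

theorem contN (h : Pl c e P s₀ t) (he : ∀ s, s₀ ≤ s → s < t → CN (P s) → e s = true)
    (h0 : CN (P s₀)) : ∀ d : ℕ, s₀ + d ≤ t → (P (s₀ + d)).2 ≤ 0 ∨ (CN (P (s₀ + d)) ∧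
      2 * ((P s₀).2 - (P (s₀ + d)).2) = d - (WW c (s₀ + d + 1) - WW c (s₀ + 1))) := by
  intro d
  induction d with
  | zero => intro _; right; simp only [Nat.add_zero]; exact ⟨h0, by push_cast; ring⟩
  | succ d ih =>
    intro hd
    have hs' := h (s₀ + d) (by omega) (by omega)
    rw [← Nat.add_assoc]
    rcases ih (by omega) with i1 | ⟨i1, i2⟩
    · left
      by_contra hc
      push Not at hc
      rw [hs'] at hc
      have := (st2 _ _ _ hc).1
      omega
    · have he' := he (s₀ + d) (by omega) (by omega) i1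
      rw [he'] at hs'
      rw [WW_succ c (s₀ + d + 1)]
      cases hc : c (s₀ + d + 1)
      · rw [hc] at hs'
        rcases i1 with i1 | i1 | i1
        · left; rw [i1] at hs'; simp [pl, zm, sign2] at hs'; rw [hs']
        · right; rw [i1] at hs' i2; simp [pl, zm, sign2] at hs'; rw [hs']
          simp only [CN, sgn]; push_cast; simp at i2 ⊢; omega
        · left; rw [i1] at hs'; simp [pl, zm, sign2] at hs'; rw [hs']
      · right
        rw [hc] at hs'
        rcases i1 with i1 | i1 | i1 <;> rw [i1] at hs' i2 <;>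
          simp [pl, zm, sign2] at hs' <;> rw [hs'] <;> simp only [CN, sgn] <;> push_cast <;>
          simp at i2 ⊢ <;> omega

theorem sq_win {K w : ℕ} {x : ℤ} (h : x ^ 2 ≤ (K : ℤ) * w) (h2 : (w : ℤ) + x ≤ 2) :
    w ≤ K + 4 := by
  by_contra hc
  push Not at hc
  have h3 : (K : ℤ) + 5 ≤ w := by exact_mod_cast hc
  nlinarith [mul_nonneg (by positivity : (0 : ℤ) ≤ w) (by linarith : (0 : ℤ) ≤ (w : ℤ) - K - 5)]

end Pool.Agent.Helper5K9.ZN.Lo
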