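import Pool.Agent.Helper5K9.ZN.Stm

/-! # Near zombies: preparations (shifts, symmetry, no wrapping near the survivor) -/

set_option autoImplicit false
set_option linter.unusedSectionVars false

namespace Pool.Agent.Helper5K9.ZN.NearL

open Finset Pool.Agent.Helper5K9.ZN

lemma tr_add (h : ℕ) (c e : ℕ → Bool) (p : ℤ × ℤ) (s w : ℕ) :
    tr h c e p (s + w) = tr h (fun i => c (s + i)) (fun i => e (s + i)) (tr h c e p s) w := by
  induction w with
  | zero => rfl
  | succ w ih =>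
    rw [← add_assoc]
    change sm h (e (s + w)) (zm (c (s + w)) (tr h c e p (s + w))) = _
    rw [ih]; rfl

lemma tr_congr {h : ℕ} {c c' e e' : ℕ → Bool} {p : ℤ × ℤ} {t : ℕ} (hc : ∀ i < t, c i = c' i)
    (he : ∀ i < t, e i = e' i) : tr h c e p t = tr h c' e' p t := by
  induction t with
  | zero => rfl
  | succ t ih =>
    change sm h (e t) (zm (c t) (tr h c e p t)) = sm h (e' t) (zm (c' t) (tr h c' e' p t))
    rw [ih (fun i hi => hc i (by omega)) (fun i hi => he i (by omega)), hc t (by omega),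
      he t (by omega)]

lemma WW_add (c : ℕ → Bool) (s w : ℕ) : WW c (s + w) = WW c s + WW (fun i => c (s + i)) w := by
  unfold WW
  rw [Finset.sum_range_add]

lemma WW_congr {c c' : ℕ → Bool} {t : ℕ} (hc : ∀ i < t, c i = c' i) : WW c t = WW c' t := by
  unfold WW
  exact sum_congr rfl fun i hi => by rw [hc i (mem_range.1 hi)]

lemma WW_not (c : ℕ → Bool) (t : ℕ) : WW (fun s => !(c s)) t = -WW c t := by
  unfold WW
  rw [← sum_neg_distrib]
  refine sum_congr rfl fun i _ => ?_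
  change sgn (!(c i)) = -sgn (c i)
  rcases Bool.eq_false_or_eq_true (c i) with hci | hci <;> rw [hci] <;> rfl

lemma GC_congr {K T : ℕ} {c c' : ℕ → Bool} (hc : ∀ i < T, c i = c' i) (h : GC K T c) :
    GC K T c' := by
  intro s w hsw
  rw [← WW_congr (c := c) (fun i hi => hc i (by omega)),
    ← WW_congr (c := c) (c' := c') (fun i hi => hc i (by omega))]
  exact h s w hsw

lemma GC_mono {K T t : ℕ} {c : ℕ → Bool} (h : GC K T c) (ht : t ≤ T) : GC K t c :=
  fun s w hsw => h s w (hsw.trans ht)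

lemma GC_not {K T : ℕ} {c : ℕ → Bool} (h : GC K T c) : GC K T fun s => !(c s) := by
  intro s w hsw
  rw [WW_not, WW_not]
  have := h s w hsw
  nlinarith [this]

lemma Tube_mono {R t s : ℕ} {e : ℕ → Bool} (h : Tube R e t) (hs : s ≤ t) : Tube R e s :=
  fun s' hs' => h s' (hs'.trans hs)

lemma Tube_not {R t : ℕ} {e : ℕ → Bool} (h : Tube R e t) : Tube R (fun s => !(e s)) t := by
  intro s hs
  rw [WW_not, abs_neg]
  exact h s hs

lemma Tube_shift {R s w : ℕ} {e : ℕ → Bool} (h : Tube R e (s + w)) :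
    Tube (2 * R) (fun i => e (s + i)) w := by
  intro j hj
  have h1 := WW_add e s j
  have h2 := h (s + j) (by omega)
  have h3 := h s (by omega)
  rw [abs_le] at h2 h3 ⊢
  push_cast
  constructor <;> linarith [h1, h2.1, h2.2, h3.1, h3.2]

lemma mem_Box {h : ℕ} {q : ℤ × ℤ} : q ∈ Box h ↔ -(h : ℤ) ≤ q.1 ∧ q.1 ≤ h ∧ -(h : ℤ) ≤ q.2 ∧
    q.2 ≤ h := by
  unfold Box
  rw [mem_product, mem_Icc, mem_Icc]
  tauto

lemma swap_mem {h : ℕ} {q : ℤ × ℤ} (hq : q ∈ Box h) : q.swap ∈ Box h := by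
  rw [mem_Box] at hq ⊢
  exact ⟨hq.2.2.1, hq.2.2.2, hq.1, hq.2.1⟩

lemma sign_cases (a : ℤ) : (0 < a ∧ a.sign = 1) ∨ (a = 0 ∧ a.sign = 0) ∨ (a < 0 ∧ a.sign = -1) := by
  rcases lt_trichotomy a 0 with h | h | h
  · exact Or.inr (Or.inr ⟨h, Int.sign_eq_neg_one_of_neg h⟩)
  · exact Or.inr (Or.inl ⟨h, by rw [h]; rfl⟩)
  · exact Or.inl ⟨h, Int.sign_eq_one_of_pos h⟩

/-- the move of the zombie -/
lemma zm_cases (c : Bool) (q : ℤ × ℤ) :
    (zm c q = (q.1 - q.1.sign, q.2) ∨ zm c q = (q.1, q.2 - q.2.sign)) := by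
  unfold zm
  split_ifs
  · exact Or.inl rfl
  · exact Or.inr rfl

lemma zm_mem {h : ℕ} {c : Bool} {q : ℤ × ℤ} (hq : q ∈ Box h) : zm c q ∈ Box h := by
  rw [mem_Box] at hq ⊢
  have h1 := sign_cases q.1
  have h2 := sign_cases q.2
  rcases zm_cases c q with h | h <;> rw [h] <;> simp only <;> omega

lemma sm_cases (h : ℕ) (e : Bool) (q : ℤ × ℤ) :
    sm h e q = (wr h (q.1 - 1), q.2) ∨ sm h e q = (q.1, wr h (q.2 - 1)) := by
  unfold sm
  cases e
  · right; rfl
  · left; rfl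

lemma wr_cases (h : ℕ) (a : ℤ) : (a < -(h : ℤ) ∧ wr h a = a + (2 * h + 1)) ∨
    (-(h : ℤ) ≤ a ∧ wr h a = a) := by
  unfold wr
  split_ifs with h1
  · exact Or.inl ⟨h1, rfl⟩
  · exact Or.inr ⟨by omega, rfl⟩

lemma sm_mem {h : ℕ} {e : Bool} {q : ℤ × ℤ} (hq : q ∈ Box h) : sm h e q ∈ Box h := by
  rw [mem_Box] at hq ⊢
  have h1 := wr_cases h (q.1 - 1)
  have h2 := wr_cases h (q.2 - 1)
  rcases sm_cases h e q with h | h <;> rw [h] <;> simp only <;> omega

lemma tr_mem {h : ℕ} {c e : ℕ → Bool} {p : ℤ × ℤ} (hp : p ∈ Box h) (t : ℕ) :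
    tr h c e p t ∈ Box h := by
  induction t with
  | zero => exact hp
  | succ t ih => exact sm_mem (zm_mem ih)

/-- one round near the survivor -/
lemma step {h : ℕ} {c e : Bool} {q : ℤ × ℤ} (hq : q ∈ Box h) {ρ : ℤ}
    (hl : |(sm h e (zm c q)).1| + |(sm h e (zm c q)).2| ≤ ρ) :
    |q.1| + |q.2| ≤ ρ + 2 ∧ (ρ + 2 < h → (q.1 ≤ 0 → (sm h e (zm c q)).1 ≤ 0) ∧
      (q.2 ≤ 0 → (sm h e (zm c q)).2 ≤ 0)) := by
  have h0 := zm_mem (c := c) hq
  have h1 := sign_cases q.1
  have h2 := sign_cases q.2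
  rw [mem_Box] at hq h0
  have h3 := wr_cases h ((zm c q).1 - 1)
  have h4 := wr_cases h ((zm c q).2 - 1)
  have a1 := abs_cases (sm h e (zm c q)).1
  have a2 := abs_cases (sm h e (zm c q)).2
  have a3 := abs_cases q.1
  have a4 := abs_cases q.2
  rcases sm_cases h e (zm c q) with g | g <;> rw [g] at hl a1 a2 ⊢ <;>
    rcases zm_cases c q with k | k <;> rw [k] at hl a1 a2 h3 h4 h0 ⊢ <;>
    simp only at hl a1 a2 h3 h4 h0 ⊢ <;> refine ⟨?_, fun _ => ⟨fun _ => ?_, fun _ => ?_⟩⟩ <;> omega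

/-- the zombie in the east sector near the survivor came from the north-east or stayed in the east
sector -/
lemma east {h : ℕ} {c e : ℕ → Bool} {q : ℤ × ℤ} (hq : q ∈ Box h) {ρ w : ℕ}
    (hw : 4 * w ≤ h) (hρ : 16 * (ρ + 1) ≤ h) (hn : NearE ρ (tr h c e q w)) :
    0 < q.1 ∧ (0 < q.2 ∨ ∀ s ≤ w, 0 < (tr h c e q s).1 ∧ (tr h c e q s).2 ≤ 0) := by
  have key : ∀ j ≤ w, |(tr h c e q (w - j)).1| + |(tr h c e q (w - j)).2| ≤ 2 * ρ + 2 * j := by
    intro j
    induction j with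
    | zero =>
      intro _
      obtain ⟨h1, h2, h3, h4⟩ := hn
      simp only [Nat.sub_zero]
      rw [abs_of_pos h1, abs_of_nonpos h3]
      push_cast
      linarith
    | succ j ih =>
      intro hj
      have h1 := ih (by omega)
      have h2 : w - j = w - (j + 1) + 1 := by omega
      rw [h2] at h1
      have h3 := (step (tr_mem hq (w - (j + 1))) h1).1
      push_cast
      linarith
  have hst : ∀ s < w, ((tr h c e q s).1 ≤ 0 → (tr h c e q (s + 1)).1 ≤ 0) ∧
      ((tr h c e q s).2 ≤ 0 → (tr h c e q (s + 1)).2 ≤ 0) := by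
    intro s hs
    have h1 := key (w - (s + 1)) (by omega)
    have h2 : w - (w - (s + 1)) = s + 1 := by omega
    rw [h2] at h1
    refine (step (tr_mem hq s) h1).2 ?_
    have h3 : ((w - (s + 1) : ℕ) : ℤ) ≤ w := by omega
    have h4 : 4 * (w : ℤ) ≤ h := by exact_mod_cast hw
    have h5 : 16 * ((ρ : ℤ) + 1) ≤ h := by exact_mod_cast hρ
    linarith
  have hx : ∀ s ≤ w, 0 < (tr h c e q s).1 := by
    intro s hs
    by_contra hc
    push Not at hc
    have : ∀ j, s + j ≤ w → (tr h c e q (s + j)).1 ≤ 0 := by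
      intro j
      induction j with
      | zero => exact fun _ => hc
      | succ j ih => exact fun hj => (hst (s + j) (by omega)).1 (ih (by omega))
    have h1 := this (w - s) (by omega)
    rw [show s + (w - s) = w by omega] at h1
    exact absurd hn.1 (not_lt.2 h1)
  refine ⟨hx 0 (by omega), ?_⟩
  by_cases hy : 0 < q.2
  · exact Or.inl hy
  · right
    push Not at hy
    have : ∀ s, s ≤ w → (tr h c e q s).2 ≤ 0 := by
      intro s
      induction s with
      | zero => exact fun _ => hy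
      | succ s ih => exact fun hs => (hst s (by omega)).2 (ih (by omega))
    exact fun s hs => ⟨hx s hs, this s hs⟩

/-- a zombie in the north-east quadrant was always free -/
lemma free_of_ne (hS : S_SYM) (hT : S_TOUCH) (hN : S_NONE) {h R K t : ℕ} {c e : ℕ → Bool}
    {p : ℤ × ℤ} (H : 1000 * (R + K + 1) ≤ h) (hp : p ∈ Box h) (hg : GC K t c)
    (ht : Tube R e t) (h1 : 0 < (tr h c e p t).1) (h2 : 0 < (tr h c e p t).2) :
    FreeTo h c e p t := by
  have hX : ∀ s ≤ t, ¬ CrossX h c e p s := by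
    intro s hs hc
    rcases hT h R K s t c e p H hp hg ht hs hc with h3 | h3 | ⟨s', hs', h3⟩
    · exact absurd h1 (not_lt.2 h3.1)
    · exact absurd h1 (not_lt.2 h3.1)
    · exact hN h R K s' t c e p H hp hg ht hs' h3 ⟨h1, h2⟩
  have hY : ∀ s ≤ t, ¬ CrossX h (fun s => !(c s)) (fun s => !(e s)) p.swap s := by
    intro s hs hc
    have h4 := hS h c e p t
    rcases hT h R K s t _ _ _ H (swap_mem hp) (GC_not hg) (Tube_not ht) hs hc with
      h3 | h3 | ⟨s', hs', h3⟩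
    · rw [h4] at h3; exact absurd h2 (not_lt.2 h3.1)
    · rw [h4] at h3; exact absurd h2 (not_lt.2 h3.1)
    · refine hN h R K s' t _ _ _ H (swap_mem hp) (GC_not hg) (Tube_not ht) hs' h3 ?_
      rw [h4]
      exact ⟨h2, h1⟩
  have hY' : ∀ s ≤ t, ¬ ((tr h c e p s).2 = 0 ∨ ((tr h c e p s).2 < 0 ∧ ∃ s', s' + 1 = s ∧
      0 < (tr h c e p s').2)) := by
    intro s hs hc
    apply hY s hs
    unfold CrossX
    rw [hS]
    rcases hc with h3 | ⟨h3, s', h4, h5⟩
    · exact Or.inl h3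
    · refine Or.inr ⟨h3, s', h4, ?_⟩
      rw [hS]; exact h5
  refine ⟨fun s hs => ⟨fun h3 => hX s hs (Or.inl h3), fun h3 => hY' s hs (Or.inl h3)⟩, ?_⟩
  intro s hs
  constructor
  · intro h3
    by_contra h4
    push Not at h4
    rcases h4.lt_or_eq with h5 | h5
    · exact hX (s + 1) hs (Or.inr ⟨h5, s, rfl, h3⟩)
    · exact hX (s + 1) hs (Or.inl h5)
  · intro h3
    by_contra h4
    push Not at h4
    rcases h4.lt_or_eq with h5 | h5
    · exact hY' (s + 1) hs (Or.inr ⟨h5, s, rfl, h3⟩)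
    · exact hY' (s + 1) hs (Or.inl h5)

end Pool.Agent.Helper5K9.ZN.NearL
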