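import Pool.Agent.Helper5K9.ZN.Near1

/-! # Near zombies: counting -/

set_option autoImplicit false
set_option linter.unusedSectionVars false

namespace Pool.Agent.Helper5K9.ZN.NearL

open Finset Pool.Agent.Helper5K9.ZN

lemma sum_sqrt (n : ℕ) : ∑ j ∈ range n, 1 / Real.sqrt ((j : ℝ) + 1) ≤ 2 * Real.sqrt n := by
  induction n with
  | zero => simp
  | succ n ih =>
    rw [sum_range_succ]
    push_cast
    have h0 : (0 : ℝ) ≤ n := by positivity
    have h1 : 0 < Real.sqrt ((n : ℝ) + 1) := Real.sqrt_pos.2 (by linarith)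
    have h2 : 0 ≤ Real.sqrt (n : ℝ) := Real.sqrt_nonneg _
    have h3 : Real.sqrt ((n : ℝ) + 1) * Real.sqrt ((n : ℝ) + 1) = n + 1 :=
      Real.mul_self_sqrt (by linarith)
    have h4 : Real.sqrt (n : ℝ) * Real.sqrt (n : ℝ) = n := Real.mul_self_sqrt h0
    have h5 : 1 / Real.sqrt ((n : ℝ) + 1) ≤ 2 * (Real.sqrt ((n : ℝ) + 1) - Real.sqrt n) := by
      rw [div_le_iff₀ h1]
      have h6 : Real.sqrt (n : ℝ) ≤ Real.sqrt ((n : ℝ) + 1) := Real.sqrt_le_sqrt (by linarith)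
      nlinarith [h1, h2, h3, h4, h6]
    linarith

lemma sum_sqrt' (w : ℕ) :
    ∑ v ∈ range (w + 1), 1 / Real.sqrt ((w : ℝ) - v + 1) ≤ 2 * Real.sqrt ((w : ℝ) + 1) := by
  have h1 := sum_sqrt (w + 1)
  push_cast at h1
  refine le_trans (le_of_eq ?_) h1
  rw [← sum_range_reflect]
  refine sum_congr rfl fun v hv => ?_
  have h2 : v ≤ w := by have := mem_range.1 hv; omega
  have h3 : ((w + 1 - 1 - v : ℕ) : ℝ) = (w : ℝ) - v := by
    rw [show w + 1 - 1 - v = w - v by omega, Nat.cast_sub h2]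
  rw [h3]
  congr 2
  ring

open Classical in
lemma card_free (hF : S_FREE) (hS : S_SYM) (hT : S_TOUCH) (hN : S_NONE) {h R K t : ℕ}
    {c : ℕ → Bool} (H : 1000 * (R + K + 1) ≤ h) (hg : GC K t c) (Q : Finset (ℤ × ℤ)) :
    ((Box h).filter fun p => ∃ e : ℕ → Bool, Tube R e t ∧ 0 < (tr h c e p t).1 ∧
      0 < (tr h c e p t).2 ∧ tr h c e p t ∈ Q).card ≤ Q.card * (100 * (R + 1) ^ 4) := by
  have h1 : ((Box h).filter fun p => ∃ e : ℕ → Bool, Tube R e t ∧ 0 < (tr h c e p t).1 ∧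
      0 < (tr h c e p t).2 ∧ tr h c e p t ∈ Q) ⊆ Q.biUnion fun q =>
        (Box h).filter fun p => ∃ e : ℕ → Bool, Tube R e t ∧ FreeTo h c e p t ∧
          tr h c e p t = q := by
    intro p hp
    rw [mem_filter] at hp
    obtain ⟨hp, e, h2, h3, h4, h5⟩ := hp
    rw [mem_biUnion]
    refine ⟨_, h5, mem_filter.2 ⟨hp, e, h2, ?_, rfl⟩⟩
    exact free_of_ne hS hT hN H hp hg h2 h3 h4
  refine (card_le_card h1).trans (card_biUnion_le_card_mul _ _ _ fun q _ => ?_)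
  exact hF h R t c q (by omega)

/-- `#{v ≤ w : ...}` -/
noncomputable def VV (c : ℕ → Bool) (s w A : ℕ) : ℕ := by
  classical
  exact ((range (w + 1)).filter fun v => ∀ s' : ℕ, s + v ≤ s' → s' ≤ s + w →
    WW c (s + w) - WW c s' ≤ (A : ℤ)).card

open Classical in
lemma card_A {CQ : ℕ} (hQ : ∀ (h R ρ w : ℕ) (c : ℕ → Bool), 4 * w ≤ h → 16 * (R + ρ + 1) ≤ h →
    ((Box h).filter fun q => 0 < q.1 ∧ 0 < q.2 ∧ ∃ e : ℕ → Bool, Tube R e w ∧
      NearE ρ (tr h c e q w)).card ≤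
    CQ * (R + ρ + 1) ^ 2 * ((range (w + 1)).filter fun v => ∀ s' : ℕ, v ≤ s' → s' ≤ w →
      WW c w - WW c s' ≤ 2 * (ρ : ℤ) + 2 * R).card)
    (hF : S_FREE) (hS : S_SYM) (hT : S_TOUCH) (hN : S_NONE) {h R ρ K s w : ℕ}
    {c : ℕ → Bool} (H : 1000 * (R + ρ + K + 1) ≤ h) (hw : 4 * w ≤ h) (hg : GC K (s + w) c) :
    ((Box h).filter fun p => ∃ e : ℕ → Bool, Tube R e (s + w) ∧ 0 < (tr h c e p s).1 ∧
      0 < (tr h c e p s).2 ∧ NearE ρ (tr h c e p (s + w))).card ≤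
    CQ * (2 * R + ρ + 1) ^ 2 * VV c s w (2 * ρ + 4 * R) * (100 * (R + 1) ^ 4) := by
  let Q : Finset (ℤ × ℤ) := (Box h).filter fun q => 0 < q.1 ∧ 0 < q.2 ∧ ∃ e : ℕ → Bool,
    Tube (2 * R) e w ∧ NearE ρ (tr h (fun i => c (s + i)) e q w)
  have h1 : ((Box h).filter fun p => ∃ e : ℕ → Bool, Tube R e (s + w) ∧ 0 < (tr h c e p s).1 ∧
      0 < (tr h c e p s).2 ∧ NearE ρ (tr h c e p (s + w))) ⊆
      (Box h).filter fun p => ∃ e : ℕ → Bool, Tube R e s ∧ 0 < (tr h c e p s).1 ∧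
      0 < (tr h c e p s).2 ∧ tr h c e p s ∈ Q := by
    intro p hp
    rw [mem_filter] at hp ⊢
    obtain ⟨hp, e, h2, h3, h4, h5⟩ := hp
    refine ⟨hp, e, Tube_mono h2 (by omega), h3, h4, ?_⟩
    refine mem_filter.2 ⟨tr_mem hp s, h3, h4, fun i => e (s + i), Tube_shift h2, ?_⟩
    rw [tr_add] at h5
    exact h5
  have h2 := card_free hF hS hT hN (h := h) (R := R) (K := K) (t := s) (c := c) (by omega)
    (GC_mono hg (by omega)) Q
  have h3 := hQ h (2 * R) ρ w (fun i => c (s + i)) hw (by omega)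
  have h4 : ((range (w + 1)).filter fun v => ∀ s' : ℕ, v ≤ s' → s' ≤ w →
      WW (fun i => c (s + i)) w - WW (fun i => c (s + i)) s' ≤
        2 * (ρ : ℤ) + 2 * ((2 * R : ℕ) : ℤ)) =
      (range (w + 1)).filter fun v => ∀ s' : ℕ, s + v ≤ s' → s' ≤ s + w →
        WW c (s + w) - WW c s' ≤ ((2 * ρ + 4 * R : ℕ) : ℤ) := by
    refine filter_congr fun v _ => ?_
    constructor
    · intro h5 s' h6 h7
      have h8 := h5 (s' - s) (by omega) (by omega)
      have h9 := WW_add c s w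
      have h10 := WW_add c s (s' - s)
      rw [show s + (s' - s) = s' by omega] at h10
      push_cast at h8 ⊢
      linarith
    · intro h5 s' h6 h7
      have h8 := h5 (s + s') (by omega) (by omega)
      have h9 := WW_add c s w
      have h10 := WW_add c s s'
      push_cast at h8 ⊢
      linarith
  rw [h4] at h3
  have h5 : VV c s w (2 * ρ + 4 * R) = ((range (w + 1)).filter fun v => ∀ s' : ℕ,
      s + v ≤ s' → s' ≤ s + w → WW c (s + w) - WW c s' ≤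
        ((2 * ρ + 4 * R : ℕ) : ℤ)).card := by
    unfold VV
    congr!
  rw [← h5] at h3
  exact (card_le_card h1).trans (h2.trans (Nat.mul_le_mul_right _ h3))

lemma sum_VV {C : ℝ} (hW : ∀ T s t A : ℕ, s ≤ t → t ≤ T →
    open Classical in ((univ.filter fun c : Fin T → Bool => ∀ s' : ℕ, s ≤ s' → s' ≤ t →
      WW (ext c) t - WW (ext c) s' ≤ (A : ℤ)).card : ℝ) * Real.sqrt ((t : ℝ) - s + 1) ≤
    C * (A + 1) * 2 ^ T) (hC : 0 < C) {T s w A : ℕ} (ht : s + w ≤ T) :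
    ∑ c : Fin T → Bool, (VV (ext c) s w A : ℝ) ≤
      C * (A + 1) * 2 ^ T * (2 * Real.sqrt ((w : ℝ) + 1)) := by
  classical
  have h1 : ∀ c : Fin T → Bool, (VV (ext c) s w A : ℝ) = ∑ v ∈ range (w + 1),
      if (∀ s' : ℕ, s + v ≤ s' → s' ≤ s + w → WW (ext c) (s + w) - WW (ext c) s' ≤ (A : ℤ))
        then (1 : ℝ) else 0 := by
    intro c
    unfold VV
    rw [card_filter]
    push_cast
    congr!
  rw [sum_congr rfl fun c _ => h1 c, sum_comm]
  calc ∑ v ∈ range (w + 1), ∑ c : Fin T → Bool,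
        (if (∀ s' : ℕ, s + v ≤ s' → s' ≤ s + w → WW (ext c) (s + w) - WW (ext c) s' ≤ (A : ℤ))
        then (1 : ℝ) else 0)
      ≤ ∑ v ∈ range (w + 1), C * (A + 1) * 2 ^ T * (1 / Real.sqrt ((w : ℝ) - v + 1)) := by
        refine sum_le_sum fun v hv => ?_
        have hv' : v ≤ w := by have := mem_range.1 hv; omega
        have h2 := hW T (s + v) (s + w) A (by omega) ht
        have h3 : (((s + w : ℕ) : ℝ)) - ((s + v : ℕ) : ℝ) + 1 = (w : ℝ) - v + 1 := by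
          push_cast; ring
        rw [h3] at h2
        have h4 : (v : ℝ) ≤ w := by exact_mod_cast hv'
        have h5 : 0 < Real.sqrt ((w : ℝ) - v + 1) := Real.sqrt_pos.2 (by linarith)
        rw [mul_one_div, le_div_iff₀ h5]
        refine le_trans (le_of_eq ?_) h2
        rw [card_filter]
        push_cast
        rfl
    _ = C * (A + 1) * 2 ^ T * ∑ v ∈ range (w + 1), (1 / Real.sqrt ((w : ℝ) - v + 1)) := by
        rw [mul_sum]
    _ ≤ _ := by
        refine mul_le_mul_of_nonneg_left (sum_sqrt' w) ?_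
        positivity

/-- the zombies staying in the east sector on `[s, s + w]` -/
noncomputable def BB (h R ρ s w : ℕ) (c : ℕ → Bool) : Finset (ℤ × ℤ) := by
  classical
  exact (Box h).filter fun p => ∃ e : ℕ → Bool, Tube R e (s + w) ∧
    (∀ j ≤ w, 0 < (tr h c e p (s + j)).1 ∧ (tr h c e p (s + j)).2 ≤ 0) ∧
    NearE ρ (tr h c e p (s + w))

lemma mem_BB {h R ρ s w : ℕ} {c : ℕ → Bool} {p : ℤ × ℤ} : p ∈ BB h R ρ s w c ↔
    p ∈ Box h ∧ ∃ e : ℕ → Bool, Tube R e (s + w) ∧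
    (∀ j ≤ w, 0 < (tr h c e p (s + j)).1 ∧ (tr h c e p (s + j)).2 ≤ 0) ∧
    NearE ρ (tr h c e p (s + w)) := by
  classical
  unfold BB
  rw [mem_filter]

/-- early times -/
lemma card_B0 (hA : S_EA) {h R ρ w : ℕ} {c : ℕ → Bool} :
    ((BB h R ρ 0 w c).card : ℝ) ≤ (2 * R + 2 * ρ + 1) * (ρ + R + |(WW c w : ℝ)| + 1) := by
  classical
  have h1 : ∀ p ∈ BB h R ρ 0 w c, (fun q : ℤ × ℤ => (q.1 - q.2, -q.2)) p ∈
      Icc ((w : ℤ) - R) (w + R + 2 * ρ) ×ˢ Icc (0 : ℤ) (ρ + R + |WW c w|) := by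
    intro p hp
    rw [mem_BB] at hp
    obtain ⟨hp, e, h2, h3, h4⟩ := hp
    rw [Nat.zero_add] at h2 h4
    have h3' : ∀ j ≤ w, 0 < (tr h c e p j).1 ∧ (tr h c e p j).2 ≤ 0 := by
      intro j hj
      have := h3 j hj
      rwa [Nat.zero_add] at this
    obtain ⟨h5, h6, -, h7⟩ := hA h R ρ w c e p hp h2 h3' h4
    have h8 := h3' 0 (by omega)
    change 0 < p.1 ∧ p.2 ≤ 0 at h8
    have h9 : L1 p = p.1 - p.2 := by
      unfold L1
      rw [abs_of_pos h8.1, abs_of_nonpos h8.2]; ring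
    rw [h9] at h5 h6
    rw [mem_product, mem_Icc, mem_Icc]
    exact ⟨⟨h5, h6⟩, by linarith [h8.2], h7⟩
  have h2 := card_le_card_of_injOn _ h1 (by
    rintro ⟨a, b⟩ _ ⟨a', b'⟩ _ hab
    rw [Prod.mk.injEq] at hab ⊢
    simp only at hab
    omega)
  rw [card_product, Int.card_Icc, Int.card_Icc] at h2
  have h3 : (((BB h R ρ 0 w c).card : ℕ) : ℝ) ≤
      (((w : ℤ) + R + 2 * ρ + 1 - (w - R)).toNat : ℝ) *
        ((((ρ : ℤ) + R + |WW c w| + 1 - 0)).toNat : ℝ) := by exact_mod_cast h2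
  refine h3.trans (le_of_eq ?_)
  have h4 : (((w : ℤ) + R + 2 * ρ + 1 - (w - R)).toNat : ℝ) = 2 * R + 2 * ρ + 1 := by
    rw [show ((w : ℤ) + R + 2 * ρ + 1 - (w - R)) = ((2 * R + 2 * ρ + 1 : ℕ) : ℤ) by
      push_cast; ring, Int.toNat_natCast]
    push_cast
    ring
  have h5 : ((((ρ : ℤ) + R + |WW c w| + 1 - 0)).toNat : ℝ) = ρ + R + |(WW c w : ℝ)| + 1 := by
    rw [show ((ρ : ℤ) + R + |WW c w| + 1 - 0) = ((ρ + R + (WW c w).natAbs + 1 : ℕ) : ℤ) by
      push_cast; ring, Int.toNat_natCast]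
    push_cast
    rw [Nat.cast_natAbs]
    push_cast
    ring
  rw [h4, h5]

open Classical in
/-- the number of starting points which are in the east sector at time `s` in a window of
distances -/
noncomputable def ff (h R K s l : ℕ) (u : ℤ) (c : ℕ → Bool) : ℕ :=
  if GC K s c then
    ((Box h).filter fun p => ∃ e : ℕ → Bool, Tube R e s ∧ 0 < (tr h c e p s).1 ∧
      (tr h c e p s).2 ≤ 0 ∧ u ≤ L1 (tr h c e p s) ∧ L1 (tr h c e p s) ≤ u + l).card
  else 0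

open Classical in
/-- the indicator of the reflection event -/
noncomputable def gg (s t A : ℕ) (c : ℕ → Bool) : ℕ :=
  if ∀ s' : ℕ, s ≤ s' → s' ≤ t → WW c t - WW c s' ≤ (A : ℤ) then 1 else 0

lemma card_B1 (hA : S_EA) {h R ρ K s w : ℕ} {c : ℕ → Bool} (hg : GC K s c) :
    (BB h R ρ s w c).card ≤ ff h R K s (4 * R + 2 * ρ) ((w : ℤ) - 2 * R) c *
      gg s (s + w) (2 * ρ + 4 * R) c := by
  classical
  have key : ∀ p ∈ BB h R ρ s w c,
      (p ∈ (Box h).filter fun p => ∃ e : ℕ → Bool, Tube R e s ∧ 0 < (tr h c e p s).1 ∧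
      (tr h c e p s).2 ≤ 0 ∧ (w : ℤ) - 2 * R ≤ L1 (tr h c e p s) ∧
        L1 (tr h c e p s) ≤ (w : ℤ) - 2 * R + ((4 * R + 2 * ρ : ℕ) : ℤ)) ∧
      ∀ s' : ℕ, s ≤ s' → s' ≤ s + w → WW c (s + w) - WW c s' ≤ ((2 * ρ + 4 * R : ℕ) : ℤ) := by
    intro p hp
    rw [mem_BB] at hp
    obtain ⟨hp, e, h2, h3, h4⟩ := hp
    have h5 := hA h (2 * R) ρ w (fun i => c (s + i)) (fun i => e (s + i)) (tr h c e p s)
      (tr_mem hp s) (Tube_shift h2) (fun j hj => by rw [← tr_add]; exact h3 j hj)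
      (by rw [← tr_add]; exact h4)
    obtain ⟨h6, h7, h8, -⟩ := h5
    have h9 := h3 0 (by omega)
    rw [Nat.add_zero] at h9
    push_cast at h6 h7
    refine ⟨mem_filter.2 ⟨hp, e, Tube_mono h2 (by omega), h9.1, h9.2, by linarith, ?_⟩, ?_⟩
    · push_cast; linarith
    · intro s' h10 h11
      have h12 := h8 (s' - s) (by omega)
      have h13 := WW_add c s w
      have h14 := WW_add c s (s' - s)
      rw [show s + (s' - s) = s' by omega] at h14
      push_cast at h12 ⊢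
      linarith
  unfold ff gg
  rw [if_pos hg]
  by_cases hc : ∀ s' : ℕ, s ≤ s' → s' ≤ s + w → WW c (s + w) - WW c s' ≤
      ((2 * ρ + 4 * R : ℕ) : ℤ)
  · rw [if_pos hc, mul_one]
    refine card_le_card fun p hp => ?_
    have := (key p hp).1
    convert this
  · rw [if_neg hc, mul_zero, Nat.le_zero, card_eq_zero]
    rw [eq_empty_iff_forall_notMem]
    exact fun p hp => hc (key p hp).2

end Pool.Agent.Helper5K9.ZN.NearL
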