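import Pool.Agent.Helper5K9.ZN.Near2

/-! # Near zombies: the east sector -/

set_option autoImplicit false
set_option linter.unusedSectionVars false

namespace Pool.Agent.Helper5K9.ZN.NearL

open Finset Pool.Agent.Helper5K9.ZN

lemma ff_congr {h R K s l : ℕ} {u : ℤ} {c c' : ℕ → Bool} (hc : ∀ i < s, c i = c' i) :
    ff h R K s l u c = ff h R K s l u c' := by
  classical
  have h1 : GC K s c ↔ GC K s c' := ⟨GC_congr hc, GC_congr fun i hi => (hc i hi).symm⟩
  have h2 : ∀ (e : ℕ → Bool) (p : ℤ × ℤ), tr h c e p s = tr h c' e p s :=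
    fun e p => tr_congr hc fun _ _ => rfl
  unfold ff
  by_cases h3 : GC K s c
  · rw [if_pos h3, if_pos (h1.1 h3)]
    congr 1
    refine filter_congr fun p _ => ?_
    simp only [h2]
  · rw [if_neg h3, if_neg fun h4 => h3 (h1.2 h4)]

lemma gg_congr {s t A : ℕ} {c c' : ℕ → Bool} (hc : ∀ i, s ≤ i → i < t → c i = c' i) :
    gg s t A c = gg s t A c' := by
  classical
  have h1 : ∀ s', s ≤ s' → s' ≤ t → WW c t - WW c s' = WW c' t - WW c' s' := by
    intro s' h2 h3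
    have h4 := WW_add c s' (t - s')
    have h5 := WW_add c' s' (t - s')
    rw [show s' + (t - s') = t by omega] at h4 h5
    have h6 : WW (fun i => c (s' + i)) (t - s') = WW (fun i => c' (s' + i)) (t - s') :=
      WW_congr fun i hi => hc (s' + i) (by omega) (by omega)
    linarith
  unfold gg
  have h2 : (∀ s' : ℕ, s ≤ s' → s' ≤ t → WW c t - WW c s' ≤ (A : ℤ)) ↔
      ∀ s' : ℕ, s ≤ s' → s' ≤ t → WW c' t - WW c' s' ≤ (A : ℤ) := by
    constructor
    · intro h3 s' h4 h5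
      rw [← h1 s' h4 h5]; exact h3 s' h4 h5
    · intro h3 s' h4 h5
      rw [h1 s' h4 h5]; exact h3 s' h4 h5
  by_cases h3 : ∀ s' : ℕ, s ≤ s' → s' ≤ t → WW c t - WW c s' ≤ (A : ℤ)
  · rw [if_pos h3, if_pos (h2.1 h3)]
  · rw [if_neg h3, if_neg fun h4 => h3 (h2.2 h4)]

lemma ext_congr {T i : ℕ} {c c' : Fin T → Bool} (h : ∀ hi : i < T, c ⟨i, hi⟩ = c' ⟨i, hi⟩) :
    ext c i = ext c' i := by
  unfold ext
  split_ifs with h1
  · exact h h1
  · rfl

lemma sum_ff_gg (hI : S_IND) {C : ℝ} (hW : ∀ T s t A : ℕ, s ≤ t → t ≤ T →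
    open Classical in ((univ.filter fun c : Fin T → Bool => ∀ s' : ℕ, s ≤ s' → s' ≤ t →
      WW (ext c) t - WW (ext c) s' ≤ (A : ℤ)).card : ℝ) * Real.sqrt ((t : ℝ) - s + 1) ≤
    C * (A + 1) * 2 ^ T) {CO : ℕ} (hO : ∀ (h R K s l : ℕ) (u : ℤ) (c : ℕ → Bool),
    1000 * (R + K + 1) ≤ h → GC K s c →
    open Classical in ((Box h).filter fun p => ∃ e : ℕ → Bool, Tube R e s ∧
      0 < (tr h c e p s).1 ∧ (tr h c e p s).2 ≤ 0 ∧ u ≤ L1 (tr h c e p s) ∧
      L1 (tr h c e p s) ≤ u + l).card ≤ CO * h * (R + l + K + 1) ^ 6)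
    {h R K s l w A T : ℕ} {u : ℤ} (H : 1000 * (R + K + 1) ≤ h) (ht : s + w ≤ T) :
    (∑ c : Fin T → Bool, ((ff h R K s l u (ext c) * gg s (s + w) A (ext c) : ℕ) : ℝ)) *
      Real.sqrt ((w : ℝ) + 1) ≤ (CO * h * (R + l + K + 1) ^ 6) * (C * (A + 1) * 2 ^ T) := by
  classical
  have h1 := hI T s (fun c => (ff h R K s l u (ext c) : ℝ)) (fun c => (gg s (s + w) A (ext c) : ℝ))
    (fun c c' hcc => by
      rw [ff_congr fun i hi => ext_congr fun hi' => hcc ⟨i, hi'⟩ hi])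
    (fun c c' hcc => by
      rw [gg_congr fun i hi _ => ext_congr fun hi' => hcc ⟨i, hi'⟩ hi])
  have h2 : ∑ c : Fin T → Bool, (ff h R K s l u (ext c) : ℝ) ≤
      (CO * h * (R + l + K + 1) ^ 6) * 2 ^ T := by
    have h3 : ∀ c : Fin T → Bool, (ff h R K s l u (ext c) : ℝ) ≤
        CO * h * (R + l + K + 1) ^ 6 := by
      intro c
      have h4 : ff h R K s l u (ext c) ≤ CO * h * (R + l + K + 1) ^ 6 := by
        unfold ff
        split_ifs with h5
        · exact hO h R K s l u (ext c) H h5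
        · exact Nat.zero_le _
      exact_mod_cast h4
    refine (sum_le_sum fun c _ => h3 c).trans (le_of_eq ?_)
    rw [sum_const, card_univ, Fintype.card_fun, Fintype.card_bool, Fintype.card_fin,
      nsmul_eq_mul]
    push_cast
    ring
  have h3 := hW T s (s + w) A (by omega) ht
  have h4 : (((s + w : ℕ) : ℝ)) - (s : ℝ) + 1 = (w : ℝ) + 1 := by push_cast; ring
  rw [h4] at h3
  have h5 : ∑ c : Fin T → Bool, (gg s (s + w) A (ext c) : ℝ) =
      ((univ.filter fun c : Fin T → Bool => ∀ s' : ℕ, s ≤ s' → s' ≤ s + w →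
      WW (ext c) (s + w) - WW (ext c) s' ≤ (A : ℤ)).card : ℝ) := by
    rw [card_filter]
    push_cast
    refine sum_congr rfl fun c _ => ?_
    unfold gg
    split_ifs <;> simp
  have h6 : 0 ≤ ∑ c : Fin T → Bool, (ff h R K s l u (ext c) : ℝ) :=
    sum_nonneg fun c _ => by positivity
  have hs : 0 ≤ Real.sqrt ((w : ℝ) + 1) := Real.sqrt_nonneg _
  have h7 : (∑ c : Fin T → Bool, (gg s (s + w) A (ext c) : ℝ)) * Real.sqrt ((w : ℝ) + 1) ≤
      C * (A + 1) * 2 ^ T := by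
    rw [h5]
    convert h3
  have h8 : (0 : ℝ) < 2 ^ T := by positivity
  have h9 : 0 ≤ (∑ c : Fin T → Bool, (gg s (s + w) A (ext c) : ℝ)) *
      Real.sqrt ((w : ℝ) + 1) := mul_nonneg (sum_nonneg fun c _ => by positivity) hs
  have h10 : (∑ c : Fin T → Bool, ((ff h R K s l u (ext c) * gg s (s + w) A (ext c) : ℕ) : ℝ)) =
      ∑ c : Fin T → Bool, (ff h R K s l u (ext c) : ℝ) * (gg s (s + w) A (ext c) : ℝ) :=
    sum_congr rfl fun c _ => by push_cast; ring
  rw [h10]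
  have h11 : ((∑ c : Fin T → Bool, (ff h R K s l u (ext c) : ℝ) *
      (gg s (s + w) A (ext c) : ℝ)) * Real.sqrt ((w : ℝ) + 1)) * 2 ^ T ≤
      ((CO * h * (R + l + K + 1) ^ 6) * (C * (A + 1) * 2 ^ T)) * 2 ^ T := by
    calc _ = (∑ c : Fin T → Bool, (ff h R K s l u (ext c) : ℝ)) *
          ((∑ c : Fin T → Bool, (gg s (s + w) A (ext c) : ℝ)) * Real.sqrt ((w : ℝ) + 1)) := by
          rw [mul_right_comm, h1]; ring
      _ ≤ ((CO * h * (R + l + K + 1) ^ 6) * 2 ^ T) * (C * (A + 1) * 2 ^ T) :=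
          mul_le_mul h2 h7 h9 (h6.trans h2)
      _ = _ := by ring
  exact le_of_mul_le_mul_right h11 h8

open Classical in
/-- the two possibilities for a zombie in the east sector -/
lemma card_split {h R ρ s w : ℕ} {c : ℕ → Bool} (hw : 4 * w ≤ h) (hρ : 16 * (ρ + 1) ≤ h) :
    ((Box h).filter fun p => ∃ e : ℕ → Bool, Tube R e (s + w) ∧
      NearE ρ (tr h c e p (s + w))).card ≤
    ((Box h).filter fun p => ∃ e : ℕ → Bool, Tube R e (s + w) ∧ 0 < (tr h c e p s).1 ∧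
      0 < (tr h c e p s).2 ∧ NearE ρ (tr h c e p (s + w))).card + (BB h R ρ s w c).card := by
  refine le_trans (card_le_card ?_) (card_union_le _ _)
  intro p hp
  rw [mem_filter] at hp
  obtain ⟨hp, e, h1, h2⟩ := hp
  have h3 : NearE ρ (tr h (fun i => c (s + i)) (fun i => e (s + i)) (tr h c e p s) w) := by
    rw [← tr_add]; exact h2
  obtain ⟨h4, h5⟩ := east (tr_mem hp s) hw hρ h3
  rw [mem_union]
  rcases h5 with h5 | h5
  · exact Or.inl (mem_filter.2 ⟨hp, e, h1, h4, h5, h2⟩)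
  · right
    rw [mem_BB]
    exact ⟨hp, e, h1, fun j hj => by rw [tr_add]; exact h5 j hj, h2⟩

end Pool.Agent.Helper5K9.ZN.NearL
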