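import Pool.Agent.Helper5K9.ZN.Loc2

/-!
# Runs of the strategy
-/

set_option autoImplicit false

namespace Pool.Agent.Helper5K9.ZN.Lo

open Finset

/-- the positions after the moves of the zombies -/
def PP {k : ℕ} (h : ℕ) (c : ℕ → Fin k → Bool) (e : ℕ → Bool) (p : Fin k → ℤ × ℤ) (t : ℕ)
    (z : Fin k) : ℤ × ℤ := Pp h (fun s => c s z) e (p z) t

/-- in the box which zombies from the north-east never enter -/
def InB (N K : ℕ) (q : ℤ × ℤ) : Prop :=
  0 < q.1 ∧ q.1 ≤ (Bb N K : ℤ) ∧ 0 < q.2 ∧ q.2 ≤ (Bb N K : ℤ)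

open Classical in
/-- a run of the strategy -/
structure Run (h N K k T : ℕ) (c : ℕ → Fin k → Bool) (p : Fin k → ℤ × ℤ) (e md : ℕ → Bool)
    (L : ℕ → ℤ) (τ : ℕ → ℕ) : Prop where
  hN : 1 ≤ N
  hh : 100 * Fe N K ≤ h
  box : ∀ z, p z ∈ Box h
  gc : ∀ z, GC K T (fun s => c s z)
  far : ∀ z, 10 * (Fe N K : ℤ) ≤ |(p z).1| ∨ 10 * (Fe N K : ℤ) ≤ |(p z).2|
  near : ∀ t ≤ T, Tube (Fe N K) e t → (univ.filter fun z => Near (10 * Fe N K)
    (tr h (fun s => c s z) e (p z) t)).card < N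
  he1 : ∀ t, Safe h (md t) (PP h c e p t) → e t = md t
  he2 : ∀ t, ¬ Safe h (md t) (PP h c e p t) → e t = !(md t)
  blk : ∀ b w, lm N K ∣ b → w < lm N K → md (b + w) = md b
  mdE : ∀ b, lm N K ∣ b → (md b = true ↔ WW e b ≤
    if b < τ (b / Fe N K) then L (b / Fe N K) else L (b / Fe N K + 1))
  L0 : L 0 = 0
  L1 : ∀ j, L (j + 1) = ((sInf {i : ℕ | LaneOK N K (PP h c e p (j * Fe N K))
    (WW e (j * Fe N K)) i} : ℕ) : ℤ) * Sp N K
  T1 : ∀ j, τ j = j * Fe N K + gp N K (sInf {i : ℕ | GapOK N K (PP h c e p (j * Fe N K)) i})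

/-- the induction hypothesis -/
structure Ok (h N K k : ℕ) (c : ℕ → Fin k → Bool) (p : Fin k → ℤ × ℤ) (e : ℕ → Bool) (t : ℕ) :
    Prop where
  safe : ∀ s < t, Safe h (e s) (PP h c e p s)
  pg : ∀ s < t, ∀ z, ¬ InB N K (PP h c e p s z)
  tube : Tube (Fe N K) e t

/-- numerical facts -/
theorem nums {N K : ℕ} (hN : 1 ≤ N) : 10 ≤ dl N K ∧ lm N K = 100 * dl N K ∧
    Bb N K = 1000 * dl N K ∧ 600 * lm N K ≤ Fe N K ∧ 2 * K ≤ dl N K := by
  refine ⟨?_, rfl, ?_, ?_, ?_⟩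
  · unfold dl; nlinarith
  · unfold Bb lm; ring
  · unfold Fe
    have : 1 ≤ N ^ 3 := Nat.one_le_pow _ _ hN
    nlinarith [Nat.zero_le (lm N K)]
  · unfold dl; nlinarith

theorem plw {h : ℕ} {c e : ℕ → Bool} {p : ℤ × ℤ} (hp : p ∈ Box h) {r : ℤ} {s₀ t : ℕ} (h0 : s₀ ≤ t)
    (h1 : |(Pp h c e p t).1| ≤ r) (h2 : |(Pp h c e p t).2| ≤ r)
    (hr : r + 2 * ((t : ℤ) - s₀) + 2 < h) :
    Pl c e (Pp h c e p) s₀ t ∧ ∀ s, s₀ ≤ s → s ≤ t →
      |(Pp h c e p s).1| ≤ r + 2 * ((t : ℤ) - s) ∧ |(Pp h c e p s).2| ≤ r + 2 * ((t : ℤ) - s) := by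
  have key := window (c := c) (e := e) hp r t (t - s₀) h1 h2 (by push_cast [Nat.cast_sub h0]; linarith)
  constructor
  · intro s a b
    have := (key (t - s) (by omega) (by omega)).2.2 (by omega)
    rw [show t - (t - s) = s by omega] at this
    exact this
  · intro s a b
    have := key (t - s) (by omega) (by omega)
    rw [show t - (t - s) = s by omega, Nat.cast_sub b] at this
    exact ⟨this.1, this.2.1⟩

theorem unsE {h : ℕ} {q : ℤ × ℤ} (hb : q ∈ Box h) (hh : 3 ≤ h) (h0 : q ≠ 0) (h1 : q ≠ (1, 1))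
    (h2 : ¬ 2 ≤ L1 (sm h true q)) : CE q := by
  rw [box_iff] at hb
  obtain ⟨x, y⟩ := q
  simp only [ne_eq, Prod.mk.injEq, Prod.mk_eq_zero] at h0 h1 hb
  unfold L1 sm wr at h2
  simp only [if_true] at h2
  unfold CE
  simp only [Prod.mk.injEq]
  split_ifs at h2 with h3
  · exfalso; apply h2
    have := le_abs_self (x - 1 + (2 * (h : ℤ) + 1))
    have := abs_nonneg y
    have : (3 : ℤ) ≤ h := by exact_mod_cast hh
    linarith
  · simp only [abs, not_le] at h2
    omega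

theorem unsN {h : ℕ} {q : ℤ × ℤ} (hb : q ∈ Box h) (hh : 3 ≤ h) (h0 : q ≠ 0) (h1 : q ≠ (1, 1))
    (h2 : ¬ 2 ≤ L1 (sm h false q)) : CN q := by
  rw [box_iff] at hb
  obtain ⟨x, y⟩ := q
  simp only [ne_eq, Prod.mk.injEq, Prod.mk_eq_zero] at h0 h1 hb
  unfold L1 sm wr at h2
  simp only [Bool.false_eq_true, if_false] at h2
  unfold CN
  simp only [Prod.mk.injEq]
  split_ifs at h2 with h3
  · exfalso; apply h2
    have := le_abs_self (y - 1 + (2 * (h : ℤ) + 1))
    have := abs_nonneg x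
    have : (3 : ℤ) ≤ h := by exact_mod_cast hh
    linarith
  · simp only [abs, not_le] at h2
    omega

theorem CE_uns {h : ℕ} {q : ℤ × ℤ} (hq : CE q) (hh : 3 ≤ h) : ¬ 2 ≤ L1 (sm h true q) := by
  rcases hq with rfl | rfl | rfl <;> simp only [L1, sm, wr, if_true] <;>
  rw [if_neg (by omega)] <;> simp

theorem CN_uns {h : ℕ} {q : ℤ × ℤ} (hq : CN q) (hh : 3 ≤ h) : ¬ 2 ≤ L1 (sm h false q) := by
  rcases hq with rfl | rfl | rfl <;> simp only [L1, sm, wr, Bool.false_eq_true, if_false] <;>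
  rw [if_neg (by omega)] <;> simp

theorem CE_abs {q : ℤ × ℤ} (hq : CE q) : |q.1| ≤ 2 ∧ |q.2| ≤ 2 ∧ 0 < q.1 ∧ q.2 ≤ 0 ∧
    -1 ≤ q.2 ∧ q.1 ≤ 2 := by
  rcases hq with rfl | rfl | rfl <;> simp

theorem CN_abs {q : ℤ × ℤ} (hq : CN q) : |q.1| ≤ 2 ∧ |q.2| ≤ 2 ∧ 0 < q.2 ∧ q.1 ≤ 0 ∧
    -1 ≤ q.1 ∧ q.2 ≤ 2 := by
  rcases hq with rfl | rfl | rfl <;> simp

variable {h N K k T : ℕ} {c : ℕ → Fin k → Bool} {p : Fin k → ℤ × ℤ} {e md : ℕ → Bool}
  {L : ℕ → ℤ} {τ : ℕ → ℕ} {t : ℕ}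

theorem Ok.mono (O : Ok h N K k c p e t) {s : ℕ} (hs : s ≤ t) : Ok h N K k c p e s :=
  ⟨fun u hu => O.safe u (by omega), fun u hu => O.pg u (by omega), fun u hu => O.tube u (by omega)⟩

/-- there are no zombies nearby at the beginning -/
theorem Run.early (R : Run h N K k T c p e md L τ) {z : Fin k} {r : ℤ} (hr : r ≤ Fe N K)
    (h1 : |(PP h c e p t z).1| ≤ r) (h2 : |(PP h c e p t z).2| ≤ r) : 4 * Fe N K < t := by
  by_contra hc
  push Not at hc
  obtain ⟨n1, n2, n3, n4, n5⟩ := nums (K := K) R.hN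
  have hh := R.hh
  have hc' : (t : ℤ) ≤ 4 * Fe N K := by exact_mod_cast hc
  have n4' : 600 * (lm N K : ℤ) ≤ Fe N K := by exact_mod_cast n4
  have hh' : 100 * (Fe N K : ℤ) ≤ h := by exact_mod_cast hh
  have n2' : (lm N K : ℤ) = 100 * dl N K := by exact_mod_cast n2
  have n1' : (10 : ℤ) ≤ dl N K := by exact_mod_cast n1
  have := (plw (R.box z) (Nat.zero_le t) h1 h2 (by push_cast; linarith)).2 0 (le_refl _) (Nat.zero_le _)
  have hz := zm_abs (c 0 z) (p z)
  have e0 : Pp h (fun s => c s z) e (p z) 0 = zm (c 0 z) (p z) := rfl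
  rw [e0] at this
  push_cast at this
  rcases R.far z with f | f
  · linarith [hz.2.2.1, this.1]
  · linarith [hz.2.2.2, this.2]

theorem Run.h3 (R : Run h N K k T c p e md L τ) : 3 ≤ h := by
  obtain ⟨n1, n2, n3, n4, n5⟩ := nums (K := K) R.hN
  have := R.hh
  omega

theorem Run.ne0 (R : Run h N K k T c p e md L τ) (O : Ok h N K k c p e t) (z : Fin k) :
    2 ≤ ZN.L1 (tr h (fun s => c s z) e (p z) t) ∧ PP h c e p t z ≠ 0 := by
  have key : 2 ≤ ZN.L1 (tr h (fun s => c s z) e (p z) t) := by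
    cases t with
    | zero =>
      obtain ⟨n1, n2, n3, n4, n5⟩ := nums (K := K) R.hN
      have n6 : (60 : ℤ) ≤ Fe N K := by exact_mod_cast (by omega : 60 ≤ Fe N K)
      change 2 ≤ ZN.L1 (p z)
      unfold ZN.L1
      have a1 := abs_nonneg (p z).1
      have a2 := abs_nonneg (p z).2
      rcases R.far z with f | f <;> linarith
    | succ t => exact O.safe t (by omega) z
  refine ⟨key, fun h0 => ?_⟩
  have hz := zm_abs (c t z) (tr h (fun s => c s z) e (p z) t)
  have h0' : zm (c t z) (tr h (fun s => c s z) e (p z) t) = 0 := h0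
  rw [h0'] at hz
  simp only [Prod.fst_zero, Prod.snd_zero, abs_zero] at hz
  rcases zm_cases (c t z) (tr h (fun s => c s z) e (p z) t) with ⟨h', h''⟩ | ⟨h', h''⟩
  · rw [h0'] at h'
    have h2 : (tr h (fun s => c s z) e (p z) t).2 = 0 := (congrArg Prod.snd h').symm
    unfold ZN.L1 at key
    rw [h2, abs_zero] at key
    linarith [hz.2.2.1]
  · rw [h0'] at h'
    have h2 : (tr h (fun s => c s z) e (p z) t).1 = 0 := (congrArg Prod.fst h').symm
    unfold ZN.L1 at key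
    rw [h2, abs_zero] at key
    linarith [hz.2.2.2]

theorem Run.CE_e (R : Run h N K k T c p e md L τ) (O : Ok h N K k c p e t) {s : ℕ} (hs : s < t)
    {z : Fin k} (hz : CE (PP h c e p s z)) : e s = false := by
  by_contra hc
  have he : e s = true := by simpa using hc
  have := O.safe s hs z
  rw [he] at this
  exact CE_uns hz R.h3 this

theorem Run.CN_e (R : Run h N K k T c p e md L τ) (O : Ok h N K k c p e t) {s : ℕ} (hs : s < t)
    {z : Fin k} (hz : CN (PP h c e p s z)) : e s = true := by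
  by_contra hc
  have he : e s = false := by simpa using hc
  have := O.safe s hs z
  rw [he] at this
  exact CN_uns hz R.h3 this

theorem Run.diamE (R : Run h N K k T c p e md L τ) (O : Ok h N K k c p e t) (hT : t ≤ T)
    {s₁ s₂ : ℕ} {z : Fin k} (h12 : s₁ ≤ s₂) (h2 : s₂ < t) (hw : s₂ ≤ s₁ + 4 * Fe N K)
    (c1 : CE (PP h c e p s₁ z)) (c2 : CE (PP h c e p s₂ z)) : s₂ ≤ s₁ + (K + 4) := by
  obtain ⟨n1, n2, n3, n4, n5⟩ := nums (K := K) R.hN
  have hh := R.hh
  obtain ⟨a1, a2, a3, a4, a5, a6⟩ := CE_abs c2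
  obtain ⟨b1, b2, b3, b4, b5, b6⟩ := CE_abs c1
  have w := (plw (R.box z) h12 a1 a2 (by omega)).1
  obtain ⟨d, rfl⟩ := Nat.exists_eq_add_of_le h12
  rcases contE w (fun s _ h4 h5 => R.CE_e O (by omega) h5) c1 d (le_refl _) with h6 | ⟨-, h6⟩
  · exact absurd a3 (not_lt.mpr h6)
  · have hg := R.gc z (s₁ + 1) d (by omega)
    rw [show s₁ + 1 + d = s₁ + d + 1 by ring] at hg
    have := sq_win hg (by
      change 0 < (Pp h (fun s => c s z) e (p z) (s₁ + d)).1 at a3
      change (Pp h (fun s => c s z) e (p z) s₁).1 ≤ 2 at b6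
      omega)
    omega

theorem Run.diamN (R : Run h N K k T c p e md L τ) (O : Ok h N K k c p e t) (hT : t ≤ T)
    {s₁ s₂ : ℕ} {z : Fin k} (h12 : s₁ ≤ s₂) (h2 : s₂ < t) (hw : s₂ ≤ s₁ + 4 * Fe N K)
    (c1 : CN (PP h c e p s₁ z)) (c2 : CN (PP h c e p s₂ z)) : s₂ ≤ s₁ + (K + 4) := by
  obtain ⟨n1, n2, n3, n4, n5⟩ := nums (K := K) R.hN
  have hh := R.hh
  obtain ⟨a1, a2, a3, a4, a5, a6⟩ := CN_abs c2
  obtain ⟨b1, b2, b3, b4, b5, b6⟩ := CN_abs c1
  have w := (plw (R.box z) h12 a1 a2 (by omega)).1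
  obtain ⟨d, rfl⟩ := Nat.exists_eq_add_of_le h12
  rcases contN w (fun s _ h4 h5 => R.CN_e O (by omega) h5) c1 d (le_refl _) with h6 | ⟨-, h6⟩
  · exact absurd a3 (not_lt.mpr h6)
  · have hg := R.gc z (s₁ + 1) d (by omega)
    rw [show s₁ + 1 + d = s₁ + d + 1 by ring] at hg
    have := sq_win (x := -(WW (fun s => c s z) (s₁ + d + 1) - WW (fun s => c s z) (s₁ + 1)))
      (by rw [neg_sq]; exact hg) (by
      change 0 < (Pp h (fun s => c s z) e (p z) (s₁ + d)).2 at a3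
      change (Pp h (fun s => c s z) e (p z) s₁).2 ≤ 2 at b6
      omega)
    omega

theorem card_diam {A : Finset ℕ} {m : ℕ} (h : ∀ a ∈ A, ∀ b ∈ A, a ≤ b → b ≤ a + m) :
    A.card ≤ m + 1 := by
  rcases A.eq_empty_or_nonempty with rfl | hA
  · simp
  · have : A ⊆ Icc (A.min' hA) (A.min' hA + m) := by
      intro a ha
      rw [mem_Icc]
      exact ⟨A.min'_le a ha, h _ (A.min'_mem hA) a ha (A.min'_le a ha)⟩
    have := card_le_card this
    rw [Nat.card_Icc] at this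
    omega

open Classical in
/-- few dodging moves -/
theorem Run.dodge (R : Run h N K k T c p e md L τ) (O : Ok h N K k c p e t) (hT : t ≤ T)
    {u v : ℕ} (huv : u ≤ v) (hv : v ≤ t) (hw : v ≤ u + 4 * Fe N K) :
    ((Ico u v).filter fun s => e s ≠ md s).card ≤ dl N K := by
  obtain ⟨n1, n2, n3, n4, n5⟩ := nums (K := K) R.hN
  have hh := R.hh
  have hnear := R.near u (by omega) (O.mono (by omega : u ≤ t)).tube
  set Zn := univ.filter fun z => Near (10 * Fe N K) (tr h (fun s => c s z) e (p z) u) with hZn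
  have sub : ((Ico u v).filter fun s => e s ≠ md s) ⊆ Zn.biUnion (fun z =>
      ((Ico u v).filter fun s => CE (PP h c e p s z)) ∪
      ((Ico u v).filter fun s => CN (PP h c e p s z))) := by
    intro s hs
    rw [mem_filter, mem_Ico] at hs
    obtain ⟨⟨hs1, hs2⟩, hs3⟩ := hs
    have hns : ¬ Safe h (md s) (PP h c e p s) := fun hc => hs3 (R.he1 s hc)
    unfold Safe at hns
    push Not at hns
    obtain ⟨z, hz⟩ := hns
    have hb : PP h c e p s z ∈ Box h := Pp_box (R.box z) s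
    have h0 := (R.ne0 (O.mono (by omega : s ≤ t)) z).2
    have hpg := O.pg s (by omega) z
    have h11 : PP h c e p s z ≠ (1, 1) := by
      intro hc; apply hpg; rw [hc]; unfold InB; simp only; omega
    have hcc : CE (PP h c e p s z) ∨ CN (PP h c e p s z) := by
      cases hm : md s
      · right; rw [hm] at hz; exact unsN hb R.h3 h0 h11 (not_le.mpr hz)
      · left; rw [hm] at hz; exact unsE hb R.h3 h0 h11 (not_le.mpr hz)
    have hzZ : z ∈ Zn := by
      rw [hZn, mem_filter]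
      refine ⟨mem_univ _, ?_⟩
      have habs : |(PP h c e p s z).1| ≤ 2 ∧ |(PP h c e p s z).2| ≤ 2 := by
        rcases hcc with hcc | hcc
        · exact ⟨(CE_abs hcc).1, (CE_abs hcc).2.1⟩
        · exact ⟨(CN_abs hcc).1, (CN_abs hcc).2.1⟩
      obtain ⟨w1, w2⟩ := plw (R.box z) hs1 habs.1 habs.2 (by omega)
      have w3 := w2 u (le_refl _) hs1
      have hz2 := zm_abs (c u z) (tr h (fun s => c s z) e (p z) u)
      have e1 : zm (c u z) (tr h (fun s => c s z) e (p z) u) = Pp h (fun s => c s z) e (p z) u := rfl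
      rw [e1] at hz2
      refine ⟨?_, ?_, ?_⟩
      · rcases hcc with hcc | hcc
        · left
          have := (w1.back1 (CE_abs hcc).2.2.1 (s - u) u (by omega) (le_refl _)).1
          rw [← e1] at this
          rcases zm_cases (c u z) (tr h (fun s => c s z) e (p z) u) with ⟨h', -⟩ | ⟨h', -⟩ <;>
          rw [h'] at this <;>
          rcases sign_cases (tr h (fun s => c s z) e (p z) u).1 with ⟨h1, h2⟩ | ⟨h1, h2⟩ | ⟨h1, h2⟩ <;>
          simp only [h2] at this <;> omega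
        · right
          have := (w1.back2 (CN_abs hcc).2.2.1 (s - u) u (by omega) (le_refl _)).1
          rw [← e1] at this
          rcases zm_cases (c u z) (tr h (fun s => c s z) e (p z) u) with ⟨h', -⟩ | ⟨h', -⟩ <;>
          rw [h'] at this <;>
          rcases sign_cases (tr h (fun s => c s z) e (p z) u).2 with ⟨h1, h2⟩ | ⟨h1, h2⟩ | ⟨h1, h2⟩ <;>
          simp only [h2] at this <;> omega
      · have := hz2.2.2.1; push_cast; omega
      · have := hz2.2.2.2; push_cast; omega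
    rw [mem_biUnion]
    refine ⟨z, hzZ, ?_⟩
    rw [mem_union, mem_filter, mem_filter, mem_Ico]
    tauto
  have hcE : ∀ z, ((Ico u v).filter fun s => CE (PP h c e p s z)).card ≤ K + 4 + 1 := by
    intro z
    apply card_diam
    intro a ha b hb hab
    rw [mem_filter, mem_Ico] at ha hb
    exact R.diamE O hT hab (by omega) (by omega) ha.2 hb.2
  have hcN : ∀ z, ((Ico u v).filter fun s => CN (PP h c e p s z)).card ≤ K + 4 + 1 := by
    intro z
    apply card_diam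
    intro a ha b hb hab
    rw [mem_filter, mem_Ico] at ha hb
    exact R.diamN O hT hab (by omega) (by omega) ha.2 hb.2
  calc ((Ico u v).filter fun s => e s ≠ md s).card ≤ _ := card_le_card sub
    _ ≤ ∑ z ∈ Zn, (((Ico u v).filter fun s => CE (PP h c e p s z)) ∪
      ((Ico u v).filter fun s => CN (PP h c e p s z))).card := card_biUnion_le
    _ ≤ ∑ z ∈ Zn, (2 * (K + 5)) := by
      apply sum_le_sum
      intro z _
      refine (card_union_le _ _).trans ?_
      have := hcE z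
      have := hcN z
      omega
    _ = Zn.card * (2 * (K + 5)) := by rw [sum_const, smul_eq_mul]
    _ ≤ N * (2 * (K + 5)) := Nat.mul_le_mul_right _ hnear.le
    _ = dl N K := by unfold dl; ring

end Pool.Agent.Helper5K9.ZN.Lo
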