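import Pool.Agent.Helper5K9.ZN.Run

/-!
# Runs of the strategy: control of the difference, lanes
-/

set_option autoImplicit false

namespace Pool.Agent.Helper5K9.ZN.Lo

open Finset

variable {h N K k T : ℕ} {c : ℕ → Fin k → Bool} {p : Fin k → ℤ × ℤ} {e md : ℕ → Bool}
  {L : ℕ → ℤ} {τ : ℕ → ℕ} {t : ℕ}

theorem WW_lip (e : ℕ → Bool) (u d : ℕ) : |WW e (u + d) - WW e u| ≤ d := by
  induction d with
  | zero => simp
  | succ d ih =>
    rw [← Nat.add_assoc, WW_succ]
    have : sgn (e (u + d)) = 1 ∨ sgn (e (u + d)) = -1 := by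
      cases e (u + d) <;> simp [sgn]
    rw [abs_le] at *
    push_cast
    rcases this with h | h <;> rw [h] <;> constructor <;> linarith [ih.1, ih.2]

theorem WW_lip' (e : ℕ → Bool) {u v : ℕ} (h : u ≤ v) : |WW e v - WW e u| ≤ (v : ℤ) - u := by
  obtain ⟨d, rfl⟩ := Nat.exists_eq_add_of_le h
  have := WW_lip e u d
  push_cast; linarith

open Classical in
theorem WW_modeE {e md : ℕ → Bool} {u v : ℕ} (huv : u ≤ v)
    (hm : ∀ s, u ≤ s → s < v → md s = true) :
    WW e v = WW e u + ((v : ℤ) - u) - 2 * ((Ico u v).filter fun s => e s ≠ md s).card := by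
  induction v, huv using Nat.le_induction with
  | base => simp
  | succ v hv ih =>
    have h1 := hm v hv (by omega)
    have h2 : Ico u (v + 1) = insert v (Ico u v) := by
      ext x; simp only [mem_Ico, mem_insert]; omega
    rw [WW_succ, ih (fun s a b => hm s a (by omega)), h2, filter_insert, h1]
    cases he : e v
    · rw [if_pos (by simp), card_insert_of_notMem (by simp)]
      simp only [sgn]; push_cast; simp; ring
    · rw [if_neg (by simp)]
      simp only [sgn]; push_cast; simp; ring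

open Classical in
theorem WW_modeN {e md : ℕ → Bool} {u v : ℕ} (huv : u ≤ v)
    (hm : ∀ s, u ≤ s → s < v → md s = false) :
    WW e v = WW e u - ((v : ℤ) - u) + 2 * ((Ico u v).filter fun s => e s ≠ md s).card := by
  induction v, huv using Nat.le_induction with
  | base => simp
  | succ v hv ih =>
    have h1 := hm v hv (by omega)
    have h2 : Ico u (v + 1) = insert v (Ico u v) := by
      ext x; simp only [mem_Ico, mem_insert]; omega
    rw [WW_succ, ih (fun s a b => hm s a (by omega)), h2, filter_insert, h1]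
    cases he : e v
    · rw [if_neg (by simp)]
      simp only [sgn]; push_cast; simp; ring
    · rw [if_pos (by simp), card_insert_of_notMem (by simp)]
      simp only [sgn]; push_cast; simp; ring

theorem Run.mE (R : Run h N K k T c p e md L τ) (O : Ok h N K k c p e t) (hT : t ≤ T)
    {u v : ℕ} (huv : u ≤ v) (hv : v ≤ t) (hw : v ≤ u + 4 * Fe N K)
    (hm : ∀ s, u ≤ s → s < v → md s = true) :
    WW e u + ((v : ℤ) - u) - 2 * dl N K ≤ WW e v ∧ WW e v ≤ WW e u + ((v : ℤ) - u) := by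
  have h1 := WW_modeE (e := e) huv hm
  have h2 : (_ : ℤ) ≤ dl N K := Nat.cast_le.mpr (R.dodge O hT huv hv hw)
  constructor
  · rw [h1]; linarith
  · rw [h1]; linarith [Nat.cast_nonneg (α := ℤ) ((Ico u v).filter fun s => e s ≠ md s).card]

theorem Run.mN (R : Run h N K k T c p e md L τ) (O : Ok h N K k c p e t) (hT : t ≤ T)
    {u v : ℕ} (huv : u ≤ v) (hv : v ≤ t) (hw : v ≤ u + 4 * Fe N K)
    (hm : ∀ s, u ≤ s → s < v → md s = false) :
    WW e v ≤ WW e u - ((v : ℤ) - u) + 2 * dl N K ∧ WW e u - ((v : ℤ) - u) ≤ WW e v := by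
  have h1 := WW_modeN (e := e) huv hm
  have h2 : (_ : ℤ) ≤ dl N K := Nat.cast_le.mpr (R.dodge O hT huv hv hw)
  constructor
  · rw [h1]; linarith
  · rw [h1]; linarith [Nat.cast_nonneg (α := ℤ) ((Ico u v).filter fun s => e s ≠ md s).card]

/-- pigeonhole -/
theorem pigeon {N : ℕ} {A : Finset (Fin k)} (hA : A.card < N) (B : Fin k → ℕ → Prop)
    (hB : ∀ z i j, B z i → B z j → i < j → False) (hBA : ∀ z i, B z i → z ∈ A) :
    ∃ i < N, ∀ z, ¬ B z i := by
  classical
  by_contra hc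
  push Not at hc
  have hne : N = 0 ∨ Nonempty (Fin k) := by
    rcases Nat.eq_zero_or_pos N with h0 | h0
    · left; exact h0
    · right; obtain ⟨z, -⟩ := hc 0 h0; exact ⟨z⟩
  rcases hne with h0 | hne
  · subst h0; exact absurd hA (Nat.not_lt_zero _)
  choose! f hf using hc
  obtain ⟨i, hi, j, hj, hij, he⟩ := exists_ne_map_eq_of_card_lt_of_maps_to (s := range N) (t := A)
    (f := f) (by rwa [card_range]) (fun i hi => hBA _ i (hf i (mem_range.mp hi)))
  have h1 := hf i (mem_range.mp hi)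
  have h2 := hf j (mem_range.mp hj)
  rw [he] at h1
  rcases lt_or_gt_of_ne hij with h3 | h3
  · exact hB _ _ _ h1 h2 h3
  · exact hB _ _ _ h2 h1 h3

/-- zombies in the north-east and not far are in the near set -/
theorem Run.inNear (R : Run h N K k T c p e md L τ) (z : Fin k) (t : ℕ)
    (h1 : 0 < (PP h c e p t z).1) (h2 : 0 < (PP h c e p t z).2)
    (h3 : ZN.L1 (PP h c e p t z) ≤ 5 * Fe N K) :
    Near (10 * Fe N K) (tr h (fun s => c s z) e (p z) t) := by
  obtain ⟨n1, n2, n3, n4, n5⟩ := nums (K := K) R.hN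
  rw [L1_pos h1 h2] at h3
  have hz := zm_abs (c t z) (tr h (fun s => c s z) e (p z) t)
  have e1 : zm (c t z) (tr h (fun s => c s z) e (p z) t) = PP h c e p t z := rfl
  rw [e1, abs_of_pos h1, abs_of_pos h2] at hz
  refine ⟨?_, ?_, ?_⟩
  · left
    rw [← e1] at h1
    rcases zm_cases (c t z) (tr h (fun s => c s z) e (p z) t) with ⟨h', -⟩ | ⟨h', -⟩ <;>
      rw [h'] at h1 <;>
      rcases sign_cases (tr h (fun s => c s z) e (p z) t).1 with ⟨a, b⟩ | ⟨a, b⟩ | ⟨a, b⟩ <;>
      simp only [b] at h1 <;> omega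
  · have := hz.2.2.1; push_cast; omega
  · have := hz.2.2.2; push_cast; omega

open Classical in
theorem Run.lane (R : Run h N K k T c p e md L τ) (O : Ok h N K k c p e t) (hT : t ≤ T) {j : ℕ}
    (hj : j * Fe N K ≤ t) : ∃ i < N, L (j + 1) = (i : ℤ) * Sp N K ∧
      LaneOK N K (PP h c e p (j * Fe N K)) (WW e (j * Fe N K)) i := by
  obtain ⟨n1, n2, n3, n4, n5⟩ := nums (K := K) R.hN
  have hN := R.hN
  have hnear := R.near _ (hj.trans hT) (O.mono hj).tube
  have ex : ∃ i < N, LaneOK N K (PP h c e p (j * Fe N K)) (WW e (j * Fe N K)) i := by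
    obtain ⟨i, hi, h1⟩ := pigeon hnear (fun z i => 0 < (PP h c e p (j * Fe N K) z).1 ∧
      0 < (PP h c e p (j * Fe N K) z).2 ∧ ZN.L1 (PP h c e p (j * Fe N K) z) ≤ 5 * Fe N K ∧
      |(PP h c e p (j * Fe N K) z).1 - (PP h c e p (j * Fe N K) z).2 + WW e (j * Fe N K) -
        i * Sp N K| ≤ (QQ1 N K : ℤ)) (by
        rintro z i i' ⟨-, -, -, a⟩ ⟨-, -, -, b⟩ hii
        rw [abs_le] at a b
        have h5 : (i : ℤ) + 1 ≤ i' := by exact_mod_cast hii
        have h6 : (Sp N K : ℤ) = 31 * (N * lm N K) := by unfold Sp; push_cast; ring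
        have h7 : (QQ1 N K : ℤ) = 15 * (N * lm N K) := by unfold QQ1; push_cast; ring
        have h8 : 0 < (N * lm N K : ℤ) := by
          have : 0 < N * lm N K := Nat.mul_pos (by omega) (by omega)
          exact_mod_cast this
        rw [h6, h7] at a b
        nlinarith) (by
        rintro z i ⟨a, b, c', -⟩
        rw [mem_filter]
        exact ⟨mem_univ _, R.inNear z _ a b c'⟩)
    refine ⟨i, hi, fun z a b c' => ?_⟩
    by_contra hc
    exact h1 z ⟨a, b, c', not_lt.mp hc⟩
  obtain ⟨i, hi, h1⟩ := ex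
  refine ⟨_, lt_of_le_of_lt (Nat.sInf_le h1) hi, R.L1 j, Nat.sInf_mem (s := {i : ℕ | LaneOK N K (PP h c e p (j * Fe N K))
    (WW e (j * Fe N K)) i}) ⟨i, h1⟩⟩

open Classical in
theorem Run.gap (R : Run h N K k T c p e md L τ) (O : Ok h N K k c p e t) (hT : t ≤ T) {j : ℕ}
    (hj : j * Fe N K ≤ t) : ∃ i < N, τ j = j * Fe N K + gp N K i ∧
      GapOK N K (PP h c e p (j * Fe N K)) i := by
  obtain ⟨n1, n2, n3, n4, n5⟩ := nums (K := K) R.hN
  have hN := R.hN
  have hnear := R.near _ (hj.trans hT) (O.mono hj).tube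
  have ex : ∃ i < N, GapOK N K (PP h c e p (j * Fe N K)) i := by
    obtain ⟨i, hi, h1⟩ := pigeon hnear (fun z i => 0 < (PP h c e p (j * Fe N K) z).1 ∧
      0 < (PP h c e p (j * Fe N K) z).2 ∧ ZN.L1 (PP h c e p (j * Fe N K) z) ≤ 5 * Fe N K ∧
      (2 * gp N K i : ℤ) ≤ ZN.L1 (PP h c e p (j * Fe N K) z) ∧
      ZN.L1 (PP h c e p (j * Fe N K) z) ≤ 2 * ((gp N K i : ℤ) + Gg N K + Bb N K)) (by
        rintro z i i' ⟨-, -, -, -, a⟩ ⟨-, -, -, b, -⟩ hii
        have h5 : gp N K i + (Gg N K + Bb N K + lm N K) ≤ gp N K i' := by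
          unfold gp
          have := Nat.mul_le_mul_right (Gg N K + Bb N K + lm N K) (Nat.succ_le_of_lt hii)
          rw [Nat.succ_mul] at this
          exact this
        have h6 : (gp N K i : ℤ) + (Gg N K + Bb N K + lm N K) ≤ gp N K i' := by exact_mod_cast h5
        have h7 : (0 : ℤ) < lm N K := by exact_mod_cast (by omega : 0 < lm N K)
        linarith) (by
        rintro z i ⟨a, b, c', -⟩
        rw [mem_filter]
        exact ⟨mem_univ _, R.inNear z _ a b c'⟩)
    refine ⟨i, hi, fun z a b c' => ?_⟩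
    by_contra hc
    push Not at hc
    exact h1 z ⟨a, b, c', by exact_mod_cast hc.1, hc.2⟩
  obtain ⟨i, hi, h1⟩ := ex
  refine ⟨_, lt_of_le_of_lt (Nat.sInf_le h1) hi, R.T1 j, Nat.sInf_mem (s := {i : ℕ | GapOK N K (PP h c e p (j * Fe N K)) i}) ⟨i, h1⟩⟩

theorem lane_bd {N K i : ℕ} (hi : i < N) : (0 : ℤ) ≤ (i : ℤ) * Sp N K ∧
    (i : ℤ) * Sp N K ≤ 31 * N ^ 2 * lm N K - 31 * N * lm N K := by
  have h6 : (Sp N K : ℤ) = 31 * (N * lm N K) := by unfold Sp; push_cast; ring
  have h5 : (i : ℤ) + 1 ≤ N := by exact_mod_cast hi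
  have h8 : 0 ≤ (N * lm N K : ℤ) := by positivity
  constructor
  · positivity
  · rw [h6]; nlinarith

/-- the lanes -/
theorem Run.Lbd (R : Run h N K k T c p e md L τ) (O : Ok h N K k c p e t) (hT : t ≤ T) {j : ℕ}
    (hj : j = 0 ∨ (j - 1) * Fe N K ≤ t) : 0 ≤ L j ∧ L j ≤ 31 * N ^ 2 * lm N K - 31 * N * lm N K := by
  have hN : (1 : ℤ) ≤ N := by exact_mod_cast R.hN
  have h8 : 0 ≤ (lm N K : ℤ) := by positivity
  cases j with
  | zero =>
    rw [R.L0]
    refine ⟨le_refl _, ?_⟩
    have : (0 : ℤ) ≤ 31 * (N * (N - 1)) * lm N K := by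
      apply mul_nonneg _ h8
      nlinarith
    nlinarith
  | succ j =>
    obtain ⟨i, hi, h1, -⟩ := R.lane O hT (j := j) (by rcases hj with h | h; omega; simpa using h)
    rw [h1]
    exact lane_bd hi

/-- one block -/
theorem Run.block (R : Run h N K k T c p e md L τ) (O : Ok h N K k c p e t) (hT : t ≤ T) {b : ℕ}
    (hb : lm N K ∣ b) {w : ℕ} (hw : w ≤ lm N K) (hwt : b + w ≤ t) {x : ℤ}
    (hx : x = if b < τ (b / Fe N K) then L (b / Fe N K) else L (b / Fe N K + 1)) :
    (WW e b ≤ x ∧ WW e b + w - 2 * dl N K ≤ WW e (b + w) ∧ WW e (b + w) ≤ WW e b + w) ∨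
    (x < WW e b ∧ WW e (b + w) ≤ WW e b - w + 2 * dl N K ∧ WW e b - w ≤ WW e (b + w)) := by
  obtain ⟨n1, n2, n3, n4, n5⟩ := nums (K := K) R.hN
  have h0 := R.mdE b hb
  rw [← hx] at h0
  cases hm : md b
  · right
    have h1 := R.mN O hT (u := b) (v := b + w) (by omega) hwt (by omega) (fun s a b' => by
      have := R.blk b (s - b) hb (by omega)
      rw [show b + (s - b) = s by omega] at this
      rw [this, hm])
    rw [hm] at h0
    push_cast at h1
    refine ⟨?_, by linarith [h1.1], by linarith [h1.2]⟩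
    by_contra hc
    have := h0.mpr (not_lt.mp hc)
    simp at this
  · left
    have h1 := R.mE O hT (u := b) (v := b + w) (by omega) hwt (by omega) (fun s a b' => by
      have := R.blk b (s - b) hb (by omega)
      rw [show b + (s - b) = s by omega] at this
      rw [this, hm])
    push_cast at h1
    exact ⟨h0.mp hm, by linarith [h1.1], by linarith [h1.2]⟩

end Pool.Agent.Helper5K9.ZN.Lo
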