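import Pool.Agent.Helper5K9.ZN.Run2

/-!
# Runs of the strategy: the invariants
-/

set_option autoImplicit false

namespace Pool.Agent.Helper5K9.ZN.Lo

open Finset

variable {h N K k T : ℕ} {c : ℕ → Fin k → Bool} {p : Fin k → ℤ × ℤ} {e md : ℕ → Bool}
  {L : ℕ → ℤ} {τ : ℕ → ℕ} {t : ℕ}

/-- more numerical facts -/
theorem nums2 {N K : ℕ} (hN : 1 ≤ N) : lm N K ≤ N * lm N K ∧ N * lm N K ≤ N ^ 2 * lm N K ∧
    N ^ 2 * lm N K ≤ N ^ 3 * lm N K ∧ Fe N K = 600 * (N ^ 3 * lm N K) ∧
    Sp N K = 31 * (N * lm N K) ∧ QQ1 N K = 15 * (N * lm N K) ∧ Gg N K = 70 * (N ^ 2 * lm N K) := by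
  refine ⟨?_, ?_, ?_, ?_, ?_, ?_, ?_⟩
  · nlinarith [Nat.zero_le (lm N K)]
  · apply Nat.mul_le_mul_right; nlinarith
  · apply Nat.mul_le_mul_right; nlinarith [Nat.zero_le (N ^ 2)]
  · unfold Fe; ring
  · unfold Sp; ring
  · unfold QQ1; ring
  · unfold Gg; ring

theorem gp_le {N K i : ℕ} (hN : 1 ≤ N) (hi : i < N) : gp N K i + Gg N K ≤ Fe N K := by
  obtain ⟨m1, m2, m3, m4, m5, m6, m7⟩ := nums2 (K := K) hN
  have h1 : gp N K i ≤ N * (Gg N K + Bb N K + lm N K) := Nat.mul_le_mul_right _ hi.le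
  have h2 : N * (Gg N K + Bb N K + lm N K) = 70 * (N ^ 3 * lm N K) + 11 * (N * lm N K) := by
    unfold Gg Bb; ring
  omega

theorem lm_dvd_Fe (N K : ℕ) : lm N K ∣ Fe N K := ⟨600 * N ^ 3, by unfold Fe; ring⟩
theorem lm_dvd_Gg (N K : ℕ) : lm N K ∣ Gg N K := ⟨70 * N ^ 2, by unfold Gg; ring⟩
theorem lm_dvd_gp (N K i : ℕ) : lm N K ∣ gp N K i :=
  ⟨i * (70 * N ^ 2 + 10 + 1), by unfold gp Gg Bb; ring⟩

theorem Run.lm_dvd_τ (R : Run h N K k T c p e md L τ) (j : ℕ) : lm N K ∣ τ j := by
  rw [R.T1 j]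
  exact Nat.dvd_add (Dvd.dvd.mul_left (lm_dvd_Fe N K) j) (lm_dvd_gp N K _)

/-- bounds at the beginnings of the blocks -/
theorem Run.Dblk (R : Run h N K k T c p e md L τ) (O : Ok h N K k c p e t) (hT : t ≤ T) (m : ℕ)
    (hm : m * lm N K ≤ t) : -(lm N K : ℤ) ≤ WW e (m * lm N K) ∧
      WW e (m * lm N K) ≤ 31 * N ^ 2 * lm N K - 31 * N * lm N K + lm N K := by
  obtain ⟨n1, n2, n3, n4, n5⟩ := nums (K := K) R.hN
  have n2' : (lm N K : ℤ) = 100 * dl N K := by exact_mod_cast n2
  induction m with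
  | zero =>
    rw [Nat.zero_mul, WW_zero]
    have := R.Lbd O hT (j := 0) (Or.inl rfl)
    rw [R.L0] at this
    constructor
    · omega
    · linarith [this.2, (by positivity : (0 : ℤ) ≤ lm N K)]
  | succ m ih =>
    rw [Nat.succ_mul] at hm ⊢
    have ih' := ih (by omega)
    set b := m * lm N K with hb
    have hj : b / Fe N K * Fe N K ≤ b := Nat.div_mul_le_self _ _
    have hx1 := R.Lbd O hT (j := b / Fe N K) (by
      right
      have : (b / Fe N K - 1) * Fe N K ≤ b / Fe N K * Fe N K :=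
        Nat.mul_le_mul_right _ (Nat.sub_le _ _)
      omega)
    have hx2 := R.Lbd O hT (j := b / Fe N K + 1) (by
      right; rw [Nat.add_sub_cancel]; exact hj.trans (by omega))
    have key := R.block O hT (b := b) ⟨m, by rw [hb]; ring⟩ (le_refl (lm N K)) hm rfl
    have hx : 0 ≤ (if b < τ (b / Fe N K) then L (b / Fe N K) else L (b / Fe N K + 1)) ∧
      (if b < τ (b / Fe N K) then L (b / Fe N K) else L (b / Fe N K + 1)) ≤
        31 * N ^ 2 * lm N K - 31 * N * lm N K := by
      split_ifs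
      · exact hx1
      · exact hx2
    generalize (if b < τ (b / Fe N K) then L (b / Fe N K) else L (b / Fe N K + 1)) = x at key hx
    have n1' : (0 : ℤ) ≤ dl N K := by positivity
    rcases key with ⟨a1, a2, a3⟩ | ⟨a1, a2, a3⟩ <;> constructor <;> linarith [hx.1, hx.2, ih'.1, ih'.2]

/-- bounds at all times -/
theorem Run.Dall (R : Run h N K k T c p e md L τ) (O : Ok h N K k c p e t) (hT : t ≤ T) (s : ℕ)
    (hs : s ≤ t + 1) : |WW e s| ≤ Fe N K := by
  obtain ⟨n1, n2, n3, n4, n5⟩ := nums (K := K) R.hN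
  obtain ⟨m1, m2, m3, m4, m5, m6, m7⟩ := nums2 (K := K) R.hN
  have key : ∀ s ≤ t, |WW e s| ≤ 31 * N ^ 2 * lm N K + lm N K := by
    intro s hs
    have h1 : s / lm N K * lm N K ≤ s := Nat.div_mul_le_self _ _
    have h2 : s < s / lm N K * lm N K + lm N K := by
      have := Nat.lt_div_mul_add (a := s) (b := lm N K) (by omega); omega
    have h3 := R.Dblk O hT (s / lm N K) (by omega)
    have h4 := WW_lip' e h1
    have m1' : (lm N K : ℤ) ≤ N * lm N K := by exact_mod_cast m1
    have h2' : (s : ℤ) < (s / lm N K * lm N K : ℕ) + lm N K := by exact_mod_cast h2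
    have h5 : (0 : ℤ) ≤ N ^ 2 * lm N K := by positivity
    rw [abs_le] at h4 ⊢
    constructor
    · linarith [h3.1, h3.2, h4.1, h4.2]
    · linarith [h3.1, h3.2, h4.1, h4.2]
  have m2' : (N : ℤ) * lm N K ≤ N ^ 2 * lm N K := by exact_mod_cast m2
  have m3' : (N : ℤ) ^ 2 * lm N K ≤ N ^ 3 * lm N K := by exact_mod_cast m3
  have m4' : (Fe N K : ℤ) = 600 * (N ^ 3 * lm N K) := by exact_mod_cast m4
  have m1' : (lm N K : ℤ) ≤ N * lm N K := by exact_mod_cast m1
  have n1' : (1 : ℤ) ≤ lm N K := by exact_mod_cast (by omega : 1 ≤ lm N K)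
  rcases Nat.lt_or_ge t s with h | h
  · have hs' : s = t + 1 := by omega
    have h1 := key t (le_refl _)
    have h2 := WW_lip e t 1
    rw [← hs'] at h2
    rw [abs_le] at *
    push_cast at h2
    constructor <;> linarith [h1.1, h1.2, h2.1, h2.2]
  · have h1 := key s h
    linarith

/-- the effective lane between the changes -/
theorem Run.cc (R : Run h N K k T c p e md L τ) (O : Ok h N K k c p e t) (hT : t ≤ T) {j b : ℕ}
    (h1 : τ j ≤ b) (h2 : b < τ (j + 1)) (hb : b ≤ t) :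
    (if b < τ (b / Fe N K) then L (b / Fe N K) else L (b / Fe N K + 1)) = L (j + 1) := by
  obtain ⟨n1, n2, n3, n4, n5⟩ := nums (K := K) R.hN
  have hF : 0 < Fe N K := by omega
  have h3 : j ≤ b / Fe N K := by
    rw [Nat.le_div_iff_mul_le hF]
    have := R.T1 j
    omega
  have h4 : b / Fe N K ≤ j + 1 := by
    by_contra hc
    push Not at hc
    have h5 : (j + 2) * Fe N K ≤ b := by
      rw [← Nat.le_div_iff_mul_le hF]; omega
    obtain ⟨i, hi, h6, -⟩ := R.gap O hT (j := j + 1) (by nlinarith)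
    have h7 := gp_le (K := K) R.hN hi
    have : (j + 2) * Fe N K = (j + 1) * Fe N K + Fe N K := by ring
    omega
  rcases Nat.lt_or_ge j (b / Fe N K) with h5 | h5
  · have h6 : b / Fe N K = j + 1 := by omega
    rw [h6, if_pos h2]
  · have h6 : b / Fe N K = j := by omega
    rw [h6, if_neg (not_lt.mpr h1)]

theorem Run.settle (R : Run h N K k T c p e md L τ) (O : Ok h N K k c p e t) (hT : t ≤ T) {j : ℕ}
    (hj : j * Fe N K ≤ t) (m : ℕ) : τ j + m * lm N K ≤ τ (j + 1) → τ j + m * lm N K ≤ t →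
    (|WW e (τ j + m * lm N K) - L (j + 1)| ≤ lm N K ∨
     |WW e (τ j + m * lm N K) - L (j + 1)| + 98 * dl N K * m ≤ 32 * N ^ 2 * lm N K) := by
  obtain ⟨n1, n2, n3, n4, n5⟩ := nums (K := K) R.hN
  obtain ⟨m1, m2, m3, m4, m5, m6, m7⟩ := nums2 (K := K) R.hN
  have n2' : (lm N K : ℤ) = 100 * dl N K := by exact_mod_cast n2
  have hL := R.Lbd O hT (j := j + 1) (by right; simpa using hj)
  have m1' : (lm N K : ℤ) ≤ N * lm N K := by exact_mod_cast m1
  have m2' : (N : ℤ) * lm N K ≤ N ^ 2 * lm N K := by exact_mod_cast m2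
  have n1' : (0 : ℤ) < dl N K := by exact_mod_cast (by omega : 0 < dl N K)
  induction m with
  | zero =>
    intro _ h2
    right
    obtain ⟨i, hi⟩ := R.lm_dvd_τ j
    have h3 := R.Dblk O hT i (by rw [Nat.mul_comm, ← hi]; omega)
    rw [Nat.mul_comm i, ← hi] at h3
    simp only [Nat.zero_mul, Nat.add_zero, Nat.cast_zero, mul_zero, add_zero]
    rw [abs_le]
    constructor <;> linarith [h3.1, h3.2, hL.1, hL.2]
  | succ m ih =>
    intro h1 h2
    rw [Nat.succ_mul, ← Nat.add_assoc] at h1 h2 ⊢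
    have ih' := ih (by omega) (by omega)
    have hcc := R.cc O hT (j := j) (b := τ j + m * lm N K) (by omega) (by omega) (by omega)
    have hd : lm N K ∣ τ j + m * lm N K := Nat.dvd_add (R.lm_dvd_τ j) (Dvd.intro_left m rfl)
    have key := R.block O hT hd (le_refl (lm N K)) h2 hcc.symm
    generalize WW e (τ j + m * lm N K) = D at *
    generalize WW e (τ j + m * lm N K + lm N K) = D' at *
    generalize L (j + 1) = x at *
    push_cast
    rcases key with ⟨a1, a2, a3⟩ | ⟨a1, a2, a3⟩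
    · rcases ih' with i1 | i1
      · left; rw [abs_le] at *; constructor <;> linarith [i1.1, i1.2]
      · by_cases h5 : |D - x| ≤ lm N K
        · left; rw [abs_le] at *; constructor <;> linarith [h5.1, h5.2]
        · right
          rw [abs_of_nonpos (by linarith)] at h5 i1
          rw [abs_of_nonpos (by linarith)]
          linarith
    · rcases ih' with i1 | i1
      · left; rw [abs_le] at *; constructor <;> linarith [i1.1, i1.2]
      · by_cases h5 : |D - x| ≤ lm N K
        · left; rw [abs_le] at *; constructor <;> linarith [h5.1, h5.2]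
        · right
          rw [abs_of_nonneg (by linarith)] at h5 i1
          rw [abs_of_nonneg (by linarith)]
          linarith

/-- settled in a lane -/
theorem Run.settled (R : Run h N K k T c p e md L τ) (O : Ok h N K k c p e t) (hT : t ≤ T) {j : ℕ}
    (hj : j * Fe N K ≤ t) (h1 : τ j + Gg N K ≤ t) (h2 : t < τ (j + 1)) :
    |WW e t - L (j + 1)| ≤ 2 * lm N K := by
  obtain ⟨n1, n2, n3, n4, n5⟩ := nums (K := K) R.hN
  have hN := R.hN
  have hl : 0 < lm N K := by omega
  -- the block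
  obtain ⟨a, ha⟩ := R.lm_dvd_τ j
  set m := (t - τ j) / lm N K with hm
  have h3 : m * lm N K ≤ t - τ j := Nat.div_mul_le_self _ _
  have h4 : t - τ j < m * lm N K + lm N K := by
    have := Nat.lt_div_mul_add (a := t - τ j) (b := lm N K) hl; omega
  have h5 : 70 * N ^ 2 ≤ m := by
    rw [hm, Nat.le_div_iff_mul_le hl]
    unfold Gg at h1
    omega
  have key := R.settle O hT hj m (by omega) (by omega)
  have h6 : |WW e (τ j + m * lm N K) - L (j + 1)| ≤ lm N K := by
    rcases key with key | key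
    · exact key
    · exfalso
      have h7 := abs_nonneg (WW e (τ j + m * lm N K) - L (j + 1))
      have n2' : (lm N K : ℤ) = 100 * dl N K := by exact_mod_cast n2
      have h5' : (70 * N ^ 2 : ℤ) ≤ m := by exact_mod_cast h5
      rw [n2'] at key
      have n1' : (0 : ℤ) < dl N K := by exact_mod_cast (by omega : 0 < dl N K)
      have h8 : (1 : ℤ) ≤ N ^ 2 := by exact_mod_cast Nat.one_le_pow _ _ hN
      have h9 : (98 : ℤ) * dl N K * (70 * N ^ 2) ≤ 98 * dl N K * m :=
        mul_le_mul_of_nonneg_left h5' (by positivity)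
      nlinarith [mul_pos n1' (by linarith : (0 : ℤ) < N ^ 2)]
  have h7 := WW_lip' e (show τ j + m * lm N K ≤ t by omega)
  have h8 : (t : ℤ) - (τ j + m * lm N K : ℕ) ≤ lm N K := by
    have : t ≤ τ j + m * lm N K + lm N K := by omega
    have : (t : ℤ) ≤ (τ j + m * lm N K : ℕ) + lm N K := by exact_mod_cast this
    linarith
  rw [abs_le] at *
  constructor <;> linarith [h6.1, h6.2, h7.1, h7.2]

/-- coins in a window -/
theorem coin_le {K T M : ℕ} {c : ℕ → Bool} (g : GC K T c) {s t : ℕ} (hst : s ≤ t) (ht : t ≤ T)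
    (hM : K * (t - s) ≤ M ^ 2) : |WW c t - WW c s| ≤ M := by
  have h1 := g s (t - s) (by omega)
  rw [show s + (t - s) = t by omega] at h1
  apply abs_le_of_sq_le_sq _ (by positivity)
  refine h1.trans ?_
  exact_mod_cast hM

theorem numW (N K : ℕ) : K * (2 * Fe N K) ≤ (3 * (N * lm N K)) ^ 2 := by
  have h7 : 200 * N * K ≤ lm N K := by unfold lm dl; nlinarith
  have h8 : K * (2 * Fe N K) = 6 * (N ^ 2 * lm N K) * (200 * N * K) := by unfold Fe; ring
  have h9 := Nat.mul_le_mul_left (6 * (N ^ 2 * lm N K)) h7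
  have h10 : (3 * (N * lm N K)) ^ 2 = 9 * (N ^ 2 * lm N K * lm N K) := by ring
  have h11 : 6 * (N ^ 2 * lm N K) * lm N K = 6 * (N ^ 2 * lm N K * lm N K) := by ring
  omega

/-- lanes are free of zombies from the north-east -/
theorem Run.laneC (R : Run h N K k T c p e md L τ) (O : Ok h N K k c p e t) (hT : t < T) {j : ℕ}
    (hj : j * Fe N K ≤ t) (hw : t ≤ j * Fe N K + 2 * Fe N K)
    (hD : |WW e t - L (j + 1)| ≤ 2 * lm N K) (z : Fin k) : ¬ InB N K (PP h c e p t z) := by
  rintro ⟨q1, q2, q3, q4⟩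
  obtain ⟨n1, n2, n3, n4, n5⟩ := nums (K := K) R.hN
  obtain ⟨m1, m2, m3, m4, m5, m6, m7⟩ := nums2 (K := K) R.hN
  have hh := R.hh
  obtain ⟨i, hi, hL, hO⟩ := R.lane O hT.le hj
  obtain ⟨w1, w2⟩ := plw (R.box z) (r := Bb N K) hj (by
    change |(PP h c e p t z).1| ≤ _; rw [abs_of_pos q1]; exact q2) (by
    change |(PP h c e p t z).2| ≤ _; rw [abs_of_pos q3]; exact q4) (by omega)
  obtain ⟨a1, a2⟩ := w1.ne q1 q3 (t - j * Fe N K) (j * Fe N K) (by omega) (le_refl _)
  have b1 := (w1.back1 q1 (t - j * Fe N K) (j * Fe N K) (by omega) (le_refl _)).1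
  have b2 := (w1.back2 q3 (t - j * Fe N K) (j * Fe N K) (by omega) (le_refl _)).1
  have hL1 : ZN.L1 (Pp h (fun s => c s z) e (p z) t) = (PP h c e p t z).1 + (PP h c e p t z).2 :=
    L1_pos q1 q3
  have h5 := hO z b1 b2 (by
    change ZN.L1 (Pp h (fun s => c s z) e (p z) (j * Fe N K)) ≤ _
    rw [a1, hL1]
    have : ((t - j * Fe N K : ℕ) : ℤ) ≤ 2 * Fe N K := by exact_mod_cast (by omega : t - j * Fe N K ≤ 2 * Fe N K)
    omega)
  have hc : |WW (fun s => c s z) (t + 1) - WW (fun s => c s z) (j * Fe N K + 1)| ≤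
      (3 * (N * lm N K) : ℕ) := by
    apply coin_le (R.gc z) (by omega) (by omega)
    have h6 : t + 1 - (j * Fe N K + 1) ≤ 2 * Fe N K := by omega
    exact (Nat.mul_le_mul_left K h6).trans (numW N K)
  change (QQ1 N K : ℤ) < |(Pp h (fun s => c s z) e (p z) (j * Fe N K)).1 -
    (Pp h (fun s => c s z) e (p z) (j * Fe N K)).2 + WW e (j * Fe N K) - i * Sp N K| at h5
  rw [a2, ← hL] at h5
  have m1' : (lm N K : ℤ) ≤ N * lm N K := by exact_mod_cast m1
  have m6' : (QQ1 N K : ℤ) = 15 * (N * lm N K) := by exact_mod_cast m6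
  have n3' : (Bb N K : ℤ) = 10 * lm N K := by exact_mod_cast (by omega : Bb N K = 10 * lm N K)
  change 0 < (Pp h (fun s => c s z) e (p z) t).1 at q1
  change (Pp h (fun s => c s z) e (p z) t).1 ≤ _ at q2
  change 0 < (Pp h (fun s => c s z) e (p z) t).2 at q3
  change (Pp h (fun s => c s z) e (p z) t).2 ≤ _ at q4
  push_cast at hc
  have n6 : (0 : ℤ) ≤ lm N K := by positivity
  clear hO w1 w2 a1 a2 b1 b2 hL1 hL hi
  generalize (N : ℤ) * lm N K = A at *
  generalize (lm N K : ℤ) = B at *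
  generalize (QQ1 N K : ℤ) = Q at *
  generalize (Bb N K : ℤ) = B' at *
  generalize WW e t = D at *
  generalize L (j + 1) = x at *
  generalize WW (fun s => c s z) (t + 1) - WW (fun s => c s z) (j * Fe N K + 1) = W at *
  generalize (Pp h (fun s => c s z) e (p z) t).1 = y1 at *
  generalize (Pp h (fun s => c s z) e (p z) t).2 = y2 at *
  rw [abs_le] at hc hD
  apply absurd h5
  rw [not_lt, abs_le]
  constructor <;> linarith [hc.1, hc.2, hD.1, hD.2]

/-- no zombies from the north-east nearby -/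
theorem Run.pg (R : Run h N K k T c p e md L τ) (O : Ok h N K k c p e t) (hT : t < T)
    (z : Fin k) : ¬ InB N K (PP h c e p t z) := by
  intro hq
  obtain ⟨q1, q2, q3, q4⟩ := hq
  obtain ⟨n1, n2, n3, n4, n5⟩ := nums (K := K) R.hN
  have hh := R.hh
  have hF : 0 < Fe N K := by omega
  have he := R.early (t := t) (z := z) (r := Bb N K) (by omega) (by rw [abs_of_pos q1]; exact q2)
    (by rw [abs_of_pos q3]; exact q4)
  obtain ⟨j, hj⟩ : ∃ j, t / Fe N K = j + 1 := ⟨t / Fe N K - 1, by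
    have : 1 ≤ t / Fe N K := by rw [Nat.le_div_iff_mul_le hF]; omega
    omega⟩
  have h1 : (j + 1) * Fe N K ≤ t := by rw [← hj]; exact Nat.div_mul_le_self _ _
  have h2 : t < (j + 1) * Fe N K + Fe N K := by
    have := Nat.lt_div_mul_add (a := t) hF; rw [hj] at this; omega
  have h3 : (j + 1) * Fe N K = j * Fe N K + Fe N K := by ring
  have h4 : (j + 1 + 1) * Fe N K = (j + 1) * Fe N K + Fe N K := by ring
  have hτ2 := R.T1 (j + 1 + 1)
  obtain ⟨i, hi, hτ, hgap⟩ := R.gap O hT.le h1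
  obtain ⟨i', hi', hτ', -⟩ := R.gap O hT.le (j := j) (by omega)
  have g1 := gp_le (K := K) R.hN hi
  have g2 := gp_le (K := K) R.hN hi'
  rcases Nat.lt_or_ge t (τ (j + 1)) with c1 | c1
  · exact R.laneC O hT (j := j) (by omega) (by omega)
      (R.settled O hT.le (by omega) (by omega) c1) z ⟨q1, q2, q3, q4⟩
  · rcases Nat.lt_or_ge t (τ (j + 1) + Gg N K) with c2 | c2
    · -- gap
      obtain ⟨w1, w2⟩ := plw (R.box z) (r := Bb N K) h1 (by
        change |(PP h c e p t z).1| ≤ _; rw [abs_of_pos q1]; exact q2) (by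
        change |(PP h c e p t z).2| ≤ _; rw [abs_of_pos q3]; exact q4) (by omega)
      obtain ⟨a1, a2⟩ := w1.ne q1 q3 (t - (j + 1) * Fe N K) ((j + 1) * Fe N K) (by omega) (le_refl _)
      have b1 := (w1.back1 q1 (t - (j + 1) * Fe N K) ((j + 1) * Fe N K) (by omega) (le_refl _)).1
      have b2 := (w1.back2 q3 (t - (j + 1) * Fe N K) ((j + 1) * Fe N K) (by omega) (le_refl _)).1
      have hL1 : ZN.L1 (Pp h (fun s => c s z) e (p z) t) = (PP h c e p t z).1 + (PP h c e p t z).2 :=
        L1_pos q1 q3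
      rw [hL1] at a1
      have h5 := hgap z b1 b2 (by
        change ZN.L1 (Pp h (fun s => c s z) e (p z) ((j + 1) * Fe N K)) ≤ _
        rw [a1]
        have : ((t - (j + 1) * Fe N K : ℕ) : ℤ) ≤ Fe N K := by
          exact_mod_cast (by omega : t - (j + 1) * Fe N K ≤ Fe N K)
        omega)
      change ZN.L1 (Pp h (fun s => c s z) e (p z) ((j + 1) * Fe N K)) < _ ∨
        _ < ZN.L1 (Pp h (fun s => c s z) e (p z) ((j + 1) * Fe N K)) at h5
      rw [a1] at h5
      have e1 : ((t - (j + 1) * Fe N K : ℕ) : ℤ) = t - (τ (j + 1) : ℤ) + gp N K i := by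
        rw [Nat.cast_sub h1, hτ]; push_cast; ring
      rw [e1] at h5
      have c1' : (τ (j + 1) : ℤ) ≤ t := by exact_mod_cast c1
      have c2' : (t : ℤ) < τ (j + 1) + Gg N K := by exact_mod_cast c2
      rcases h5 with h5 | h5
      · linarith
      · linarith
    · exact R.laneC O hT (j := j + 1) h1 (by omega)
        (R.settled O hT.le h1 c2 (by omega)) z ⟨q1, q2, q3, q4⟩

theorem Run.noCE (R : Run h N K k T c p e md L τ) (O : Ok h N K k c p e t) (hT : t < T)
    {s : ℕ} (hs : s ≤ t) (hw : t ≤ s + 120 * dl N K) (hD : WW e t + 18 * dl N K ≤ WW e s)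
    (z : Fin k) : ¬ CE (PP h c e p t z) := by
  intro hz
  obtain ⟨n1, n2, n3, n4, n5⟩ := nums (K := K) R.hN
  have hh := R.hh
  obtain ⟨a1, a2, a3, a4, a5, a6⟩ := CE_abs hz
  obtain ⟨w1, w2⟩ := plw (R.box z) hs a1 a2 (by omega)
  have hE : ∀ s', s ≤ s' → s' ≤ t → 0 < (Pp h (fun s => c s z) e (p z) s').1 ∧
      (Pp h (fun s => c s z) e (p z) s').2 ≤ 0 := by
    intro s' h1 h2
    have b1 := w1.back1 a3 (t - s') s' (by omega) h1
    refine ⟨b1.1, ?_⟩
    by_contra hc
    push Not at hc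
    rcases Nat.eq_or_lt_of_le h2 with h3 | h3
    · subst h3; exact absurd hc (not_lt.mpr a4)
    · have h4 := w2 s' h1 h2
      rw [abs_of_pos b1.1, abs_of_pos hc] at h4
      exact O.pg s' h3 z ⟨b1.1, by change (Pp h (fun s => c s z) e (p z) s').1 ≤ _; omega, hc,
        by change (Pp h (fun s => c s z) e (p z) s').2 ≤ _; omega⟩
  obtain ⟨d, rfl⟩ := Nat.exists_eq_add_of_le hs
  have key := w1.driftE hE d (le_refl _)
  have hc := coin_le (M := 8 * dl N K) (R.gc z) (s := s + 1) (t := s + d + 1) (by omega) (by omega) (by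
    have h6 : s + d + 1 - (s + 1) ≤ 120 * dl N K := by omega
    refine (Nat.mul_le_mul_left K h6).trans ?_
    nlinarith [Nat.mul_le_mul_right (dl N K) n5, Nat.zero_le (dl N K * dl N K)])
  have h0 := (hE s (le_refl _) (by omega)).2
  have a5' : -1 ≤ (Pp h (fun s => c s z) e (p z) (s + d)).2 := a5
  rw [abs_le] at hc
  push_cast at hc
  have n1' : (10 : ℤ) ≤ dl N K := by exact_mod_cast n1
  linarith [hc.1, hc.2]

theorem Run.noCN (R : Run h N K k T c p e md L τ) (O : Ok h N K k c p e t) (hT : t < T)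
    {s : ℕ} (hs : s ≤ t) (hw : t ≤ s + 120 * dl N K) (hD : WW e s + 18 * dl N K ≤ WW e t)
    (z : Fin k) : ¬ CN (PP h c e p t z) := by
  intro hz
  obtain ⟨n1, n2, n3, n4, n5⟩ := nums (K := K) R.hN
  have hh := R.hh
  obtain ⟨a1, a2, a3, a4, a5, a6⟩ := CN_abs hz
  obtain ⟨w1, w2⟩ := plw (R.box z) hs a1 a2 (by omega)
  have hE : ∀ s', s ≤ s' → s' ≤ t → 0 < (Pp h (fun s => c s z) e (p z) s').2 ∧
      (Pp h (fun s => c s z) e (p z) s').1 ≤ 0 := by
    intro s' h1 h2
    have b1 := w1.back2 a3 (t - s') s' (by omega) h1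
    refine ⟨b1.1, ?_⟩
    by_contra hc
    push Not at hc
    rcases Nat.eq_or_lt_of_le h2 with h3 | h3
    · subst h3; exact absurd hc (not_lt.mpr a4)
    · have h4 := w2 s' h1 h2
      rw [abs_of_pos b1.1, abs_of_pos hc] at h4
      exact O.pg s' h3 z ⟨hc, by change (Pp h (fun s => c s z) e (p z) s').1 ≤ _; omega, b1.1,
        by change (Pp h (fun s => c s z) e (p z) s').2 ≤ _; omega⟩
  obtain ⟨d, rfl⟩ := Nat.exists_eq_add_of_le hs
  have key := w1.driftN hE d (le_refl _)
  have hc := coin_le (M := 8 * dl N K) (R.gc z) (s := s + 1) (t := s + d + 1) (by omega) (by omega) (by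
    have h6 : s + d + 1 - (s + 1) ≤ 120 * dl N K := by omega
    refine (Nat.mul_le_mul_left K h6).trans ?_
    nlinarith [Nat.mul_le_mul_right (dl N K) n5, Nat.zero_le (dl N K * dl N K)])
  have h0 := (hE s (le_refl _) (by omega)).2
  have a5' : -1 ≤ (Pp h (fun s => c s z) e (p z) (s + d)).1 := a5
  rw [abs_le] at hc
  push_cast at hc
  have n1' : (10 : ℤ) ≤ dl N K := by exact_mod_cast n1
  linarith [hc.1, hc.2]

theorem Run.unsafe_CE (R : Run h N K k T c p e md L τ) (O : Ok h N K k c p e t) (hT : t < T)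
    (hu : ¬ Safe h true (PP h c e p t)) : ∃ z, CE (PP h c e p t z) := by
  unfold Safe at hu
  push Not at hu
  obtain ⟨z, hz⟩ := hu
  obtain ⟨n1, n2, n3, n4, n5⟩ := nums (K := K) R.hN
  refine ⟨z, unsE (Pp_box (R.box z) t) R.h3 (R.ne0 O z).2 ?_ (not_le.mpr hz)⟩
  intro hc; apply R.pg O hT z
  have hc' : PP h c e p t z = (1, 1) := hc
  rw [hc']; unfold InB; simp only; omega

theorem Run.unsafe_CN (R : Run h N K k T c p e md L τ) (O : Ok h N K k c p e t) (hT : t < T)
    (hu : ¬ Safe h false (PP h c e p t)) : ∃ z, CN (PP h c e p t z) := by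
  unfold Safe at hu
  push Not at hu
  obtain ⟨z, hz⟩ := hu
  obtain ⟨n1, n2, n3, n4, n5⟩ := nums (K := K) R.hN
  refine ⟨z, unsN (Pp_box (R.box z) t) R.h3 (R.ne0 O z).2 ?_ (not_le.mpr hz)⟩
  intro hc; apply R.pg O hT z
  have hc' : PP h c e p t z = (1, 1) := hc
  rw [hc']; unfold InB; simp only; omega

/-- the survivor is safe -/
theorem Run.safe' (R : Run h N K k T c p e md L τ) (O : Ok h N K k c p e t) (hT : t < T) :
    Safe h (e t) (PP h c e p t) := by
  obtain ⟨n1, n2, n3, n4, n5⟩ := nums (K := K) R.hN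
  have hh := R.hh
  have n2' : (lm N K : ℤ) = 100 * dl N K := by exact_mod_cast n2
  by_cases hs : Safe h (md t) (PP h c e p t)
  · rw [R.he1 t hs]; exact hs
  rw [R.he2 t hs]
  by_contra hs2
  have hEN : (∃ z, CE (PP h c e p t z)) ∧ ∃ z, CN (PP h c e p t z) := by
    cases hm : md t
    · rw [hm] at hs hs2
      exact ⟨R.unsafe_CE O hT hs2, R.unsafe_CN O hT hs⟩
    · rw [hm] at hs hs2
      exact ⟨R.unsafe_CE O hT hs, R.unsafe_CN O hT hs2⟩
  obtain ⟨⟨z, hz⟩, ⟨z', hz'⟩⟩ := hEN
  have he := R.early (t := t) (z := z) (r := 2) (by omega) (CE_abs hz).1 (CE_abs hz).2.1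
  -- constant mode
  have const : ∀ u ≤ t, t = u + 20 * dl N K → (∀ s, u ≤ s → s < t → md s = md t) → False := by
    intro u h1 h2 h3
    have h2' : (t : ℤ) = u + 20 * dl N K := by exact_mod_cast h2
    cases hm : md t
    · have := R.mN O hT.le h1 (le_refl t) (by omega) (fun s a b => by rw [h3 s a b, hm])
      exact R.noCE O hT h1 (by omega) (by linarith [this.1]) z hz
    · have := R.mE O hT.le h1 (le_refl t) (by omega) (fun s a b => by rw [h3 s a b, hm])
      exact R.noCN O hT h1 (by omega) (by linarith [this.1]) z' hz'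
  have hl : 0 < lm N K := by omega
  obtain ⟨m, hm⟩ : ∃ m, t / lm N K = m + 1 := ⟨t / lm N K - 1, by
    have : 1 ≤ t / lm N K := by rw [Nat.le_div_iff_mul_le hl]; omega
    omega⟩
  have h1 : (m + 1) * lm N K ≤ t := by rw [← hm]; exact Nat.div_mul_le_self _ _
  have h2 : t < (m + 1) * lm N K + lm N K := by
    have := Nat.lt_div_mul_add (a := t) hl; rw [hm] at this; omega
  have h3 : (m + 1) * lm N K = m * lm N K + lm N K := by ring
  have hb1 : ∀ s, (m + 1) * lm N K ≤ s → s ≤ t → md s = md ((m + 1) * lm N K) := by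
    intro s a b
    have := R.blk ((m + 1) * lm N K) (s - (m + 1) * lm N K) (Dvd.intro_left _ rfl) (by omega)
    rw [show (m + 1) * lm N K + (s - (m + 1) * lm N K) = s by omega] at this
    exact this
  have hb2 : ∀ s, m * lm N K ≤ s → s < m * lm N K + lm N K → md s = md (m * lm N K) := by
    intro s a b
    have := R.blk (m * lm N K) (s - m * lm N K) (Dvd.intro_left _ rfl) (by omega)
    rw [show m * lm N K + (s - m * lm N K) = s by omega] at this
    exact this
  by_cases hw : (m + 1) * lm N K + 20 * dl N K ≤ t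
  · exact const (t - 20 * dl N K) (by omega) (by omega) (fun s a b => by
      rw [hb1 s (by omega) b.le, hb1 t (by omega) (le_refl _)])
  · by_cases hmm : md (m * lm N K) = md t
    · exact const (t - 20 * dl N K) (by omega) (by omega) (fun s a b => by
        rcases Nat.lt_or_ge s ((m + 1) * lm N K) with h5 | h5
        · rw [hb2 s (by omega) (by omega), hmm]
        · rw [hb1 s (by omega) b.le, hb1 t (by omega) (le_refl _)])
    · push Not at hw
      have hw' : (t : ℤ) < ((m + 1) * lm N K : ℕ) + 20 * dl N K := by exact_mod_cast hw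
      have h1' : (((m + 1) * lm N K : ℕ) : ℤ) ≤ t := by exact_mod_cast h1
      have h3' : (((m + 1) * lm N K : ℕ) : ℤ) = (m * lm N K : ℕ) + lm N K := by exact_mod_cast h3
      have hlip := WW_lip' e h1
      rw [abs_le] at hlip
      cases hm2 : md (m * lm N K)
      · have := R.mN O hT.le (u := m * lm N K) (v := (m + 1) * lm N K) (by omega) (by omega)
          (by omega) (fun s a b => by rw [hb2 s a (by omega), hm2])
        exact R.noCE O hT (s := m * lm N K) (by omega) (by omega)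
          (by linarith [this.1, hlip.2]) z hz
      · have := R.mE O hT.le (u := m * lm N K) (v := (m + 1) * lm N K) (by omega) (by omega)
          (by omega) (fun s a b => by rw [hb2 s a (by omega), hm2])
        exact R.noCN O hT (s := m * lm N K) (by omega) (by omega)
          (by linarith [this.1, hlip.1]) z' hz'

/-- the induction -/
theorem Run.ok (R : Run h N K k T c p e md L τ) : ∀ t ≤ T, Ok h N K k c p e t := by
  intro t
  induction t with
  | zero =>
    intro _
    refine ⟨fun s hs => absurd hs (Nat.not_lt_zero _), fun s hs => absurd hs (Nat.not_lt_zero _), ?_⟩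
    intro s hs
    have : s = 0 := by omega
    rw [this, WW_zero]; simp
  | succ t ih =>
    intro hT
    have O := ih (by omega)
    refine ⟨fun s hs => ?_, fun s hs => ?_, fun s hs => R.Dall O (by omega) s hs⟩
    · rcases Nat.eq_or_lt_of_le (Nat.le_of_lt_succ hs) with h | h
      · subst h; exact R.safe' O (by omega)
      · exact O.safe s h
    · rcases Nat.eq_or_lt_of_le (Nat.le_of_lt_succ hs) with h | h
      · subst h; exact R.pg O (by omega)
      · exact O.pg s h

theorem Run.main (R : Run h N K k T c p e md L τ) (t : ℕ) (ht : t ≤ T) : Tube (Fe N K) e t ∧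
    ∀ z, 2 ≤ ZN.L1 (tr h (fun s => c s z) e (p z) t) :=
  ⟨(R.ok t ht).tube, fun z => (R.ne0 (R.ok t ht) z).1⟩

end Pool.Agent.Helper5K9.ZN.Lo
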