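import Pool.Agent.Helper5K9.ZN.Stm

/-!
# Symmetry of the two coordinates
-/

set_option autoImplicit false

namespace Pool.Agent.Helper5K9.ZN

theorem zm_swap (c : Bool) (q : ℤ × ℤ) : zm (!c) q.swap = (zm c q).swap := by
  obtain ⟨x, y⟩ := q
  by_cases hx : x = 0 <;> by_cases hy : y = 0 <;> cases c <;> simp [zm, hx, hy]

theorem sm_swap (h : ℕ) (e : Bool) (q : ℤ × ℤ) : sm h (!e) q.swap = (sm h e q).swap := by
  obtain ⟨x, y⟩ := q
  cases e <;> simp [sm]

theorem sym : S_SYM := by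
  intro h c e p t
  induction t with
  | zero => rfl
  | succ t ih =>
    change sm h (!(e t)) (zm (!(c t)) (tr h (fun s => !(c s)) (fun s => !(e s)) p.swap t)) = _
    rw [ih, zm_swap, sm_swap]; rfl

theorem sgn_not (b : Bool) : sgn (!b) = - sgn b := by cases b <;> simp [sgn]

theorem WW_not (c : ℕ → Bool) (t : ℕ) : WW (fun s => !(c s)) t = - WW c t := by
  simp [WW, sgn_not]

theorem GC_not {K T : ℕ} {c : ℕ → Bool} (hc : GC K T c) : GC K T (fun s => !(c s)) := by
  intro s w hw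
  have := hc s w hw
  rw [WW_not, WW_not]
  have e : (-WW c (s + w) - -WW c s) ^ 2 = (WW c (s + w) - WW c s) ^ 2 := by ring
  rw [e]; exact this

theorem Tube_not {R t : ℕ} {e : ℕ → Bool} (he : Tube R e t) : Tube R (fun s => !(e s)) t := by
  intro s hs
  rw [WW_not, abs_neg]
  exact he s hs

theorem Box_swap {h : ℕ} {p : ℤ × ℤ} (hp : p ∈ Box h) : p.swap ∈ Box h := by
  simp only [Box, Finset.mem_product, Prod.fst_swap, Prod.snd_swap] at hp ⊢
  exact ⟨hp.2, hp.1⟩

theorem Absd_swap {h : ℕ} {q : ℤ × ℤ} (hq : Absd h q.swap) : Absd h q := by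
  obtain ⟨h1, h2, h3⟩ := hq
  refine ⟨h2, h1, ?_⟩
  simp only [L1, Prod.fst_swap, Prod.snd_swap] at h3 ⊢
  rw [add_comm]; exact h3

theorem ExStep_swap {h : ℕ} {c e : ℕ → Bool} {p : ℤ × ℤ} {s : ℕ}
    (hx : ExStep h (fun s => !(c s)) (fun s => !(e s)) p.swap s) : ExStep h c e p s := by
  unfold ExStep at hx ⊢
  rw [sym, sym] at hx
  have key : ∀ (q : ℤ × ℤ) (a b : ℤ), q.swap = (a, b) ↔ q = (b, a) := by
    intro q a b
    constructor
    · intro hq
      have := congrArg Prod.swap hq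
      simpa using this
    · intro hq; rw [hq]; rfl
  rw [key, key, key, key] at hx
  exact hx.symm

theorem ExStep_swap_iff {h : ℕ} {c e : ℕ → Bool} {p : ℤ × ℤ} {s : ℕ} :
    ExStep h (fun s => !(c s)) (fun s => !(e s)) p.swap s ↔ ExStep h c e p s := by
  refine ⟨ExStep_swap, fun hx => ?_⟩
  apply ExStep_swap
  simpa using hx

end Pool.Agent.Helper5K9.ZN
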