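import Pool.Agent.Helper5K9.ZN.Coin

/-!
# Simple random walk: the pointwise bound and the reflection principle
-/

set_option autoImplicit false

namespace Pool.Agent.Helper5K9.ZN

open Finset

/-- the number of paths with `m` steps from `0` to `j` -/
def BB : ℕ → ℤ → ℕ
  | 0, j => if j = 0 then 1 else 0
  | m + 1, j => BB m (j - 1) + BB m (j + 1)

theorem BB_zero (m : ℕ) : ∀ j : ℤ, (¬ ∃ r : ℕ, j = 2 * r - m) → BB m j = 0 := by
  induction m with
  | zero =>
    intro j hj
    rw [BB, if_neg]
    intro h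
    exact hj ⟨0, by simp [h]⟩
  | succ m ih =>
    intro j hj
    rw [BB, ih, ih]
    · rintro ⟨r, hr⟩
      exact hj ⟨r, by push_cast; omega⟩
    · rintro ⟨r, hr⟩
      exact hj ⟨r + 1, by push_cast; omega⟩

theorem BB_choose (m : ℕ) : ∀ r : ℕ, BB m (2 * r - m) = m.choose r := by
  induction m with
  | zero =>
    intro r
    cases r with
    | zero => simp [BB]
    | succ r =>
      rw [BB, if_neg (by push_cast; omega)]
      simp
  | succ m ih =>
    intro r
    rw [BB]
    have h2 : BB m (2 * (r : ℤ) - ((m + 1 : ℕ) : ℤ) + 1) = m.choose r := by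
      rw [← ih r]
      congr 1
      push_cast
      ring
    cases r with
    | zero =>
      rw [h2, BB_zero, Nat.choose_zero_right, Nat.choose_zero_right]
      rintro ⟨r, hr⟩
      push_cast at hr
      omega
    | succ r =>
      rw [h2, Nat.choose_succ_succ, ← ih r]
      congr 2
      push_cast
      ring

theorem BB_le (m : ℕ) (j : ℤ) : BB m j ≤ m.choose (m / 2) := by
  by_cases h : ∃ r : ℕ, j = 2 * r - m
  · obtain ⟨r, rfl⟩ := h
    rw [BB_choose]
    exact Nat.choose_le_middle r m
  · rw [BB_zero m j h]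
    exact Nat.zero_le _

theorem central_sq (n : ℕ) : n.centralBinom ^ 2 * (2 * n + 1) ≤ 16 ^ n := by
  induction n with
  | zero => simp
  | succ n ih =>
    have h1 := Nat.succ_mul_centralBinom_succ n
    have h2 : (n + 1) ^ 2 * ((n + 1).centralBinom ^ 2 * (2 * (n + 1) + 1)) ≤
        (n + 1) ^ 2 * 16 ^ (n + 1) := by
      calc (n + 1) ^ 2 * ((n + 1).centralBinom ^ 2 * (2 * (n + 1) + 1))
          = ((n + 1) * (n + 1).centralBinom) ^ 2 * (2 * n + 3) := by ring
        _ = (2 * (2 * n + 1) * n.centralBinom) ^ 2 * (2 * n + 3) := by rw [h1]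
        _ = (n.centralBinom ^ 2 * (2 * n + 1)) * (4 * (2 * n + 1) * (2 * n + 3)) := by ring
        _ ≤ 16 ^ n * (16 * (n + 1) ^ 2) := by
            apply Nat.mul_le_mul ih
            nlinarith
        _ = (n + 1) ^ 2 * 16 ^ (n + 1) := by ring
    exact Nat.le_of_mul_le_mul_left h2 (by positivity)

theorem middle_sq (m : ℕ) : (m.choose (m / 2)) ^ 2 * (m + 1) ≤ 4 ^ m := by
  rcases Nat.even_or_odd' m with ⟨n, rfl | rfl⟩
  · have h := central_sq n
    rw [Nat.centralBinom_eq_two_mul_choose] at h
    rw [Nat.mul_div_cancel_left n two_pos, pow_mul]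
    norm_num
    exact h
  · have h := central_sq (n + 1)
    have h0 : (n + 1).centralBinom = 2 * (2 * n + 1).choose n := by
      rw [Nat.centralBinom_eq_two_mul_choose, show 2 * (n + 1) = (2 * n + 1) + 1 by ring,
        Nat.choose_succ_succ, Nat.choose_symm_half]
      ring
    rw [h0] at h
    have h3 : (2 * n + 1) / 2 = n := by omega
    rw [h3]
    have h4 : 16 ^ (n + 1) = 4 * 4 ^ (2 * n + 1) := by
      rw [show (16 : ℕ) = 4 ^ 2 by norm_num, ← pow_mul]
      ring
    rw [h4] at h
    have h5 : 4 * ((2 * n + 1).choose n ^ 2 * (2 * n + 1 + 1)) ≤ 4 * 4 ^ (2 * n + 1) := by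
      refine le_trans ?_ h
      nlinarith [Nat.zero_le ((2 * n + 1).choose n ^ 2)]
    exact Nat.le_of_mul_le_mul_left h5 (by norm_num)

theorem BB_sqrt (m : ℕ) (j : ℤ) : (BB m j : ℝ) * Real.sqrt (m + 1) ≤ 2 ^ m := by
  have h1 : ((BB m j : ℝ) * Real.sqrt (m + 1)) ^ 2 ≤ (2 ^ m) ^ 2 := by
    rw [mul_pow, Real.sq_sqrt (by positivity)]
    have h2 : (BB m j) ^ 2 * (m + 1) ≤ 4 ^ m :=
      le_trans (Nat.mul_le_mul_right _ (Nat.pow_le_pow_left (BB_le m j) 2)) (middle_sq m)
    have h3 : ((BB m j : ℝ)) ^ 2 * (m + 1) ≤ 4 ^ m := by exact_mod_cast h2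
    refine le_trans h3 (le_of_eq ?_)
    rw [← pow_mul, mul_comm m 2, pow_mul]
    norm_num
  exact le_of_sq_le_sq h1 (by positivity)

theorem card_eq_sum {T : ℕ} (P : (Fin T → Bool) → Prop) [DecidablePred P] :
    ((univ.filter P).card : ℝ) = ∑ c, if P c then (1 : ℝ) else 0 := by
  rw [Finset.sum_boole]

open Classical in
/-- the distribution of the sum over a window -/
theorem card_window (T s : ℕ) : ∀ m, s + m ≤ T → ∀ j : ℤ,
    ((univ.filter fun c : Fin T → Bool => WW (ext c) (s + m) - WW (ext c) s = j).card : ℝ) *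
      2 ^ m = BB m j * 2 ^ T := by
  intro m
  induction m with
  | zero =>
    intro _ j
    rw [card_eq_sum]
    simp only [add_zero, sub_self, pow_zero, mul_one, BB]
    by_cases h : j = 0
    · subst h
      simp only [if_true, Nat.cast_one, one_mul]
      exact sum_one T
    · have h' : ¬ (0 : ℤ) = j := fun hh => h hh.symm
      simp [h, h']
  | succ m ih =>
    intro hm j
    have h1 := sum_next (⟨s + m, hm⟩ : Fin T)
      (fun c i => if WW (ext c) (s + m) - WW (ext c) s + i = j then (1 : ℝ) else 0)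
      (fun c i => by rw [WW_flp _ _ le_rfl, WW_flp _ _ (Nat.le_add_right s m)])
    have h2 : ∀ c : Fin T → Bool, (if WW (ext c) (s + m) - WW (ext c) s + 1 = j then (1 : ℝ)
        else 0) = if WW (ext c) (s + m) - WW (ext c) s = j - 1 then (1 : ℝ) else 0 := by
      intro c
      congr 1
      rw [eq_iff_iff]
      omega
    have h3 : ∀ c : Fin T → Bool, (if WW (ext c) (s + m) - WW (ext c) s + -1 = j then (1 : ℝ)
        else 0) = if WW (ext c) (s + m) - WW (ext c) s = j + 1 then (1 : ℝ) else 0 := by
      intro c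
      congr 1
      rw [eq_iff_iff]
      omega
    have h4 : ∀ c : Fin T → Bool, (if WW (ext c) (s + m) - WW (ext c) s + sgn (ext c (s + m)) = j
        then (1 : ℝ) else 0) =
        if WW (ext c) (s + (m + 1)) - WW (ext c) s = j then (1 : ℝ) else 0 := by
      intro c
      congr 1
      rw [eq_iff_iff, ← Nat.add_assoc, WW_succ]
      omega
    simp only [h2, h3, h4] at h1
    rw [Finset.sum_add_distrib, ← card_eq_sum, ← card_eq_sum, ← card_eq_sum] at h1
    have h5 := ih (by omega) (j - 1)
    have h6 := ih (by omega) (j + 1)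
    rw [BB]
    push_cast
    rw [add_mul, ← h5, ← h6, pow_succ]
    linear_combination (2 ^ m : ℝ) * h1

open Classical in
theorem card_window_le (T s m : ℕ) (h : s + m ≤ T) (j : ℤ) :
    ((univ.filter fun c : Fin T → Bool => WW (ext c) (s + m) - WW (ext c) s = j).card : ℝ) *
      Real.sqrt (m + 1) ≤ 2 ^ T := by
  have h1 := card_window T s m h j
  have h2 := BB_sqrt m j
  have h3 : (((univ.filter fun c : Fin T → Bool =>
      WW (ext c) (s + m) - WW (ext c) s = j).card : ℝ) * Real.sqrt (m + 1)) * 2 ^ m ≤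
      2 ^ T * 2 ^ m := by
    calc _ = (((univ.filter fun c : Fin T → Bool =>
          WW (ext c) (s + m) - WW (ext c) s = j).card : ℝ) * 2 ^ m) * Real.sqrt (m + 1) := by ring
      _ = (BB m j * Real.sqrt (m + 1)) * 2 ^ T := by rw [h1]; ring
      _ ≤ 2 ^ m * 2 ^ T := by
          apply mul_le_mul_of_nonneg_right h2
          positivity
      _ = 2 ^ T * 2 ^ m := by ring
  exact le_of_mul_le_mul_right h3 (by positivity)

open Classical in
/-- the probability that the sum over a window lies in an interval -/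
theorem card_window_Icc (T s m : ℕ) (h : s + m ≤ T) (a b : ℤ) (hab : a ≤ b + 1) :
    ((univ.filter fun c : Fin T → Bool => a ≤ WW (ext c) (s + m) - WW (ext c) s ∧
      WW (ext c) (s + m) - WW (ext c) s ≤ b).card : ℝ) * Real.sqrt (m + 1) ≤
      (b + 1 - a) * 2 ^ T := by
  have h1 : (univ.filter fun c : Fin T → Bool => a ≤ WW (ext c) (s + m) - WW (ext c) s ∧
      WW (ext c) (s + m) - WW (ext c) s ≤ b) ⊆ (Finset.Icc a b).biUnion fun j =>
        univ.filter fun c : Fin T → Bool => WW (ext c) (s + m) - WW (ext c) s = j := by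
    intro c hc
    rw [Finset.mem_filter] at hc
    rw [Finset.mem_biUnion]
    exact ⟨_, Finset.mem_Icc.2 hc.2, Finset.mem_filter.2 ⟨Finset.mem_univ _, rfl⟩⟩
  have h2 := (Finset.card_le_card h1).trans Finset.card_biUnion_le
  have h3 : ((univ.filter fun c : Fin T → Bool => a ≤ WW (ext c) (s + m) - WW (ext c) s ∧
      WW (ext c) (s + m) - WW (ext c) s ≤ b).card : ℝ) ≤ ∑ j ∈ Finset.Icc a b,
        ((univ.filter fun c : Fin T → Bool =>
          WW (ext c) (s + m) - WW (ext c) s = j).card : ℝ) := by exact_mod_cast h2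
  calc _ ≤ (∑ j ∈ Finset.Icc a b, ((univ.filter fun c : Fin T → Bool =>
          WW (ext c) (s + m) - WW (ext c) s = j).card : ℝ)) * Real.sqrt (m + 1) :=
        mul_le_mul_of_nonneg_right h3 (Real.sqrt_nonneg _)
    _ = ∑ j ∈ Finset.Icc a b, ((univ.filter fun c : Fin T → Bool =>
          WW (ext c) (s + m) - WW (ext c) s = j).card : ℝ) * Real.sqrt (m + 1) := by
        rw [Finset.sum_mul]
    _ ≤ ∑ j ∈ Finset.Icc a b, (2 : ℝ) ^ T :=
        Finset.sum_le_sum fun j _ => card_window_le T s m h j
    _ = (b + 1 - a) * 2 ^ T := by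
        rw [Finset.sum_const, nsmul_eq_mul, Int.card_Icc]
        congr 1
        have : ((b + 1 - a).toNat : ℤ) = b + 1 - a := Int.toNat_of_nonneg (by omega)
        exact_mod_cast this

open Classical in
/-- the reflection principle -/
theorem card_reflect (T s : ℕ) : ∀ m, s + m ≤ T → ∀ A : ℤ, -1 ≤ A →
    ((univ.filter fun c : Fin T → Bool => ∀ s' : ℕ, s ≤ s' → s' ≤ s + m →
      WW (ext c) (s + m) - WW (ext c) s' ≤ A).card : ℝ) =
    ((univ.filter fun c : Fin T → Bool => -A - 1 ≤ WW (ext c) (s + m) - WW (ext c) s ∧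
      WW (ext c) (s + m) - WW (ext c) s ≤ A).card : ℝ) := by
  intro m
  induction m with
  | zero =>
    intro _ A hA
    congr 2
    ext c
    simp only [Finset.mem_filter, Finset.mem_univ, true_and, add_zero, sub_self]
    constructor
    · intro h
      have := h s le_rfl le_rfl
      rw [sub_self] at this
      exact ⟨by omega, this⟩
    · rintro ⟨_, h⟩ s' hs hs'
      have : s' = s := by omega
      subst this
      rw [sub_self]
      exact h
  | succ m ih =>
    intro hm A hA
    rcases eq_or_lt_of_le hA with hA' | hA'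
    · subst hA'
      have e1 : (univ.filter fun c : Fin T → Bool => ∀ s' : ℕ, s ≤ s' → s' ≤ s + (m + 1) →
          WW (ext c) (s + (m + 1)) - WW (ext c) s' ≤ -1) = ∅ := by
        rw [Finset.filter_eq_empty_iff]
        intro c _ h
        have := h (s + (m + 1)) (by omega) le_rfl
        rw [sub_self] at this
        omega
      have e2 : (univ.filter fun c : Fin T → Bool =>
          -(-1) - 1 ≤ WW (ext c) (s + (m + 1)) - WW (ext c) s ∧
          WW (ext c) (s + (m + 1)) - WW (ext c) s ≤ -1) = ∅ := by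
        rw [Finset.filter_eq_empty_iff]
        intro c _ h
        omega
      rw [e1, e2]
    · have hA0 : 0 ≤ A := by omega
      have h1 := sum_next (⟨s + m, hm⟩ : Fin T)
        (fun c i => if ∀ s' : ℕ, s ≤ s' → s' ≤ s + m →
          WW (ext c) (s + m) - WW (ext c) s' ≤ A - i then (1 : ℝ) else 0)
        (fun c i => by
          congr 1
          rw [eq_iff_iff]
          constructor
          · intro h s' hs hs'
            have := h s' hs hs'
            rwa [WW_flp _ _ le_rfl, WW_flp _ _ hs'] at this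
          · intro h s' hs hs'
            rw [WW_flp _ _ le_rfl, WW_flp _ _ hs']
            exact h s' hs hs')
      have h2 := sum_next (⟨s + m, hm⟩ : Fin T)
        (fun c i => if -A - 1 ≤ WW (ext c) (s + m) - WW (ext c) s + i ∧
          WW (ext c) (s + m) - WW (ext c) s + i ≤ A then (1 : ℝ) else 0)
        (fun c i => by rw [WW_flp _ _ le_rfl, WW_flp _ _ (Nat.le_add_right s m)])
      have e1 : ∀ c : Fin T → Bool, (if ∀ s' : ℕ, s ≤ s' → s' ≤ s + m →
          WW (ext c) (s + m) - WW (ext c) s' ≤ A - sgn (ext c (s + m)) then (1 : ℝ) else 0) =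
          if ∀ s' : ℕ, s ≤ s' → s' ≤ s + (m + 1) →
            WW (ext c) (s + (m + 1)) - WW (ext c) s' ≤ A then (1 : ℝ) else 0 := by
        intro c
        congr 1
        rw [eq_iff_iff, ← Nat.add_assoc, WW_succ]
        constructor
        · intro h s' hs hs'
          rcases Nat.lt_or_ge (s + m) s' with h3 | h3
          · have : s' = s + m + 1 := by omega
            subst this
            rw [WW_succ, sub_self]
            exact hA0
          · have := h s' hs h3
            omega
        · intro h s' hs hs'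
          have := h s' hs (by omega)
          omega
      have e2 : ∀ c : Fin T → Bool, (if -A - 1 ≤ WW (ext c) (s + m) - WW (ext c) s +
          sgn (ext c (s + m)) ∧ WW (ext c) (s + m) - WW (ext c) s + sgn (ext c (s + m)) ≤ A
          then (1 : ℝ) else 0) =
          if -A - 1 ≤ WW (ext c) (s + (m + 1)) - WW (ext c) s ∧
            WW (ext c) (s + (m + 1)) - WW (ext c) s ≤ A then (1 : ℝ) else 0 := by
        intro c
        congr 1
        rw [eq_iff_iff, ← Nat.add_assoc, WW_succ]
        constructor <;> rintro ⟨h, h'⟩ <;> constructor <;> omega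
      dsimp only at h1 h2
      simp only [e1] at h1
      simp only [e2] at h2
      rw [Finset.sum_add_distrib, ← card_eq_sum, ← card_eq_sum, ← card_eq_sum] at h1
      rw [ih (by omega) (A - 1) (by omega), ih (by omega) (A - -1) (by omega)] at h1
      simp only [card_eq_sum] at h1
      rw [← Finset.sum_add_distrib] at h1
      rw [card_eq_sum, card_eq_sum]
      have h3 : ∑ c : Fin T → Bool, ((if -(A - 1) - 1 ≤ WW (ext c) (s + m) - WW (ext c) s ∧
            WW (ext c) (s + m) - WW (ext c) s ≤ A - 1 then (1 : ℝ) else 0) +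
          if -(A - -1) - 1 ≤ WW (ext c) (s + m) - WW (ext c) s ∧
            WW (ext c) (s + m) - WW (ext c) s ≤ A - -1 then (1 : ℝ) else 0) =
          ∑ c : Fin T → Bool, ((if -A - 1 ≤ WW (ext c) (s + m) - WW (ext c) s + 1 ∧
            WW (ext c) (s + m) - WW (ext c) s + 1 ≤ A then (1 : ℝ) else 0) +
          if -A - 1 ≤ WW (ext c) (s + m) - WW (ext c) s + -1 ∧
            WW (ext c) (s + m) - WW (ext c) s + -1 ≤ A then (1 : ℝ) else 0) := by
        refine Finset.sum_congr rfl fun c _ => ?_
        generalize WW (ext c) (s + m) - WW (ext c) s = D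
        split_ifs <;> first | omega | norm_num
      rw [h3, ← h2] at h1
      linarith

theorem w1 : S_W1 := by
  refine ⟨2, two_pos, ?_⟩
  intro T s t A hst htT
  obtain ⟨m, rfl⟩ := Nat.exists_eq_add_of_le hst
  rw [card_reflect T s m htT A (by omega)]
  have h1 := card_window_Icc T s m htT (-(A : ℤ) - 1) A (by omega)
  have h2 : ((s + m : ℕ) : ℝ) - s + 1 = m + 1 := by push_cast; ring
  rw [h2]
  refine le_trans h1 (le_of_eq ?_)
  push_cast
  ring

theorem w2 : S_W2 := by
  refine ⟨2, two_pos, ?_⟩
  intro T s t A hst htT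
  obtain ⟨m, rfl⟩ := Nat.exists_eq_add_of_le hst
  have h1 := card_window_Icc T s m htT (-(A : ℤ)) A (by omega)
  have h2 : ((s + m : ℕ) : ℝ) - s + 1 = m + 1 := by push_cast; ring
  rw [h2]
  simp only [abs_le]
  refine le_trans h1 ?_
  push_cast
  have h3 : (0 : ℝ) ≤ 2 ^ T := by positivity
  nlinarith

end Pool.Agent.Helper5K9.ZN
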